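import Mathlib
import Pool.Agent.Lib.MP_d14a53_gt_PW.Defs

/-!
# MP_d14a53_gt (Putman-Wieland), project FT: definitions

`GoodF c N U ρ F` : cocycles whose restriction to `N` has a finite orbit (the set of all
restrictions of `F ∘ φ` to `N`, `φ` trivial modulo `N`, is finite).

Torus part: `Lab H` (a group with two elements and the two shears), the operation `op` of the
shears on functions on `[0,1)² × H`.

Origami part: `Lb G I` (labels of a square tiled surface with values in `G`), the right action of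
the free group on `G × I`, the labels of the surface group.
-/

set_option autoImplicit false

noncomputable section

namespace Pool.Agent.MP_d14a53_gt_FT

open Pool.Agent.MP_d14a53_gt_PW

/-! ## Cocycles -/

/-- A cocycle `F : π → U ⊆ V`, the normal subgroup `N` of finite index acts trivially on `U`. -/
structure Coc {π : Type*} [Group π] {V : Type*} [NormedAddCommGroup V]
    [InnerProductSpace ℝ V] (N : Subgroup π) (U : Submodule ℝ V)
    (ρ : π →* (V ≃ₗᵢ[ℝ] V)) (F : π → V) : Prop where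
  normal : N.Normal
  fin : N.FiniteIndex
  triv : ∀ n ∈ N, ∀ v ∈ U, ρ n v = v
  stab : ∀ x, ∀ v ∈ U, ρ x v ∈ U
  val : ∀ x, F x ∈ U
  coc : ∀ x y, F (x * y) = F x + ρ x (F y)

/-- A cocycle which kills powers of peripheral elements in `N` and has a finite orbit on `N`. -/
structure GoodF {π : Type*} [Group π] {p : ℕ} {V : Type*} [NormedAddCommGroup V]
    [InnerProductSpace ℝ V] (c : Fin p → π) (N : Subgroup π) (U : Submodule ℝ V)
    (ρ : π →* (V ≃ₗᵢ[ℝ] V)) (F : π → V) : Prop extends Coc N U ρ F where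
  per : ∀ j, ∀ m : ℕ, c j ^ m ∈ N → F (c j ^ m) = 0
  orb : {G : N → V | ∃ φ : π ≃* π, Punc c φ ∧ (∀ x, x⁻¹ * φ x ∈ N) ∧
    ∀ n : N, G n = F (φ (n : π))}.Finite

/-- `π₁` of the surface cut along `b 0` -/
def Cut {π : Type*} [Group π] {g p : ℕ} (a b : Fin g → π) (c : Fin p → π) (i0 : Fin g) :
    Subgroup π :=
  Subgroup.closure ({b i0, a i0 * b i0 * (a i0)⁻¹} ∪ (Rest a b c 1 : Set π))

/-- `π₁` of the surface cut along `b 0, …, b (k-1)` -/
def CutK {π : Type*} [Group π] {g p : ℕ} (a b : Fin g → π) (c : Fin p → π) (k : ℕ) :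
    Subgroup π :=
  Subgroup.closure ({x | ∃ i : Fin g, (i : ℕ) < k ∧ (x = b i ∨ x = a i * b i * (a i)⁻¹)} ∪
    {x | ∃ i : Fin g, k ≤ (i : ℕ) ∧ (x = a i ∨ x = b i)} ∪ Set.range c)

/-- the surface `π'` obtained by cutting `π` along `b 0` -/
structure IsCut {π π' : Type*} [Group π] [Group π'] {g p : ℕ} (a b : Fin (g + 1) → π)
    (c : Fin p → π) (a' b' : Fin g → π') (c' : Fin (p + 2) → π') (ι : π' →* π) : Prop where
  surf : IsSurf a b c
  surf' : IsSurf a' b' c'
  ha : ∀ i, ι (a' i) = a i.succ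
  hb : ∀ i, ι (b' i) = b i.succ
  hc : ∀ j : Fin p, ι (c' (Fin.castAdd 2 j)) = c j
  hd : ι (c' (Fin.natAdd p 0)) = a 0 * b 0 * (a 0)⁻¹
  he : ι (c' (Fin.natAdd p 1)) = (b 0)⁻¹

/-! ## Torus part -/

/-- the free group on `x`, `y` -/
abbrev Fr : Type := FreeGroup Bool

/-- the generator `x` -/
def fx : Fr := FreeGroup.of false

/-- the generator `y` -/
def fy : Fr := FreeGroup.of true

/-- the boundary of the one-holed torus -/
def kap : Fr := fx * fy * fx⁻¹ * fy⁻¹

/-- a group with two elements and the two shears -/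
structure Lab (H : Type*) [Group H] where
  x : H
  y : H
  α : H ≃* H
  β : H ≃* H
  αx : α x = x * y⁻¹
  αy : α y = y
  βx : β x = x
  βy : β y = y * x⁻¹

/-- the elementary moves -/
inductive Mv : Type
  | a : Mv
  | a' : Mv
  | b : Mv
  | b' : Mv

/-- the inverse move -/
def Mv.inv : Mv → Mv
  | .a => .a'
  | .a' => .a
  | .b => .b'
  | .b' => .b

/-- the inverse word -/
def invW (W : List Mv) : List Mv := (W.map Mv.inv).reverse

/-- the action on the slope -/
def cv : Mv → ℝ × ℝ → ℝ × ℝ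
  | .a, c => (c.1, c.2 - c.1)
  | .a', c => (c.1, c.1 + c.2)
  | .b, c => (c.1 - c.2, c.2)
  | .b', c => (c.1 + c.2, c.2)

/-- the action of a word on the slope -/
def cvW (c : ℝ × ℝ) (W : List Mv) : ℝ × ℝ := W.foldl (fun c s => cv s c) c

variable {H : Type*} [Group H]

/-- the automorphism of a move -/
def Lab.th (L : Lab H) : Mv → (H ≃* H)
  | .a => L.α
  | .a' => L.α.symm
  | .b => L.β
  | .b' => L.β.symm

/-- the automorphism of a word; `thW (s :: W) h = th s (thW W h)` -/
def Lab.thW (L : Lab H) (W : List Mv) : H ≃* H := (W.map L.th).prod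

/-- the operation of a move on functions on `[0,1]² × H` -/
def Lab.op (L : Lab H) (s : Mv) (m : ℝ × ℝ → H → ℝ) (p : ℝ × ℝ) (h : H) : ℝ :=
  match s with
  | .a => if p.2 ≤ p.1 then m (p.1 - p.2, p.2) (L.α h * L.y)
      else m (1 + p.1 - p.2, p.2) (L.α h)
  | .a' => if p.1 + p.2 < 1 then m (p.1 + p.2, p.2) (L.α.symm h * L.y⁻¹)
      else m (p.1 + p.2 - 1, p.2) (L.α.symm h)
  | .b => if p.1 ≤ p.2 then m (p.1, p.2 - p.1) (L.β h * L.x)
      else m (p.1, 1 + p.2 - p.1) (L.β h)
  | .b' => if p.1 + p.2 < 1 then m (p.1, p.1 + p.2) (L.β.symm h * L.x⁻¹)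
      else m (p.1, p.1 + p.2 - 1) (L.β.symm h)

/-- the operation of a word: first letter first -/
def Lab.opW (L : Lab H) (W : List Mv) (m : ℝ × ℝ → H → ℝ) : ℝ × ℝ → H → ℝ :=
  W.foldl (fun m s => L.op s m) m

/-- the values fit together along the sides of the closed tiles -/
def Gl (L : Lab H) (m : ℝ × ℝ → H → ℝ) : Prop :=
  ∀ t ∈ Set.Icc (0 : ℝ) 1, ∀ h, m (1, t) h = m (0, t) (h * L.y) ∧
    m (t, 1) h = m (t, 0) (h * L.x)

/-- bounded and measurable -/
structure Bm (n : ℝ × ℝ → H → ℝ) : Prop where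
  meas : ∀ q, Measurable (fun p => n p q)
  bdd : ∃ C, ∀ p q, |n p q| ≤ C

/-- the half open tile -/
def Sq : Set (ℝ × ℝ) := Set.Ico (0 : ℝ) 1 ×ˢ Set.Ico (0 : ℝ) 1

/-- the closed tile -/
def Cq : Set (ℝ × ℝ) := Set.Icc (0 : ℝ) 1 ×ˢ Set.Icc (0 : ℝ) 1

/-- the integral over all tiles -/
def JJ [Fintype H] (n : ℝ × ℝ → H → ℝ) : ℝ := ∑ q, ∫ p in Sq, n p q

/-- product -/
def pr (n m : ℝ × ℝ → H → ℝ) : ℝ × ℝ → H → ℝ := fun p q => n p q * m p q

/-- `m` is a primitive of `n (c₁ dp₁ + c₂ dp₂)` on the closed tile -/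
def Dq (m n : ℝ × ℝ → ℝ) (c : ℝ × ℝ) : Prop :=
  ∀ (p v : ℝ × ℝ) (s t : ℝ), s ≤ t → (∀ r ∈ Set.Icc s t, p + r • v ∈ Cq) →
    m (p + t • v) - m (p + s • v) =
      (c.1 * v.1 + c.2 * v.2) * ∫ r in s..t, n (p + r • v)

/-- the same on every tile -/
def Dp {G Q : Type*} [Group G] [Group Q] (g : G →* Q) (m : ℝ × ℝ → G → ℝ) (n : ℝ × ℝ → Q → ℝ)
    (c : ℝ × ℝ) : Prop :=
  ∀ h : G, Dq (fun p => m p h) (fun p => n p (g h)) c

/-- the shear `α` of the free group: `x ↦ x y⁻¹`, `y ↦ y` -/
def frα : Fr ≃* Fr :=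
  MonoidHom.toMulEquiv
    (FreeGroup.lift (fun t : Bool => if t then fy else fx * fy⁻¹))
    (FreeGroup.lift (fun t : Bool => if t then fy else fx * fy))
    (by ext t; cases t <;> simp [fx, fy])
    (by ext t; cases t <;> simp [fx, fy])

/-- the shear `β` of the free group: `x ↦ x`, `y ↦ y x⁻¹` -/
def frβ : Fr ≃* Fr :=
  MonoidHom.toMulEquiv
    (FreeGroup.lift (fun t : Bool => if t then fy * fx⁻¹ else fx))
    (FreeGroup.lift (fun t : Bool => if t then fy * fx else fx))
    (by ext t; cases t <;> simp [fx, fy])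
    (by ext t; cases t <;> simp [fx, fy])

/-- the free group with its two shears -/
def LF : Lab Fr where
  x := fx
  y := fy
  α := frα
  β := frβ
  αx := by simp [frα, fx]
  αy := by simp [frα, fy]
  βx := by simp [frβ, fx]
  βy := by simp [frβ, fy]

/-- a homomorphism compatible with the shears -/
structure Cmp {G Q : Type*} [Group G] [Group Q] (L : Lab G) (L' : Lab Q) (g : G →* Q) : Prop where
  x : g L.x = L'.x
  y : g L.y = L'.y
  α : ∀ h, g (L.α h) = L'.α (g h)
  β : ∀ h, g (L.β h) = L'.β (g h)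

/-- equal on the half open tiles -/
def EqS (m m' : ℝ × ℝ → H → ℝ) : Prop := ∀ p ∈ Sq, ∀ h, m p h = m' p h

/-- the data of the torus theorem -/
structure Tor (Q : Type) [Group Q] where
  L : Lab Q
  g : Fr →* Q
  sur : Function.Surjective g
  cmp : Cmp LF L g
  f : Fr → ℝ
  v : Fr → ℝ
  fk : ∀ k ∈ g.ker, ∀ h, f (k * h) = f h + v k
  fy' : ∀ h, f (h * fy) = f h
  fxyx : ∀ h, f (h * (fx⁻¹ * fy * fx)) = f h
  fin : {w : g.ker → ℝ | ∃ W : List Mv, ∀ k : g.ker, w k = v (LF.thW W (k : Fr))}.Finite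

namespace Tor

variable {Q : Type} [Group Q] (D : Tor Q)

/-- the vertical increment -/
def N (q : Q) : ℝ :=
  D.f (Function.surjInv D.sur q * fx) - D.f (Function.surjInv D.sur q)

/-- the increment as a function on the tiles -/
def n0 : ℝ × ℝ → Q → ℝ := fun _ q => D.N q

/-- the affine extension of `f` -/
def E0 : ℝ × ℝ → Fr → ℝ := fun p h => D.f h + D.N (D.g h) * p.2

/-- `E0` transported by a word -/
def mW (W : List Mv) : ℝ × ℝ → Fr → ℝ := LF.opW W D.E0

/-- `n0` transported by a word -/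
def nW (W : List Mv) : ℝ × ℝ → Q → ℝ := D.L.opW W D.n0

/-- words acting trivially on `Q` and on `v` -/
def Gd (W : List Mv) : Prop :=
  (∀ q, D.L.thW W q = q) ∧ ∀ k ∈ D.g.ker, D.v (LF.thW W k) = D.v k

end Tor

/-- the four integrals from a point to the sides of its tile -/
def lin {Q : Type*} (i : Fin 4) (n : ℝ × ℝ → Q → ℝ) (q : Q) (p : ℝ × ℝ) : ℝ :=
  match i with
  | 0 => ∫ r in (0 : ℝ)..p.1, n (r, p.2) q
  | 1 => ∫ r in p.1..(1 : ℝ), n (r, p.2) q
  | 2 => ∫ r in (0 : ℝ)..p.2, n (p.1, r) q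
  | 3 => ∫ r in p.2..(1 : ℝ), n (p.1, r) q

/-- the four functionals -/
def ell {Q : Type*} (i : Fin 4) (n : ℝ × ℝ → Q → ℝ) (q : Q) : ℝ := ∫ p in Sq, lin i n q p

/-- the slope component used by the functional `i` -/
def sl (c : ℝ × ℝ) (i : Fin 4) : ℝ :=
  match i with
  | 0 => c.1
  | 1 => c.1
  | 2 => c.2
  | 3 => c.2

/-! ## Origami part -/

/-- labels of a square tiled surface with index set `I` and values in `G` -/
structure Lb (G : Type*) (I : Type*) where
  X : I → G
  Y : I → G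
  τ : Equiv.Perm I
  η : Equiv.Perm I

section Lb

variable {G I : Type*} [Group G]

/-- right multiplication with a label -/
def shift (X : I → G) (τ : Equiv.Perm I) : Equiv.Perm (G × I) where
  toFun z := (z.1 * X z.2, τ z.2)
  invFun z := (z.1 * (X (τ.symm z.2))⁻¹, τ.symm z.2)
  left_inv z := by simp
  right_inv z := by simp

/-- the right action of the free group on `G × I` -/
def Lb.act (l : Lb G I) : Fr →* (Equiv.Perm (G × I))ᵐᵒᵖ :=
  FreeGroup.lift (fun t : Bool =>
    MulOpposite.op (if t then shift l.Y l.η else shift l.X l.τ))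

/-- `z · w` -/
def Lb.mv (l : Lb G I) (z : G × I) (w : Fr) : G × I := (l.act w).unop z

/-- the label of the path `w` starting at the tile `i` -/
def Lb.lam (l : Lb G I) (i : I) (w : Fr) : G := (l.mv (1, i) w).1

/-- the end of the path `w` starting at the tile `i` -/
def Lb.ix (l : Lb G I) (i : I) (w : Fr) : I := (l.mv (1, i) w).2

/-- labels with values in another group -/
def Lb.map {G' : Type*} [Group G'] (l : Lb G I) (φ : G →* G') : Lb G' I :=
  ⟨fun i => φ (l.X i), fun i => φ (l.Y i), l.τ, l.η⟩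

/-- gauge transformation -/
def Lb.gauge (l : Lb G I) (γ : I → G) : Lb G I :=
  ⟨fun i => γ i * l.X i * (γ (l.τ i))⁻¹, fun i => γ i * l.Y i * (γ (l.η i))⁻¹, l.τ, l.η⟩

/-- the labels twisted by an automorphism of the free group -/
def Lb.tw (l : Lb G I) (θ : Fr ≃* Fr) : Lb G I :=
  ⟨fun i => l.lam i (θ fx), fun i => l.lam i (θ fy), l.τ, l.η⟩

end Lb

/-- the index set -/
abbrev Ix (m p : ℕ) : Type := Fin (m + p) × Fin 3

section Blocks

variable {m p : ℕ} [NeZero (m + p)]

/-- the horizontal permutation, one cylinder -/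
def eta : Equiv.Perm (Ix m p) where
  toFun z := match z with
    | (k, 0) => (k, 1)
    | (k, 1) => (k, 2)
    | (k, 2) => (k + 1, 0)
  invFun z := match z with
    | (k, 0) => (k - 1, 2)
    | (k, 1) => (k, 0)
    | (k, 2) => (k, 1)
  left_inv z := by
    obtain ⟨k, j⟩ := z
    fin_cases j <;> simp
  right_inv z := by
    obtain ⟨k, j⟩ := z
    fin_cases j <;> simp

omit [NeZero (m + p)] in
theorem tau_inv (z : Ix m p) :
    (fun z : Ix m p => if (z.1 : ℕ) < m then (z.1, z.2.rev) else z)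
      ((fun z : Ix m p => if (z.1 : ℕ) < m then (z.1, z.2.rev) else z) z) = z := by
  by_cases h : (z.1 : ℕ) < m
  · simp [h]
  · simp [h]

/-- the vertical permutation: reversal in the first `m` blocks -/
def tau : Equiv.Perm (Ix m p) :=
  ⟨fun z => if (z.1 : ℕ) < m then (z.1, z.2.rev) else z,
    fun z => if (z.1 : ℕ) < m then (z.1, z.2.rev) else z, tau_inv, tau_inv⟩

variable {G : Type*} [Group G]

/-- the label at the end of the cylinder -/
def bb (b : G) (k : Fin (m + p)) : G := if k + 1 = 0 then b else 1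

/-- labels in normal form -/
def lbl (X : Ix m p → G) (b : G) : Lb G (Ix m p) :=
  ⟨X, fun z => if z.2 = 2 then bb b z.1 else 1, tau, eta⟩

/-- right boundary of the left part of a vertex -/
def Rr (X : Ix m p → G) (k : Fin (m + p)) : G :=
  if (k : ℕ) < m then X (k, 2) * (X (k, 1))⁻¹ * X (k, 0) else X (k, 2)

/-- the other one -/
def Tt (X : Ix m p → G) (k : Fin (m + p)) : G :=
  if (k : ℕ) < m then X (k, 0) * (X (k, 1))⁻¹ * X (k, 2) else X (k, 0)

/-- the label of the vertex between the blocks `k` and `k + 1` -/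
def vert (X : Ix m p → G) (b : G) (k : Fin (m + p)) : G :=
  Rr X k * bb b k * (Tt X (k + 1))⁻¹ * (bb b k)⁻¹

/-- the number of tiles at this vertex -/
def rk (k : Fin (m + p)) : ℕ :=
  (if (k : ℕ) < m then 1 else 0) + 1 + (if ((k + 1 : Fin (m + p)) : ℕ) < m then 1 else 0)

/-- all vertices except the `p` vertices after the blocks `k ≥ m` are filled -/
structure Filled (X : Ix m p → G) (b : G) : Prop where
  pun : ∀ k : Fin (m + p), m ≤ (k : ℕ) → X (k, 0) = X (k, 1) ∧ X (k, 1) = X (k, 2)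
  ver : ∀ k : Fin (m + p), (k : ℕ) < m → vert X b k = 1

/-- generators of the surface group from labels -/
def ga (X : Ix m p → G) (b : G) : Fin (m + 1) → G :=
  Fin.cases (b * Tt X 0 * b⁻¹) (fun k => X (Fin.castAdd p k, 0) * (X (Fin.castAdd p k, 1))⁻¹)

/-- generators of the surface group from labels -/
def gb (X : Ix m p → G) (b : G) : Fin (m + 1) → G :=
  Fin.cases b⁻¹ (fun k => X (Fin.castAdd p k, 2) * (X (Fin.castAdd p k, 1))⁻¹)

/-- generators of the surface group from labels -/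
def gc (X : Ix m p → G) (b : G) (j : Fin p) : G := vert X b (Fin.natAdd m j)

/-- the boundary between the blocks in terms of the generators -/
def sT (a b : Fin (m + 1) → G) (c : Fin p → G) (k : ℕ) : G :=
  ((HP a b 1)⁻¹ * HP a b (k + 1) * CP c (k - m))⁻¹ * (b 0 * a 0 * (b 0)⁻¹)

/-- the labels in terms of the generators -/
def stX (a b : Fin (m + 1) → G) (c : Fin p → G) (z : Ix m p) : G :=
  if h : (z.1 : ℕ) < m then
    (match z.2 with
    | 0 => a ⟨z.1 + 1, by omega⟩ * (b ⟨z.1 + 1, by omega⟩)⁻¹ * (a ⟨z.1 + 1, by omega⟩)⁻¹ *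
        sT a b c z.1
    | 1 => (a ⟨z.1 + 1, by omega⟩ * b ⟨z.1 + 1, by omega⟩)⁻¹ * sT a b c z.1
    | 2 => (a ⟨z.1 + 1, by omega⟩)⁻¹ * sT a b c z.1)
  else sT a b c z.1

/-- the standard labels of the surface group -/
def stL (a b : Fin (m + 1) → G) (c : Fin p → G) : Lb G (Ix m p) := lbl (stX a b c) (b 0)⁻¹

end Blocks

section Twist

variable {m p : ℕ} [NeZero (m + p)] {G : Type*} [Group G]

/-- the gauge: transport along the core of the cylinder -/
def gam (l : Lb G (Ix m p)) (θ : Fr ≃* Fr) (z : Ix m p) : G :=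
  l.lam (0, 0) (θ (fy ^ (3 * (z.1 : ℕ) + (z.2 : ℕ))))

/-- the new labels -/
def Xth (l : Lb G (Ix m p)) (θ : Fr ≃* Fr) (z : Ix m p) : G :=
  gam l θ z * l.lam z (θ fx) * (gam l θ (tau z))⁻¹

/-- the new core -/
def bth (l : Lb G (Ix m p)) (θ : Fr ≃* Fr) : G := l.lam (0, 0) (θ (fy ^ (3 * (m + p))))

/-- the automorphism fixes the boundary and does not change the end points of paths -/
structure Adm (l : Lb G (Ix m p)) (θ : Fr ≃* Fr) : Prop where
  fix : θ kap = kap
  ix : ∀ z w, l.ix z (θ w) = l.ix z w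

end Twist

/-- the intersection of the kernels of all homomorphisms of the free group to `P` -/
def KK (P : Type*) [Group P] : Subgroup Fr := ⨅ χ : Fr →* P, χ.ker

end Pool.Agent.MP_d14a53_gt_FT
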