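import Mathlib
import Pool.Agent.Lib.MP_d14a53_gt_FT.Defs

/-!
# MP_d14a53_gt FT module BmO

Measurability and boundedness.

`Bm.op`: for each move the function is an `ite` over a measurable set
(`measurableSet_le`, `measurableSet_lt`) of `n · (…) ∘ (affine map)`; the same bound.
`Bm.int`: bounded measurable on a set of finite measure.
-/

set_option autoImplicit false

noncomputable section

namespace Pool.Agent.MP_d14a53_gt_FT

open Pool.Agent.MP_d14a53_gt_PW

open scoped RealInnerProductSpace

section
variable {H : Type*} [Group H]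

theorem Bm.op (L : Lab H) {n : ℝ × ℝ → H → ℝ} (h : Bm n) (s : Mv) : Bm (L.op s n) := by
  obtain ⟨C, hC⟩ := h.bdd
  refine ⟨fun q => ?_, C, fun p q => ?_⟩
  · cases s
    · exact Measurable.ite (measurableSet_le measurable_snd measurable_fst)
        ((h.meas _).comp (by fun_prop)) ((h.meas _).comp (by fun_prop))
    · exact Measurable.ite (measurableSet_lt (by fun_prop) measurable_const)
        ((h.meas _).comp (by fun_prop)) ((h.meas _).comp (by fun_prop))
    · exact Measurable.ite (measurableSet_le measurable_fst measurable_snd)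
        ((h.meas _).comp (by fun_prop)) ((h.meas _).comp (by fun_prop))
    · exact Measurable.ite (measurableSet_lt (by fun_prop) measurable_const)
        ((h.meas _).comp (by fun_prop)) ((h.meas _).comp (by fun_prop))
  · cases s <;> unfold Lab.op <;> dsimp only <;> split_ifs <;> exact hC _ _

theorem Bm.opW (L : Lab H) {n : ℝ × ℝ → H → ℝ} (h : Bm n) (W : List Mv) :
    Bm (L.opW W n) := by
  unfold Lab.opW
  induction W generalizing n with
  | nil => exact h
  | cons s W ih =>
    rw [List.foldl_cons]
    exact ih (h.op L s)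

theorem Bm.pr {n m : ℝ × ℝ → H → ℝ} (h : Bm n) (h' : Bm m) : Bm (pr n m) := by
  obtain ⟨C, hC⟩ := h.bdd
  obtain ⟨C', hC'⟩ := h'.bdd
  refine ⟨fun q => (h.meas q).mul (h'.meas q), C * C', fun p q => ?_⟩
  change |n p q * m p q| ≤ C * C'
  rw [abs_mul]
  exact mul_le_mul (hC p q) (hC' p q) (abs_nonneg _) ((abs_nonneg _).trans (hC p q))

theorem Bm.sum {ι : Type*} (s : Finset ι) (a : ι → ℝ) (n : ι → ℝ × ℝ → H → ℝ)
    (h : ∀ i ∈ s, Bm (n i)) : Bm (fun p q => ∑ i ∈ s, a i * n i p q) := by
  classical
  induction s using Finset.induction_on with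
  | empty =>
    refine ⟨fun q => ?_, 0, fun p q => ?_⟩
    · simp only [Finset.sum_empty]
      exact measurable_const
    · simp
  | insert i s hi ih =>
    obtain ⟨C, hC⟩ := (h i (Finset.mem_insert_self i s)).bdd
    have hm := (h i (Finset.mem_insert_self i s)).meas
    have h2 := ih fun j hj => h j (Finset.mem_insert_of_mem hj)
    obtain ⟨C', hC'⟩ := h2.bdd
    refine ⟨fun q => ?_, |a i| * C + C', fun p q => ?_⟩
    · simp only [Finset.sum_insert hi]
      exact ((hm q).const_mul (a i)).add (h2.meas q)
    · rw [Finset.sum_insert hi]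
      refine (abs_add_le _ _).trans (add_le_add ?_ (hC' p q))
      rw [abs_mul]
      exact mul_le_mul_of_nonneg_left (hC p q) (abs_nonneg _)

theorem Bm.int {n : ℝ × ℝ → H → ℝ} (h : Bm n) (q : H) :
    MeasureTheory.IntegrableOn (fun p => n p q) Sq := by
  obtain ⟨C, hC⟩ := h.bdd
  refine MeasureTheory.Measure.integrableOn_of_bounded (M := C) ?_
    (h.meas q).aestronglyMeasurable (Filter.Eventually.of_forall fun p => hC p q)
  exact ((Metric.isBounded_Ico (0 : ℝ) 1).prod (Metric.isBounded_Ico (0 : ℝ) 1)).measure_lt_top.ne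

/-- lines -/
theorem Bm.line {n : ℝ × ℝ → H → ℝ} (h : Bm n) (q : H) (p v : ℝ × ℝ) (s t : ℝ) :
    IntervalIntegrable (fun r => n (p + r • v) q) MeasureTheory.volume s t := by
  obtain ⟨C, hC⟩ := h.bdd
  rw [intervalIntegrable_iff]
  refine MeasureTheory.Measure.integrableOn_of_bounded (M := C) ?_
    (((h.meas q).comp (by fun_prop)).aestronglyMeasurable)
    (Filter.Eventually.of_forall fun r => hC _ q)
  rw [Set.uIoc, Real.volume_Ioc]
  exact ENNReal.ofReal_ne_top

end

end Pool.Agent.MP_d14a53_gt_FT
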