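import Mathlib
import Pool.Agent.Lib.MP_d14a53_gt_FT.Defs
import Pool.Agent.Lib.MP_d14a53_gt_FT.BmO

/-!
# MP_d14a53_gt FT module JO

The moves `a` and `b` preserve the total integral.

Move `a`: `∫_Sq (op a n) p h` is the sum of the integrals over `Sq ∩ {p₂ ≤ p₁}` and
`Sq ∩ {p₁ < p₂}`. The map `p ↦ (p₁ - p₂, p₂)` preserves the measure and maps the first set onto
`Sq ∩ {p₁ + p₂ < 1}`; the map `p ↦ (1 + p₁ - p₂, p₂)` maps the second set onto
`Sq ∩ {1 ≤ p₁ + p₂}`. So `∫_Sq (op a n) p h = ∫_{Sq, p₁+p₂<1} n p (α h y) +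
∫_{Sq, 1≤p₁+p₂} n p (α h)`. Sum over `h` and use that `h ↦ α h y`, `h ↦ α h` are bijections
(`Equiv.sum_comp`). Move `b` is the same with the coordinates exchanged.
Measure: the map `(p₁,p₂) ↦ (p₁ - p₂, p₂)` is measure preserving for the product measure, e.g.
`MeasureTheory.measurePreserving_add_prod`-like lemmas, or a linear map of determinant 1, or
Fubini and translation invariance in the first variable.
-/

set_option autoImplicit false

noncomputable section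

namespace Pool.Agent.MP_d14a53_gt_FT

open Pool.Agent.MP_d14a53_gt_PW

open scoped RealInnerProductSpace

section
variable {H : Type*} [Group H] [Fintype H]

namespace JO

open MeasureTheory

theorem int_comp {g : ℝ × ℝ → ℝ} {T : ℝ × ℝ → ℝ × ℝ} (hT : MeasurePreserving T)
    (hg : Integrable g) : ∫ p, g (T p) = ∫ p, g p := by
  conv_rhs => rw [← hT.map_eq]
  rw [integral_map hT.measurable.aemeasurable]
  rw [hT.map_eq]
  exact hg.aestronglyMeasurable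

theorem measSq : MeasurableSet Sq := measurableSet_Ico.prod measurableSet_Ico

theorem core {n : ℝ × ℝ → H → ℝ} (h : Bm n) (e₁ e₂ : H ≃ H) {T₁ T₂ : ℝ × ℝ → ℝ × ℝ}
    (hT₁ : MeasurePreserving T₁) (hT₂ : MeasurePreserving T₂) {A₁ A₂ : Set (ℝ × ℝ)}
    (hA₁ : MeasurableSet A₁) (hA₂ : MeasurableSet A₂) (hd : Disjoint A₁ A₂)
    (hu : A₁ ∪ A₂ = Sq) (n' : ℝ × ℝ → H → ℝ)
    (hn' : ∀ p q, Sq.indicator (fun p => n' p q) p =
      A₁.indicator (fun p => n p (e₁ q)) (T₁ p) + A₂.indicator (fun p => n p (e₂ q)) (T₂ p)) :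
    JJ n' = JJ n := by
  have hs₁ : A₁ ⊆ Sq := hu ▸ Set.subset_union_left
  have hs₂ : A₂ ⊆ Sq := hu ▸ Set.subset_union_right
  have hi₁ : ∀ q, Integrable (A₁.indicator fun p => n p q) := fun q =>
    (integrable_indicator_iff hA₁).2 ((h.int q).mono_set hs₁)
  have hi₂ : ∀ q, Integrable (A₂.indicator fun p => n p q) := fun q =>
    (integrable_indicator_iff hA₂).2 ((h.int q).mono_set hs₂)
  have h1 : ∀ q, ∫ p in Sq, n' p q = (∫ p, A₁.indicator (fun p => n p (e₁ q)) p) +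
      ∫ p, A₂.indicator (fun p => n p (e₂ q)) p := by
    intro q
    rw [← integral_indicator measSq, ← int_comp hT₁ (hi₁ _), ← int_comp hT₂ (hi₂ _),
      ← integral_add]
    · exact integral_congr_ae (Filter.Eventually.of_forall fun p => hn' p q)
    · exact hT₁.integrable_comp_of_integrable (hi₁ _)
    · exact hT₂.integrable_comp_of_integrable (hi₂ _)
  unfold JJ
  rw [Finset.sum_congr rfl fun q _ => h1 q, Finset.sum_add_distrib,
    Equiv.sum_comp e₁ (fun q => ∫ p, A₁.indicator (fun p => n p q) p),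
    Equiv.sum_comp e₂ (fun q => ∫ p, A₂.indicator (fun p => n p q) p), ← Finset.sum_add_distrib]
  refine Finset.sum_congr rfl fun q _ => ?_
  rw [integral_indicator hA₁, integral_indicator hA₂, ← setIntegral_union hd hA₂
    ((h.int q).mono_set hs₁) ((h.int q).mono_set hs₂), hu]

theorem ind_eq {f g₁ g₂ : ℝ × ℝ → ℝ} {A₁ A₂ : Set (ℝ × ℝ)} {p p₁ p₂ : ℝ × ℝ} {c : Prop}
    [Decidable c] (h₁ : p₁ ∈ A₁ ↔ p ∈ Sq ∧ c) (h₂ : p₂ ∈ A₂ ↔ p ∈ Sq ∧ ¬ c)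
    (hf : f p = if c then g₁ p₁ else g₂ p₂) :
    Sq.indicator f p = A₁.indicator g₁ p₁ + A₂.indicator g₂ p₂ := by
  by_cases hp : p ∈ Sq
  · rw [Set.indicator_of_mem hp, hf]
    by_cases hc : c
    · rw [if_pos hc, Set.indicator_of_mem (h₁.2 ⟨hp, hc⟩),
        Set.indicator_of_notMem (fun h => (h₂.1 h).2 hc), add_zero]
    · rw [if_neg hc, Set.indicator_of_mem (h₂.2 ⟨hp, hc⟩),
        Set.indicator_of_notMem (fun h => hc (h₁.1 h).2), zero_add]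
  · rw [Set.indicator_of_notMem hp, Set.indicator_of_notMem (fun h => hp (h₁.1 h).1),
      Set.indicator_of_notMem (fun h => hp (h₂.1 h).1), add_zero]

/-- the half open triangles -/
def A₁ : Set (ℝ × ℝ) := Sq ∩ {p | p.1 + p.2 < 1}

/-- the half open triangles -/
def A₂ : Set (ℝ × ℝ) := Sq ∩ {p | 1 ≤ p.1 + p.2}

theorem mA₁ : MeasurableSet A₁ :=
  measSq.inter (measurableSet_lt (by fun_prop) measurable_const)

theorem mA₂ : MeasurableSet A₂ :=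
  measSq.inter (measurableSet_le measurable_const (by fun_prop))

theorem disj : Disjoint A₁ A₂ := by
  rw [Set.disjoint_left]
  rintro p ⟨-, h1⟩ ⟨-, h2⟩
  exact lt_irrefl _ (lt_of_lt_of_le (show p.1 + p.2 < 1 from h1) h2)

theorem uni : A₁ ∪ A₂ = Sq := by
  ext p
  constructor
  · rintro (⟨h, -⟩ | ⟨h, -⟩) <;> exact h
  · intro h
    rcases lt_or_ge (p.1 + p.2) 1 with h1 | h1
    · exact Or.inl ⟨h, h1⟩
    · exact Or.inr ⟨h, h1⟩

theorem mem_Sq (p : ℝ × ℝ) : p ∈ Sq ↔ 0 ≤ p.1 ∧ p.1 < 1 ∧ 0 ≤ p.2 ∧ p.2 < 1 := by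
  unfold Sq
  rw [Set.mem_prod, Set.mem_Ico, Set.mem_Ico, and_assoc]

theorem mem_A₁ (p : ℝ × ℝ) : p ∈ A₁ ↔ (0 ≤ p.1 ∧ p.1 < 1 ∧ 0 ≤ p.2 ∧ p.2 < 1) ∧
    p.1 + p.2 < 1 := by
  rw [← mem_Sq]
  rfl

theorem mem_A₂ (p : ℝ × ℝ) : p ∈ A₂ ↔ (0 ≤ p.1 ∧ p.1 < 1 ∧ 0 ≤ p.2 ∧ p.2 < 1) ∧
    1 ≤ p.1 + p.2 := by
  rw [← mem_Sq]
  rfl

theorem mpa : MeasurePreserving (fun p : ℝ × ℝ => (p.1 - p.2, p.2)) :=
  measurePreserving_sub_prod volume volume

theorem mpb : MeasurePreserving (fun p : ℝ × ℝ => (p.1, p.2 - p.1)) :=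
  measurePreserving_prod_sub volume volume

theorem mpa' : MeasurePreserving (fun p : ℝ × ℝ => (1 + p.1 - p.2, p.2)) := by
  have h := (measurePreserving_add_left (volume : Measure (ℝ × ℝ)) ((1, 0) : ℝ × ℝ)).comp mpa
  refine Eq.mp (congrArg (fun f : ℝ × ℝ → ℝ × ℝ => MeasurePreserving f volume volume) ?_) h
  funext p
  simp only [Function.comp_apply, Prod.mk_add_mk, zero_add]
  congr 1
  ring

theorem mpb' : MeasurePreserving (fun p : ℝ × ℝ => (p.1, 1 + p.2 - p.1)) := by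
  have h := (measurePreserving_add_left (volume : Measure (ℝ × ℝ)) ((0, 1) : ℝ × ℝ)).comp mpb
  refine Eq.mp (congrArg (fun f : ℝ × ℝ → ℝ × ℝ => MeasurePreserving f volume volume) ?_) h
  funext p
  simp only [Function.comp_apply, Prod.mk_add_mk, zero_add]
  congr 1
  ring

end JO

theorem JJ_op_ab (L : Lab H) {n : ℝ × ℝ → H → ℝ} (h : Bm n) (s : Mv)
    (hs : s = Mv.a ∨ s = Mv.b) : JJ (L.op s n) = JJ n := by
  rcases hs with rfl | rfl
  · refine JO.core h (L.α.toEquiv.trans (Equiv.mulRight L.y)) L.α.toEquiv JO.mpa JO.mpa'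
      JO.mA₁ JO.mA₂ JO.disj JO.uni _ fun p q => ?_
    refine JO.ind_eq (c := p.2 ≤ p.1) ?_ ?_ rfl
    · rw [JO.mem_A₁, JO.mem_Sq]
      dsimp only
      constructor
      · rintro ⟨⟨h1, h2, h3, h4⟩, h5⟩
        refine ⟨⟨?_, ?_, ?_, ?_⟩, ?_⟩ <;> linarith
      · rintro ⟨⟨h1, h2, h3, h4⟩, h5⟩
        refine ⟨⟨?_, ?_, ?_, ?_⟩, ?_⟩ <;> linarith
    · rw [JO.mem_A₂, JO.mem_Sq, not_le]
      dsimp only
      constructor
      · rintro ⟨⟨h1, h2, h3, h4⟩, h5⟩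
        refine ⟨⟨?_, ?_, ?_, ?_⟩, ?_⟩ <;> linarith
      · rintro ⟨⟨h1, h2, h3, h4⟩, h5⟩
        refine ⟨⟨?_, ?_, ?_, ?_⟩, ?_⟩ <;> linarith
  · refine JO.core h (L.β.toEquiv.trans (Equiv.mulRight L.x)) L.β.toEquiv JO.mpb JO.mpb'
      JO.mA₁ JO.mA₂ JO.disj JO.uni _ fun p q => ?_
    refine JO.ind_eq (c := p.1 ≤ p.2) ?_ ?_ rfl
    · rw [JO.mem_A₁, JO.mem_Sq]
      dsimp only
      constructor
      · rintro ⟨⟨h1, h2, h3, h4⟩, h5⟩
        refine ⟨⟨?_, ?_, ?_, ?_⟩, ?_⟩ <;> linarith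
      · rintro ⟨⟨h1, h2, h3, h4⟩, h5⟩
        refine ⟨⟨?_, ?_, ?_, ?_⟩, ?_⟩ <;> linarith
    · rw [JO.mem_A₂, JO.mem_Sq, not_le]
      dsimp only
      constructor
      · rintro ⟨⟨h1, h2, h3, h4⟩, h5⟩
        refine ⟨⟨?_, ?_, ?_, ?_⟩, ?_⟩ <;> linarith
      · rintro ⟨⟨h1, h2, h3, h4⟩, h5⟩
        refine ⟨⟨?_, ?_, ?_, ?_⟩, ?_⟩ <;> linarith

end

end Pool.Agent.MP_d14a53_gt_FT
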