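import Mathlib
import Pool.Agent.Lib.MP_d14a53_gt_FT.Defs

/-!
# MP_d14a53_gt FT module GlO

Gluing of functions on the tiles is preserved by the moves.
-/

set_option autoImplicit false

noncomputable section

namespace Pool.Agent.MP_d14a53_gt_FT

open Pool.Agent.MP_d14a53_gt_PW

open scoped RealInnerProductSpace

section
variable {H : Type*} [Group H]

theorem Gl.corner {L : Lab H} {m : ℝ × ℝ → H → ℝ} (h : Gl L m) (z : H) :
    m (0, 0) (z * L.x * L.y) = m (0, 0) (z * L.y * L.x) := by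
  have h0 : (0 : ℝ) ∈ Set.Icc (0 : ℝ) 1 := ⟨le_refl _, zero_le_one⟩
  have h1 : (1 : ℝ) ∈ Set.Icc (0 : ℝ) 1 := ⟨zero_le_one, le_refl _⟩
  rw [← (h 0 h0 (z * L.x)).1, ← (h 1 h1 z).2, ← (h 0 h0 (z * L.y)).2, (h 1 h1 z).1]

theorem Lab.symm (L : Lab H) : L.α.symm L.x = L.x * L.y ∧ L.α.symm L.y = L.y ∧
    L.β.symm L.x = L.x ∧ L.β.symm L.y = L.y * L.x := by
  have e1 : L.α.symm L.y = L.y := by
    rw [MulEquiv.symm_apply_eq]; exact L.αy.symm
  have e2 : L.β.symm L.x = L.x := by
    rw [MulEquiv.symm_apply_eq]; exact L.βx.symm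
  refine ⟨?_, e1, e2, ?_⟩
  · rw [MulEquiv.symm_apply_eq, map_mul, L.αx, L.αy, inv_mul_cancel_right]
  · rw [MulEquiv.symm_apply_eq, map_mul, L.βx, L.βy, inv_mul_cancel_right]

theorem Gl.op {L : Lab H} {m : ℝ × ℝ → H → ℝ} (h : Gl L m) (s : Mv) : Gl L (L.op s m) := by
  have h0 : (0 : ℝ) ∈ Set.Icc (0 : ℝ) 1 := ⟨le_refl _, zero_le_one⟩
  have h1 : (1 : ℝ) ∈ Set.Icc (0 : ℝ) 1 := ⟨zero_le_one, le_refl _⟩
  obtain ⟨sx, sy, tx, ty⟩ := L.symm
  intro t ht z
  obtain ⟨ht0, ht1⟩ := ht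
  cases s with
  | a =>
    refine ⟨?_, ?_⟩
    · show (if t ≤ 1 then m (1 - t, t) (L.α z * L.y) else m (1 + 1 - t, t) (L.α z)) =
        (if t ≤ 0 then m (0 - t, t) (L.α (z * L.y) * L.y) else m (1 + 0 - t, t) (L.α (z * L.y)))
      rw [if_pos ht1, map_mul, L.αy]
      rcases eq_or_lt_of_le ht0 with h2 | h2
      · subst h2
        rw [if_pos (le_refl _), sub_zero, sub_zero]
        exact (h 0 h0 _).1
      · rw [if_neg (not_le.2 h2), add_zero]
    · show (if 1 ≤ t then m (t - 1, 1) (L.α z * L.y) else m (1 + t - 1, 1) (L.α z)) =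
        (if 0 ≤ t then m (t - 0, 0) (L.α (z * L.x) * L.y) else m (1 + t - 0, 0) (L.α (z * L.x)))
      rw [if_pos ht0, map_mul, L.αx, ← mul_assoc, inv_mul_cancel_right, sub_zero]
      rcases eq_or_lt_of_le ht1 with h2 | h2
      · subst h2
        rw [if_pos (le_refl _), sub_self, (h 0 h0 _).2, (h 0 h0 _).1, h.corner]
      · rw [if_neg (not_le.2 h2), add_sub_cancel_left]
        exact (h t ⟨ht0, ht1⟩ _).2
  | b =>
    refine ⟨?_, ?_⟩
    · show (if 1 ≤ t then m (1, t - 1) (L.β z * L.x) else m (1, 1 + t - 1) (L.β z)) =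
        (if 0 ≤ t then m (0, t - 0) (L.β (z * L.y) * L.x) else m (0, 1 + t - 0) (L.β (z * L.y)))
      rw [if_pos ht0, map_mul, L.βy, ← mul_assoc, inv_mul_cancel_right, sub_zero]
      rcases eq_or_lt_of_le ht1 with h2 | h2
      · subst h2
        rw [if_pos (le_refl _), sub_self, (h 0 h0 _).1, (h 0 h0 _).2, h.corner]
      · rw [if_neg (not_le.2 h2), add_sub_cancel_left]
        exact (h t ⟨ht0, ht1⟩ _).1
    · show (if t ≤ 1 then m (t, 1 - t) (L.β z * L.x) else m (t, 1 + 1 - t) (L.β z)) =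
        (if t ≤ 0 then m (t, 0 - t) (L.β (z * L.x) * L.x) else m (t, 1 + 0 - t) (L.β (z * L.x)))
      rw [if_pos ht1, map_mul, L.βx]
      rcases eq_or_lt_of_le ht0 with h2 | h2
      · subst h2
        rw [if_pos (le_refl _), sub_zero, sub_zero]
        exact (h 0 h0 _).2
      · rw [if_neg (not_le.2 h2), add_zero]
  | a' =>
    refine ⟨?_, ?_⟩
    · show (if 1 + t < 1 then m (1 + t, t) (L.α.symm z * L.y⁻¹)
          else m (1 + t - 1, t) (L.α.symm z)) =
        (if 0 + t < 1 then m (0 + t, t) (L.α.symm (z * L.y) * L.y⁻¹)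
          else m (0 + t - 1, t) (L.α.symm (z * L.y)))
      rw [if_neg (by linarith), map_mul, sy, mul_inv_cancel_right, zero_add, add_sub_cancel_left]
      rcases eq_or_lt_of_le ht1 with h2 | h2
      · subst h2
        rw [if_neg (lt_irrefl _), sub_self]
        exact (h 1 h1 _).1
      · rw [if_pos h2]
    · show (if t + 1 < 1 then m (t + 1, 1) (L.α.symm z * L.y⁻¹)
          else m (t + 1 - 1, 1) (L.α.symm z)) =
        (if t + 0 < 1 then m (t + 0, 0) (L.α.symm (z * L.x) * L.y⁻¹)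
          else m (t + 0 - 1, 0) (L.α.symm (z * L.x)))
      rw [if_neg (by linarith), map_mul, sx, ← mul_assoc, mul_inv_cancel_right, add_zero,
        add_sub_cancel_right]
      rcases eq_or_lt_of_le ht1 with h2 | h2
      · subst h2
        rw [if_neg (lt_irrefl _), sub_self, (h 1 h1 _).2, (h 0 h0 _).1]
      · rw [if_pos h2]
        exact (h t ⟨ht0, ht1⟩ _).2
  | b' =>
    refine ⟨?_, ?_⟩
    · show (if 1 + t < 1 then m (1, 1 + t) (L.β.symm z * L.x⁻¹)
          else m (1, 1 + t - 1) (L.β.symm z)) =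
        (if 0 + t < 1 then m (0, 0 + t) (L.β.symm (z * L.y) * L.x⁻¹)
          else m (0, 0 + t - 1) (L.β.symm (z * L.y)))
      rw [if_neg (by linarith), map_mul, ty, ← mul_assoc, mul_inv_cancel_right, zero_add,
        add_sub_cancel_left]
      rcases eq_or_lt_of_le ht1 with h2 | h2
      · subst h2
        rw [if_neg (lt_irrefl _), sub_self, (h 1 h1 _).1, (h 0 h0 _).2]
      · rw [if_pos h2]
        exact (h t ⟨ht0, ht1⟩ _).1
    · show (if t + 1 < 1 then m (t, t + 1) (L.β.symm z * L.x⁻¹)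
          else m (t, t + 1 - 1) (L.β.symm z)) =
        (if t + 0 < 1 then m (t, t + 0) (L.β.symm (z * L.x) * L.x⁻¹)
          else m (t, t + 0 - 1) (L.β.symm (z * L.x)))
      rw [if_neg (by linarith), map_mul, tx, mul_inv_cancel_right, add_zero,
        add_sub_cancel_right]
      rcases eq_or_lt_of_le ht1 with h2 | h2
      · subst h2
        rw [if_neg (lt_irrefl _), sub_self]
        exact (h 1 h1 _).2
      · rw [if_pos h2]

theorem Gl.opW {L : Lab H} {m : ℝ × ℝ → H → ℝ} (h : Gl L m) (W : List Mv) :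
    Gl L (L.opW W m) := by
  induction W using List.reverseRecOn with
  | nil => exact h
  | append_singleton W s ih =>
    have e : L.opW (W ++ [s]) m = L.op s (L.opW W m) := by
      unfold Lab.opW
      rw [List.foldl_append]
      rfl
    rw [e]
    exact ih.op s

end

end Pool.Agent.MP_d14a53_gt_FT
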