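import Mathlib
import Pool.Agent.Lib.MP_d14a53_gt_FT.Defs
import Pool.Agent.Lib.MP_d14a53_gt_FT.GlO

/-!
# MP_d14a53_gt FT module Inv

The moves and their inverses on the half open tiles.

`EqS.op`: for `p ∈ Sq` the arguments used in the definition of `op` are again in `Sq`, and in both
sides the same branch is used.
`op_inv`: the four cases are computations with `ite`; e.g. `op a' (op a m)` at `p ∈ Sq`: if
`p₁ + p₂ < 1` it is `(op a m) (p₁+p₂,p₂) (α⁻¹ h y⁻¹)`, `p₂ ≤ p₁ + p₂`, so `m p (h y⁻¹ y)`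
(`L.αy`, `Lab.symm`); otherwise `(op a m) (p₁+p₂-1,p₂) (α⁻¹ h)`, and `p₂ ≤ p₁+p₂-1` is
false as `p₁ < 1`, so `m p h`.
`EqS.JJ`: the integrals over `Sq` agree (`MeasureTheory.setIntegral_congr_fun`).
-/

set_option autoImplicit false

noncomputable section

namespace Pool.Agent.MP_d14a53_gt_FT

open Pool.Agent.MP_d14a53_gt_PW

open scoped RealInnerProductSpace

section
variable {H : Type*} [Group H]

theorem EqS.op (L : Lab H) {m m' : ℝ × ℝ → H → ℝ} (h : EqS m m') (s : Mv) :
    EqS (L.op s m) (L.op s m') := by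
  intro p hp g
  obtain ⟨⟨h1, h2⟩, h3, h4⟩ := hp
  cases s
  · simp only [Lab.op]
    split_ifs with hc
    · refine h _ ?_ _
      refine ⟨⟨?_, ?_⟩, ?_, ?_⟩ <;> (try dsimp only) <;> linarith
    · refine h _ ?_ _
      refine ⟨⟨?_, ?_⟩, ?_, ?_⟩ <;> (try dsimp only) <;> linarith
  · simp only [Lab.op]
    split_ifs with hc
    · refine h _ ?_ _
      refine ⟨⟨?_, ?_⟩, ?_, ?_⟩ <;> (try dsimp only) <;> linarith
    · refine h _ ?_ _
      refine ⟨⟨?_, ?_⟩, ?_, ?_⟩ <;> (try dsimp only) <;> linarith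
  · simp only [Lab.op]
    split_ifs with hc
    · refine h _ ?_ _
      refine ⟨⟨?_, ?_⟩, ?_, ?_⟩ <;> (try dsimp only) <;> linarith
    · refine h _ ?_ _
      refine ⟨⟨?_, ?_⟩, ?_, ?_⟩ <;> (try dsimp only) <;> linarith
  · simp only [Lab.op]
    split_ifs with hc
    · refine h _ ?_ _
      refine ⟨⟨?_, ?_⟩, ?_, ?_⟩ <;> (try dsimp only) <;> linarith
    · refine h _ ?_ _
      refine ⟨⟨?_, ?_⟩, ?_, ?_⟩ <;> (try dsimp only) <;> linarith

theorem EqS.opW (L : Lab H) {m m' : ℝ × ℝ → H → ℝ} (h : EqS m m') (W : List Mv) :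
    EqS (L.opW W m) (L.opW W m') := by
  unfold Lab.opW
  induction W generalizing m m' with
  | nil => exact h
  | cons s W ih =>
    rw [List.foldl_cons, List.foldl_cons]
    exact ih (EqS.op L h s)

theorem op_inv (L : Lab H) (s : Mv) (m : ℝ × ℝ → H → ℝ) : EqS (L.op s.inv (L.op s m)) m := by
  intro p hp g
  obtain ⟨⟨h1, h2⟩, h3, h4⟩ := hp
  have ea : L.α.symm L.y = L.y := by
    rw [MulEquiv.symm_apply_eq]
    exact L.αy.symm
  have eb : L.β.symm L.x = L.x := by
    rw [MulEquiv.symm_apply_eq]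
    exact L.βx.symm
  cases s
  · show L.op .a' (L.op .a m) p g = m p g
    simp only [Lab.op]
    by_cases hc : p.1 + p.2 < 1
    · have hd : p.2 ≤ p.1 + p.2 := by linarith
      rw [if_pos hc, if_pos hd]
      congr 1
      · exact Prod.ext (by simp) rfl
      · rw [map_mul, map_inv, L.αy, MulEquiv.apply_symm_apply, inv_mul_cancel_right]
    · have hd : ¬ p.2 ≤ p.1 + p.2 - 1 := by linarith
      rw [if_neg hc, if_neg hd]
      congr 1
      · exact Prod.ext (by simp only; ring) rfl
      · rw [MulEquiv.apply_symm_apply]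
  · show L.op .a (L.op .a' m) p g = m p g
    simp only [Lab.op]
    by_cases hc : p.2 ≤ p.1
    · have hd : p.1 - p.2 + p.2 < 1 := by linarith
      rw [if_pos hc, if_pos hd]
      congr 1
      · exact Prod.ext (by simp) rfl
      · rw [map_mul, MulEquiv.symm_apply_apply, ea, mul_inv_cancel_right]
    · have hd : ¬ 1 + p.1 - p.2 + p.2 < 1 := by linarith
      rw [if_neg hc, if_neg hd]
      congr 1
      · exact Prod.ext (by simp only; ring) rfl
      · rw [MulEquiv.symm_apply_apply]
  · show L.op .b' (L.op .b m) p g = m p g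
    simp only [Lab.op]
    by_cases hc : p.1 + p.2 < 1
    · have hd : p.1 ≤ p.1 + p.2 := by linarith
      rw [if_pos hc, if_pos hd]
      congr 1
      · exact Prod.ext rfl (by simp)
      · rw [map_mul, map_inv, L.βx, MulEquiv.apply_symm_apply, inv_mul_cancel_right]
    · have hd : ¬ p.1 ≤ p.1 + p.2 - 1 := by linarith
      rw [if_neg hc, if_neg hd]
      congr 1
      · exact Prod.ext rfl (by simp only; ring)
      · rw [MulEquiv.apply_symm_apply]
  · show L.op .b (L.op .b' m) p g = m p g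
    simp only [Lab.op]
    by_cases hc : p.1 ≤ p.2
    · have hd : p.1 + (p.2 - p.1) < 1 := by linarith
      rw [if_pos hc, if_pos hd]
      congr 1
      · exact Prod.ext rfl (by simp)
      · rw [map_mul, MulEquiv.symm_apply_apply, eb, mul_inv_cancel_right]
    · have hd : ¬ p.1 + (1 + p.2 - p.1) < 1 := by linarith
      rw [if_neg hc, if_neg hd]
      congr 1
      · exact Prod.ext rfl (by simp only; ring)
      · rw [MulEquiv.symm_apply_apply]

theorem EqS.JJ [Fintype H] {m m' : ℝ × ℝ → H → ℝ} (h : EqS m m') : JJ m = JJ m' := by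
  unfold Pool.Agent.MP_d14a53_gt_FT.JJ
  refine Finset.sum_congr rfl fun q _ => ?_
  refine MeasureTheory.setIntegral_congr_fun (measurableSet_Ico.prod measurableSet_Ico) ?_
  intro p hp
  exact h p hp q

theorem op_pr (L : Lab H) (s : Mv) (n m : ℝ × ℝ → H → ℝ) :
    L.op s (pr n m) = pr (L.op s n) (L.op s m) := by
  funext p g
  cases s
  · simp only [Lab.op, pr]
    split_ifs <;> rfl
  · simp only [Lab.op, pr]
    split_ifs <;> rfl
  · simp only [Lab.op, pr]
    split_ifs <;> rfl
  · simp only [Lab.op, pr]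
    split_ifs <;> rfl

end

end Pool.Agent.MP_d14a53_gt_FT
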