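import Mathlib
import Pool.Agent.Lib.MP_d14a53_gt_FT.Defs
import Pool.Agent.Lib.MP_d14a53_gt_FT.Inv

/-!
# MP_d14a53_gt FT module Wd

Words. `opW`, `cvW` are left folds, `thW` is a product in `MulAut`, `invW` reverses and inverts.

All statements by induction on the word (use `List.foldl_append`, `List.map_append`,
`List.prod_append`, `List.reverse_cons`). `thW_inv`: `thW (invW W) = (thW W)⁻¹`.
`opW_inv`: induction with `EqS.opW` and `op_inv`.
`det_cvW`: every `cv s` is linear with determinant 1. `cvW_inv`: `cv s.inv (cv s c) = c`.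
-/

set_option autoImplicit false

noncomputable section

namespace Pool.Agent.MP_d14a53_gt_FT

open Pool.Agent.MP_d14a53_gt_PW

open scoped RealInnerProductSpace

section
variable {H : Type*} [Group H]

namespace Wd

theorem invW_cons (s : Mv) (W : List Mv) : invW (s :: W) = invW W ++ [s.inv] := by
  unfold invW
  rw [List.map_cons, List.reverse_cons]

theorem thW_cons (L : Lab H) (s : Mv) (W : List Mv) (h : H) :
    L.thW (s :: W) h = L.th s (L.thW W h) := by
  unfold Lab.thW
  rw [List.map_cons, List.prod_cons]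
  rfl

theorem thW_single (L : Lab H) (s : Mv) (h : H) : L.thW [s] h = L.th s h := by
  rw [thW_cons]
  rfl

theorem th_inv (L : Lab H) (s : Mv) (h : H) : L.th s.inv (L.th s h) = h := by
  cases s
  · exact L.α.symm_apply_apply h
  · exact L.α.apply_symm_apply h
  · exact L.β.symm_apply_apply h
  · exact L.β.apply_symm_apply h

theorem th_inv' (L : Lab H) (s : Mv) (h : H) : L.th s (L.th s.inv h) = h := by
  cases s
  · exact L.α.apply_symm_apply h
  · exact L.α.symm_apply_apply h
  · exact L.β.apply_symm_apply h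
  · exact L.β.symm_apply_apply h

theorem cv_inv (s : Mv) (c : ℝ × ℝ) : cv s.inv (cv s c) = c := by
  cases s <;> simp [cv, Mv.inv]

theorem th_cmp {Q : Type*} [Group Q] {L : Lab H} {L' : Lab Q} {g : H →* Q} (hg : Cmp L L' g)
    (s : Mv) (h : H) : g (L.th s h) = L'.th s (g h) := by
  cases s
  · exact hg.α h
  · show g (L.α.symm h) = L'.α.symm (g h)
    apply L'.α.injective
    rw [← hg.α, L.α.apply_symm_apply, L'.α.apply_symm_apply]
  · exact hg.β h
  · show g (L.β.symm h) = L'.β.symm (g h)
    apply L'.β.injective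
    rw [← hg.β, L.β.apply_symm_apply, L'.β.apply_symm_apply]

end Wd

theorem opW_append (L : Lab H) (V W : List Mv) (m : ℝ × ℝ → H → ℝ) :
    L.opW (V ++ W) m = L.opW W (L.opW V m) := by
  unfold Lab.opW
  rw [List.foldl_append]

theorem cvW_append (V W : List Mv) (c : ℝ × ℝ) : cvW c (V ++ W) = cvW (cvW c V) W := by
  unfold cvW
  rw [List.foldl_append]

theorem thW_append (L : Lab H) (V W : List Mv) (h : H) :
    L.thW (V ++ W) h = L.thW V (L.thW W h) := by
  induction V with
  | nil => rfl
  | cons s V ih => rw [List.cons_append, Wd.thW_cons, Wd.thW_cons, ih]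

theorem thW_inv (L : Lab H) (W : List Mv) (h : H) :
    L.thW (invW W) (L.thW W h) = h ∧ L.thW W (L.thW (invW W) h) = h := by
  induction W generalizing h with
  | nil => exact ⟨rfl, rfl⟩
  | cons s W ih =>
    rw [Wd.invW_cons]
    constructor
    · rw [thW_append, Wd.thW_single, Wd.thW_cons, Wd.th_inv, (ih h).1]
    · rw [thW_append, Wd.thW_single, Wd.thW_cons, (ih _).2, Wd.th_inv']

theorem opW_inv (L : Lab H) (W : List Mv) (m : ℝ × ℝ → H → ℝ) :
    EqS (L.opW (invW W) (L.opW W m)) m := by
  induction W generalizing m with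
  | nil => exact fun p _ h => rfl
  | cons s W ih =>
    rw [Wd.invW_cons, opW_append]
    have h1 := (ih (L.op s m)).op L s.inv
    have h2 := op_inv L s m
    exact fun p hp h => (h1 p hp h).trans (h2 p hp h)

theorem opW_pr (L : Lab H) (W : List Mv) (n m : ℝ × ℝ → H → ℝ) :
    L.opW W (pr n m) = pr (L.opW W n) (L.opW W m) := by
  induction W generalizing n m with
  | nil => rfl
  | cons s W ih =>
    show L.opW W (L.op s (pr n m)) = pr (L.opW W (L.op s n)) (L.opW W (L.op s m))
    rw [op_pr, ih]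

theorem cvW_inv (W : List Mv) (c : ℝ × ℝ) : cvW (cvW c W) (invW W) = c := by
  induction W generalizing c with
  | nil => rfl
  | cons s W ih =>
    rw [Wd.invW_cons, cvW_append]
    show cv s.inv (cvW (cvW (cv s c) W) (invW W)) = c
    rw [ih, Wd.cv_inv]

theorem det_cvW (W : List Mv) (c d : ℝ × ℝ) :
    (cvW c W).1 * (cvW d W).2 - (cvW c W).2 * (cvW d W).1 = c.1 * d.2 - c.2 * d.1 := by
  induction W generalizing c d with
  | nil => rfl
  | cons s W ih =>
    show (cvW (cv s c) W).1 * (cvW (cv s d) W).2 - (cvW (cv s c) W).2 * (cvW (cv s d) W).1 = _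
    rw [ih]
    cases s <;> simp only [cv] <;> ring

/-- the action on slopes is bounded -/
theorem cvW_bound (W : List Mv) : ∃ C : ℝ, 0 < C ∧ ∀ c : ℝ × ℝ,
    (cvW c W).1 ^ 2 + (cvW c W).2 ^ 2 ≤ C * (c.1 ^ 2 + c.2 ^ 2) := by
  induction W with
  | nil => exact ⟨1, one_pos, fun c => by rw [one_mul]; rfl⟩
  | cons s W ih =>
    obtain ⟨C, hC, h⟩ := ih
    refine ⟨C * 3, by positivity, fun c => ?_⟩
    refine (h (cv s c)).trans ?_
    rw [mul_assoc]
    refine mul_le_mul_of_nonneg_left ?_ hC.le
    cases s <;> simp only [cv] <;>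
      nlinarith [sq_nonneg (c.1 + c.2), sq_nonneg (c.1 - c.2), sq_nonneg c.1, sq_nonneg c.2]

theorem thW_cmp {Q : Type*} [Group Q] {L : Lab H} {L' : Lab Q} {g : H →* Q} (hg : Cmp L L' g)
    (W : List Mv) (h : H) : g (L.thW W h) = L'.thW W (g h) := by
  induction W with
  | nil => rfl
  | cons s W ih => rw [Wd.thW_cons, Wd.thW_cons, Wd.th_cmp hg, ih]

end

end Pool.Agent.MP_d14a53_gt_FT
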