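import Mathlib
import Pool.Agent.Lib.MP_d14a53_gt_FT.Defs
import Pool.Agent.Lib.MP_d14a53_gt_FT.Wd
import Pool.Agent.Lib.MP_d14a53_gt_FT.JO
import Pool.Agent.Lib.MP_d14a53_gt_FT.BmO

/-!
# MP_d14a53_gt FT module Adj

Adjoint words.
-/

set_option autoImplicit false

noncomputable section

namespace Pool.Agent.MP_d14a53_gt_FT

open Pool.Agent.MP_d14a53_gt_PW

open scoped RealInnerProductSpace

section
variable {H : Type*} [Group H] [Fintype H]

theorem JJ_op (L : Lab H) {n : ℝ × ℝ → H → ℝ} (h : Bm n) (s : Mv) : JJ (L.op s n) = JJ n := by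
  cases s with
  | a => exact JJ_op_ab L h _ (Or.inl rfl)
  | b => exact JJ_op_ab L h _ (Or.inr rfl)
  | a' =>
    rw [← JJ_op_ab L (h.op L Mv.a') Mv.a (Or.inl rfl)]
    exact (op_inv L Mv.a' n).JJ
  | b' =>
    rw [← JJ_op_ab L (h.op L Mv.b') Mv.b (Or.inr rfl)]
    exact (op_inv L Mv.b' n).JJ

theorem JJ_opW (L : Lab H) {n : ℝ × ℝ → H → ℝ} (h : Bm n) (W : List Mv) :
    JJ (L.opW W n) = JJ n := by
  induction W using List.reverseRecOn with
  | nil => rfl
  | append_singleton W s ih =>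
    rw [opW_append]
    exact (JJ_op L (h.opW L W) s).trans ih

theorem adj (L : Lab H) {n m : ℝ × ℝ → H → ℝ} (hn : Bm n) (hm : Bm m) (V W : List Mv) :
    JJ (pr (L.opW V n) (L.opW W m)) = JJ (pr (L.opW (V ++ invW W) n) m) := by
  rw [← JJ_opW L ((hn.opW L V).pr (hm.opW L W)) (invW W), opW_pr, opW_append]
  apply EqS.JJ
  intro p hp h
  unfold pr
  rw [opW_inv L W m p hp h]

end

end Pool.Agent.MP_d14a53_gt_FT
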