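import Mathlib
import Pool.Agent.Lib.MP_d14a53_gt_FT.Defs

/-!
# MP_d14a53_gt FT module Lam

The right action.

`act` is a homomorphism to the opposite group: `(act (w w')).unop = (act w').unop * (act w).unop`,
i.e. `mv z (w w') = mv (mv z w) w'`. On the generators it is `shift`.
`mv_left`: the set of all `w` for which it holds (for all `k`, `h`, `i`) contains the generators
and is closed under products and inverses (`FreeGroup.induction_on`).
The rest follows.
-/

set_option autoImplicit false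

noncomputable section

namespace Pool.Agent.MP_d14a53_gt_FT

open Pool.Agent.MP_d14a53_gt_PW

open scoped RealInnerProductSpace

namespace Lb
section
variable {G I : Type*} [Group G] (l : Lb G I)

theorem mv_one (z : G × I) : l.mv z 1 = z := by
  simp [mv]

theorem mv_mul (z : G × I) (w w' : Fr) : l.mv z (w * w') = l.mv (l.mv z w) w' := by
  simp [mv]

theorem mv_x (z : G × I) : l.mv z fx = (z.1 * l.X z.2, l.τ z.2) := by
  simp [mv, act, fx, shift]

theorem mv_y (z : G × I) : l.mv z fy = (z.1 * l.Y z.2, l.η z.2) := by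
  simp [mv, act, fy, shift]

theorem mv_x' (z : G × I) : l.mv z fx⁻¹ = (z.1 * (l.X (l.τ.symm z.2))⁻¹, l.τ.symm z.2) := by
  have h : (l.act fx⁻¹).unop = (shift l.X l.τ).symm := by
    rw [map_inv]
    simp only [act, fx, FreeGroup.lift_apply_of]
    rfl
  rw [mv, h]
  rfl

theorem mv_y' (z : G × I) : l.mv z fy⁻¹ = (z.1 * (l.Y (l.η.symm z.2))⁻¹, l.η.symm z.2) := by
  have h : (l.act fy⁻¹).unop = (shift l.Y l.η).symm := by
    rw [map_inv]
    simp only [act, fy, FreeGroup.lift_apply_of]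
    rfl
  rw [mv, h]
  rfl

theorem mv_left (k h : G) (i : I) (w : Fr) :
    l.mv (k * h, i) w = (k * (l.mv (h, i) w).1, (l.mv (h, i) w).2) := by
  induction w using FreeGroup.induction_on generalizing k h i with
  | C1 => simp only [mv_one]
  | of t =>
    cases t
    · change l.mv (k * h, i) fx = (k * (l.mv (h, i) fx).1, (l.mv (h, i) fx).2)
      rw [mv_x, mv_x]
      simp only [mul_assoc]
    · change l.mv (k * h, i) fy = (k * (l.mv (h, i) fy).1, (l.mv (h, i) fy).2)
      rw [mv_y, mv_y]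
      simp only [mul_assoc]
  | inv_of t _ =>
    cases t
    · change l.mv (k * h, i) fx⁻¹ = (k * (l.mv (h, i) fx⁻¹).1, (l.mv (h, i) fx⁻¹).2)
      rw [mv_x', mv_x']
      simp only [mul_assoc]
    · change l.mv (k * h, i) fy⁻¹ = (k * (l.mv (h, i) fy⁻¹).1, (l.mv (h, i) fy⁻¹).2)
      rw [mv_y', mv_y']
      simp only [mul_assoc]
  | mul w w' hw hw' =>
    rw [mv_mul, mv_mul, hw, hw']

theorem mv_eq (h : G) (i : I) (w : Fr) : l.mv (h, i) w = (h * l.lam i w, l.ix i w) := by
  have h1 := mv_left l h 1 i w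
  rw [mul_one] at h1
  exact h1

theorem lam_mul (i : I) (w w' : Fr) : l.lam i (w * w') = l.lam i w * l.lam (l.ix i w) w' := by
  have h1 : l.mv (1, i) (w * w') = l.mv (l.lam i w, l.ix i w) w' := mv_mul l _ w w'
  rw [mv_eq l (l.lam i w)] at h1
  exact congrArg Prod.fst h1

theorem ix_mul (i : I) (w w' : Fr) : l.ix i (w * w') = l.ix (l.ix i w) w' := by
  have h1 : l.mv (1, i) (w * w') = l.mv (l.lam i w, l.ix i w) w' := mv_mul l _ w w'
  rw [mv_eq l (l.lam i w)] at h1
  have h2 := congrArg Prod.snd h1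
  exact h2

theorem lam_one (i : I) : l.lam i 1 = 1 := by
  rw [lam, mv_one]

theorem ix_one (i : I) : l.ix i 1 = i := by
  rw [ix, mv_one]

theorem lam_x (i : I) : l.lam i fx = l.X i := by
  rw [lam, mv_x, one_mul]

theorem lam_y (i : I) : l.lam i fy = l.Y i := by
  rw [lam, mv_y, one_mul]

theorem ix_x (i : I) : l.ix i fx = l.τ i := by
  rw [ix, mv_x]

theorem ix_y (i : I) : l.ix i fy = l.η i := by
  rw [ix, mv_y]

theorem lam_inv (i : I) (w : Fr) : l.lam i w⁻¹ = (l.lam (l.ix i w⁻¹) w)⁻¹ := by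
  have h1 := lam_mul l i w⁻¹ w
  rw [inv_mul_cancel, lam_one] at h1
  exact eq_inv_of_mul_eq_one_left h1.symm

theorem ix_inv (i : I) (w : Fr) : l.ix (l.ix i w) w⁻¹ = i ∧ l.ix (l.ix i w⁻¹) w = i := by
  refine ⟨?_, ?_⟩
  · rw [← ix_mul, mul_inv_cancel, ix_one]
  · rw [← ix_mul, inv_mul_cancel, ix_one]

end
end Lb

end Pool.Agent.MP_d14a53_gt_FT
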