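import Mathlib
import Pool.Agent.Lib.MP_d14a53_gt_FT.Defs
import Pool.Agent.Lib.MP_d14a53_gt_FT.Lam

/-!
# MP_d14a53_gt FT module Lam2

Uniqueness of the labels of paths and its consequences.

`ix_congr`: the set of all `w` for which it holds for all `i` contains the generators (`ix_x`,
`ix_y`) and is closed under products and inverses (`ix_mul`, `ix_inv`).
`lam_unique`: the set of all `w` with `Λ i w = lam i w` for all `i` contains `fx`, `fy`, `1`
(`h1 i 1 1` gives `Λ i 1 = 1` since `ix i 1 = i`) and is closed under products and inverses (from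
`1 = Λ i (w⁻¹ w) = Λ i w⁻¹ * Λ (ix i w⁻¹) w`).
`lam_map`, `lam_gauge`, `lam_tw`: apply `lam_unique` to the labels `l.map φ`, `l.gauge γ`,
`l.tw θ` (with the same index permutations, `ix_congr`) and the function on the right side. For
`lam_tw`: `θ (w w') = θ w * θ w'` and `ix i (θ w) = ix i w`.
-/

set_option autoImplicit false

noncomputable section

namespace Pool.Agent.MP_d14a53_gt_FT

open Pool.Agent.MP_d14a53_gt_PW

open scoped RealInnerProductSpace

namespace Lam2

theorem ind {C : Fr → Prop} (h1 : C 1) (hx : C fx) (hy : C fy) (hi : ∀ w, C w → C w⁻¹)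
    (hm : ∀ w w', C w → C w' → C (w * w')) (w : Fr) : C w := by
  induction w using FreeGroup.induction_on with
  | C1 => exact h1
  | of b =>
    cases b
    · exact hx
    · exact hy
  | inv_of b h => exact hi _ h
  | mul x y hx hy => exact hm _ _ hx hy

end Lam2

namespace Lb
section
variable {G G' I : Type*} [Group G] [Group G']

theorem ix_congr (l : Lb G I) (l' : Lb G' I) (h1 : l.τ = l'.τ) (h2 : l.η = l'.η) (i : I)
    (w : Fr) : l.ix i w = l'.ix i w := by
  revert i
  refine Lam2.ind (C := fun w => ∀ i, l.ix i w = l'.ix i w) ?_ ?_ ?_ ?_ ?_ w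
  · intro i
    rw [ix_one, ix_one]
  · intro i
    rw [ix_x, ix_x, h1]
  · intro i
    rw [ix_y, ix_y, h2]
  · intro w hw i
    have e1 : l.ix (l'.ix i w⁻¹) w = i := (hw _).trans (l'.ix_inv i w).2
    have e2 := (l.ix_inv (l'.ix i w⁻¹) w).1
    rw [e1] at e2
    exact e2
  · intro w w' hw hw' i
    rw [ix_mul, ix_mul, hw, hw']

theorem lam_unique (l : Lb G I) (Λ : I → Fr → G)
    (h1 : ∀ i w w', Λ i (w * w') = Λ i w * Λ (l.ix i w) w') (hx : ∀ i, Λ i fx = l.X i)
    (hy : ∀ i, Λ i fy = l.Y i) (i : I) (w : Fr) : Λ i w = l.lam i w := by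
  have h0 : ∀ i, Λ i 1 = 1 := by
    intro i
    have h2 := h1 i 1 1
    rw [mul_one, ix_one] at h2
    exact left_eq_mul.1 h2
  revert i
  refine Lam2.ind (C := fun w => ∀ i, Λ i w = l.lam i w) ?_ ?_ ?_ ?_ ?_ w
  · intro i
    rw [h0, lam_one]
  · intro i
    rw [hx, lam_x]
  · intro i
    rw [hy, lam_y]
  · intro w hw i
    have h2 := h1 i w⁻¹ w
    rw [inv_mul_cancel, h0, hw] at h2
    rw [lam_inv]
    exact eq_inv_of_mul_eq_one_left h2.symm
  · intro w w' hw hw' i
    rw [h1, lam_mul, hw, hw']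

theorem lam_map (l : Lb G I) (φ : G →* G') (i : I) (w : Fr) :
    (l.map φ).lam i w = φ (l.lam i w) := by
  have hix : ∀ i w, (l.map φ).ix i w = l.ix i w := fun i w =>
    ix_congr (l.map φ) l rfl rfl i w
  refine (lam_unique (l.map φ) (fun i w => φ (l.lam i w)) ?_ ?_ ?_ i w).symm
  · intro i w w'
    rw [hix, lam_mul, map_mul]
  · intro i
    rw [lam_x]
    rfl
  · intro i
    rw [lam_y]
    rfl

theorem lam_gauge (l : Lb G I) (γ : I → G) (i : I) (w : Fr) :
    (l.gauge γ).lam i w = γ i * l.lam i w * (γ (l.ix i w))⁻¹ := by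
  have hix : ∀ i w, (l.gauge γ).ix i w = l.ix i w := fun i w =>
    ix_congr (l.gauge γ) l rfl rfl i w
  refine (lam_unique (l.gauge γ) (fun i w => γ i * l.lam i w * (γ (l.ix i w))⁻¹)
    ?_ ?_ ?_ i w).symm
  · intro i w w'
    rw [hix, lam_mul, ix_mul]
    group
  · intro i
    rw [lam_x, ix_x]
    rfl
  · intro i
    rw [lam_y, ix_y]
    rfl

theorem lam_tw (l : Lb G I) (θ : Fr ≃* Fr) (hθ : ∀ i w, l.ix i (θ w) = l.ix i w) (i : I)
    (w : Fr) : (l.tw θ).lam i w = l.lam i (θ w) := by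
  have hix : ∀ i w, (l.tw θ).ix i w = l.ix i w := fun i w =>
    ix_congr (l.tw θ) l rfl rfl i w
  refine (lam_unique (l.tw θ) (fun i w => l.lam i (θ w)) ?_ ?_ ?_ i w).symm
  · intro i w w'
    rw [hix, map_mul, lam_mul, hθ]
  · intro i
    rfl
  · intro i
    rfl

end
end Lb

end Pool.Agent.MP_d14a53_gt_FT
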