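import Mathlib
import Pool.Agent.Lib.MP_d14a53_gt_FT.Defs
import Pool.Agent.Lib.MP_d14a53_gt_FT.Lam

/-!
# MP_d14a53_gt FT module Yp

The horizontal cylinder.

By induction on `n = 3 k + j`: `(h, (0,0)) · y^n = (h, (k, j))` for `k < m + p`, `j < 3` (the label
is `1` as long as the last tile `(m+p-1, 2)` is not passed), and one more step from
`(m+p-1, 2)` gives `(h b, (0,0))`. Here `(k,j)` means
`(⟨k, _⟩, ⟨j, _⟩)`, `eta (k,2) = (k+1,0)` and `k + 1 = 0` in `Fin (m+p)` exactly for the last `k`.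
-/

set_option autoImplicit false

noncomputable section

namespace Pool.Agent.MP_d14a53_gt_FT

open Pool.Agent.MP_d14a53_gt_PW

open scoped RealInnerProductSpace

section
variable {m p : ℕ} [NeZero (m + p)] {G : Type*} [Group G]

namespace Yp

theorem add_one_lt {k : ℕ} (h : k + 1 < m + p) :
    (⟨k, by omega⟩ : Fin (m + p)) + 1 = ⟨k + 1, h⟩ := by
  apply Fin.ext
  rw [Fin.val_add, Fin.val_one', Nat.add_mod_mod]
  exact Nat.mod_eq_of_lt h

theorem add_one_last {k : ℕ} (h : k + 1 = m + p) :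
    (⟨k, by omega⟩ : Fin (m + p)) + 1 = 0 := by
  apply Fin.ext
  rw [Fin.val_add, Fin.val_one', Nat.add_mod_mod]
  show (k + 1) % (m + p) = ((0 : Fin (m + p)) : ℕ)
  rw [h, Nat.mod_self, Fin.val_zero]

theorem step (X : Ix m p → G) (b : G) {n : ℕ} {g : G} {z : Ix m p}
    (h : (lbl X b).mv (1, (0, 0)) (fy ^ n) = (g, z)) :
    (lbl X b).mv (1, (0, 0)) (fy ^ (n + 1)) =
      (g * (if z.2 = 2 then bb b z.1 else 1), eta z) := by
  rw [pow_succ, Lb.mv_mul, h, Lb.mv_y]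
  rfl

theorem step0 (X : Ix m p → G) (b : G) {n : ℕ} {g : G} {k : Fin (m + p)}
    (h : (lbl X b).mv (1, (0, 0)) (fy ^ n) = (g, (k, 0))) :
    (lbl X b).mv (1, (0, 0)) (fy ^ (n + 1)) = (g, (k, 1)) := by
  rw [step X b h, if_neg (by show ¬ (0 : Fin 3) = 2; decide), mul_one]
  rfl

theorem step1 (X : Ix m p → G) (b : G) {n : ℕ} {g : G} {k : Fin (m + p)}
    (h : (lbl X b).mv (1, (0, 0)) (fy ^ n) = (g, (k, 1))) :
    (lbl X b).mv (1, (0, 0)) (fy ^ (n + 1)) = (g, (k, 2)) := by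
  rw [step X b h, if_neg (by show ¬ (1 : Fin 3) = 2; decide), mul_one]
  rfl

theorem step2 (X : Ix m p → G) (b : G) {n : ℕ} {g : G} {k : Fin (m + p)}
    (h : (lbl X b).mv (1, (0, 0)) (fy ^ n) = (g, (k, 2))) :
    (lbl X b).mv (1, (0, 0)) (fy ^ (n + 1)) = (g * bb b k, (k + 1, 0)) := by
  rw [step X b h, if_pos rfl]
  rfl

theorem main (X : Ix m p → G) (b : G) (k : ℕ) (hk : k < m + p) :
    (lbl X b).mv (1, (0, 0)) (fy ^ (3 * k)) = (1, (⟨k, hk⟩, 0)) := by
  induction k with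
  | zero =>
    rw [mul_zero, pow_zero, Lb.mv_one]
    rfl
  | succ k ih =>
    have h := step2 X b (step1 X b (step0 X b (ih (by omega))))
    rw [show 3 * (k + 1) = 3 * k + 1 + 1 + 1 by ring, h, add_one_lt hk]
    have h1 : bb b (⟨k, by omega⟩ : Fin (m + p)) = 1 := by
      unfold bb
      rw [add_one_lt hk, if_neg]
      intro h2
      have h3 := congrArg Fin.val h2
      rw [Fin.val_zero] at h3
      exact absurd h3 (Nat.succ_ne_zero k)
    rw [h1, mul_one]

end Yp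

/-- the end point does not depend on the labels -/
theorem mv_ypow (X : Ix m p → G) (b : G) (z : Ix m p) :
    (lbl X b).mv (1, (0, 0)) (fy ^ (3 * (z.1 : ℕ) + (z.2 : ℕ))) = (1, z) := by
  obtain ⟨k, j⟩ := z
  have h := Yp.main X b k k.isLt
  fin_cases j
  · exact h
  · exact Yp.step0 X b h
  · exact Yp.step1 X b (Yp.step0 X b h)

theorem mv_yfull (X : Ix m p → G) (b : G) :
    (lbl X b).mv (1, (0, 0)) (fy ^ (3 * (m + p))) = (b, (0, 0)) := by
  have hpos : 0 < m + p := Nat.pos_of_ne_zero (NeZero.ne _)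
  have h := Yp.step2 X b (Yp.step1 X b (Yp.step0 X b (Yp.main X b (m + p - 1) (by omega))))
  have e : 3 * (m + p - 1) + 1 + 1 + 1 = 3 * (m + p) := by omega
  rw [e] at h
  have h1 : (⟨m + p - 1, by omega⟩ : Fin (m + p)) + 1 = 0 := Yp.add_one_last (by omega)
  rw [h, h1]
  have h2 : bb b (⟨m + p - 1, by omega⟩ : Fin (m + p)) = b := by
    unfold bb
    rw [h1, if_pos rfl]
  rw [h2, one_mul]

end

end Pool.Agent.MP_d14a53_gt_FT
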