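import Mathlib
import Pool.Agent.Lib.MP_d14a53_gt_FT.Defs
import Pool.Agent.Lib.MP_d14a53_gt_FT.Lam2
import Pool.Agent.Lib.MP_d14a53_gt_FT.Yp

/-!
# MP_d14a53_gt FT module GauE

The twisted labels in normal form.

Put `l = lbl X b`, `γ = gam l θ`. `gau_eq`: `τ`, `η` are the same, the labels `X` agree by
definition of `Xth`. For `Y`: `γ z * lam z (θ y) * (γ (eta z))⁻¹`. As `ix (0,0) (θ (y^n)) =
ix (0,0) (y^n) = z` for `n = 3k+j` (`mv_ypow`), `γ z * lam z (θ y) = lam (0,0) (θ (y^(n+1)))`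
(`lam_mul`), which is `γ (eta z)` unless `z` is the last tile (`z.2 = 2` and `z.1 + 1 = 0`), and
`bth l θ` for the last tile, where `γ (eta z) = γ (0,0) = lam (0,0) (θ 1) = 1`.
`gau_lam`: `lam_gauge`, `lam_tw`.
-/

set_option autoImplicit false

noncomputable section

namespace Pool.Agent.MP_d14a53_gt_FT

open Pool.Agent.MP_d14a53_gt_PW

open scoped RealInnerProductSpace

section
variable {m p : ℕ} [NeZero (m + p)] {G : Type*} [Group G]

theorem gam_zero (l : Lb G (Ix m p)) (θ : Fr ≃* Fr) : gam l θ (0, 0) = 1 := by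
  unfold gam
  simp [Lb.lam_one]

namespace GauE

theorem ix_ypow (X : Ix m p → G) (b : G) (z : Ix m p) :
    (lbl X b).ix (0, 0) (fy ^ (3 * (z.1 : ℕ) + (z.2 : ℕ))) = z := by
  unfold Lb.ix
  rw [mv_ypow]

theorem step (X : Ix m p → G) (b : G) (θ : Fr ≃* Fr) (hθ : Adm (lbl X b) θ) (z : Ix m p) :
    gam (lbl X b) θ z * (lbl X b).lam z (θ fy) =
      (lbl X b).lam (0, 0) (θ (fy ^ (3 * (z.1 : ℕ) + (z.2 : ℕ) + 1))) := by
  rw [pow_succ, map_mul, Lb.lam_mul, hθ.ix, ix_ypow]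
  rfl

theorem gam_of (l : Lb G (Ix m p)) (θ : Fr ≃* Fr) (k : Fin (m + p))
    (j : Fin 3) (n : ℕ) (h : 3 * (k : ℕ) + (j : ℕ) = n) :
    gam l θ (k, j) = l.lam (0, 0) (θ (fy ^ n)) := by
  subst h
  rfl

theorem step' (X : Ix m p → G) (b : G) (θ : Fr ≃* Fr) (hθ : Adm (lbl X b) θ) (k : Fin (m + p))
    (j : Fin 3) (n : ℕ) (h : 3 * (k : ℕ) + (j : ℕ) + 1 = n) :
    gam (lbl X b) θ (k, j) * (lbl X b).lam (k, j) (θ fy) =
      (lbl X b).lam (0, 0) (θ (fy ^ n)) := by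
  subst h
  exact step X b θ hθ (k, j)

omit [NeZero (m + p)] in
theorem val_succ [NeZero (m + p)] (k : Fin (m + p)) (h : k + 1 ≠ 0) : ((k + 1 : Fin (m + p)) : ℕ) = k + 1 := by
  rw [Fin.val_add]
  have h1 := k.2
  rcases Nat.lt_or_ge 1 (m + p) with h2 | h2
  · have h3 : ((1 : Fin (m + p)) : ℕ) = 1 := by
      rw [Fin.val_one', Nat.mod_eq_of_lt h2]
    rw [h3]
    apply Nat.mod_eq_of_lt
    by_contra h4
    apply h
    apply Fin.ext
    rw [Fin.val_add, h3, Fin.val_zero]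
    have h5 : (k : ℕ) + 1 = m + p := by omega
    rw [h5, Nat.mod_self]
  · exfalso
    apply h
    have h4 := (k + 1).2
    have h5 := (0 : Fin (m + p)).2
    have h6 : m + p = 1 := by omega
    apply Fin.ext
    have h7 : ((k + 1 : Fin (m + p)) : ℕ) = 0 := Nat.lt_one_iff.1 (h4.trans_le h6.le)
    have h8 : ((0 : Fin (m + p)) : ℕ) = 0 := Nat.lt_one_iff.1 (h5.trans_le h6.le)
    exact h7.trans h8.symm

theorem val_last (k : Fin (m + p)) (h : k + 1 = 0) : (k : ℕ) + 1 = m + p := by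
  have h1 := k.2
  by_contra h2
  have h3 : (k : ℕ) + 1 < m + p := by omega
  have h4 : ((k + 1 : Fin (m + p)) : ℕ) = k + 1 := by
    rw [Fin.val_add]
    have h5 : ((1 : Fin (m + p)) : ℕ) = 1 := by
      rw [Fin.val_one', Nat.mod_eq_of_lt (by omega)]
    rw [h5, Nat.mod_eq_of_lt h3]
  rw [h, Fin.val_zero] at h4
  omega

end GauE

theorem gau_eq (X : Ix m p → G) (b : G) (θ : Fr ≃* Fr) (hθ : Adm (lbl X b) θ) :
    ((lbl X b).tw θ).gauge (gam (lbl X b) θ) = lbl (Xth (lbl X b) θ) (bth (lbl X b) θ) := by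
  have hY : (fun z : Ix m p => gam (lbl X b) θ z * (lbl X b).lam z (θ fy) *
      (gam (lbl X b) θ (eta z))⁻¹) =
      fun z : Ix m p => if z.2 = 2 then bb (bth (lbl X b) θ) z.1 else 1 := by
    funext z
    obtain ⟨k, j⟩ := z
    fin_cases j
    · have e : eta ((k, 0) : Ix m p) = (k, 1) := rfl
      change gam (lbl X b) θ (k, 0) * (lbl X b).lam (k, 0) (θ fy) *
        (gam (lbl X b) θ (eta ((k, 0) : Ix m p)))⁻¹ = 1
      rw [e, GauE.step' X b θ hθ k 0 (3 * (k : ℕ) + 1) (by simp),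
        GauE.gam_of _ θ k 1 (3 * (k : ℕ) + 1) (by simp), mul_inv_cancel]
    · have e : eta ((k, 1) : Ix m p) = (k, 2) := rfl
      change gam (lbl X b) θ (k, 1) * (lbl X b).lam (k, 1) (θ fy) *
        (gam (lbl X b) θ (eta ((k, 1) : Ix m p)))⁻¹ = 1
      rw [e, GauE.step' X b θ hθ k 1 (3 * (k : ℕ) + 2) (by simp),
        GauE.gam_of _ θ k 2 (3 * (k : ℕ) + 2) (by simp), mul_inv_cancel]
    · have e : eta ((k, 2) : Ix m p) = (k + 1, 0) := rfl
      change gam (lbl X b) θ (k, 2) * (lbl X b).lam (k, 2) (θ fy) *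
        (gam (lbl X b) θ (eta ((k, 2) : Ix m p)))⁻¹ = bb (bth (lbl X b) θ) k
      rw [e, GauE.step' X b θ hθ k 2 (3 * (k : ℕ) + 3) (by simp)]
      by_cases hk : k + 1 = 0
      · have h1 := GauE.val_last k hk
        rw [hk, gam_zero, inv_one, mul_one]
        unfold bb bth
        rw [if_pos hk, show 3 * (k : ℕ) + 3 = 3 * (m + p) by omega]
      · have h1 := GauE.val_succ k hk
        have h3 : 3 * ((k + 1 : Fin (m + p)) : ℕ) + ((0 : Fin 3) : ℕ) =
            3 * (k : ℕ) + 3 := by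
          rw [h1, Fin.val_zero]
          ring
        unfold bb
        rw [if_neg hk, GauE.gam_of _ θ (k + 1) 0 _ h3, mul_inv_cancel]
  unfold Lb.gauge Lb.tw
  unfold lbl at hY ⊢
  congr 1

theorem gau_lam (X : Ix m p → G) (b : G) (θ : Fr ≃* Fr) (hθ : Adm (lbl X b) θ) (z : Ix m p)
    (w : Fr) : (lbl (Xth (lbl X b) θ) (bth (lbl X b) θ)).lam z w =
      gam (lbl X b) θ z * (lbl X b).lam z (θ w) * (gam (lbl X b) θ ((lbl X b).ix z w))⁻¹ := by
  have h1 : ((lbl X b).tw θ).ix z w = (lbl X b).ix z w :=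
    Lb.ix_congr ((lbl X b).tw θ) (lbl X b) rfl rfl z w
  have h2 : ((lbl X b).tw θ).lam z w = (lbl X b).lam z (θ w) :=
    Lb.lam_tw (lbl X b) θ (fun i w => hθ.ix i w) z w
  have h3 := Lb.lam_gauge ((lbl X b).tw θ) (gam (lbl X b) θ) z w
  rw [gau_eq X b θ hθ, h1, h2] at h3
  exact h3

end

end Pool.Agent.MP_d14a53_gt_FT
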