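import Mathlib
import Pool.Agent.Lib.MP_d14a53_gt_FT.Defs
import Pool.Agent.Lib.MP_d14a53_gt_FT.Lam

/-!
# MP_d14a53_gt FT module Vx

The vertices of the square tiled surface.

Write `(h, i) · w` for `mv`. Left part: for `k < m` (`tau` reverses) `(1,(k,2)) · kap fx =
(Rr X k, (k,0)·…)`: step by step `(1,(k,2)) x = (X₂,(k,0))`, `y: (X₂,(k,1))`, `x⁻¹: (X₂X₁⁻¹,(k,1))`,
`y⁻¹: (X₂X₁⁻¹,(k,0))`, `x: (X₂X₁⁻¹X₀,(k,2)) = (Rr X k, (k,2))`; for `k ≥ m`: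
`(1,(k,2)) x = (X₂,(k,2))`. Then `y: (Rr X k * bb b k, (k+1, 0))`.
Right part with `k' = k+1`: for `k' < m`: `(1,(k',0)) x⁻¹ = (X₂⁻¹,(k',2))`, `y⁻¹: (X₂⁻¹,(k',1))`,
`x: (X₂⁻¹X₁,(k',1))`, `y: (…,(k',2))`, `x⁻¹: (X₂⁻¹X₁X₀⁻¹,(k',0))`, `y⁻¹: (… (bb b k)⁻¹,(k,2))`, so
`(1,(k',0)) x⁻¹ y⁻¹ kap = ((Tt X k')⁻¹ (bb b k)⁻¹, (k,2))`; for `k' ≥ m` the same for
`x⁻¹ y⁻¹`. Finally `kap^(rk k) = kap^ε x y x⁻¹ y⁻¹ kap^ε'` with `ε = 1` iff `k < m`, `ε' = 1` iff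
`k+1 < m`. All steps with `mv_mul`, `mv_x`, …, `mv_left` (to move the group element in front).
`ver_pun`: the same for the vertices inside the blocks `k ≥ m`.
-/

set_option autoImplicit false

noncomputable section

namespace Pool.Agent.MP_d14a53_gt_FT

open Pool.Agent.MP_d14a53_gt_PW

open scoped RealInnerProductSpace

section
variable {m p : ℕ} [NeZero (m + p)] {G : Type*} [Group G]

namespace Vx

variable (X : Ix m p → G) (b h : G) (k : Fin (m + p))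

theorem x_lt (i : Fin 3) (hk : (k : ℕ) < m) :
    (lbl X b).mv (h, (k, i)) fx = (h * X (k, i), (k, i.rev)) := by
  rw [Lb.mv_x]
  have h1 : tau (k, i) = (k, i.rev) := if_pos hk
  exact Prod.ext rfl h1

theorem x_ge (i : Fin 3) (hk : ¬ (k : ℕ) < m) :
    (lbl X b).mv (h, (k, i)) fx = (h * X (k, i), (k, i)) := by
  rw [Lb.mv_x]
  have h1 : tau (k, i) = (k, i) := if_neg hk
  exact Prod.ext rfl h1

theorem x'_lt (i : Fin 3) (hk : (k : ℕ) < m) :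
    (lbl X b).mv (h, (k, i)) fx⁻¹ = (h * (X (k, i.rev))⁻¹, (k, i.rev)) := by
  rw [Lb.mv_x']
  have h1 : tau.symm (k, i) = (k, i.rev) := if_pos hk
  change (h * (X (tau.symm (k, i)))⁻¹, tau.symm (k, i)) = _
  rw [h1]

theorem x'_ge (i : Fin 3) (hk : ¬ (k : ℕ) < m) :
    (lbl X b).mv (h, (k, i)) fx⁻¹ = (h * (X (k, i))⁻¹, (k, i)) := by
  rw [Lb.mv_x']
  have h1 : tau.symm (k, i) = (k, i) := if_neg hk
  change (h * (X (tau.symm (k, i)))⁻¹, tau.symm (k, i)) = _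
  rw [h1]

theorem y_0 : (lbl X b).mv (h, (k, 0)) fy = (h, (k, 1)) := by
  rw [Lb.mv_y]
  have h1 : (lbl X b).Y (k, 0) = 1 := by
    change (if (0 : Fin 3) = 2 then bb b k else 1) = 1
    exact if_neg (by decide)
  rw [h1, mul_one]
  rfl

theorem y_1 : (lbl X b).mv (h, (k, 1)) fy = (h, (k, 2)) := by
  rw [Lb.mv_y]
  have h1 : (lbl X b).Y (k, 1) = 1 := by
    change (if (1 : Fin 3) = 2 then bb b k else 1) = 1
    exact if_neg (by decide)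
  rw [h1, mul_one]
  rfl

theorem y_2 : (lbl X b).mv (h, (k, 2)) fy = (h * bb b k, (k + 1, 0)) := by
  rw [Lb.mv_y]
  have h1 : (lbl X b).Y (k, 2) = bb b k := by
    change (if (2 : Fin 3) = 2 then bb b k else 1) = bb b k
    exact if_pos rfl
  rw [h1]
  rfl

theorem y'_1 : (lbl X b).mv (h, (k, 1)) fy⁻¹ = (h, (k, 0)) := by
  rw [← y_0 X b h k, ← Lb.mv_mul, mul_inv_cancel, Lb.mv_one]

theorem y'_2 : (lbl X b).mv (h, (k, 2)) fy⁻¹ = (h, (k, 1)) := by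
  rw [← y_1 X b h k, ← Lb.mv_mul, mul_inv_cancel, Lb.mv_one]

theorem y'_0 : (lbl X b).mv (h, (k + 1, 0)) fy⁻¹ = (h * (bb b k)⁻¹, (k, 2)) := by
  have h1 := y_2 X b (h * (bb b k)⁻¹) k
  rw [inv_mul_cancel_right] at h1
  rw [← h1, ← Lb.mv_mul, mul_inv_cancel, Lb.mv_one]

theorem rev0 : (0 : Fin 3).rev = 2 := rfl

theorem rev1 : (1 : Fin 3).rev = 1 := rfl

theorem rev2 : (2 : Fin 3).rev = 0 := rfl

/-- the left part -/
theorem left : (lbl X b).mv (h, (k, 2)) (kap ^ (if (k : ℕ) < m then 1 else 0) * fx) =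
    (h * Rr X k, (k, 2)) := by
  unfold Rr
  by_cases hk : (k : ℕ) < m
  · rw [if_pos hk, if_pos hk, pow_one]
    unfold kap
    rw [Lb.mv_mul, Lb.mv_mul, Lb.mv_mul, Lb.mv_mul, x_lt X b _ _ _ hk, rev2, y_0,
      x'_lt X b _ _ _ hk, rev1, y'_1, x_lt X b _ _ _ hk, rev0]
    simp only [mul_assoc]
  · rw [if_neg hk, if_neg hk, pow_zero, one_mul, x_ge X b _ _ _ hk]

/-- the right part -/
theorem right : (lbl X b).mv (h, (k + 1, 0))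
      (fx⁻¹ * fy⁻¹ * kap ^ (if ((k + 1 : Fin (m + p)) : ℕ) < m then 1 else 0)) =
    (h * (Tt X (k + 1))⁻¹ * (bb b k)⁻¹, (k, 2)) := by
  unfold Tt
  by_cases hk : ((k + 1 : Fin (m + p)) : ℕ) < m
  · rw [if_pos hk, if_pos hk, pow_one]
    unfold kap
    rw [Lb.mv_mul, Lb.mv_mul, Lb.mv_mul, Lb.mv_mul, Lb.mv_mul, x'_lt X b _ _ _ hk, rev0, y'_2,
      x_lt X b _ _ _ hk, rev1, y_1, x'_lt X b _ _ _ hk, rev2, y'_0]
    refine Prod.ext ?_ rfl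
    group
  · rw [if_neg hk, if_neg hk, pow_zero, mul_one, Lb.mv_mul, x'_ge X b _ _ _ hk, y'_0]

end Vx

theorem ver (X : Ix m p → G) (b : G) (k : Fin (m + p)) :
    (lbl X b).mv (1, (k, 2)) (kap ^ rk k) = (vert X b k, (k, 2)) := by
  have h1 : kap ^ rk k = kap ^ (if (k : ℕ) < m then 1 else 0) * fx * fy *
      (fx⁻¹ * fy⁻¹ * kap ^ (if ((k + 1 : Fin (m + p)) : ℕ) < m then 1 else 0)) := by
    unfold rk
    rw [pow_add, pow_add, pow_one]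
    nth_rewrite 2 [kap]
    simp only [mul_assoc]
  rw [h1, Lb.mv_mul _ _ (kap ^ (if (k : ℕ) < m then 1 else 0) * fx * fy),
    Lb.mv_mul _ _ (kap ^ (if (k : ℕ) < m then 1 else 0) * fx), Vx.left, Vx.y_2, Vx.right, one_mul]
  rfl

theorem ver_pun (X : Ix m p → G) (b : G) (k : Fin (m + p)) (hk : m ≤ (k : ℕ)) :
    (lbl X b).mv (1, (k, 0)) kap = (X (k, 0) * (X (k, 1))⁻¹, (k, 0)) ∧
    (lbl X b).mv (1, (k, 1)) kap = (X (k, 1) * (X (k, 2))⁻¹, (k, 1)) := by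
  have hk' : ¬ (k : ℕ) < m := by omega
  unfold kap
  constructor
  · rw [Lb.mv_mul, Lb.mv_mul, Lb.mv_mul, Vx.x_ge X b _ _ _ hk', Vx.y_0, Vx.x'_ge X b _ _ _ hk',
      Vx.y'_1, one_mul]
  · rw [Lb.mv_mul, Lb.mv_mul, Lb.mv_mul, Vx.x_ge X b _ _ _ hk', Vx.y_1, Vx.x'_ge X b _ _ _ hk',
      Vx.y'_2, one_mul]

end

end Pool.Agent.MP_d14a53_gt_FT
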