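import Mathlib
import Pool.Agent.Lib.MP_d14a53_gt_FT.Defs
import Pool.Agent.Lib.MP_d14a53_gt_FT.GauE
import Pool.Agent.Lib.MP_d14a53_gt_FT.Vx

/-!
# MP_d14a53_gt FT module Gau

The vertices of the twisted labels.

`gau_vert`: `ver` says that the path `kap ^ rk k` at `(k,2)` is closed with label `vert`, for every
normal form. Apply it to the labels `Xth`, `bth` and to `X`, `b` and use `gau_lam` with
`w = kap ^ rk k`, `θ w = w` (`hθ.fix`).
`gau_filled`: `gau_vert` for `k < m` and, for `k ≥ m`, `ver_pun` in the same way: the label of `kap`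
at `(k,0)` for the new labels is conjugate to the old one, which is `X₀ X₁⁻¹ = 1`.
-/

set_option autoImplicit false

noncomputable section

namespace Pool.Agent.MP_d14a53_gt_FT

open Pool.Agent.MP_d14a53_gt_PW

open scoped RealInnerProductSpace

section
variable {m p : ℕ} [NeZero (m + p)] {G : Type*} [Group G]

theorem gau_vert (X : Ix m p → G) (b : G) (θ : Fr ≃* Fr) (hθ : Adm (lbl X b) θ)
    (k : Fin (m + p)) : vert (Xth (lbl X b) θ) (bth (lbl X b) θ) k =
      gam (lbl X b) θ (k, 2) * vert X b k * (gam (lbl X b) θ (k, 2))⁻¹ := by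
  have e1 : (lbl (Xth (lbl X b) θ) (bth (lbl X b) θ)).lam (k, 2) (kap ^ rk k) =
      vert (Xth (lbl X b) θ) (bth (lbl X b) θ) k :=
    congrArg Prod.fst (ver (Xth (lbl X b) θ) (bth (lbl X b) θ) k)
  have e2 : (lbl X b).lam (k, 2) (kap ^ rk k) = vert X b k := congrArg Prod.fst (ver X b k)
  have e3 : (lbl X b).ix (k, 2) (kap ^ rk k) = (k, 2) := congrArg Prod.snd (ver X b k)
  have e4 : θ (kap ^ rk k) = kap ^ rk k := by rw [map_pow, hθ.fix]
  rw [← e1, gau_lam X b θ hθ, e4, e2, e3]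

theorem gau_filled (X : Ix m p → G) (b : G) (θ : Fr ≃* Fr) (hθ : Adm (lbl X b) θ)
    (h : Filled X b) : Filled (Xth (lbl X b) θ) (bth (lbl X b) θ) := by
  refine ⟨fun k hk => ?_, fun k hk => ?_⟩
  · obtain ⟨h0, h1⟩ := ver_pun X b k hk
    obtain ⟨g0, g1⟩ := ver_pun (Xth (lbl X b) θ) (bth (lbl X b) θ) k hk
    obtain ⟨f0, f1⟩ := h.pun k hk
    constructor
    · have e1 : (lbl (Xth (lbl X b) θ) (bth (lbl X b) θ)).lam (k, 0) kap =
          Xth (lbl X b) θ (k, 0) * (Xth (lbl X b) θ (k, 1))⁻¹ := congrArg Prod.fst g0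
      have e2 : (lbl X b).lam (k, 0) kap = X (k, 0) * (X (k, 1))⁻¹ := congrArg Prod.fst h0
      have e3 : (lbl X b).ix (k, 0) kap = (k, 0) := congrArg Prod.snd h0
      rw [gau_lam X b θ hθ, hθ.fix, e2, e3, f0, mul_inv_cancel, mul_one, mul_inv_cancel] at e1
      exact (mul_inv_eq_one.1 e1.symm)
    · have e1 : (lbl (Xth (lbl X b) θ) (bth (lbl X b) θ)).lam (k, 1) kap =
          Xth (lbl X b) θ (k, 1) * (Xth (lbl X b) θ (k, 2))⁻¹ := congrArg Prod.fst g1
      have e2 : (lbl X b).lam (k, 1) kap = X (k, 1) * (X (k, 2))⁻¹ := congrArg Prod.fst h1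
      have e3 : (lbl X b).ix (k, 1) kap = (k, 1) := congrArg Prod.snd h1
      rw [gau_lam X b θ hθ, hθ.fix, e2, e3, f1, mul_inv_cancel, mul_one, mul_inv_cancel] at e1
      exact (mul_inv_eq_one.1 e1.symm)
  · rw [gau_vert X b θ hθ, h.ver k hk, mul_one, mul_inv_cancel]

end

end Pool.Agent.MP_d14a53_gt_FT
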