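import Mathlib
import Pool.Agent.Lib.MP_d14a53_gt_FT.Defs
import Pool.Agent.Lib.MP_d14a53_gt_PW.Prod

/-!
# MP_d14a53_gt FT module GenSt

The labels of a generating system.

Put `T k = sT a b c k`. Then `T 0 = b₀ a₀ b₀⁻¹`, `T (k+1) = [a_{k+1}, b_{k+1}]⁻¹ T k` for `k < m`
(`HP_succ`), `T (m+j+1) = (…)`: `T (m+j) (T (m+j+1))⁻¹ = c j` conjugated suitably — precisely, with
`P k = (HP 1)⁻¹ HP (k+1) CP (k-m)`: `P (k+1) = P k [a_{k+1}, b_{k+1}]` for `k < m`,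
`P (m+j+1) = P (m+j) c_j` for `j < p`, `T k = (P k)⁻¹ T 0`; so
`T k = [a_{k+1}, b_{k+1}] T (k+1)` and `T (m+j) = c_j T (m+j+1)`. By the relation
`P (m+p) = (HP 1)⁻¹ = (b₀ a₀ b₀⁻¹ a₀⁻¹)`, so `T (m+p) = a₀ = b⁻¹…`: precisely
`T (m+p) = HP 1 * b₀ a₀ b₀⁻¹ = a₀` `= b T₀ b⁻¹` with `b = b₀⁻¹`.
For `k < m`, `u = a_{k+1}`, `w = b_{k+1}`: `X₀ = u w⁻¹ u⁻¹ T`, `X₁ = (u w)⁻¹ T`, `X₂ = u⁻¹ T`,
hence `X₀X₁⁻¹ = u`, `X₂X₁⁻¹ = w`, `Tt = X₀X₁⁻¹X₂ = T k`, `Rr = X₂X₁⁻¹X₀ = w u w⁻¹ u⁻¹ T k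
= T (k+1)`. For `k ≥ m` all three are `T k`. So `vert k = T (k+1) bb_k (Tt (k+1))⁻¹ bb_k⁻¹` resp.
`T k bb_k (Tt (k+1))⁻¹ bb_k⁻¹`, where `Tt (k+1) = T (k+1)` if `k+1` is not zero in `Fin (m+p)` and
`bb_k (Tt 0) bb_k⁻¹ = b T 0 b⁻¹ = T (m+p)` for the last block.
-/

set_option autoImplicit false

noncomputable section

namespace Pool.Agent.MP_d14a53_gt_FT

open Pool.Agent.MP_d14a53_gt_PW

open scoped RealInnerProductSpace

section
variable {m p : ℕ} [NeZero (m + p)] {G : Type*} [Group G]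

namespace GenSt

variable (a b : Fin (m + 1) → G) (c : Fin p → G)

omit [NeZero (m + p)] in
theorem HP_ge (n : ℕ) (h : m + 1 ≤ n) : HP a b (n + 1) = HP a b n :=
  PA1.LP_ge (fun i : Fin (m + 1) => a i * b i * (a i)⁻¹ * (b i)⁻¹) n h

omit [NeZero (m + p)] in
theorem HP_ge' (n : ℕ) (h : m + 1 ≤ n) : HP a b n = HP a b (m + 1) := by
  induction n, h using Nat.le_induction with
  | base => rfl
  | succ n hn ih => rw [HP_ge a b n hn, ih]

omit [NeZero (m + p)] in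
theorem HP_one : HP a b 1 = a 0 * b 0 * (a 0)⁻¹ * (b 0)⁻¹ := by
  have h := HP_succ a b 0
  rw [Fin.val_zero, HP_zero, one_mul] at h
  exact h

omit [NeZero (m + p)] in
theorem sT_zero : sT a b c 0 = b 0 * a 0 * (b 0)⁻¹ := by
  unfold sT
  rw [Nat.zero_sub, CP_zero, zero_add, inv_mul_cancel, mul_one, inv_one, one_mul]

omit [NeZero (m + p)] in
theorem sT_lt (k : ℕ) (h : k < m) : sT a b c k = a ⟨k + 1, by omega⟩ * b ⟨k + 1, by omega⟩ *
    (a ⟨k + 1, by omega⟩)⁻¹ * (b ⟨k + 1, by omega⟩)⁻¹ * sT a b c (k + 1) := by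
  unfold sT
  have h1 := HP_succ a b ⟨k + 1, by omega⟩
  rw [show ((⟨k + 1, by omega⟩ : Fin (m + 1)) : ℕ) = k + 1 from rfl] at h1
  rw [h1, show k - m = 0 by omega, show k + 1 - m = 0 by omega, CP_zero]
  group

omit [NeZero (m + p)] in
theorem sT_ge (j : Fin p) : sT a b c (m + j) = c j * sT a b c (m + j + 1) := by
  unfold sT
  rw [HP_ge' a b (m + j + 1) (by omega), HP_ge' a b (m + j + 1 + 1) (by omega),
    show m + (j : ℕ) - m = j by omega, show m + (j : ℕ) + 1 - m = j + 1 by omega, CP_succ c j]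
  group

omit [NeZero (m + p)] in
theorem sT_end (h : HP a b (m + 1) * CP c p = 1) : sT a b c (m + p) = a 0 := by
  unfold sT
  rw [HP_ge' a b (m + p + 1) (by omega), show m + p - m = p by omega, mul_assoc, h, mul_one,
    inv_inv, HP_one]
  group

omit [NeZero (m + p)] in
theorem stX_lt (k : Fin (m + p)) (h : (k : ℕ) < m) :
    stX a b c (k, 0) = a ⟨k + 1, by omega⟩ * (b ⟨k + 1, by omega⟩)⁻¹ *
      (a ⟨k + 1, by omega⟩)⁻¹ * sT a b c k ∧
    stX a b c (k, 1) = (a ⟨k + 1, by omega⟩ * b ⟨k + 1, by omega⟩)⁻¹ * sT a b c k ∧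
    stX a b c (k, 2) = (a ⟨k + 1, by omega⟩)⁻¹ * sT a b c k := by
  unfold stX
  refine ⟨?_, ?_, ?_⟩ <;> rw [dif_pos h]

omit [NeZero (m + p)] in
theorem stX_ge (k : Fin (m + p)) (h : ¬ (k : ℕ) < m) (i : Fin 3) :
    stX a b c (k, i) = sT a b c k := by
  unfold stX
  rw [dif_neg h]

theorem Tt_eq (k : Fin (m + p)) : Tt (stX a b c) k = sT a b c k := by
  unfold Tt
  by_cases h : (k : ℕ) < m
  · obtain ⟨h0, h1, h2⟩ := stX_lt a b c k h
    rw [if_pos h, h0, h1, h2]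
    group
  · rw [if_neg h, stX_ge a b c k h]

theorem Rr_lt (k : Fin (m + p)) (h : (k : ℕ) < m) : Rr (stX a b c) k = sT a b c (k + 1) := by
  unfold Rr
  obtain ⟨h0, h1, h2⟩ := stX_lt a b c k h
  rw [if_pos h, h0, h1, h2, sT_lt a b c k h]
  group

theorem Rr_ge (k : Fin (m + p)) (h : ¬ (k : ℕ) < m) : Rr (stX a b c) k = sT a b c k := by
  unfold Rr
  rw [if_neg h, stX_ge a b c k h]

theorem vert_eq (h : HP a b (m + 1) * CP c p = 1) (k : Fin (m + p)) :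
    vert (stX a b c) (b 0)⁻¹ k = Rr (stX a b c) k * (sT a b c (k + 1))⁻¹ := by
  unfold vert bb
  by_cases h0 : k + 1 = 0
  · have hk : (k : ℕ) + 1 = m + p := by
      have h1 : ((k + 1 : Fin (m + p)) : ℕ) = 0 := by rw [h0]; simp
      rw [Fin.val_add, Fin.val_one', Nat.add_mod_mod] at h1
      have h2 := k.2
      rcases Nat.lt_or_ge ((k : ℕ) + 1) (m + p) with h3 | h3
      · rw [Nat.mod_eq_of_lt h3] at h1
        omega
      · omega
    rw [if_pos h0, Tt_eq, h0, hk, sT_end a b c h]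
    have h3 : ((0 : Fin (m + p)) : ℕ) = 0 := by simp
    rw [h3, sT_zero]
    group
  · have hk : ((k + 1 : Fin (m + p)) : ℕ) = (k : ℕ) + 1 := by
      rw [Fin.val_add, Fin.val_one', Nat.add_mod_mod]
      refine Nat.mod_eq_of_lt ?_
      by_contra h3
      apply h0
      have h2 := k.2
      apply Fin.ext
      rw [Fin.val_add, Fin.val_one', Nat.add_mod_mod, show (k : ℕ) + 1 = m + p by omega,
        Nat.mod_self]
      simp
    rw [if_neg h0, Tt_eq, hk]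
    group

end GenSt

theorem gen_st (a b : Fin (m + 1) → G) (c : Fin p → G) (h : HP a b (m + 1) * CP c p = 1) :
    Filled (stX a b c) (b 0)⁻¹ ∧ ga (stX a b c) (b 0)⁻¹ = a ∧ gb (stX a b c) (b 0)⁻¹ = b ∧
      gc (stX a b c) (b 0)⁻¹ = c := by
  refine ⟨⟨fun k hk => ?_, fun k hk => ?_⟩, ?_, ?_, ?_⟩
  · have hk' : ¬ (k : ℕ) < m := by omega
    rw [GenSt.stX_ge a b c k hk', GenSt.stX_ge a b c k hk', GenSt.stX_ge a b c k hk']
    exact ⟨rfl, rfl⟩
  · rw [GenSt.vert_eq a b c h, GenSt.Rr_lt a b c k hk, mul_inv_cancel]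
  · funext i
    unfold ga
    refine Fin.cases ?_ (fun k => ?_) i
    · rw [Fin.cases_zero, GenSt.Tt_eq]
      have h3 : ((0 : Fin (m + p)) : ℕ) = 0 := by simp
      rw [h3, GenSt.sT_zero]
      group
    · rw [Fin.cases_succ]
      obtain ⟨h0, h1, h2⟩ := GenSt.stX_lt a b c (Fin.castAdd p k) (by simp)
      rw [h0, h1]
      have h3 : (⟨((Fin.castAdd p k : Fin (m + p)) : ℕ) + 1, by
        have := k.2
        simp⟩ : Fin (m + 1)) = k.succ := by
        apply Fin.ext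
        simp
      rw [h3]
      group
  · funext i
    unfold gb
    refine Fin.cases ?_ (fun k => ?_) i
    · rw [Fin.cases_zero, inv_inv]
    · rw [Fin.cases_succ]
      obtain ⟨h0, h1, h2⟩ := GenSt.stX_lt a b c (Fin.castAdd p k) (by simp)
      rw [h2, h1]
      have h3 : (⟨((Fin.castAdd p k : Fin (m + p)) : ℕ) + 1, by
        have := k.2
        simp⟩ : Fin (m + 1)) = k.succ := by
        apply Fin.ext
        simp
      rw [h3]
      group
  · funext j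
    unfold gc
    rw [GenSt.vert_eq a b c h, GenSt.Rr_ge a b c _ (by simp), Fin.val_natAdd,
      GenSt.sT_ge a b c j]
    group

end

end Pool.Agent.MP_d14a53_gt_FT
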