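import Mathlib
import Pool.Agent.Lib.MP_d14a53_gt_FT.Defs
import Pool.Agent.Lib.MP_d14a53_gt_PW.Prod

/-!
# MP_d14a53_gt FT module Rel

The relation of the surface group.

Let `ga, gb, gc` be the generators. `[ga 0, gb 0] = b T₀ b⁻¹ T₀⁻¹` and for `k < m`
`[ga (k+1), gb (k+1)] = X₀X₁⁻¹ X₂X₁⁻¹ X₁X₀⁻¹ X₁X₂⁻¹ = T_k R_k⁻¹` (indices `(k, ·)`). Since
`vert k = 1`, `R_k = bb_k T_{k+1} bb_k⁻¹`. For `k ≥ m`, `R_k = T_k` (`pun`), so
`gc j = T_{m+j} bb T_{m+j+1}⁻¹ bb⁻¹`. Here `bb_k = 1` unless `k` is the last block, and then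
`k + 1 = 0`, `bb_k = b`. Hence by induction `HP (n+1) = b T₀ b⁻¹ · U_n⁻¹` for `n ≤ m`, where
`U_n = T_n` for `n < m + p` and `U_n = b T₀ b⁻¹` for `n = m + p` (only if `p = 0`), and
`HP (m+1) * CP n = b T₀ b⁻¹ U_{m+n}⁻¹`; for `n = p` this is `1`. Use `HP_succ`, `CP_succ`.
-/

set_option autoImplicit false

noncomputable section

namespace Pool.Agent.MP_d14a53_gt_FT

open Pool.Agent.MP_d14a53_gt_PW

open scoped RealInnerProductSpace

section
variable {m p : ℕ} [NeZero (m + p)] {G : Type*} [Group G]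

namespace Rel

/-- the boundary words, with the value after the last block -/
def U (X : Ix m p → G) (b : G) (n : ℕ) : G :=
  if h : n < m + p then Tt X ⟨n, h⟩ else b * Tt X 0 * b⁻¹

omit [NeZero (m + p)] in
theorem pos_of_fin (k : Fin (m + p)) : 0 < m + p := lt_of_le_of_lt (Nat.zero_le _) k.2

theorem val_succ (k : Fin (m + p)) : ((k + 1 : Fin (m + p)) : ℕ) = ((k : ℕ) + 1) % (m + p) := by
  rw [Fin.val_add, Fin.val_one', Nat.add_mod_mod]

theorem U_succ (X : Ix m p → G) (b : G) (k : Fin (m + p)) :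
    bb b k * Tt X (k + 1) * (bb b k)⁻¹ = U X b ((k : ℕ) + 1) := by
  have h1 := val_succ k
  have hk := k.2
  unfold U bb
  by_cases h : (k : ℕ) + 1 < m + p
  · rw [Nat.mod_eq_of_lt h] at h1
    have h2 : k + 1 = ⟨(k : ℕ) + 1, h⟩ := Fin.ext h1
    have h3 : k + 1 ≠ 0 := by
      intro h4
      rw [h4] at h1
      simp at h1
    rw [dif_pos h, if_neg h3, h2, one_mul, inv_one, mul_one]
  · have h5 : (k : ℕ) + 1 = m + p := by omega
    rw [h5, Nat.mod_self] at h1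
    have h2 : k + 1 = 0 := by
      refine Fin.ext ?_
      rw [h1]
      simp
    rw [dif_neg h, if_pos h2, h2]

theorem vert_eq (X : Ix m p → G) (b : G) (k : Fin (m + p)) :
    vert X b k = Rr X k * (U X b ((k : ℕ) + 1))⁻¹ := by
  rw [← U_succ]
  unfold vert
  group

omit [NeZero (m + p)] in
theorem block (X : Ix m p → G) {k : Fin (m + p)} (hk : (k : ℕ) < m) :
    X (k, 0) * (X (k, 1))⁻¹ * (X (k, 2) * (X (k, 1))⁻¹) * (X (k, 0) * (X (k, 1))⁻¹)⁻¹ *
      (X (k, 2) * (X (k, 1))⁻¹)⁻¹ = Tt X k * (Rr X k)⁻¹ := by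
  unfold Tt Rr
  rw [if_pos hk, if_pos hk]
  group

theorem hp (X : Ix m p → G) (b : G) (h : Filled X b) (n : ℕ) (hn : n ≤ m) :
    HP (ga X b) (gb X b) (n + 1) = b * Tt X 0 * b⁻¹ * (U X b n)⁻¹ := by
  induction n with
  | zero =>
    have h1 := HP_succ (ga X b) (gb X b) 0
    have h2 : ((0 : Fin (m + 1)) : ℕ) = 0 := rfl
    rw [h2, HP_zero, one_mul] at h1
    rw [h1]
    have h3 : 0 < m + p := Nat.pos_of_ne_zero (NeZero.ne _)
    have h4 : U X b 0 = Tt X 0 := by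
      unfold U
      rw [dif_pos h3]
      rfl
    have h5 : ga X b 0 = b * Tt X 0 * b⁻¹ := rfl
    have h6 : gb X b 0 = b⁻¹ := rfl
    rw [h4, h5, h6]
    group
  | succ n ih =>
    have hn' : n < m := hn
    have h1 := HP_succ (ga X b) (gb X b) (Fin.succ ⟨n, hn'⟩)
    have h2 : ((Fin.succ (⟨n, hn'⟩ : Fin m) : Fin (m + 1)) : ℕ) = n + 1 := rfl
    rw [h2, ih hn'.le] at h1
    rw [h1]
    set k : Fin (m + p) := Fin.castAdd p ⟨n, hn'⟩ with hk
    have hkv : (k : ℕ) = n := rfl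
    have h5 : ga X b (Fin.succ ⟨n, hn'⟩) = X (k, 0) * (X (k, 1))⁻¹ := rfl
    have h6 : gb X b (Fin.succ ⟨n, hn'⟩) = X (k, 2) * (X (k, 1))⁻¹ := rfl
    rw [h5, h6, block X (k := k) (by rw [hkv]; exact hn')]
    have h7 := h.ver k (by rw [hkv]; exact hn')
    rw [vert_eq, hkv, mul_inv_eq_one] at h7
    have h8 : U X b n = Tt X k := by
      unfold U
      rw [dif_pos (by omega : n < m + p)]
      rfl
    rw [h7, h8]
    group

theorem cp (X : Ix m p → G) (b : G) (h : Filled X b) (n : ℕ) (hn : n ≤ p) :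
    HP (ga X b) (gb X b) (m + 1) * CP (gc X b) n = b * Tt X 0 * b⁻¹ * (U X b (m + n))⁻¹ := by
  induction n with
  | zero =>
    rw [CP_zero, mul_one, hp X b h m le_rfl, add_zero]
  | succ n ih =>
    have hn' : n < p := hn
    have h1 := CP_succ (gc X b) ⟨n, hn'⟩
    have h2 : ((⟨n, hn'⟩ : Fin p) : ℕ) = n := rfl
    rw [h2] at h1
    rw [h1, ← mul_assoc, ih hn'.le]
    set k : Fin (m + p) := Fin.natAdd m ⟨n, hn'⟩ with hk
    have hkv : (k : ℕ) = m + n := rfl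
    have h3 : gc X b ⟨n, hn'⟩ = vert X b k := rfl
    have h4 : Rr X k = U X b (m + n) := by
      obtain ⟨h5, h6⟩ := h.pun k (by rw [hkv]; omega)
      have h7 : ¬ (k : ℕ) < m := by rw [hkv]; omega
      have h8 : U X b (m + n) = Tt X k := by
        unfold U
        rw [dif_pos (by omega : m + n < m + p)]
        rfl
      rw [h8]
      unfold Rr Tt
      rw [if_neg h7, if_neg h7, h5, h6]
    rw [h3, vert_eq, h4, hkv]
    group

end Rel

theorem rel_of_filled {X : Ix m p → G} {b : G} (h : Filled X b) :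
    HP (ga X b) (gb X b) (m + 1) * CP (gc X b) p = 1 := by
  rw [Rel.cp X b h p le_rfl]
  unfold Rel.U
  rw [dif_neg (lt_irrefl _), mul_inv_cancel]

end

end Pool.Agent.MP_d14a53_gt_FT
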