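import Mathlib
import Pool.Agent.Lib.MP_d14a53_gt_FT.Defs
import Pool.Agent.Lib.MP_d14a53_gt_PW.Prod

/-!
# MP_d14a53_gt FT module StGen

The labels are determined by the generators.

Let `a = ga X b`, `β = gb X b`, `c = gc X b`. Show `Tt X k = sT a β c k` for all `k < m + p` by
induction on `k`: `sT … 0 = β₀ a₀ β₀⁻¹ = b⁻¹ (b T₀ b⁻¹) b = T₀`. For `k < m`:
`[a_{k+1}, β_{k+1}] = T_k R_k⁻¹` and `R_k = T_{k+1}` (`ver`, if `k` is not the last block), and
`sT (k+1) = [a_{k+1}, β_{k+1}]⁻¹ sT k` (`HP_succ`). For `k = m + j`, `j + 1 < p`: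
`c_j = R_k T_{k+1}⁻¹ = T_k T_{k+1}⁻¹` (`pun`) and `sT (k+1) = c_j⁻¹ sT k` (`CP_succ`).
Then `X` in the block `k < m`: `u = X₀X₁⁻¹`, `w = X₂X₁⁻¹`, `T = X₀X₁⁻¹X₂`, so `u⁻¹ T = X₂`,
`(u w)⁻¹ T = w⁻¹ X₂ = X₁`, `u w⁻¹ u⁻¹ T = u X₁ = X₀`. For `k ≥ m`: `X_j = T_k` (`pun`).
-/

set_option autoImplicit false

noncomputable section

namespace Pool.Agent.MP_d14a53_gt_FT

open Pool.Agent.MP_d14a53_gt_PW

open scoped RealInnerProductSpace

namespace StGen

section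
variable {m p : ℕ} {G : Type*} [Group G]

theorem sT_zero (a b : Fin (m + 1) → G) (c : Fin p → G) :
    sT a b c 0 = b 0 * a 0 * (b 0)⁻¹ := by
  unfold sT
  rw [Nat.zero_sub, CP_zero, Nat.zero_add]
  simp

theorem sT_succ_lt (a b : Fin (m + 1) → G) (c : Fin p → G) (k : ℕ) (hk : k < m) :
    sT a b c (k + 1) = (a ⟨k + 1, by omega⟩ * b ⟨k + 1, by omega⟩ * (a ⟨k + 1, by omega⟩)⁻¹ *
      (b ⟨k + 1, by omega⟩)⁻¹)⁻¹ * sT a b c k := by
  unfold sT
  have h1 : k - m = 0 := by omega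
  have h2 : k + 1 - m = 0 := by omega
  rw [h1, h2, CP_zero, mul_one, mul_one]
  have h3 := HP_succ a b ⟨k + 1, by omega⟩
  simp only at h3
  rw [h3]
  group

theorem sT_succ_ge (a b : Fin (m + 1) → G) (c : Fin p → G) (j : ℕ) (hj : j < p) :
    sT a b c (m + j + 1) = (c ⟨j, hj⟩)⁻¹ * sT a b c (m + j) := by
  unfold sT
  have h1 : m + j - m = j := by omega
  have h2 : m + j + 1 - m = j + 1 := by omega
  rw [h1, h2]
  have h3 := CP_succ c ⟨j, hj⟩
  simp only at h3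
  have h4 : HP a b (m + j + 1 + 1) = HP a b (m + j + 1) :=
    PA1.LP_ge _ _ (by omega)
  rw [h3, h4]
  group

end

section
variable {m p : ℕ} [NeZero (m + p)] {G : Type*} [Group G]

omit [NeZero (m + p)] in
theorem add_one_eq [NeZero (m + p)] (k : ℕ) (hk : k + 1 < m + p) :
    (⟨k, by omega⟩ : Fin (m + p)) + 1 = ⟨k + 1, hk⟩ := by
  apply Fin.ext
  rw [Fin.val_add, Fin.val_one']
  rw [Nat.mod_eq_of_lt (a := 1) (by omega)]
  exact Nat.mod_eq_of_lt hk

theorem bb_one (b : G) (k : ℕ) (hk : k + 1 < m + p) :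
    bb b (⟨k, by omega⟩ : Fin (m + p)) = 1 := by
  unfold bb
  rw [add_one_eq k hk, if_neg]
  intro h
  have := congrArg Fin.val h
  simp at this

theorem vert_eq (X : Ix m p → G) (b : G) (k : ℕ) (hk : k + 1 < m + p) :
    vert X b (⟨k, by omega⟩ : Fin (m + p)) =
      Rr X ⟨k, by omega⟩ * (Tt X ⟨k + 1, hk⟩)⁻¹ := by
  unfold vert
  rw [bb_one b k hk, add_one_eq k hk]
  simp

theorem Tt_eq {X : Ix m p → G} {b : G} (h : Filled X b) (k : ℕ) (hk : k < m + p) :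
    Tt X ⟨k, hk⟩ = sT (ga X b) (gb X b) (gc X b) k := by
  induction k with
  | zero =>
    rw [sT_zero]
    have h0 : (⟨0, hk⟩ : Fin (m + p)) = 0 := Fin.ext (by simp)
    rw [h0]
    simp only [ga, gb, Fin.cases_zero]
    group
  | succ k ih =>
    have ih' := ih (by omega)
    rcases lt_or_ge k m with hkm | hkm
    · rw [sT_succ_lt _ _ _ k hkm, ← ih']
      have hv := h.ver ⟨k, by omega⟩ hkm
      rw [vert_eq X b k hk, mul_inv_eq_one] at hv
      rw [← hv]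
      have ea : ga X b ⟨k + 1, by omega⟩ =
          X (⟨k, by omega⟩, 0) * (X (⟨k, by omega⟩, 1))⁻¹ := rfl
      have eb : gb X b ⟨k + 1, by omega⟩ =
          X (⟨k, by omega⟩, 2) * (X (⟨k, by omega⟩, 1))⁻¹ := rfl
      rw [ea, eb]
      unfold Rr Tt
      rw [if_pos hkm, if_pos hkm]
      group
    · obtain ⟨j, rfl⟩ := Nat.exists_eq_add_of_le hkm
      rw [sT_succ_ge _ _ _ j (by omega), ← ih']
      have hc : gc X b ⟨j, by omega⟩ = vert X b ⟨m + j, by omega⟩ := rfl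
      rw [hc, vert_eq X b (m + j) hk]
      have hp := h.pun ⟨m + j, by omega⟩ hkm
      have hR : Rr X (⟨m + j, by omega⟩ : Fin (m + p)) = Tt X ⟨m + j, by omega⟩ := by
        unfold Rr Tt
        rw [if_neg (not_lt.2 hkm), if_neg (not_lt.2 hkm)]
        rw [hp.1, hp.2]
      rw [hR]
      group

end

end StGen

section
variable {m p : ℕ} [NeZero (m + p)] {G : Type*} [Group G]

theorem st_gen {X : Ix m p → G} {b : G} (h : Filled X b) :
    X = stX (ga X b) (gb X b) (gc X b) := by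
  funext z
  obtain ⟨⟨k, hk⟩, j⟩ := z
  have hT := StGen.Tt_eq h k hk
  unfold stX
  simp only
  rcases lt_or_ge k m with hkm | hkm
  · rw [dif_pos hkm, ← hT]
    have ea : ga X b ⟨k + 1, by omega⟩ =
        X (⟨k, by omega⟩, 0) * (X (⟨k, by omega⟩, 1))⁻¹ := rfl
    have eb : gb X b ⟨k + 1, by omega⟩ =
        X (⟨k, by omega⟩, 2) * (X (⟨k, by omega⟩, 1))⁻¹ := rfl
    have eT : Tt X ⟨k, hk⟩ = X (⟨k, hk⟩, 0) * (X (⟨k, hk⟩, 1))⁻¹ * X (⟨k, hk⟩, 2) := by
      unfold Tt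
      rw [if_pos hkm]
    fin_cases j
    · simp only [Fin.zero_eta, ea, eb, eT]
      group
    · simp only [Fin.mk_one, ea, eb, eT]
      group
    · simp only [Fin.reduceFinMk, ea, eT]
      group
  · rw [dif_neg (not_lt.2 hkm), ← hT]
    have hp := h.pun ⟨k, hk⟩ hkm
    have eT : Tt X ⟨k, hk⟩ = X (⟨k, hk⟩, 0) := by
      unfold Tt
      rw [if_neg (not_lt.2 hkm)]
    rw [eT]
    fin_cases j
    · rfl
    · exact hp.1.symm
    · exact (hp.1.trans hp.2).symm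

end

end Pool.Agent.MP_d14a53_gt_FT
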