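import Mathlib
import Pool.Agent.Lib.MP_d14a53_gt_FT.Defs
import Pool.Agent.Lib.MP_d14a53_gt_FT.Rel
import Pool.Agent.Lib.MP_d14a53_gt_FT.StGen
import Pool.Agent.Lib.MP_d14a53_gt_PW.Prod
import Pool.Agent.Lib.MP_d14a53_gt_PW.Lift

/-!
# MP_d14a53_gt FT module Hm

Homomorphisms of the surface group from filled labels.

`stX_map`: `map_HP`, `map_CP`. `hom_of`: take `φ` from `surf_lift hs (ga X b') (gb X b')
(gc X b')` and `rel_of_filled`; `φ (stX a b c z) = stX (φ ∘ a) … z = X z` by `st_gen`, and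
`φ (b 0) = gb X b' 0 = b'⁻¹`.
-/

set_option autoImplicit false

noncomputable section

namespace Pool.Agent.MP_d14a53_gt_FT

open Pool.Agent.MP_d14a53_gt_PW

open scoped RealInnerProductSpace

section
variable {m p : ℕ} [NeZero (m + p)] {G : Type*} [Group G]

omit [NeZero (m + p)] in
theorem Hm.sT_map {G' : Type*} [Group G'] (φ : G →* G') (a b : Fin (m + 1) → G) (c : Fin p → G)
    (k : ℕ) : φ (sT a b c k) = sT (fun i => φ (a i)) (fun i => φ (b i)) (fun j => φ (c j)) k := by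
  unfold sT
  simp only [map_mul, map_inv, map_HP, map_CP]

theorem stX_map {G' : Type*} [Group G'] (φ : G →* G') (a b : Fin (m + 1) → G) (c : Fin p → G)
    (z : Ix m p) :
    φ (stX a b c z) = stX (fun i => φ (a i)) (fun i => φ (b i)) (fun j => φ (c j)) z := by
  obtain ⟨k, j⟩ := z
  unfold stX
  by_cases h : (k : ℕ) < m
  · simp only [dif_pos h]
    fin_cases j <;> simp only [map_mul, map_inv, Hm.sT_map]
  · simp only [dif_neg h, Hm.sT_map]

theorem hom_of {π : Type*} [Group π] {a b : Fin (m + 1) → π} {c : Fin p → π}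
    (hs : IsSurf a b c) {X : Ix m p → G} {b' : G} (h : Filled X b') :
    ∃ φ : π →* G, (∀ z, φ (stX a b c z) = X z) ∧ φ ((b 0)⁻¹) = b' ∧
      ∀ j, φ (c j) = gc X b' j := by
  obtain ⟨φ, ha, hb, hc⟩ := surf_lift hs (ga X b') (gb X b') (gc X b') (rel_of_filled h)
  refine ⟨φ, fun z => ?_, ?_, hc⟩
  · rw [stX_map]
    simp only [ha, hb, hc]
    exact (congrFun (st_gen h) z).symm
  · rw [map_inv, hb]
    simp [gb]

end

end Pool.Agent.MP_d14a53_gt_FT
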