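import Mathlib
import Pool.Agent.Lib.MP_d14a53_gt_FT.Defs
import Pool.Agent.Lib.MP_d14a53_gt_FT.Gau
import Pool.Agent.Lib.MP_d14a53_gt_FT.Hm
import Pool.Agent.Lib.MP_d14a53_gt_FT.GenSt
import Pool.Agent.Lib.MP_d14a53_gt_PW.Lift
import Pool.Agent.Lib.MP_d14a53_gt_PW.Prod

/-!
# MP_d14a53_gt FT module AutH

The endomorphism of the surface group.

`hom_of hs (gau_filled …)` (with `gen_st`, `surf_rel hs`) gives `φ` with `φ (stX z) = Xth z`,
`φ (b 0)⁻¹ = bth`, so `l.map φ = lbl Xth bth` for `l = stL a b c` and by `lam_map`, `gau_lam`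
`φ (lam z w) = γ z * lam z (θ w) * (γ (ix z w))⁻¹`, `γ (0,0) = 1` (`gam_zero`). And
`φ (c j) = gc Xth bth j = γ c_j γ⁻¹` by `gau_vert` (`gen_st`: `gc (stX a b c) (b 0)⁻¹ = c`).
-/

set_option autoImplicit false

noncomputable section

namespace Pool.Agent.MP_d14a53_gt_FT

open Pool.Agent.MP_d14a53_gt_PW

open scoped RealInnerProductSpace

section
variable {m p : ℕ} [NeZero (m + p)] {π : Type*} [Group π]

theorem aut_hom {a b : Fin (m + 1) → π} {c : Fin p → π} (hs : IsSurf a b c) (θ : Fr ≃* Fr)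
    (hθ : Adm (stL a b c) θ) :
    ∃ φ : π →* π, (∀ w, (stL a b c).ix (0, 0) w = (0, 0) →
      φ ((stL a b c).lam (0, 0) w) = (stL a b c).lam (0, 0) (θ w)) ∧
      ∀ j, ∃ x, φ (c j) = x * c j * x⁻¹ := by
  obtain ⟨hfil, -, -, hgc⟩ := gen_st a b c (surf_rel hs)
  have hfil' := gau_filled (stX a b c) (b 0)⁻¹ θ hθ hfil
  obtain ⟨φ, h1, h2, h3⟩ := hom_of hs hfil'
  refine ⟨φ, fun w hw => ?_, fun j => ?_⟩
  · have hmap : (stL a b c).map φ = lbl (Xth (stL a b c) θ) (bth (stL a b c) θ) := by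
      have e1 : (fun z => φ (stX a b c z)) = Xth (stL a b c) θ := funext h1
      have e2 : (fun z : Ix m p => φ (if z.2 = 2 then bb (b 0)⁻¹ z.1 else 1)) =
          fun z : Ix m p => if z.2 = 2 then bb (bth (stL a b c) θ) z.1 else 1 := by
        funext z
        split_ifs
        · unfold bb
          split_ifs
          · exact h2
          · exact map_one φ
        · exact map_one φ
      show (⟨fun z => φ (stX a b c z), fun z : Ix m p => φ (if z.2 = 2 then bb (b 0)⁻¹ z.1 else 1),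
        tau, eta⟩ : Lb π (Ix m p)) = ⟨Xth (stL a b c) θ,
        fun z : Ix m p => if z.2 = 2 then bb (bth (stL a b c) θ) z.1 else 1, tau, eta⟩
      rw [e1, e2]
    have h4 := Lb.lam_map (stL a b c) φ (0, 0) w
    rw [← h4, hmap]
    have h5 := gau_lam (stX a b c) (b 0)⁻¹ θ hθ (0, 0) w
    have h6 : (lbl (stX a b c) (b 0)⁻¹).ix (0, 0) w = (0, 0) := hw
    rw [h6, gam_zero, one_mul, inv_one, mul_one] at h5
    exact h5
  · refine ⟨gam (lbl (stX a b c) (b 0)⁻¹) θ (Fin.natAdd m j, 2), ?_⟩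
    rw [h3 j]
    unfold gc
    rw [gau_vert (stX a b c) (b 0)⁻¹ θ hθ]
    have h7 : vert (stX a b c) (b 0)⁻¹ (Fin.natAdd m j) = c j := congrFun hgc j
    rw [h7]

end

end Pool.Agent.MP_d14a53_gt_FT
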