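import Mathlib
import Pool.Agent.Lib.MP_d14a53_gt_FT.Defs
import Pool.Agent.Lib.MP_d14a53_gt_FT.Lam2
import Pool.Agent.Lib.MP_d14a53_gt_FT.Yp
import Pool.Agent.Lib.MP_d14a53_gt_FT.GenSt
import Pool.Agent.Lib.MP_d14a53_gt_PW.Lift
import Pool.Agent.Lib.MP_d14a53_gt_PW.Punc

/-!
# MP_d14a53_gt FT module Sur

All elements of the surface group are labels of closed paths at the base tile.

The set `S` of all `z` with `mv (1,(0,0)) w = (z,(0,0))` for some `w` is a subgroup (`mv_mul`,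
`mv_left`; for the inverse use `w⁻¹`). It contains `(b 0)⁻¹` (`mv_yfull`) and every `stX z`: the
path `y^(3k+j) x y^(-(3k+j'))` with `(k,j') = tau (k,j)` (`mv_ypow` for `z` and, inverted, for
`tau z`). The generators: by `gen_st` (`surf_rel hs`) `a = ga …`, `b = gb …`, `c = gc …` are
products of these. Use `closure_eq_top` or `surf_closure`.
-/

set_option autoImplicit false

noncomputable section

namespace Pool.Agent.MP_d14a53_gt_FT

open Pool.Agent.MP_d14a53_gt_PW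

open scoped RealInnerProductSpace

section
variable {m p : ℕ} [NeZero (m + p)] {π : Type*} [Group π]

namespace Sur

omit [NeZero (m + p)] in
theorem back (l : Lb π (Ix m p)) {z : π} {i j : Ix m p} {w : Fr} (h : l.mv (1, i) w = (z, j)) :
    l.mv (1, j) w⁻¹ = (z⁻¹, i) := by
  have h1 : l.mv (z, j) w⁻¹ = (1, i) := by
    rw [← h, ← Lb.mv_mul, mul_inv_cancel, Lb.mv_one]
  have h2 := l.mv_left z 1 j w⁻¹
  rw [mul_one, h1, Prod.ext_iff] at h2
  obtain ⟨h3, h4⟩ := h2
  refine Prod.ext ?_ h4.symm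
  exact (inv_eq_of_mul_eq_one_right h3.symm).symm

/-- the labels of closed paths -/
def S (l : Lb π (Ix m p)) : Subgroup π where
  carrier := {z | ∃ w : Fr, l.mv (1, (0, 0)) w = (z, (0, 0))}
  one_mem' := ⟨1, Lb.mv_one l _⟩
  mul_mem' := by
    rintro x y ⟨w, hw⟩ ⟨w', hw'⟩
    refine ⟨w * w', ?_⟩
    rw [Lb.mv_mul, hw]
    have h2 := l.mv_left x 1 (0, 0) w'
    rw [mul_one, hw'] at h2
    exact h2
  inv_mem' := by
    rintro x ⟨w, hw⟩
    exact ⟨w⁻¹, back l hw⟩

theorem b_mem (X : Ix m p → π) (b : π) : b ∈ S (lbl X b) := ⟨_, mv_yfull X b⟩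

theorem X_mem (X : Ix m p → π) (b : π) (z : Ix m p) : X z ∈ S (lbl X b) := by
  have h1 := mv_ypow X b z
  have h2 := back _ (mv_ypow X b (tau z))
  rw [inv_one] at h2
  refine ⟨fy ^ (3 * (z.1 : ℕ) + (z.2 : ℕ)) * fx *
    (fy ^ (3 * ((tau z).1 : ℕ) + ((tau z).2 : ℕ)))⁻¹, ?_⟩
  rw [Lb.mv_mul, Lb.mv_mul, h1, Lb.mv_x]
  change (lbl X b).mv (1 * X z, tau z) _ = _
  rw [one_mul]
  have h3 := (lbl X b).mv_left (X z) 1 (tau z)
    (fy ^ (3 * ((tau z).1 : ℕ) + ((tau z).2 : ℕ)))⁻¹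
  rw [mul_one, h2, mul_one] at h3
  exact h3

theorem bb_mem (X : Ix m p → π) (b : π) (k : Fin (m + p)) : bb b k ∈ S (lbl X b) := by
  unfold bb
  split_ifs
  · exact b_mem X b
  · exact one_mem _

theorem Tt_mem (X : Ix m p → π) (b : π) (k : Fin (m + p)) : Tt X k ∈ S (lbl X b) := by
  unfold Tt
  split_ifs
  · exact mul_mem (mul_mem (X_mem X b _) (inv_mem (X_mem X b _))) (X_mem X b _)
  · exact X_mem X b _

theorem Rr_mem (X : Ix m p → π) (b : π) (k : Fin (m + p)) : Rr X k ∈ S (lbl X b) := by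
  unfold Rr
  split_ifs
  · exact mul_mem (mul_mem (X_mem X b _) (inv_mem (X_mem X b _))) (X_mem X b _)
  · exact X_mem X b _

theorem vert_mem (X : Ix m p → π) (b : π) (k : Fin (m + p)) : vert X b k ∈ S (lbl X b) := by
  unfold vert
  exact mul_mem (mul_mem (mul_mem (Rr_mem X b _) (bb_mem X b _)) (inv_mem (Tt_mem X b _)))
    (inv_mem (bb_mem X b _))

theorem ga_mem (X : Ix m p → π) (b : π) (i : Fin (m + 1)) : ga X b i ∈ S (lbl X b) := by
  unfold ga
  refine Fin.cases ?_ (fun k => ?_) i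
  · rw [Fin.cases_zero]
    exact mul_mem (mul_mem (b_mem X b) (Tt_mem X b _)) (inv_mem (b_mem X b))
  · rw [Fin.cases_succ]
    exact mul_mem (X_mem X b _) (inv_mem (X_mem X b _))

theorem gb_mem (X : Ix m p → π) (b : π) (i : Fin (m + 1)) : gb X b i ∈ S (lbl X b) := by
  unfold gb
  refine Fin.cases ?_ (fun k => ?_) i
  · rw [Fin.cases_zero]
    exact inv_mem (b_mem X b)
  · rw [Fin.cases_succ]
    exact mul_mem (X_mem X b _) (inv_mem (X_mem X b _))

theorem gc_mem (X : Ix m p → π) (b : π) (j : Fin p) : gc X b j ∈ S (lbl X b) :=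
  vert_mem X b _

end Sur

theorem sur {a b : Fin (m + 1) → π} {c : Fin p → π} (hs : IsSurf a b c) (z : π) :
    ∃ w : Fr, (stL a b c).mv (1, (0, 0)) w = (z, (0, 0)) := by
  obtain ⟨-, ha, hb, hc⟩ := gen_st a b c (surf_rel hs)
  have htop : Subgroup.closure (Set.range a ∪ Set.range b ∪ Set.range c) ≤
      Sur.S (stL a b c) := by
    rw [Subgroup.closure_le]
    rintro x ((⟨i, rfl⟩ | ⟨i, rfl⟩) | ⟨j, rfl⟩)
    · have h := Sur.ga_mem (stX a b c) (b 0)⁻¹ i
      rw [ha] at h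
      exact h
    · have h := Sur.gb_mem (stX a b c) (b 0)⁻¹ i
      rw [hb] at h
      exact h
    · have h := Sur.gc_mem (stX a b c) (b 0)⁻¹ j
      rw [hc] at h
      exact h
  rw [PF.closure_eq_top hs] at htop
  exact htop (Subgroup.mem_top z)

end

end Pool.Agent.MP_d14a53_gt_FT
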