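import Mathlib
import Pool.Agent.Lib.MP_d14a53_gt_FT.Defs
import Pool.Agent.Lib.MP_d14a53_gt_FT.AutH
import Pool.Agent.Lib.MP_d14a53_gt_FT.Sur
import Pool.Agent.Lib.MP_d14a53_gt_PW.Punc

/-!
# MP_d14a53_gt FT module Aut

The automorphism of the surface group.

`exists_aut`: take `φ` for `θ` and `ψ` for `θ.symm` (also admissible); for a closed path `w` at
`(0,0)` `θ w` is closed too and `ψ (φ (lam w)) = ψ (lam (θ w)) = lam (θ.symm (θ w)) = lam w`, by
`sur` this is every element; so `ψ ∘ φ = 1`, and the same for `φ ∘ ψ`.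
-/

set_option autoImplicit false

noncomputable section

namespace Pool.Agent.MP_d14a53_gt_FT

open Pool.Agent.MP_d14a53_gt_PW

open scoped RealInnerProductSpace

section
variable {m p : ℕ} [NeZero (m + p)] {π : Type*} [Group π]

theorem adm_symm {G : Type*} [Group G] {l : Lb G (Ix m p)} {θ : Fr ≃* Fr} (h : Adm l θ) :
    Adm l θ.symm := by
  refine ⟨?_, fun z w => ?_⟩
  · rw [MulEquiv.symm_apply_eq]
    exact h.fix.symm
  · have h1 := h.ix z (θ.symm w)
    rw [MulEquiv.apply_symm_apply] at h1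
    exact h1.symm

theorem exists_aut {a b : Fin (m + 1) → π} {c : Fin p → π} (hs : IsSurf a b c) (θ : Fr ≃* Fr)
    (hθ : Adm (stL a b c) θ) :
    ∃ φ : π ≃* π, Punc c φ ∧ ∀ w, (stL a b c).ix (0, 0) w = (0, 0) →
      φ ((stL a b c).lam (0, 0) w) = (stL a b c).lam (0, 0) (θ w) := by
  obtain ⟨φ, h1, h2⟩ := aut_hom hs θ hθ
  obtain ⟨ψ, k1, k2⟩ := aut_hom hs θ.symm (adm_symm hθ)
  have key : ∀ z : π, ∃ w, (stL a b c).ix (0, 0) w = (0, 0) ∧ (stL a b c).lam (0, 0) w = z := by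
    intro z
    obtain ⟨w, hw⟩ := sur hs z
    exact ⟨w, congrArg Prod.snd hw, congrArg Prod.fst hw⟩
  have e1 : ∀ z, ψ (φ z) = z := by
    intro z
    obtain ⟨w, hw, rfl⟩ := key z
    rw [h1 w hw, k1 (θ w) ((hθ.ix _ w).trans hw), MulEquiv.symm_apply_apply]
  have e2 : ∀ z, φ (ψ z) = z := by
    intro z
    obtain ⟨w, hw, rfl⟩ := key z
    rw [k1 w hw, h1 (θ.symm w) (((adm_symm hθ).ix _ w).trans hw), MulEquiv.apply_symm_apply]
  exact ⟨MonoidHom.toMulEquiv φ ψ (MonoidHom.ext e1) (MonoidHom.ext e2), h2, h1⟩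

end

end Pool.Agent.MP_d14a53_gt_FT
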