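import Mathlib
import Pool.Agent.Lib.MP_d14a53_gt_FT.Defs
import Pool.Agent.Lib.MP_d14a53_gt_FT.BmO

/-!
# MP_d14a53_gt FT module LinI

Integrability of the four inner integrals.

For `Bm n` the function `p ↦ lin i n q p` is measurable (a parametric integral: e.g.
`∫ r in 0..p₁` for `0 ≤ p₁` is `∫ r, indicator {(p, r) | 0 < r ≤ p₁} (n (r,p₂) q)`, use
`MeasureTheory.StronglyMeasurable.integral_prod_right` or its variants) and bounded by `C` on `Sq`
(`intervalIntegral.norm_integral_le_of_norm_le_const`), and `Sq` has finite measure.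
-/

set_option autoImplicit false

noncomputable section

namespace Pool.Agent.MP_d14a53_gt_FT

open Pool.Agent.MP_d14a53_gt_PW

open scoped RealInnerProductSpace

section
variable {Q : Type*} [Group Q]

namespace LinI

open MeasureTheory

theorem meas_Ioc {u : (ℝ × ℝ) × ℝ → ℝ} (hu : Measurable u) {lo hi : ℝ × ℝ → ℝ}
    (hlo : Measurable lo) (hhi : Measurable hi) :
    Measurable fun p => ∫ r in Set.Ioc (lo p) (hi p), u (p, r) := by
  have hS : MeasurableSet {x : (ℝ × ℝ) × ℝ | lo x.1 < x.2 ∧ x.2 ≤ hi x.1} :=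
    (measurableSet_lt (hlo.comp measurable_fst) measurable_snd).inter
      (measurableSet_le measurable_snd (hhi.comp measurable_fst))
  have h1 : StronglyMeasurable fun p => ∫ r : ℝ,
      Set.indicator {x : (ℝ × ℝ) × ℝ | lo x.1 < x.2 ∧ x.2 ≤ hi x.1} u (p, r) :=
    (hu.indicator hS).stronglyMeasurable.integral_prod_right'
  convert h1.measurable using 1
  funext p
  rw [← integral_indicator measurableSet_Ioc]
  refine integral_congr_ae (Filter.Eventually.of_forall fun r => ?_)
  by_cases hr : r ∈ Set.Ioc (lo p) (hi p)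
  · have h2 : (p, r) ∈ {x : (ℝ × ℝ) × ℝ | lo x.1 < x.2 ∧ x.2 ≤ hi x.1} := hr
    exact (Set.indicator_of_mem hr _).trans (Set.indicator_of_mem h2 u).symm
  · have h2 : (p, r) ∉ {x : (ℝ × ℝ) × ℝ | lo x.1 < x.2 ∧ x.2 ≤ hi x.1} := hr
    exact (Set.indicator_of_notMem hr _).trans (Set.indicator_of_notMem h2 u).symm

theorem meas_int {u : (ℝ × ℝ) × ℝ → ℝ} (hu : Measurable u) {lo hi : ℝ × ℝ → ℝ}
    (hlo : Measurable lo) (hhi : Measurable hi) :
    Measurable fun p => ∫ r in (lo p)..(hi p), u (p, r) := by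
  simp only [intervalIntegral]
  exact (meas_Ioc hu hlo hhi).sub (meas_Ioc hu hhi hlo)

theorem bound {f : ℝ → ℝ} {C s t : ℝ} (hC : ∀ r, |f r| ≤ C) (hst : |t - s| ≤ 1) :
    ‖∫ r in s..t, f r‖ ≤ |C| := by
  have h1 := intervalIntegral.norm_integral_le_of_norm_le_const (a := s) (b := t) (C := C)
    (f := f) (fun r _ => hC r)
  have h2 : C * |t - s| ≤ |C| * 1 :=
    mul_le_mul (le_abs_self C) hst (abs_nonneg _) (abs_nonneg _)
  linarith

end LinI

theorem lin_int {n : ℝ × ℝ → Q → ℝ} (h : Bm n) (i : Fin 4) (q : Q) :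
    MeasureTheory.IntegrableOn (fun p => lin i n q p) Sq := by
  obtain ⟨C, hC⟩ := h.bdd
  have hn : Measurable fun p => n p q := h.meas q
  have hSq : MeasurableSet Sq := measurableSet_Ico.prod measurableSet_Ico
  have hfin : MeasureTheory.volume Sq ≠ ⊤ :=
    ((Metric.isBounded_Ico (0 : ℝ) 1).prod (Metric.isBounded_Ico (0 : ℝ) 1)).measure_lt_top.ne
  have h1 : Measurable fun x : (ℝ × ℝ) × ℝ => n (x.2, x.1.2) q :=
    hn.comp (measurable_snd.prodMk (measurable_snd.comp measurable_fst))
  have h2 : Measurable fun x : (ℝ × ℝ) × ℝ => n (x.1.1, x.2) q :=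
    hn.comp ((measurable_fst.comp measurable_fst).prodMk measurable_snd)
  have hm : Measurable fun p => lin i n q p := by
    fin_cases i
    · exact LinI.meas_int h1 measurable_const measurable_fst
    · exact LinI.meas_int h1 measurable_fst measurable_const
    · exact LinI.meas_int h2 measurable_const measurable_snd
    · exact LinI.meas_int h2 measurable_snd measurable_const
  refine MeasureTheory.Measure.integrableOn_of_bounded (M := |C|) hfin
    hm.aestronglyMeasurable ?_
  rw [MeasureTheory.ae_restrict_iff' hSq]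
  refine Filter.Eventually.of_forall fun p hp => ?_
  obtain ⟨⟨h3, h4⟩, h5, h6⟩ := hp
  fin_cases i
  · exact LinI.bound (fun r => hC (r, p.2) q) (by rw [abs_le]; constructor <;> linarith)
  · exact LinI.bound (fun r => hC (r, p.2) q) (by rw [abs_le]; constructor <;> linarith)
  · exact LinI.bound (fun r => hC (p.1, r) q) (by rw [abs_le]; constructor <;> linarith)
  · exact LinI.bound (fun r => hC (p.1, r) q) (by rw [abs_le]; constructor <;> linarith)

end

end Pool.Agent.MP_d14a53_gt_FT
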