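import Mathlib
import Pool.Agent.Lib.MP_d14a53_gt_FT.Defs
import Pool.Agent.Lib.MP_d14a53_gt_FT.LinI
import Pool.Agent.Lib.MP_d14a53_gt_FT.BmO

/-!
# MP_d14a53_gt FT module Lin

The four functionals.

`ell_sum`: linearity of the interval integral (`Bm.line` for the integrability of the inner
integrands) and of the integral over `Sq` (`lin_int`).
`ell_sq`: for `i = 0`: `|ell| ≤ ∫_Sq ∫_0^1 |n (r,p₂) q| dr dp = ∫_Sq |n p q| dp`, and by
Cauchy-Schwarz (the measure of `Sq` is `1`) the square is at most `∫_Sq (n p q)² dp ≤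
JJ (pr n n)`. A convenient way: with `A = ∫_Sq |n|`, `0 ≤ ∫_Sq (|n| - A)² = ∫_Sq n² - A²`.
The other `i` are the same (the inner integral is at most the one over the whole side).
-/

set_option autoImplicit false

noncomputable section

namespace Pool.Agent.MP_d14a53_gt_FT

open Pool.Agent.MP_d14a53_gt_PW

open scoped RealInnerProductSpace

section
variable {Q : Type*} [Group Q]

open MeasureTheory

namespace LinAux

theorem hor {n : ℝ × ℝ → Q → ℝ} (h : Bm n) (q : Q) (y s t : ℝ) :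
    IntervalIntegrable (fun r => n (r, y) q) volume s t := by
  have h1 := h.line q (0, y) (1, 0) s t
  refine h1.congr (fun r _ => ?_)
  simp

theorem ver {n : ℝ × ℝ → Q → ℝ} (h : Bm n) (q : Q) (x s t : ℝ) :
    IntervalIntegrable (fun r => n (x, r) q) volume s t := by
  have h1 := h.line q (x, 0) (0, 1) s t
  refine h1.congr (fun r _ => ?_)
  simp

theorem lin_sum {ι : Type*} (s : Finset ι) (a : ι → ℝ) (n : ι → ℝ × ℝ → Q → ℝ)
    (h : ∀ i ∈ s, Bm (n i)) (j : Fin 4) (q : Q) (p : ℝ × ℝ) :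
    lin j (fun p q => ∑ i ∈ s, a i * n i p q) q p = ∑ i ∈ s, a i * lin j (n i) q p := by
  fin_cases j
  · change ∫ r in (0 : ℝ)..p.1, ∑ i ∈ s, a i * n i (r, p.2) q =
      ∑ i ∈ s, a i * ∫ r in (0 : ℝ)..p.1, n i (r, p.2) q
    rw [intervalIntegral.integral_finsetSum fun i hi => (hor (h i hi) q _ _ _).const_mul _]
    exact Finset.sum_congr rfl fun i _ => intervalIntegral.integral_const_mul _ _
  · change ∫ r in p.1..(1 : ℝ), ∑ i ∈ s, a i * n i (r, p.2) q =
      ∑ i ∈ s, a i * ∫ r in p.1..(1 : ℝ), n i (r, p.2) q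
    rw [intervalIntegral.integral_finsetSum fun i hi => (hor (h i hi) q _ _ _).const_mul _]
    exact Finset.sum_congr rfl fun i _ => intervalIntegral.integral_const_mul _ _
  · change ∫ r in (0 : ℝ)..p.2, ∑ i ∈ s, a i * n i (p.1, r) q =
      ∑ i ∈ s, a i * ∫ r in (0 : ℝ)..p.2, n i (p.1, r) q
    rw [intervalIntegral.integral_finsetSum fun i hi => (ver (h i hi) q _ _ _).const_mul _]
    exact Finset.sum_congr rfl fun i _ => intervalIntegral.integral_const_mul _ _
  · change ∫ r in p.2..(1 : ℝ), ∑ i ∈ s, a i * n i (p.1, r) q =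
      ∑ i ∈ s, a i * ∫ r in p.2..(1 : ℝ), n i (p.1, r) q
    rw [intervalIntegral.integral_finsetSum fun i hi => (ver (h i hi) q _ _ _).const_mul _]
    exact Finset.sum_congr rfl fun i _ => intervalIntegral.integral_const_mul _ _

omit [Group Q] in
theorem abs_bm {n : ℝ × ℝ → Q → ℝ} (h : Bm n) : Bm (fun p q => |n p q|) := by
  obtain ⟨C, hC⟩ := h.bdd
  refine ⟨fun q => ?_, C, fun p q => ?_⟩
  · have h1 := (h.meas q).norm
    simpa only [Real.norm_eq_abs] using h1
  · rw [abs_abs]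
    exact hC p q

/-- the measure on the half open interval -/
def rho : Measure ℝ := volume.restrict (Set.Ico (0 : ℝ) 1)

instance : IsProbabilityMeasure rho := by
  refine ⟨?_⟩
  unfold rho
  rw [Measure.restrict_apply MeasurableSet.univ, Set.univ_inter, Real.volume_Ico]
  simp

theorem res_Sq : (volume : Measure (ℝ × ℝ)).restrict Sq = rho.prod rho := by
  unfold Sq rho
  rw [Measure.volume_eq_prod, Measure.prod_restrict]

theorem ico_int (f : ℝ → ℝ) : ∫ r in (0 : ℝ)..1, f r = ∫ r, f r ∂rho := by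
  unfold rho
  rw [intervalIntegral.integral_of_le zero_le_one, integral_Ioc_eq_integral_Ioo,
    integral_Ico_eq_integral_Ioo]

/-- Fubini, horizontal -/
theorem fub_hor {m : ℝ × ℝ → Q → ℝ} (h : Bm m) (q : Q)
    (hi : IntegrableOn (fun p : ℝ × ℝ => ∫ r in (0 : ℝ)..1, m (r, p.2) q) Sq) :
    ∫ p in Sq, (∫ r in (0 : ℝ)..1, m (r, p.2) q) = ∫ p in Sq, m p q := by
  have h1 : IntegrableOn (fun p => m p q) Sq := h.int q
  unfold IntegrableOn at *
  rw [res_Sq] at *
  simp_rw [ico_int] at hi ⊢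
  rw [integral_prod _ hi, integral_prod_symm _ h1]
  dsimp only
  rw [integral_const, probReal_univ, one_smul]

/-- Fubini, vertical -/
theorem fub_ver {m : ℝ × ℝ → Q → ℝ} (h : Bm m) (q : Q)
    (hi : IntegrableOn (fun p : ℝ × ℝ => ∫ r in (0 : ℝ)..1, m (p.1, r) q) Sq) :
    ∫ p in Sq, (∫ r in (0 : ℝ)..1, m (p.1, r) q) = ∫ p in Sq, m p q := by
  have h1 : IntegrableOn (fun p => m p q) Sq := h.int q
  unfold IntegrableOn at *
  rw [res_Sq] at *
  simp_rw [ico_int] at hi ⊢
  rw [integral_prod_symm _ hi, integral_prod _ h1]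
  dsimp only
  rw [integral_const, probReal_univ, one_smul]

theorem abs_sum {f : ℝ → ℝ} (hf : ∀ s t : ℝ, IntervalIntegrable f volume s t) {x : ℝ}
    (h0 : 0 ≤ x) (h1 : x ≤ 1) :
    |∫ r in (0 : ℝ)..x, f r| ≤ ∫ r in (0 : ℝ)..1, |f r| ∧
      |∫ r in x..(1 : ℝ), f r| ≤ ∫ r in (0 : ℝ)..1, |f r| := by
  have e1 := intervalIntegral.abs_integral_le_integral_abs (f := f) (μ := volume) h0
  have e2 := intervalIntegral.abs_integral_le_integral_abs (f := f) (μ := volume) h1
  have e3 := intervalIntegral.integral_add_adjacent_intervals (hf 0 x).abs (hf x 1).abs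
  have e4 : 0 ≤ ∫ r in (0 : ℝ)..x, |f r| :=
    intervalIntegral.integral_nonneg h0 fun r _ => abs_nonneg _
  have e5 : 0 ≤ ∫ r in x..(1 : ℝ), |f r| :=
    intervalIntegral.integral_nonneg h1 fun r _ => abs_nonneg _
  constructor <;> linarith

/-- the functional is bounded by the first moment -/
theorem ell_le {n : ℝ × ℝ → Q → ℝ} (h : Bm n) (i : Fin 4) (q : Q) :
    |ell i n q| ≤ ∫ p in Sq, |n p q| := by
  have hm := abs_bm h
  have hG1 : IntegrableOn (fun p : ℝ × ℝ => ∫ r in (0 : ℝ)..1, |n (r, p.2) q|) Sq := by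
    have e1 := (lin_int hm 0 q).add (lin_int hm 1 q)
    refine e1.congr_fun (fun p _ => ?_) (measurableSet_Ico.prod measurableSet_Ico)
    exact intervalIntegral.integral_add_adjacent_intervals (hor hm q _ _ _) (hor hm q _ _ _)
  have hG2 : IntegrableOn (fun p : ℝ × ℝ => ∫ r in (0 : ℝ)..1, |n (p.1, r) q|) Sq := by
    have e1 := (lin_int hm 2 q).add (lin_int hm 3 q)
    refine e1.congr_fun (fun p _ => ?_) (measurableSet_Ico.prod measurableSet_Ico)
    exact intervalIntegral.integral_add_adjacent_intervals (ver hm q _ _ _) (ver hm q _ _ _)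
  have f1 := fub_hor hm q hG1
  have f2 := fub_ver hm q hG2
  have hmS : MeasurableSet Sq := measurableSet_Ico.prod measurableSet_Ico
  have key : ∀ G : ℝ × ℝ → ℝ, IntegrableOn G Sq → (∀ p ∈ Sq, |lin i n q p| ≤ G p) →
      |ell i n q| ≤ ∫ p in Sq, G p := by
    intro G hG hle
    unfold ell
    refine (abs_integral_le_integral_abs).trans ?_
    exact setIntegral_mono_on (lin_int h i q).abs hG hmS hle
  fin_cases i
  · rw [← f1]
    exact key _ hG1 fun p hp => (abs_sum (fun s t => hor h q p.2 s t) hp.1.1 hp.1.2.le).1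
  · rw [← f1]
    exact key _ hG1 fun p hp => (abs_sum (fun s t => hor h q p.2 s t) hp.1.1 hp.1.2.le).2
  · rw [← f2]
    exact key _ hG2 fun p hp => (abs_sum (fun s t => ver h q p.1 s t) hp.2.1 hp.2.2.le).1
  · rw [← f2]
    exact key _ hG2 fun p hp => (abs_sum (fun s t => ver h q p.1 s t) hp.2.1 hp.2.2.le).2

end LinAux

theorem ell_sum {ι : Type*} (s : Finset ι) (a : ι → ℝ) (n : ι → ℝ × ℝ → Q → ℝ)
    (h : ∀ i ∈ s, Bm (n i)) (j : Fin 4) (q : Q) :
    ell j (fun p q => ∑ i ∈ s, a i * n i p q) q = ∑ i ∈ s, a i * ell j (n i) q := by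
  unfold ell
  simp_rw [LinAux.lin_sum s a n h j q]
  rw [integral_finsetSum _ fun i hi => (lin_int (h i hi) j q).const_mul _]
  exact Finset.sum_congr rfl fun i _ => integral_const_mul _ _

theorem ell_sq [Fintype Q] {n : ℝ × ℝ → Q → ℝ} (h : Bm n) (i : Fin 4) (q : Q) :
    (ell i n q) ^ 2 ≤ JJ (pr n n) := by
  have hle := LinAux.ell_le h i q
  set A : ℝ := ∫ p in Sq, |n p q| with hA
  have h1 : (ell i n q) ^ 2 ≤ A ^ 2 := by
    rw [← sq_abs]
    exact pow_le_pow_left₀ (abs_nonneg _) hle 2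
  have hm := (LinAux.abs_bm h).int q
  have hn2 := (h.pr h).int q
  have h2 : A ^ 2 ≤ ∫ p in Sq, pr n n p q := by
    unfold IntegrableOn at hm hn2
    rw [LinAux.res_Sq] at hm hn2 hA ⊢
    have h3 : 0 ≤ ∫ p, (|n p q| - A) ^ 2 ∂(LinAux.rho.prod LinAux.rho) :=
      integral_nonneg fun p => sq_nonneg _
    have h4 : ∀ p : ℝ × ℝ, (|n p q| - A) ^ 2 = (pr n n p q - 2 * A * |n p q|) + A ^ 2 := by
      intro p
      unfold pr
      have : |n p q| ^ 2 = n p q * n p q := by rw [sq_abs, sq]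
      nlinarith
    simp_rw [h4] at h3
    have h5 : Integrable (fun p : ℝ × ℝ => 2 * A * |n p q|) (LinAux.rho.prod LinAux.rho) :=
      hm.const_mul _
    have h6 : Integrable (fun p : ℝ × ℝ => pr n n p q - 2 * A * |n p q|)
        (LinAux.rho.prod LinAux.rho) := hn2.sub h5
    rw [integral_add h6 (integrable_const _), integral_sub hn2 h5, integral_const_mul, ← hA,
      integral_const, probReal_univ, one_smul] at h3
    linarith
  refine h1.trans (h2.trans ?_)
  unfold JJ
  refine Finset.single_le_sum (f := fun q => ∫ p in Sq, pr n n p q) (fun q _ => ?_)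
    (Finset.mem_univ q)
  exact integral_nonneg fun p => mul_self_nonneg _

end

end Pool.Agent.MP_d14a53_gt_FT
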