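import Mathlib
import Pool.Agent.Lib.MP_d14a53_gt_FT.Defs
import Pool.Agent.Lib.MP_d14a53_gt_FT.Lin

/-!
# MP_d14a53_gt FT module Bes

Bessel's inequality.

Put `n = ∑_i a_i n_i` with `a_i = ell j (n_i) q`. By `ell_sum`, `ell j n q = ∑ a_i² =: A`; by
bilinearity of `JJ (pr · ·)` (all functions are bounded and measurable, `Bm.int`) and the
hypotheses `JJ (pr n n) = ∑ a_i² E = A E`. `ell_sq` gives `A² ≤ A E`, so `A ≤ E` (or `A = 0`, and
then `A ≤ E` because `E = JJ (pr n_i n_i) ≥ 0` if `s` is not empty, and `hE` otherwise).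
-/

set_option autoImplicit false

noncomputable section

namespace Pool.Agent.MP_d14a53_gt_FT

open Pool.Agent.MP_d14a53_gt_PW

open scoped RealInnerProductSpace

section
variable {Q : Type*} [Group Q] [Fintype Q]

namespace Bes

theorem JJ_sum {ι : Type*} (s : Finset ι) (a : ι → ℝ) (f : ι → ℝ × ℝ → Q → ℝ)
    (h : ∀ i ∈ s, Bm (f i)) :
    JJ (fun p q => ∑ i ∈ s, a i * f i p q) = ∑ i ∈ s, a i * JJ (f i) := by
  unfold JJ
  have h1 : ∀ q : Q, ∫ p in Sq, ∑ i ∈ s, a i * f i p q = ∑ i ∈ s, a i * ∫ p in Sq, f i p q := by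
    intro q
    rw [MeasureTheory.integral_finset_sum]
    · exact Finset.sum_congr rfl fun i _ => MeasureTheory.integral_const_mul _ _
    · intro i hi
      exact ((h i hi).int q).const_mul (a i)
  rw [Finset.sum_congr rfl fun q _ => h1 q, Finset.sum_comm]
  exact Finset.sum_congr rfl fun i _ => (Finset.mul_sum _ _ _).symm

theorem JJ_quad {ι : Type*} (s : Finset ι) (a : ι → ℝ) (n : ι → ℝ × ℝ → Q → ℝ)
    (h : ∀ i ∈ s, Bm (n i)) (E : ℝ)
    (h0 : ∀ i ∈ s, ∀ j ∈ s, i ≠ j → JJ (pr (n i) (n j)) = 0)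
    (h1 : ∀ i ∈ s, JJ (pr (n i) (n i)) = E) :
    JJ (pr (fun p q => ∑ i ∈ s, a i * n i p q) (fun p q => ∑ i ∈ s, a i * n i p q)) =
      (∑ i ∈ s, (a i) ^ 2) * E := by
  classical
  have h2 : pr (fun p q => ∑ i ∈ s, a i * n i p q) (fun p q => ∑ i ∈ s, a i * n i p q) =
      fun p q => ∑ i ∈ s, a i * (fun p q => ∑ k ∈ s, a k * pr (n i) (n k) p q) p q := by
    funext p q
    show (∑ i ∈ s, a i * n i p q) * (∑ i ∈ s, a i * n i p q) =
      ∑ i ∈ s, a i * ∑ k ∈ s, a k * (n i p q * n k p q)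
    rw [Finset.sum_mul]
    refine Finset.sum_congr rfl fun i _ => ?_
    rw [mul_assoc, Finset.mul_sum]
    congr 1
    exact Finset.sum_congr rfl fun k _ => by ring
  rw [h2, JJ_sum s a _ fun i hi => Bm.sum s a _ fun k hk => (h i hi).pr (h k hk), Finset.sum_mul]
  refine Finset.sum_congr rfl fun i hi => ?_
  rw [JJ_sum s a _ fun k hk => (h i hi).pr (h k hk), Finset.sum_eq_single_of_mem i hi, h1 i hi]
  · ring
  · intro k hk hki
    rw [h0 i hi k hk (Ne.symm hki), mul_zero]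

end Bes

theorem bessel {ι : Type*} (s : Finset ι) (n : ι → ℝ × ℝ → Q → ℝ) (h : ∀ i ∈ s, Bm (n i))
    (E : ℝ) (hE : 0 ≤ E) (h0 : ∀ i ∈ s, ∀ j ∈ s, i ≠ j → JJ (pr (n i) (n j)) = 0)
    (h1 : ∀ i ∈ s, JJ (pr (n i) (n i)) = E) (j : Fin 4) (q : Q) :
    ∑ i ∈ s, (ell j (n i) q) ^ 2 ≤ E := by
  have h2 := ell_sq (Bm.sum s (fun i => ell j (n i) q) n h) j q
  rw [ell_sum s (fun i => ell j (n i) q) n h j q,
    Bes.JJ_quad s (fun i => ell j (n i) q) n h E h0 h1] at h2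
  obtain ⟨A, hA⟩ : ∃ A, A = ∑ i ∈ s, (ell j (n i) q) ^ 2 := ⟨_, rfl⟩
  have h3 : ∑ i ∈ s, ell j (n i) q * ell j (n i) q = A := by
    rw [hA]
    exact Finset.sum_congr rfl fun i _ => by ring
  rw [h3, ← hA] at h2
  rw [← hA]
  have hA0 : 0 ≤ A := by
    rw [hA]
    exact Finset.sum_nonneg fun i _ => sq_nonneg _
  rcases hA0.eq_or_lt with h4 | h4
  · rw [← h4]
    exact hE
  · rw [pow_two] at h2
    exact le_of_mul_le_mul_left h2 h4

end

end Pool.Agent.MP_d14a53_gt_FT
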