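import Mathlib
import Pool.Agent.Lib.MP_d14a53_gt_FT.Defs
import Pool.Agent.Lib.MP_d14a53_gt_PW.Lift
import Pool.Agent.Lib.MP_d14a53_gt_PW.Prod

/-!
# MP_d14a53_gt FT module Cex

The cut surface exists.

`π' = PresentedGroup (relWord g (p+2))` with its generators (`IsSurf` with the identity). The
homomorphism `ι` by `surf_lift`: the relation is
`[a_1,b_1] ⋯ [a_g,b_g] c_0 ⋯ c_{p-1} (a_0 b_0 a_0⁻¹) b_0⁻¹ = 1`, a conjugate of the relation
`[a_0,b_0] [a_1,b_1] ⋯ c_{p-1} = 1` of `π` (`surf_rel`). (`HP a b (g+1) = [a_0,b_0] HP (a ∘ succ)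
(b ∘ succ) g`, `CP c' (p+2) = CP c p * d * e`; `List.ofFn_succ`, `CP_succ`, `CP_congr`.)
-/

set_option autoImplicit false

noncomputable section

namespace Pool.Agent.MP_d14a53_gt_FT

open Pool.Agent.MP_d14a53_gt_PW

open scoped RealInnerProductSpace

namespace Cex

theorem HP_left {G : Type*} [Group G] {g : ℕ} (a b : Fin (g + 1) → G) :
    HP a b (g + 1) = a 0 * b 0 * (a 0)⁻¹ * (b 0)⁻¹ *
      HP (fun i => a i.succ) (fun i => b i.succ) g := by
  unfold HP
  rw [List.take_of_length_le (by simp), List.take_of_length_le (by simp), List.ofFn_succ,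
    List.prod_cons]

theorem CP_left {G : Type*} [Group G] {p : ℕ} (c' : Fin (p + 2) → G) (n : ℕ) (hn : n ≤ p) :
    PA1.LP c' n = PA1.LP (fun j => c' (Fin.castAdd 2 j)) n := by
  induction n with
  | zero => rw [PA1.LP_zero, PA1.LP_zero]
  | succ n ih =>
    rw [PA1.LP_succ' _ n (by omega), PA1.LP_succ' _ n (by omega), ih (by omega)]
    rfl

theorem CP_two' {G : Type*} [Group G] {p : ℕ} (c' : Fin (p + 2) → G) :
    CP c' (p + 2) = CP (fun j => c' (Fin.castAdd 2 j)) p * c' (Fin.natAdd p 0) *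
      c' (Fin.natAdd p 1) := by
  change PA1.LP c' (p + 1 + 1) = PA1.LP _ p * _ * _
  rw [PA1.LP_succ' c' (p + 1) (by omega), PA1.LP_succ' c' p (by omega), CP_left c' p le_rfl]
  rfl

end Cex

theorem exists_cut {π : Type} [Group π] {g p : ℕ} {a b : Fin (g + 1) → π} {c : Fin p → π}
    (hs : IsSurf a b c) : ∃ (π' : Type) (_ : Group π') (a' b' : Fin g → π')
      (c' : Fin (p + 2) → π') (ι : π' →* π), IsCut a b c a' b' c' ι := by
  have hs' : IsSurf (π := PresentedGroup {relWord g (p + 2)})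
      (fun i : Fin g => PresentedGroup.of (Sum.inl i))
      (fun i : Fin g => PresentedGroup.of (Sum.inr (Sum.inl i)))
      (fun j : Fin (p + 2) => PresentedGroup.of (Sum.inr (Sum.inr j))) :=
    ⟨MulEquiv.refl _, fun i => rfl, fun i => rfl, fun j => rfl⟩
  have hr := surf_rel hs
  rw [Cex.HP_left] at hr
  have hr' : HP (fun i : Fin g => a i.succ) (fun i : Fin g => b i.succ) g *
      CP (Fin.append c ![a 0 * b 0 * (a 0)⁻¹, (b 0)⁻¹]) (p + 2) = 1 := by
    rw [Cex.CP_two']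
    simp only [Fin.append_left, Fin.append_right, Matrix.cons_val_zero, Matrix.cons_val_one]
    have h1 : HP (fun i : Fin g => a i.succ) (fun i : Fin g => b i.succ) g * CP c p =
        (a 0 * b 0 * (a 0)⁻¹ * (b 0)⁻¹)⁻¹ := by
      rw [mul_assoc] at hr
      exact (inv_eq_of_mul_eq_one_right hr).symm
    rw [← mul_assoc, ← mul_assoc, h1]
    group
  obtain ⟨ι, h1, h2, h3⟩ := surf_lift hs' _ _ _ hr'
  refine ⟨PresentedGroup {relWord g (p + 2)}, inferInstance, _, _, _, ι,
    ⟨hs, hs', h1, h2, fun j => ?_, ?_, ?_⟩⟩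
  · rw [h3, Fin.append_left]
  · rw [h3, Fin.append_right]
    rfl
  · rw [h3, Fin.append_right]
    rfl

section
variable {π π' : Type*} [Group π] [Group π'] {g p : ℕ} {a b : Fin (g + 1) → π} {c : Fin p → π}
  {a' b' : Fin g → π'} {c' : Fin (p + 2) → π'} {ι : π' →* π}

theorem HP_succ_left {G : Type*} [Group G] (a b : Fin (g + 1) → G) :
    HP a b (g + 1) = a 0 * b 0 * (a 0)⁻¹ * (b 0)⁻¹ *
      HP (fun i => a i.succ) (fun i => b i.succ) g :=
  Cex.HP_left a b

theorem CP_two {G : Type*} [Group G] (c' : Fin (p + 2) → G) :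
    CP c' (p + 2) = CP (fun j => c' (Fin.castAdd 2 j)) p * c' (Fin.natAdd p 0) *
      c' (Fin.natAdd p 1) :=
  Cex.CP_two' c'

/-- the range contains `π₁` of the cut surface -/
theorem IsCut.range (h : IsCut a b c a' b' c' ι) (x : π) (hx : x ∈ Cut a b c 0) :
    ∃ y, ι y = x := by
  have hle : Cut a b c 0 ≤ ι.range := by
    unfold Cut
    rw [Subgroup.closure_le]
    have hR : Rest a b c 1 ≤ ι.range := by
      unfold Rest
      rw [Subgroup.closure_le]
      rintro y (⟨i, hi, hy⟩ | ⟨j, rfl⟩)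
      · obtain ⟨i', rfl⟩ := Fin.exists_succ_eq.2 (show i ≠ 0 by
          rintro rfl
          simp at hi)
        rcases hy with rfl | rfl
        · exact ⟨a' i', h.ha i'⟩
        · exact ⟨b' i', h.hb i'⟩
      · exact ⟨c' (Fin.castAdd 2 j), h.hc j⟩
    rintro y ((rfl | rfl) | hy)
    · exact ⟨(c' (Fin.natAdd p 1))⁻¹, by rw [map_inv, h.he, inv_inv]⟩
    · exact ⟨c' (Fin.natAdd p 0), h.hd⟩
    · exact hR hy
  exact hle hx

end

end Pool.Agent.MP_d14a53_gt_FT
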