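import Mathlib
import Pool.Agent.Lib.MP_d14a53_gt_FT.Defs
import Pool.Agent.Lib.MP_d14a53_gt_FT.Cex
import Pool.Agent.Lib.MP_d14a53_gt_PW.Lift
import Pool.Agent.Lib.MP_d14a53_gt_PW.Prod

/-!
# MP_d14a53_gt FT module CxtH

Extension of an automorphism of the cut surface to an endomorphism.

`ψ' (c'_p) = y c'_p y⁻¹`, `ψ' (c'_{p+1}) = x c'_{p+1} x⁻¹`. Define `ψ` by `surf_lift`:
`a_0 ↦ ι y a_0 (ι x)⁻¹`, `b_0 ↦ ι x b_0 (ι x)⁻¹`, `a_{i+1} ↦ ι (ψ' a'_i)`, `b_{i+1} ↦ ι (ψ' b'_i)`,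
`c_j ↦ ι (ψ' c'_j)` (`Fin.cases`). The relation: with `R = HP (ι ψ' a') (ι ψ' b') g *
CP (ι ψ' c'_j) p` the image of the relation of `π'` (`surf_rel`, `map_HP`, `map_CP`, `CP_two`)
says `R * ι (ψ' c'_p) * ι (ψ' c'_{p+1}) = 1`, and
`ι (ψ' c'_p) = ι y (a_0 b_0 a_0⁻¹) (ι y)⁻¹`, `ι (ψ' c'_{p+1}) = ι x b_0⁻¹ (ι x)⁻¹`, whose product is
`[ι y a_0 (ι x)⁻¹, ι x b_0 (ι x)⁻¹]`; with `HP_succ_left` this is the relation up to conjugation.
`ψ ∘ ι = ι ∘ ψ'` by `surf_ext` for `π'` (check on `a'_i`, `b'_i`, `c'_j`, `j < p`, and on the last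
two; split `Fin (p+2)` with `Fin.addCases`).
-/

set_option autoImplicit false

noncomputable section

namespace Pool.Agent.MP_d14a53_gt_FT

open Pool.Agent.MP_d14a53_gt_PW

open scoped RealInnerProductSpace

section
variable {π π' : Type*} [Group π] [Group π'] {g p : ℕ} {a b : Fin (g + 1) → π} {c : Fin p → π}
  {a' b' : Fin g → π'} {c' : Fin (p + 2) → π'} {ι : π' →* π}

theorem IsCut.ext_hom (h : IsCut a b c a' b' c' ι) (ψ' : π' ≃* π') (x y : π')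
    (hy : ψ' (c' (Fin.natAdd p 0)) = y * c' (Fin.natAdd p 0) * y⁻¹)
    (hx : ψ' (c' (Fin.natAdd p 1)) = x * c' (Fin.natAdd p 1) * x⁻¹) :
    ∃ ψ : π →* π, ψ (a 0) = ι y * a 0 * (ι x)⁻¹ ∧ ψ (b 0) = ι x * b 0 * (ι x)⁻¹ ∧
      ∀ z, ψ (ι z) = ι (ψ' z) := by
  have hD : ι (ψ' (c' (Fin.natAdd p 0))) = ι y * (a 0 * b 0 * (a 0)⁻¹) * (ι y)⁻¹ := by
    rw [hy, map_mul, map_mul, map_inv, h.hd]
  have hE : ι (ψ' (c' (Fin.natAdd p 1))) = ι x * (b 0)⁻¹ * (ι x)⁻¹ := by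
    rw [hx, map_mul, map_mul, map_inv, h.he]
  have hR0 := congrArg (ι.comp ψ'.toMonoidHom) (surf_rel h.surf')
  rw [map_mul, map_one, map_HP, map_CP, CP_two] at hR0
  have hR : HP (fun i : Fin g => ι (ψ' (a' i))) (fun i : Fin g => ι (ψ' (b' i))) g *
      (CP (fun j : Fin p => ι (ψ' (c' (Fin.castAdd 2 j)))) p *
        (ι y * (a 0 * b 0 * (a 0)⁻¹) * (ι y)⁻¹) * (ι x * (b 0)⁻¹ * (ι x)⁻¹)) = 1 := by
    rw [← hD, ← hE]
    exact hR0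
  have hr : HP (Fin.cases (ι y * a 0 * (ι x)⁻¹) (fun i : Fin g => ι (ψ' (a' i))) :
      Fin (g + 1) → π) (Fin.cases (ι x * b 0 * (ι x)⁻¹) (fun i : Fin g => ι (ψ' (b' i))) :
      Fin (g + 1) → π) (g + 1) * CP (fun j : Fin p => ι (ψ' (c' (Fin.castAdd 2 j)))) p = 1 := by
    rw [HP_succ_left]
    simp only [Fin.cases_zero, Fin.cases_succ]
    set R := HP (fun i : Fin g => ι (ψ' (a' i))) (fun i : Fin g => ι (ψ' (b' i))) g
    set S := CP (fun j : Fin p => ι (ψ' (c' (Fin.castAdd 2 j)))) p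
    have e : ι y * a 0 * (ι x)⁻¹ * (ι x * b 0 * (ι x)⁻¹) * (ι y * a 0 * (ι x)⁻¹)⁻¹ *
        (ι x * b 0 * (ι x)⁻¹)⁻¹ =
        ι y * (a 0 * b 0 * (a 0)⁻¹) * (ι y)⁻¹ * (ι x * (b 0)⁻¹ * (ι x)⁻¹) := by group
    rw [e]
    have e2 : ι y * (a 0 * b 0 * (a 0)⁻¹) * (ι y)⁻¹ * (ι x * (b 0)⁻¹ * (ι x)⁻¹) =
        (R * S)⁻¹ := by
      apply eq_inv_of_mul_eq_one_right
      rw [← hR]
      simp only [mul_assoc]
    rw [e2, mul_assoc, inv_mul_cancel]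
  obtain ⟨ψ, h1, h2, h3⟩ := surf_lift h.surf _ _ _ hr
  refine ⟨ψ, h1 0, h2 0, ?_⟩
  have e : ψ.comp ι = ι.comp ψ'.toMonoidHom := by
    apply surf_ext h.surf'
    · intro i
      show ψ (ι (a' i)) = ι (ψ' (a' i))
      rw [h.ha, h1]
      rfl
    · intro i
      show ψ (ι (b' i)) = ι (ψ' (b' i))
      rw [h.hb, h2]
      rfl
    · intro j
      show ψ (ι (c' j)) = ι (ψ' (c' j))
      have ha0 : ψ (a 0) = ι y * a 0 * (ι x)⁻¹ := h1 0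
      have hb0 : ψ (b 0) = ι x * b 0 * (ι x)⁻¹ := h2 0
      induction j using Fin.addCases with
      | left j => rw [h.hc, h3]
      | right j =>
        fin_cases j
        · show ψ (ι (c' (Fin.natAdd p 0))) = ι (ψ' (c' (Fin.natAdd p 0)))
          rw [hD, h.hd, map_mul, map_mul, map_inv, ha0, hb0]
          group
        · show ψ (ι (c' (Fin.natAdd p 1))) = ι (ψ' (c' (Fin.natAdd p 1)))
          rw [hE, h.he, map_inv, hb0]
          group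
  intro z
  exact DFunLike.congr_fun e z

end

end Pool.Agent.MP_d14a53_gt_FT
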