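import Mathlib
import Pool.Agent.Lib.MP_d14a53_gt_FT.Defs
import Pool.Agent.Lib.MP_d14a53_gt_FT.CxtH
import Pool.Agent.Lib.MP_d14a53_gt_PW.Punc

/-!
# MP_d14a53_gt FT module Cxt

Automorphisms of the cut surface extend.

Take `y`, `x` from `hψ'` for the last two indices; `ψ` from `ext_hom` for `(ψ', x, y)` and `ψ⁻` for
`(ψ'.symm, ψ'.symm x⁻¹, ψ'.symm y⁻¹)` (indeed `ψ'.symm c'_p = (ψ'.symm y)⁻¹ c'_p (ψ'.symm y)`);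
they are inverse to each other on the generators: on `ι (…)` clear,
`ψ⁻ (ψ a_0) = ι (ψ'.symm y) · ι (ψ'.symm y)⁻¹ a_0 ι (ψ'.symm x) · (ι (ψ'.symm x))⁻¹ = a_0`,
`ψ⁻ (ψ b_0) = b_0` similarly; the other composition: `ψ (ψ⁻ a_0) = ψ (ι (ψ'.symm y)⁻¹ a_0
ι (ψ'.symm x)) = (ι y)⁻¹ ι y a_0 (ι x)⁻¹ ι x`. Use `surf_aut`. `Punc c ψ`: `c_j = ι c'_j`.
-/

set_option autoImplicit false

noncomputable section

namespace Pool.Agent.MP_d14a53_gt_FT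

open Pool.Agent.MP_d14a53_gt_PW

open scoped RealInnerProductSpace

section
variable {π π' : Type*} [Group π] [Group π'] {g p : ℕ} {a b : Fin (g + 1) → π} {c : Fin p → π}
  {a' b' : Fin g → π'} {c' : Fin (p + 2) → π'} {ι : π' →* π}

namespace Cxt

theorem symm_conj (ψ' : π' ≃* π') {y z : π'} (h : ψ' z = y * z * y⁻¹) :
    ψ'.symm z = (ψ'.symm y)⁻¹ * z * ((ψ'.symm y)⁻¹)⁻¹ := by
  have h1 : z = ψ'.symm y * ψ'.symm z * (ψ'.symm y)⁻¹ := by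
    rw [← map_inv, ← map_mul, ← map_mul, ← h, MulEquiv.symm_apply_apply]
  conv_rhs => rw [h1]
  group

/-- two extensions of inverse automorphisms -/
theorem comp (h : IsCut a b c a' b' c' ι) (ψ' : π' ≃* π') (x y : π') (ψ φ : π →* π)
    (ha : ψ (a 0) = ι y * a 0 * (ι x)⁻¹) (hb : ψ (b 0) = ι x * b 0 * (ι x)⁻¹)
    (hz : ∀ z, ψ (ι z) = ι (ψ' z))
    (ka : φ (a 0) = ι (ψ'.symm y)⁻¹ * a 0 * (ι (ψ'.symm x)⁻¹)⁻¹)
    (kb : φ (b 0) = ι (ψ'.symm x)⁻¹ * b 0 * (ι (ψ'.symm x)⁻¹)⁻¹)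
    (kz : ∀ z, φ (ι z) = ι (ψ'.symm z)) :
    (∀ i, φ (ψ (a i)) = a i) ∧ (∀ i, φ (ψ (b i)) = b i) ∧ ∀ j, φ (ψ (c j)) = c j := by
  refine ⟨fun i => ?_, fun i => ?_, fun j => ?_⟩
  · refine Fin.cases ?_ (fun i => ?_) i
    · rw [ha, map_mul, map_mul, map_inv, kz, kz, ka, map_inv, map_inv]
      group
    · rw [← h.ha, hz, kz, MulEquiv.symm_apply_apply]
  · refine Fin.cases ?_ (fun i => ?_) i
    · rw [hb, map_mul, map_mul, map_inv, kz, kb, map_inv]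
      group
    · rw [← h.hb, hz, kz, MulEquiv.symm_apply_apply]
  · rw [← h.hc, hz, kz, MulEquiv.symm_apply_apply]

/-- the other composition -/
theorem comp' (h : IsCut a b c a' b' c' ι) (ψ' : π' ≃* π') (x y : π') (ψ φ : π →* π)
    (ha : ψ (a 0) = ι y * a 0 * (ι x)⁻¹) (hb : ψ (b 0) = ι x * b 0 * (ι x)⁻¹)
    (hz : ∀ z, ψ (ι z) = ι (ψ' z))
    (ka : φ (a 0) = ι (ψ'.symm y)⁻¹ * a 0 * (ι (ψ'.symm x)⁻¹)⁻¹)
    (kb : φ (b 0) = ι (ψ'.symm x)⁻¹ * b 0 * (ι (ψ'.symm x)⁻¹)⁻¹)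
    (kz : ∀ z, φ (ι z) = ι (ψ'.symm z)) :
    (∀ i, ψ (φ (a i)) = a i) ∧ (∀ i, ψ (φ (b i)) = b i) ∧ ∀ j, ψ (φ (c j)) = c j := by
  refine ⟨fun i => ?_, fun i => ?_, fun j => ?_⟩
  · refine Fin.cases ?_ (fun i => ?_) i
    · rw [ka]
      simp only [map_mul, map_inv, hz, MulEquiv.apply_symm_apply, ha]
      group
    · rw [← h.ha, kz, hz, MulEquiv.apply_symm_apply]
  · refine Fin.cases ?_ (fun i => ?_) i
    · rw [kb]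
      simp only [map_mul, map_inv, hz, MulEquiv.apply_symm_apply, hb]
      group
    · rw [← h.hb, kz, hz, MulEquiv.apply_symm_apply]
  · rw [← h.hc, kz, hz, MulEquiv.apply_symm_apply]

end Cxt

theorem IsCut.ext (h : IsCut a b c a' b' c' ι) (ψ' : π' ≃* π') (hψ' : Punc c' ψ') :
    ∃ ψ : π ≃* π, Punc c ψ ∧ ∀ z, ψ (ι z) = ι (ψ' z) := by
  obtain ⟨y, hy⟩ := hψ' (Fin.natAdd p 0)
  obtain ⟨x, hx⟩ := hψ' (Fin.natAdd p 1)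
  obtain ⟨ψ, ha, hb, hz⟩ := h.ext_hom ψ' x y hy hx
  obtain ⟨φ, ka, kb, kz⟩ := h.ext_hom ψ'.symm (ψ'.symm x)⁻¹ (ψ'.symm y)⁻¹
    (Cxt.symm_conj ψ' hy) (Cxt.symm_conj ψ' hx)
  obtain ⟨Φ, hΦ⟩ := surf_aut h.surf ψ φ (Cxt.comp h ψ' x y ψ φ ha hb hz ka kb kz)
    (Cxt.comp' h ψ' x y ψ φ ha hb hz ka kb kz)
  refine ⟨Φ, fun j => ?_, fun z => ?_⟩
  · obtain ⟨w, hw⟩ := hψ' (Fin.castAdd 2 j)
    refine ⟨ι w, ?_⟩
    rw [hΦ, ← h.hc, hz, hw, map_mul, map_mul, map_inv]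
  · rw [hΦ, hz]

end

end Pool.Agent.MP_d14a53_gt_FT
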