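import Mathlib
import Pool.Agent.Lib.MP_d14a53_gt_FT.Defs
import Pool.Agent.Lib.MP_d14a53_gt_PW.GoodB
import Pool.Agent.Lib.MP_d14a53_gt_PW.Prin

/-!
# MP_d14a53_gt FT module Pri

Cocycles: elementary properties and averaging.

The proofs of `Good.one`, `Good.inv`, `Good.conj`, `Good.mul_triv`, `Good.pow_triv` (file
`MP_d14a53_gt_PW/GoodB.lean`) and `Good.prin` (`MP_d14a53_gt_PW/Prin.lean`) only use the fields of
`Coc`; copy them. `Coc.diff`: the function `x ↦ F (ψ x) - F x` is a cocycle: as `ψ x = x n` with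
`n ∈ N`, `ρ (ψ x) = ρ x` on `U`; it vanishes on `N`, so it is principal by `Coc.prin` with
`H = ⊤`. `Coc.sub`: the difference of `F` and a principal cocycle.
-/

set_option autoImplicit false

noncomputable section

namespace Pool.Agent.MP_d14a53_gt_FT

open Pool.Agent.MP_d14a53_gt_PW

open scoped RealInnerProductSpace

section
variable {π : Type*} [Group π] {g p : ℕ} {V : Type*} [NormedAddCommGroup V]
  [InnerProductSpace ℝ V] {a b : Fin g → π} {c : Fin p → π} {N : Subgroup π} {U : Submodule ℝ V}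
  {ρ : π →* (V ≃ₗᵢ[ℝ] V)} {F : π → V}

theorem Coc.one (h : Coc N U ρ F) : F 1 = 0 := by
  have h1 := h.coc 1 1
  rw [mul_one, PI.rho_one] at h1
  exact left_eq_add.1 h1

theorem Coc.inv (h : Coc N U ρ F) (x : π) : F x⁻¹ = -(ρ x⁻¹ (F x)) := by
  have h1 := h.coc x⁻¹ x
  rw [inv_mul_cancel, h.one] at h1
  exact eq_neg_of_add_eq_zero_left h1.symm

theorem Coc.mul_triv (h : Coc N U ρ F) (x y : π) (hy : F y = 0) : F (x * y) = F x := by
  rw [h.coc, hy, map_zero, add_zero]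

theorem Coc.mul_left (h : Coc N U ρ F) (n y : π) (hn : n ∈ N) : F (n * y) = F n + F y := by
  rw [h.coc, h.triv n hn _ (h.val y)]

theorem Coc.conj (h : Coc N U ρ F) (x y : π) :
    F (x * y * x⁻¹) = F x + ρ x (F y) - ρ (x * y * x⁻¹) (F x) := by
  rw [h.coc, h.coc, h.inv, map_neg, ← PI.rho_mul, sub_eq_add_neg]

theorem Coc.pow_triv (h : Coc N U ρ F) (x : π) (hx : ∀ v ∈ U, ρ x v = v) (m : ℕ) :
    F (x ^ m) = (m : ℝ) • F x := by
  induction m with
  | zero => rw [pow_zero, h.one, Nat.cast_zero, zero_smul]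
  | succ m ih =>
    rw [pow_succ', h.coc, ih, hx _ (U.smul_mem _ (h.val x)), Nat.cast_succ, add_smul, one_smul,
      add_comm]

/-- the elements where the cocycle vanishes form a subgroup -/
theorem Coc.zero_closure (h : Coc N U ρ F) (S : Set π) (hS : ∀ x ∈ S, F x = 0) :
    ∀ x ∈ Subgroup.closure S, F x = 0 := by
  let H : Subgroup π :=
    { carrier := {y | F y = 0}
      mul_mem' := by
        intro y z h1 h2
        show F (y * z) = 0
        rw [h.mul_triv y z h2]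
        exact h1
      one_mem' := h.one
      inv_mem' := by
        intro y h1
        have h2 : F y = 0 := h1
        show F y⁻¹ = 0
        rw [h.inv, h2, map_zero, neg_zero] }
  intro x hx
  exact (Subgroup.closure_le H).2 (fun s hs => hS s hs) hx

theorem Coc.sub (h : Coc N U ρ F) (v : V) (hv : v ∈ U) :
    Coc N U ρ (fun x => F x - (ρ x v - v)) := by
  refine ⟨h.normal, h.fin, h.triv, h.stab,
    fun x => U.sub_mem (h.val x) (U.sub_mem (h.stab x v hv) hv), fun x y => ?_⟩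
  show F (x * y) - (ρ (x * y) v - v) = (F x - (ρ x v - v)) + ρ x (F y - (ρ y v - v))
  rw [h.coc, PI.rho_mul, map_sub, map_sub]
  abel

theorem Coc.prin (h : Coc N U ρ F) (H : Subgroup π) (h0 : ∀ x ∈ H, x ∈ N → F x = 0) :
    ∃ v ∈ U, PrinOn ρ F H v := by
  have : Finite (H ⧸ N.subgroupOf H) := PJ.fin_quot H h.fin
  have : Fintype (H ⧸ N.subgroupOf H) := Fintype.ofFinite _
  have hf : ∀ y : H, ∀ m : H, (m : π) ∈ N → F ((y : π) * m) = F y := fun y m hm =>
    h.mul_triv _ _ (h0 _ m.2 hm)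
  set S : V := ∑ q : H ⧸ N.subgroupOf H, F (Quotient.out q : H) with hS
  set n : ℝ := (Fintype.card (H ⧸ N.subgroupOf H) : ℝ) with hn
  have hn0 : n ≠ 0 := by
    rw [hn]
    exact_mod_cast Fintype.card_ne_zero
  have hSU : S ∈ U := U.sum_mem (fun q _ => h.val _)
  refine ⟨-(n⁻¹ • S), U.neg_mem (U.smul_mem _ hSU), fun x hx => ?_⟩
  have h1 := PJ.sum_left hf (⟨x, hx⟩ : H)
  simp only [h.coc] at h1
  rw [Finset.sum_add_distrib, Finset.sum_const, Finset.card_univ, ← map_sum, ← hS,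
    ← Nat.cast_smul_eq_nsmul ℝ, ← hn] at h1
  have h2 : n • F x = S - ρ x S := eq_sub_of_add_eq h1
  have h3 : F x = n⁻¹ • (S - ρ x S) := by
    rw [← h2, smul_smul, inv_mul_cancel₀ hn0, one_smul]
  rw [h3, map_neg, map_smul, smul_sub]
  abel

theorem Coc.diff (h : Coc N U ρ F) (ψ : π ≃* π) (hψ : ∀ x, x⁻¹ * ψ x ∈ N)
    (h0 : ∀ n ∈ N, F (ψ n) = F n) : ∃ v ∈ U, ∀ x, F (ψ x) = F x + (ρ x v - v) := by
  have hr : ∀ x, ∀ w ∈ U, ρ (ψ x) w = ρ x w := by
    intro x w hw
    have h3 : ψ x = x * (x⁻¹ * ψ x) := by group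
    rw [h3, PI.rho_mul, h.triv _ (hψ x) w hw]
  have hG : Coc N U ρ (fun x => F (ψ x) - F x) := by
    refine ⟨h.normal, h.fin, h.triv, h.stab, fun x => U.sub_mem (h.val _) (h.val _),
      fun x y => ?_⟩
    show F (ψ (x * y)) - F (x * y) = (F (ψ x) - F x) + ρ x (F (ψ y) - F y)
    rw [map_mul, h.coc, h.coc, hr _ _ (h.val _), map_sub]
    abel
  obtain ⟨v, hv, hp⟩ := hG.prin ⊤ (fun x _ hx => by
    show F (ψ x) - F x = 0
    rw [h0 x hx, sub_self])
  refine ⟨v, hv, fun x => ?_⟩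
  have h1 : F (ψ x) - F x = ρ x v - v := hp x (Subgroup.mem_top x)
  rw [← h1]
  abel

end

end Pool.Agent.MP_d14a53_gt_FT
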