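import Mathlib
import Pool.Agent.Lib.MP_d14a53_gt_FT.Defs
import Pool.Agent.Lib.MP_d14a53_gt_FT.Pri
import Pool.Agent.Lib.MP_d14a53_gt_PW.GoodB
import Pool.Agent.Lib.MP_d14a53_gt_PW.Punc

/-!
# MP_d14a53_gt FT module Goo

`GoodF` implies `Good` and is stable under subtraction of a principal cocycle.

`toGood`, field `fo`: for `ψ` trivial mod `N` the restrictions of `F ∘ ψ^i` to `N`, `i : ℕ`, lie in
the finite set `orb` (`Punc.pow`, `pow_congr`), so `F (ψ^i n) = F (ψ^j n)` on `N` for some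
`i < j` (`Set.Finite.exists_lt_map_eq_of_forall_mem`); put `k = j - i` and replace `n` by
`(ψ^i).symm n ∈ N`: `F (ψ^k n) = F n` on `N`. Use `Coc.diff` for `ψ^k`.
`subPrin`, field `orb`: for `n ∈ N`, `φ n ∈ N` acts trivially, so the new function `G` is the same
as the old one. Field `per`: as in `Good.subPrin`.
-/

set_option autoImplicit false

noncomputable section

namespace Pool.Agent.MP_d14a53_gt_FT

open Pool.Agent.MP_d14a53_gt_PW

open scoped RealInnerProductSpace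

section
variable {π : Type*} [Group π] {g p : ℕ} {V : Type*} [NormedAddCommGroup V]
  [InnerProductSpace ℝ V] {a b : Fin g → π} {c : Fin p → π} {N : Subgroup π} {U : Submodule ℝ V}
  {ρ : π →* (V ≃ₗᵢ[ℝ] V)} {F : π → V}

theorem mem_of_congr (hN : N.Normal) (φ : π ≃* π) (h : ∀ x, x⁻¹ * φ x ∈ N) (n : π) :
    φ n ∈ N ↔ n ∈ N := by
  have _ := hN
  have h1 : φ n = n * (n⁻¹ * φ n) := by group
  rw [h1]
  exact N.mul_mem_cancel_right (h n)

theorem GoodF.toGood (h : GoodF c N U ρ F) : Good c N U ρ F where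
  normal := h.normal
  fin := h.fin
  triv := h.triv
  stab := h.stab
  val := h.val
  coc := h.coc
  per := h.per
  fo ψ hψ hN := by
    have hmem : ∀ i : ℕ, (fun n : N => F ((ψ ^ i) (n : π))) ∈
        {G : N → V | ∃ φ : π ≃* π, Punc c φ ∧ (∀ x, x⁻¹ * φ x ∈ N) ∧
          ∀ n : N, G n = F (φ (n : π))} := fun i =>
      ⟨ψ ^ i, hψ.pow i, pow_congr N h.normal ψ hN i, fun _ => rfl⟩
    obtain ⟨i, j, hij, heq⟩ := Set.Finite.exists_lt_map_eq_of_forall_mem hmem h.orb
    have h0 : ∀ n ∈ N, F ((ψ ^ (j - i)) n) = F n := by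
      intro n hn
      have h1 : (ψ ^ i) ((ψ ^ i).symm n) = n := (ψ ^ i).apply_symm_apply n
      have h2 : (ψ ^ i).symm n ∈ N := by
        rw [← mem_of_congr h.normal (ψ ^ i) (pow_congr N h.normal ψ hN i), h1]
        exact hn
      have h3 : F ((ψ ^ i) ((ψ ^ i).symm n)) = F ((ψ ^ j) ((ψ ^ i).symm n)) :=
        congrFun heq ⟨_, h2⟩
      have h4 : (ψ ^ j) ((ψ ^ i).symm n) = (ψ ^ (j - i)) n := by
        conv_lhs => rw [show j = (j - i) + i by omega, pow_add, MulAut.mul_apply, h1]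
      rw [h1, h4] at h3
      exact h3.symm
    obtain ⟨v, hv, h5⟩ := h.toCoc.diff (ψ ^ (j - i)) (pow_congr N h.normal ψ hN (j - i)) h0
    exact ⟨j - i, by omega, v, hv, h5⟩

theorem GoodF.subPrin (h : GoodF c N U ρ F) (v : V) (hv : v ∈ U) :
    GoodF c N U ρ (fun x => F x - (ρ x v - v)) where
  toCoc := h.toCoc.sub v hv
  per j m hm := by
    show F (c j ^ m) - (ρ (c j ^ m) v - v) = 0
    rw [h.per j m hm, h.triv _ hm v hv, sub_self, sub_self]
  orb := by
    refine h.orb.subset ?_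
    rintro G ⟨φ, hφ, hN, hG⟩
    refine ⟨φ, hφ, hN, fun n => ?_⟩
    have h1 : φ (n : π) ∈ N := (mem_of_congr h.normal φ hN n).2 n.2
    have h2 : G n = F (φ (n : π)) - (ρ (φ (n : π)) v - v) := hG n
    rw [h2, h.triv _ h1 v hv, sub_self, sub_zero]

end

end Pool.Agent.MP_d14a53_gt_FT
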