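import Mathlib
import Pool.Agent.Lib.MP_d14a53_gt_FT.Defs
import Pool.Agent.Lib.MP_d14a53_gt_PW.Punc
import Pool.Agent.Lib.MP_d14a53_gt_PW.Lift

/-!
# MP_d14a53_gt FT module Reps

Finitely many representatives of a set of automorphisms modulo `N`.

`π` is generated by finitely many elements (`surf_ext`), so there are finitely many homomorphisms
`π →* π ⧸ N` (inject `Hom (π, π ⧸ N)` into the functions on the generators, by `surf_ext`). The
map `ψ ↦ mk ∘ ψ` on `A` has finite image; choose a preimage in `A` for every value. If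
`mk ∘ ψ = mk ∘ ψ'` then for `x = ψ' z`: `x⁻¹ * ψ (ψ'.symm x) = (ψ' z)⁻¹ * ψ z ∈ N`.
-/

set_option autoImplicit false

noncomputable section

namespace Pool.Agent.MP_d14a53_gt_FT

open Pool.Agent.MP_d14a53_gt_PW

open scoped RealInnerProductSpace

section
variable {π : Type*} [Group π] {g p : ℕ} {a b : Fin g → π} {c : Fin p → π}

theorem reps (hs : IsSurf a b c) (N : Subgroup π) (hN : N.Normal) (hf : N.FiniteIndex)
    (A : Set (π ≃* π)) : ∃ R : Set (π ≃* π), R.Finite ∧ R ⊆ A ∧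
      ∀ ψ ∈ A, ∃ ψ' ∈ R, ∀ x, x⁻¹ * (ψ'.symm.trans ψ) x ∈ N := by
  have hQ : Finite (π ⧸ N) := inferInstance
  have hfin : Finite (π →* π ⧸ N) := by
    refine Finite.of_injective (β := (Fin g → π ⧸ N) × (Fin g → π ⧸ N) × (Fin p → π ⧸ N))
      (fun φ => (fun i => φ (a i), fun i => φ (b i), fun j => φ (c j))) ?_
    intro φ ψ h
    have h1 := congrArg Prod.fst h
    have h2 := congrArg (fun x => x.2.1) h
    have h3 := congrArg (fun x => x.2.2) h
    exact surf_ext hs φ ψ (congrFun h1) (congrFun h2) (congrFun h3)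
  obtain ⟨F, hF⟩ : ∃ F : (π ≃* π) → (π →* π ⧸ N), F = fun ψ =>
    (QuotientGroup.mk' N).comp ψ.toMonoidHom := ⟨_, rfl⟩
  obtain ⟨R, hRA, hR⟩ := Set.exists_subset_bijOn A F
  refine ⟨R, Set.Finite.of_injOn hR.mapsTo hR.injOn (Set.toFinite _), hRA, fun ψ hψ => ?_⟩
  obtain ⟨ψ', hψ', he⟩ := hR.surjOn (Set.mem_image_of_mem F hψ)
  refine ⟨ψ', hψ', fun x => ?_⟩
  have h1 := DFunLike.congr_fun he (ψ'.symm x)
  rw [hF] at h1
  change QuotientGroup.mk' N (ψ' (ψ'.symm x)) = QuotientGroup.mk' N (ψ (ψ'.symm x)) at h1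
  rw [MulEquiv.apply_symm_apply] at h1
  exact QuotientGroup.eq.1 h1

end

end Pool.Agent.MP_d14a53_gt_FT
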