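import Mathlib
import Pool.Agent.Lib.MP_d14a53_gt_FT.Defs
import Pool.Agent.Lib.MP_d14a53_gt_FT.Cxt
import Pool.Agent.Lib.MP_d14a53_gt_FT.Goo
import Pool.Agent.Lib.MP_d14a53_gt_FT.Reps
import Pool.Agent.Lib.MP_d14a53_gt_FT.Pri
import Pool.Agent.Lib.MP_d14a53_gt_PW.Twist

/-!
# MP_d14a53_gt FT module Cres

Restriction of a cocycle to the cut surface.

`normal`, `fin` (`Subgroup.comap`, the index of `N.comap ι` divides/is at most that of `N`: the
quotient embeds into `π ⧸ N`), `triv`, `stab`, `val`, `coc`: clear.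
`per`: for `c'_j`, `j < p`, it is `h.per`. For `c'_p` the image is `a_0 b_0 a_0⁻¹`: if
`(a_0 b_0 a_0⁻¹)^m = a_0 b_0^m a_0⁻¹ ∈ N` then `b_0^m ∈ N`, `F (b_0^m) = 0` by `Good.twist_b`
(`GoodF.toGood`, `i = 0`) and `F (a_0 b_0^m a_0⁻¹) = 0` by `Coc.conj`. For `c'_{p+1}` the image is
`b_0⁻¹` (`Coc.inv`).
`orb`: let `ψ'` be as in the definition for `N' = N.comap ι`, `ψ` its extension
(`IsCut.ext`). Apply `reps` to the set `A` of all `ψ` with `Punc c ψ`: `ψ = χ ∘ ψ_1`, `ψ_1` in a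
finite set, `χ` trivial mod `N`, `Punc c χ`; `G_χ` the restriction of `F ∘ χ` to `N` is one of
finitely many functions. For `n' ∈ N'`: `ι (ψ' n') = ψ (ι n') = χ (ψ_1 (ι n'))` is in `N`, so
`ψ_1 (ι n') ∈ N` (`mem_of_congr`) and `F (ι (ψ' n')) = G_χ (ψ_1 (ι n'))` depends only on `ψ_1` and
`G_χ`.
-/

set_option autoImplicit false

noncomputable section

namespace Pool.Agent.MP_d14a53_gt_FT

open Pool.Agent.MP_d14a53_gt_PW

open scoped RealInnerProductSpace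

section
variable {π π' : Type*} [Group π] [Group π'] {g p : ℕ} {a b : Fin (g + 1) → π} {c : Fin p → π}
  {a' b' : Fin g → π'} {c' : Fin (p + 2) → π'} {ι : π' →* π}
  {V : Type*} [NormedAddCommGroup V] [InnerProductSpace ℝ V] {N : Subgroup π}
  {U : Submodule ℝ V} {ρ : π →* (V ≃ₗᵢ[ℝ] V)} {F : π → V}

namespace Cres

theorem b_pow (hs : IsSurf a b c) (hF : GoodF c N U ρ F) (m : ℕ) (hm : b 0 ^ m ∈ N) :
    F (b 0 ^ m) = 0 :=
  hF.toGood.twist_b hs 0 m hm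

theorem conj_zero (hF : Coc N U ρ F) (x y : π) (hy : F y = 0) (hxy : x * y * x⁻¹ ∈ N) :
    F (x * y * x⁻¹) = 0 := by
  rw [hF.conj, hy, map_zero, add_zero, hF.triv _ hxy _ (hF.val x), sub_self]

theorem fi (hN : N.Normal) (hf : N.FiniteIndex) (ι : π' →* π) : (N.comap ι).FiniteIndex := by
  refine ⟨fun h0 => hf.index_ne_zero ?_⟩
  rw [Subgroup.index_comap] at h0
  have h1 := Subgroup.relIndex_dvd_index_of_normal N ι.range
  rw [h0] at h1
  exact zero_dvd_iff.1 h1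

theorem inv_zero (hF : Coc N U ρ F) (x : π) (hx : F x = 0) : F x⁻¹ = 0 := by
  rw [hF.inv, hx, map_zero, neg_zero]

end Cres

theorem IsCut.res (h : IsCut a b c a' b' c' ι) (hF : GoodF c N U ρ F) :
    GoodF c' (N.comap ι) U (ρ.comp ι) (fun x => F (ι x)) := by
  classical
  have hN := hF.normal
  have hfin := hF.fin
  refine ⟨⟨hN.comap ι, Cres.fi hN hfin ι, fun n hn v hv => hF.triv (ι n) hn v hv,
    fun x v hv => hF.stab (ι x) v hv, fun x => hF.val (ι x), fun x y => ?_⟩, ?_, ?_⟩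
  · show F (ι (x * y)) = F (ι x) + ρ (ι x) (F (ι y))
    rw [map_mul, hF.coc]
  · intro j m hm
    show F (ι (c' j ^ m)) = 0
    have hm' : ι (c' j ^ m) ∈ N := hm
    rw [map_pow] at hm' ⊢
    induction j using Fin.addCases with
    | left j =>
      rw [h.hc] at hm' ⊢
      exact hF.per j m hm'
    | right k =>
      fin_cases k
      · change ι (c' (Fin.natAdd p 0)) ^ m ∈ N at hm'
        change F (ι (c' (Fin.natAdd p 0)) ^ m) = 0
        rw [h.hd, conj_pow] at hm' ⊢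
        refine Cres.conj_zero hF.toCoc _ _ (Cres.b_pow h.surf hF m ?_) hm'
        have h1 := hN.conj_mem _ hm' (a 0)⁻¹
        have h2 : (a 0)⁻¹ * (a 0 * b 0 ^ m * (a 0)⁻¹) * (a 0)⁻¹⁻¹ = b 0 ^ m := by group
        rwa [h2] at h1
      · change ι (c' (Fin.natAdd p 1)) ^ m ∈ N at hm'
        change F (ι (c' (Fin.natAdd p 1)) ^ m) = 0
        rw [h.he, inv_pow] at hm' ⊢
        refine Cres.inv_zero hF.toCoc _ (Cres.b_pow h.surf hF m ?_)
        exact (N.inv_mem_iff).1 hm'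
  · obtain ⟨R, hRf, hRA, hR⟩ := reps h.surf N hN hfin {ψ : π ≃* π | Punc c ψ}
    let Θ : (π ≃* π) × (N → V) → (N.comap ι → V) := fun z n' =>
      if hz : z.1 (ι (n' : π')) ∈ N then z.2 ⟨z.1 (ι (n' : π')), hz⟩ else 0
    refine ((hRf.prod hF.orb).image Θ).subset ?_
    rintro G ⟨φ, hφ, hφN, hG⟩
    obtain ⟨ψ, hψ, hψι⟩ := h.ext φ hφ
    obtain ⟨ψ₁, hψ₁, hχ⟩ := hR ψ hψ
    have hψ₁c : Punc c ψ₁ := hRA hψ₁
    refine ⟨(ψ₁, fun n : N => F ((ψ₁.symm.trans ψ) (n : π))), ⟨hψ₁, ψ₁.symm.trans ψ,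
      hψ₁c.symm.trans hψ, hχ, fun n => rfl⟩, ?_⟩
    funext n'
    have e1 : (ψ₁.symm.trans ψ) (ψ₁ (ι (n' : π'))) = ι (φ (n' : π')) := by
      rw [MulEquiv.trans_apply, MulEquiv.symm_apply_apply, hψι]
    have h2 : φ (n' : π') ∈ N.comap ι := by
      have h3 := (N.comap ι).mul_mem n'.2 (hφN (n' : π'))
      rwa [mul_inv_cancel_left] at h3
    have h4 : ψ₁ (ι (n' : π')) ∈ N := by
      rw [← mem_of_congr hN (ψ₁.symm.trans ψ) hχ, e1]
      exact h2
    show (if hz : ψ₁ (ι (n' : π')) ∈ N then F ((ψ₁.symm.trans ψ) (ψ₁ (ι (n' : π')))) else 0) =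
      G n'
    rw [dif_pos h4, e1, hG]

end

end Pool.Agent.MP_d14a53_gt_FT
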