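import Mathlib
import Pool.Agent.Lib.MP_d14a53_gt_FT.Defs

/-!
# MP_d14a53_gt (Putman-Wieland), project FT: the condition on a normal subgroup
-/

set_option autoImplicit false

noncomputable section

namespace Pool.Agent.MP_d14a53_gt_FT

open Pool.Agent.MP_d14a53_gt_PW

/-- There are standard generators `a, b, c'` of the surface group `π` (`c'_j` conjugate to `c_j`)
and an index `k` such that `b k` commutes modulo `M` with all elements of `CutK a b c' k`, the
fundamental group of the surface cut along the disjoint curves `b 0, …, b (k-1)`. -/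
def HasCurve {π : Type*} [Group π] {p : ℕ} (g : ℕ) (c : Fin p → π) (M : Subgroup π) : Prop :=
  ∃ (a b : Fin g → π) (c' : Fin p → π) (k : Fin g), IsSurf a b c' ∧
    (∀ j, ∃ x : π, c' j = x * c j * x⁻¹) ∧
    ∀ s ∈ CutK a b c' k, b k * s * (b k)⁻¹ * s⁻¹ ∈ M

end Pool.Agent.MP_d14a53_gt_FT
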