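import Mathlib
import Pool.Agent.Lib.MP_d14a53_gt_FT.Defs

/-!
# MP_d14a53_gt FT module Div

The sum of `1/(a²+b²)` over the pairs `1 ≤ a < b`, `b` prime, diverges.

For a prime `b`: `∑_{1 ≤ a < b} 1/(a²+b²) ≥ (b-1)/(2b²) ≥ 1/(4b)`. And `∑ 1/b` over the primes
diverges (`Nat.Primes.not_summable_one_div`), so there is a finite set `P` of primes with
`∑_{b ∈ P} 1/b ≥ 4 R` (a nonnegative function with bounded finite sums is summable,
`summable_of_sum_le`). Take all pairs `(a, b)` with `b ∈ P`, `1 ≤ a < b`.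
-/

set_option autoImplicit false

noncomputable section

namespace Pool.Agent.MP_d14a53_gt_FT

open Pool.Agent.MP_d14a53_gt_PW

open scoped RealInnerProductSpace

namespace Div

theorem one (b : ℕ) (hb : b.Prime) :
    1 / (b : ℝ) ≤ 4 * ∑ a ∈ Finset.Ico 1 b, 1 / ((a : ℝ) ^ 2 + (b : ℝ) ^ 2) := by
  have hb2 : (2 : ℝ) ≤ b := by exact_mod_cast hb.two_le
  have hb0 : (0 : ℝ) < b := by linarith
  have h1 : ∑ _a ∈ Finset.Ico 1 b, 1 / (2 * (b : ℝ) ^ 2) ≤
      ∑ a ∈ Finset.Ico 1 b, 1 / ((a : ℝ) ^ 2 + (b : ℝ) ^ 2) := by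
    refine Finset.sum_le_sum fun a ha => ?_
    rw [Finset.mem_Ico] at ha
    have ha1 : (a : ℝ) ≤ b := by exact_mod_cast ha.2.le
    have ha0 : (0 : ℝ) ≤ a := Nat.cast_nonneg a
    apply one_div_le_one_div_of_le (by positivity)
    nlinarith
  rw [Finset.sum_const, Nat.card_Ico, nsmul_eq_mul, Nat.cast_sub hb.one_lt.le,
    Nat.cast_one] at h1
  have h2 : 1 / (b : ℝ) ≤ 4 * (((b : ℝ) - 1) * (1 / (2 * (b : ℝ) ^ 2))) := by
    have h3 : 4 * (((b : ℝ) - 1) * (1 / (2 * (b : ℝ) ^ 2))) = (2 * (b : ℝ) - 2) / (b : ℝ) ^ 2 := by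
      field_simp
      ring
    rw [h3, div_le_div_iff₀ hb0 (by positivity)]
    nlinarith
  linarith

end Div

theorem div_sum (R : ℝ) : ∃ s : Finset (ℕ × ℕ),
    (∀ z ∈ s, 1 ≤ z.1 ∧ z.1 < z.2 ∧ z.2.Prime) ∧
    R ≤ ∑ z ∈ s, 1 / ((z.1 : ℝ) ^ 2 + (z.2 : ℝ) ^ 2) := by
  classical
  have hns := not_summable_one_div_on_primes
  have hf0 : ∀ n : ℕ, 0 ≤ Set.indicator {p : ℕ | p.Prime} (fun n : ℕ => (1 : ℝ) / n) n :=
    fun n => Set.indicator_nonneg (fun _ _ => by positivity) n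
  rw [not_summable_iff_tendsto_nat_atTop_of_nonneg hf0] at hns
  obtain ⟨n, hn⟩ := (hns.eventually_ge_atTop (4 * R)).exists
  refine ⟨(Finset.range n ×ˢ Finset.range n).filter
    (fun z => 1 ≤ z.1 ∧ z.1 < z.2 ∧ z.2.Prime), fun z hz => (Finset.mem_filter.1 hz).2, ?_⟩
  rw [Finset.sum_filter, Finset.sum_product_right]
  have key : ∀ b ∈ Finset.range n,
      Set.indicator {p : ℕ | p.Prime} (fun n : ℕ => (1 : ℝ) / n) b ≤
        4 * ∑ a ∈ Finset.range n, if 1 ≤ a ∧ a < b ∧ b.Prime then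
          1 / ((a : ℝ) ^ 2 + (b : ℝ) ^ 2) else 0 := by
    intro b hb
    rw [Finset.mem_range] at hb
    by_cases hp : b.Prime
    · rw [Set.indicator_of_mem (show b ∈ {p : ℕ | p.Prime} from hp)]
      refine (Div.one b hp).trans ?_
      refine mul_le_mul_of_nonneg_left ?_ (by norm_num)
      rw [← Finset.sum_filter]
      refine Finset.sum_le_sum_of_subset_of_nonneg ?_ (fun _ _ _ => by positivity)
      intro a ha
      rw [Finset.mem_Ico] at ha
      rw [Finset.mem_filter, Finset.mem_range]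
      exact ⟨ha.2.trans hb, ha.1, ha.2, hp⟩
    · rw [Set.indicator_of_notMem (show b ∉ {p : ℕ | p.Prime} from hp)]
      refine mul_nonneg (by norm_num) (Finset.sum_nonneg fun a _ => ?_)
      split_ifs
      · positivity
      · exact le_rfl
  have h2 := Finset.sum_le_sum key
  rw [← Finset.mul_sum] at h2
  have h3 := hn.trans h2
  dsimp only at h3 ⊢
  linarith

end Pool.Agent.MP_d14a53_gt_FT
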