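import Mathlib
import Pool.Agent.Lib.MP_d14a53_gt_FT.Defs

/-!
# MP_d14a53_gt FT module Dq

A function which is given by two affine pull backs on the two sides of a line is still a
primitive.

Let `w r = u (p + r v) + u0`, affine in `r`, and suppose `p + r v` is in the closed tile for
`r` in `[s,t]`. Call a subinterval `[s',t']` good if the assertion holds for it; if `[s',r]` and
`[r,t']` are good so is `[s',t']` (`intervalIntegral.integral_add_adjacent_intervals`; `n'` is
bounded and measurable). If `0 ≤ w` on `[s',t']` it is good: use `D1` for the point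
`A p + d1`, the direction `A v` (`h1`, `hA`). If `w ≤ 0` on `[s',t']` and `w < 0` on the open
interval it is good: use `D2`, `h2` for the end values and `h2n` almost everywhere for the
integrals (`intervalIntegral.integral_congr_ae` or `integral_congr_Ioo`-like lemmas; the case
`s' = t'` is trivial). An affine function on `[s,t]` either has constant sign in this sense or
changes its sign once at `r0 = -(w 0) / (slope)`.
-/

set_option autoImplicit false

noncomputable section

namespace Pool.Agent.MP_d14a53_gt_FT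

open Pool.Agent.MP_d14a53_gt_PW

open scoped RealInnerProductSpace

namespace DqAux

/-- a bounded measurable function along a line is integrable -/
theorem integrable {n : ℝ × ℝ → ℝ} (hm : Measurable n) (hb : ∃ C, ∀ p, |n p| ≤ C) (p v : ℝ × ℝ)
    (a b : ℝ) : IntervalIntegrable (fun r : ℝ => n (p + r • v)) MeasureTheory.volume a b := by
  obtain ⟨C, hC⟩ := hb
  have h1 : Measurable (fun r : ℝ => n (p + r • v)) := by
    refine hm.comp ?_
    have : Continuous fun r : ℝ => p + r • v := by fun_prop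
    exact this.measurable
  have h2 : IntervalIntegrable (fun _ : ℝ => C) MeasureTheory.volume a b :=
    intervalIntegrable_const
  refine h2.mono_fun h1.aestronglyMeasurable (Filter.Eventually.of_forall fun r => ?_)
  simp only [Real.norm_eq_abs]
  exact (hC _).trans (le_abs_self C)

end DqAux

theorem Dq_glue {m1 m2 m' n1 n2 n' : ℝ × ℝ → ℝ} {c c' : ℝ × ℝ} (A : ℝ × ℝ →ₗ[ℝ] ℝ × ℝ)
    (d1 d2 : ℝ × ℝ) (u : ℝ × ℝ →ₗ[ℝ] ℝ) (u0 : ℝ)
    (hA : ∀ v, c.1 * (A v).1 + c.2 * (A v).2 = c'.1 * v.1 + c'.2 * v.2)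
    (h1 : ∀ p ∈ Cq, 0 ≤ u p + u0 →
      A p + d1 ∈ Cq ∧ m' p = m1 (A p + d1) ∧ n' p = n1 (A p + d1))
    (h2 : ∀ p ∈ Cq, u p + u0 ≤ 0 → A p + d2 ∈ Cq ∧ m' p = m2 (A p + d2))
    (h2n : ∀ p ∈ Cq, u p + u0 < 0 → n' p = n2 (A p + d2))
    (hm : Measurable n') (hb : ∃ C, ∀ p, |n' p| ≤ C)
    (D1 : Dq m1 n1 c) (D2 : Dq m2 n2 c) : Dq m' n' c' := by
  intro p v s t hst hC
  have hint := DqAux.integrable hm hb p v
  have hw : ∀ r : ℝ, u (p + r • v) + u0 = u p + u0 + r * u v := by
    intro r
    rw [map_add, map_smul, smul_eq_mul]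
    ring
  have hAp : ∀ (d : ℝ × ℝ) (r : ℝ), A (p + r • v) + d = A p + d + r • A v := by
    intro d r
    rw [map_add, map_smul]
    abel
  -- the assertion on a subinterval
  have gpos : ∀ a b : ℝ, s ≤ a → a ≤ b → b ≤ t →
      (∀ r ∈ Set.Icc a b, 0 ≤ u (p + r • v) + u0) →
      m' (p + b • v) - m' (p + a • v) =
        (c'.1 * v.1 + c'.2 * v.2) * ∫ r in a..b, n' (p + r • v) := by
    intro a b ha hab hb' hpos
    have hC' : ∀ r ∈ Set.Icc a b, p + r • v ∈ Cq := fun r hr =>
      hC r ⟨ha.trans hr.1, hr.2.trans hb'⟩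
    have h3 := D1 (A p + d1) (A v) a b hab (fun r hr => by
      rw [← hAp]
      exact (h1 _ (hC' r hr) (hpos r hr)).1)
    have h4 : ∫ r in a..b, n' (p + r • v) = ∫ r in a..b, n1 (A p + d1 + r • A v) := by
      refine intervalIntegral.integral_congr fun r hr => ?_
      rw [Set.uIcc_of_le hab] at hr
      show n' (p + r • v) = n1 (A p + d1 + r • A v)
      rw [← hAp]
      exact (h1 _ (hC' r hr) (hpos r hr)).2.2
    have h5 := (h1 _ (hC' a ⟨le_rfl, hab⟩) (hpos a ⟨le_rfl, hab⟩)).2.1
    have h6 := (h1 _ (hC' b ⟨hab, le_rfl⟩) (hpos b ⟨hab, le_rfl⟩)).2.1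
    rw [h5, h6, h4, hAp, hAp, h3, hA]
  have gneg : ∀ a b : ℝ, s ≤ a → a ≤ b → b ≤ t →
      (∀ r ∈ Set.Icc a b, u (p + r • v) + u0 ≤ 0) →
      (∀ r ∈ Set.Ioo a b, u (p + r • v) + u0 < 0) →
      m' (p + b • v) - m' (p + a • v) =
        (c'.1 * v.1 + c'.2 * v.2) * ∫ r in a..b, n' (p + r • v) := by
    intro a b ha hab hb' hneg hneg'
    have hC' : ∀ r ∈ Set.Icc a b, p + r • v ∈ Cq := fun r hr =>
      hC r ⟨ha.trans hr.1, hr.2.trans hb'⟩
    have h3 := D2 (A p + d2) (A v) a b hab (fun r hr => by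
      rw [← hAp]
      exact (h2 _ (hC' r hr) (hneg r hr)).1)
    have h4 : ∫ r in a..b, n' (p + r • v) = ∫ r in a..b, n2 (A p + d2 + r • A v) := by
      refine intervalIntegral.integral_congr_ae ?_
      have h5 : ∀ᵐ r : ℝ, r ≠ b := by
        rw [MeasureTheory.ae_iff]
        simp
      filter_upwards [h5] with r hr hr'
      rw [Set.uIoc_of_le hab] at hr'
      rw [← hAp]
      exact h2n _ (hC' r ⟨hr'.1.le, hr'.2⟩) (hneg' r ⟨hr'.1, lt_of_le_of_ne hr'.2 hr⟩)
    have h5 := (h2 _ (hC' a ⟨le_rfl, hab⟩) (hneg a ⟨le_rfl, hab⟩)).2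
    have h6 := (h2 _ (hC' b ⟨hab, le_rfl⟩) (hneg b ⟨hab, le_rfl⟩)).2
    rw [h5, h6, h4, hAp, hAp, h3, hA]
  have gadd : ∀ r0 : ℝ,
      m' (p + r0 • v) - m' (p + s • v) =
        (c'.1 * v.1 + c'.2 * v.2) * ∫ r in s..r0, n' (p + r • v) →
      m' (p + t • v) - m' (p + r0 • v) =
        (c'.1 * v.1 + c'.2 * v.2) * ∫ r in r0..t, n' (p + r • v) →
      m' (p + t • v) - m' (p + s • v) =
        (c'.1 * v.1 + c'.2 * v.2) * ∫ r in s..t, n' (p + r • v) := by
    intro r0 e1 e2
    rw [← intervalIntegral.integral_add_adjacent_intervals (hint s r0) (hint r0 t), mul_add,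
      ← e1, ← e2]
    ring
  rcases lt_trichotomy (u v) 0 with hv | hv | hv
  · -- decreasing
    obtain ⟨r0, hr0⟩ : ∃ r0 : ℝ, r0 = -(u p + u0) / u v := ⟨_, rfl⟩
    have hv0 : u v ≠ 0 := hv.ne
    have hw' : ∀ r : ℝ, u (p + r • v) + u0 = (-u v) * (r0 - r) := by
      intro r
      rw [hw, hr0]
      field_simp
      ring
    have hv' : 0 < -u v := by linarith
    by_cases c1 : t ≤ r0
    · refine gpos s t le_rfl hst le_rfl fun r hr => ?_
      rw [hw']
      exact mul_nonneg hv'.le (by linarith [hr.2])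
    by_cases c2 : r0 ≤ s
    · refine gneg s t le_rfl hst le_rfl (fun r hr => ?_) fun r hr => ?_
      · rw [hw']
        exact mul_nonpos_of_nonneg_of_nonpos hv'.le (by linarith [hr.1])
      · rw [hw']
        exact mul_neg_of_pos_of_neg hv' (by linarith [hr.1])
    · push Not at c1 c2
      refine gadd r0 (gpos s r0 le_rfl c2.le c1.le fun r hr => ?_)
        (gneg r0 t c2.le c1.le le_rfl (fun r hr => ?_) fun r hr => ?_)
      · rw [hw']
        exact mul_nonneg hv'.le (by linarith [hr.2])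
      · rw [hw']
        exact mul_nonpos_of_nonneg_of_nonpos hv'.le (by linarith [hr.1])
      · rw [hw']
        exact mul_neg_of_pos_of_neg hv' (by linarith [hr.1])
  · -- constant
    rcases le_or_gt 0 (u p + u0) with h0 | h0
    · refine gpos s t le_rfl hst le_rfl fun r _ => ?_
      rw [hw, hv, mul_zero, add_zero]
      exact h0
    · refine gneg s t le_rfl hst le_rfl (fun r _ => ?_) fun r _ => ?_
      · rw [hw, hv, mul_zero, add_zero]
        exact h0.le
      · rw [hw, hv, mul_zero, add_zero]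
        exact h0
  · -- increasing
    obtain ⟨r0, hr0⟩ : ∃ r0 : ℝ, r0 = -(u p + u0) / u v := ⟨_, rfl⟩
    have hw' : ∀ r : ℝ, u (p + r • v) + u0 = u v * (r - r0) := by
      intro r
      rw [hw, hr0]
      field_simp
      ring
    by_cases c1 : r0 ≤ s
    · refine gpos s t le_rfl hst le_rfl fun r hr => ?_
      rw [hw']
      exact mul_nonneg hv.le (by linarith [hr.1])
    by_cases c2 : t ≤ r0
    · refine gneg s t le_rfl hst le_rfl (fun r hr => ?_) fun r hr => ?_
      · rw [hw']
        exact mul_nonpos_of_nonneg_of_nonpos hv.le (by linarith [hr.2])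
      · rw [hw']
        exact mul_neg_of_pos_of_neg hv (by linarith [hr.2])
    · push Not at c1 c2
      refine gadd r0 (gneg s r0 le_rfl c1.le c2.le (fun r hr => ?_) fun r hr => ?_)
        (gpos r0 t c1.le c2.le le_rfl fun r hr => ?_)
      · rw [hw']
        exact mul_nonpos_of_nonneg_of_nonpos hv.le (by linarith [hr.2])
      · rw [hw']
        exact mul_neg_of_pos_of_neg hv (by linarith [hr.2])
      · rw [hw']
        exact mul_nonneg hv.le (by linarith [hr.1])

end Pool.Agent.MP_d14a53_gt_FT
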