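import Mathlib
import Pool.Agent.Lib.MP_d14a53_gt_FT.Defs
import Pool.Agent.Lib.MP_d14a53_gt_FT.GlO
import Pool.Agent.Lib.MP_d14a53_gt_FT.Dq
import Pool.Agent.Lib.MP_d14a53_gt_FT.BmO

/-!
# MP_d14a53_gt FT module DpO

The moves transform primitives into primitives.

Move `a` with `Dq_glue` for every `h`: `u p = p₁ - p₂`, `u0 = 0`, `A p = (p₁ - p₂, p₂)`,
`d1 = 0`, `d2 = (1, 0)`, `m1 = m · (α h y)`, `m2 = m · (α h)`, `n1 = n · (g (α h y))`,
`n2 = n · (g (α h))`. In `h2` on the diagonal `p₁ = p₂`: `m (0,p₂) (α h y) = m (1,p₂) (α h)` is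
the gluing. `hA`: `c₁ (v₁ - v₂) + c₂ v₂ = c₁ v₁ + (c₂ - c₁) v₂`.
Move `a'`: `u p = p₁ + p₂`, `u0 = -1`, `A p = (p₁ + p₂, p₂)`, `d1 = (-1,0)` (this is the branch
`¬ p₁ + p₂ < 1`), `d2 = 0`; on `p₁ + p₂ = 1` the gluing
`m (0,p₂) (α⁻¹ h) = m (1,p₂) (α⁻¹ h y⁻¹)`.
The moves `b`, `b'` are the same with the coordinates exchanged.
Compatibility: `g (α h y) = α (g h) y` and so on (`hg`; for the inverses
`g (α⁻¹ h) = α⁻¹ (g h)` follows from `hg.α`).
-/

set_option autoImplicit false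

noncomputable section

namespace Pool.Agent.MP_d14a53_gt_FT

open Pool.Agent.MP_d14a53_gt_PW

open scoped RealInnerProductSpace

section
variable {G Q : Type*} [Group G] [Group Q]

theorem Cmp.symm {L : Lab G} {L' : Lab Q} {g : G →* Q} (hg : Cmp L L' g) (h : G) :
    g (L.α.symm h) = L'.α.symm (g h) ∧ g (L.β.symm h) = L'.β.symm (g h) := by
  constructor
  · rw [MulEquiv.eq_symm_apply, ← hg.α, MulEquiv.apply_symm_apply]
  · rw [MulEquiv.eq_symm_apply, ← hg.β, MulEquiv.apply_symm_apply]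

theorem Dp.op {L : Lab G} {L' : Lab Q} {g : G →* Q} (hg : Cmp L L' g)
    {m : ℝ × ℝ → G → ℝ} {n : ℝ × ℝ → Q → ℝ} (hm : Gl L m) (hn : Bm n) {c : ℝ × ℝ}
    (h : Dp g m n c) (s : Mv) : Dp g (L.op s m) (L'.op s n) (cv s c) := by
  intro z
  have hmeas : Measurable fun p => L'.op s n p (g z) := (hn.op L' s).meas (g z)
  have hbdd : ∃ C, ∀ p, |L'.op s n p (g z)| ≤ C := by
    obtain ⟨C, hC⟩ := (hn.op L' s).bdd
    exact ⟨C, fun p => hC p _⟩
  cases s with
  | a =>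
    have D1 := h (L.α z * L.y)
    have D2 := h (L.α z)
    simp only [map_mul, hg.α, hg.y] at D1 D2
    refine Dq_glue ((LinearMap.fst ℝ ℝ ℝ - LinearMap.snd ℝ ℝ ℝ).prod (LinearMap.snd ℝ ℝ ℝ))
      0 (1, 0) (LinearMap.fst ℝ ℝ ℝ - LinearMap.snd ℝ ℝ ℝ) 0 (fun v => ?_) (fun p hp hu => ?_)
      (fun p hp hu => ?_) (fun p hp hu => ?_) hmeas hbdd D1 D2
    · show c.1 * (v.1 - v.2) + c.2 * v.2 = c.1 * v.1 + (c.2 - c.1) * v.2
      ring
    · obtain ⟨⟨h1, h2⟩, h3, h4⟩ := hp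
      have hu' : p.2 ≤ p.1 := by
        have : 0 ≤ p.1 - p.2 + 0 := hu
        linarith
      have e : ((LinearMap.fst ℝ ℝ ℝ - LinearMap.snd ℝ ℝ ℝ).prod (LinearMap.snd ℝ ℝ ℝ)) p + 0 =
          (p.1 - p.2, p.2) := by
        rw [add_zero]
        rfl
      rw [e]
      refine ⟨⟨⟨?_, ?_⟩, ?_, ?_⟩, ?_, ?_⟩
      · show (0 : ℝ) ≤ p.1 - p.2
        linarith
      · show p.1 - p.2 ≤ 1
        linarith
      · exact h3
      · exact h4
      · show (if p.2 ≤ p.1 then _ else _) = _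
        rw [if_pos hu']
      · show (if p.2 ≤ p.1 then _ else _) = _
        rw [if_pos hu']
    · obtain ⟨⟨h1, h2⟩, h3, h4⟩ := hp
      have hu' : p.1 ≤ p.2 := by
        have : p.1 - p.2 + 0 ≤ 0 := hu
        linarith
      have e : ((LinearMap.fst ℝ ℝ ℝ - LinearMap.snd ℝ ℝ ℝ).prod (LinearMap.snd ℝ ℝ ℝ)) p +
          (1, 0) = (1 + p.1 - p.2, p.2) := by
        refine Prod.ext ?_ ?_
        · show p.1 - p.2 + 1 = 1 + p.1 - p.2
          ring
        · show p.2 + 0 = p.2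
          ring
      rw [e]
      refine ⟨⟨⟨?_, ?_⟩, ?_, ?_⟩, ?_⟩
      · show (0 : ℝ) ≤ 1 + p.1 - p.2
        linarith
      · show 1 + p.1 - p.2 ≤ 1
        linarith
      · exact h3
      · exact h4
      · show (if p.2 ≤ p.1 then m (p.1 - p.2, p.2) (L.α z * L.y) else _) = _
        by_cases hc : p.2 ≤ p.1
        · have h5 : p.1 = p.2 := le_antisymm hu' hc
          rw [if_pos hc, h5, sub_self, add_sub_cancel_right]
          exact ((hm p.2 ⟨h3, h4⟩ (L.α z)).1).symm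
        · rw [if_neg hc]
    · have hu' : ¬ p.2 ≤ p.1 := by
        have : p.1 - p.2 + 0 < 0 := hu
        linarith
      show (if p.2 ≤ p.1 then _ else _) = _
      rw [if_neg hu']
      congr 1
      refine Prod.ext ?_ ?_
      · show 1 + p.1 - p.2 = p.1 - p.2 + 1
        ring
      · show p.2 = p.2 + 0
        ring
  | a' =>
    have D1 := h (L.α.symm z)
    have D2 := h (L.α.symm z * L.y⁻¹)
    simp only [map_mul, map_inv, (hg.symm z).1, hg.y] at D1 D2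
    refine Dq_glue ((LinearMap.fst ℝ ℝ ℝ + LinearMap.snd ℝ ℝ ℝ).prod (LinearMap.snd ℝ ℝ ℝ))
      (-1, 0) 0 (LinearMap.fst ℝ ℝ ℝ + LinearMap.snd ℝ ℝ ℝ) (-1) (fun v => ?_)
      (fun p hp hu => ?_)
      (fun p hp hu => ?_) (fun p hp hu => ?_) hmeas hbdd D1 D2
    · show c.1 * (v.1 + v.2) + c.2 * v.2 = c.1 * v.1 + (c.1 + c.2) * v.2
      ring
    · obtain ⟨⟨h1, h2⟩, h3, h4⟩ := hp
      have hu' : ¬ p.1 + p.2 < 1 := by
        have : 0 ≤ p.1 + p.2 + -1 := hu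
        linarith
      have e : ((LinearMap.fst ℝ ℝ ℝ + LinearMap.snd ℝ ℝ ℝ).prod (LinearMap.snd ℝ ℝ ℝ)) p +
          (-1, 0) = (p.1 + p.2 - 1, p.2) := by
        refine Prod.ext ?_ ?_
        · show p.1 + p.2 + -1 = p.1 + p.2 - 1
          ring
        · show p.2 + 0 = p.2
          ring
      rw [e]
      refine ⟨⟨⟨?_, ?_⟩, ?_, ?_⟩, ?_, ?_⟩
      · show (0 : ℝ) ≤ p.1 + p.2 - 1
        linarith
      · show p.1 + p.2 - 1 ≤ 1
        linarith
      · exact h3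
      · exact h4
      · show (if p.1 + p.2 < 1 then _ else _) = _
        rw [if_neg hu']
      · show (if p.1 + p.2 < 1 then _ else _) = _
        rw [if_neg hu']
    · obtain ⟨⟨h1, h2⟩, h3, h4⟩ := hp
      have hu' : p.1 + p.2 ≤ 1 := by
        have : p.1 + p.2 + -1 ≤ 0 := hu
        linarith
      have e : ((LinearMap.fst ℝ ℝ ℝ + LinearMap.snd ℝ ℝ ℝ).prod (LinearMap.snd ℝ ℝ ℝ)) p + 0 =
          (p.1 + p.2, p.2) := by
        rw [add_zero]
        rfl
      rw [e]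
      refine ⟨⟨⟨?_, ?_⟩, ?_, ?_⟩, ?_⟩
      · show (0 : ℝ) ≤ p.1 + p.2
        linarith
      · show p.1 + p.2 ≤ 1
        linarith
      · exact h3
      · exact h4
      · show (if p.1 + p.2 < 1 then _ else m (p.1 + p.2 - 1, p.2) (L.α.symm z)) = _
        by_cases hc : p.1 + p.2 < 1
        · rw [if_pos hc]
        · have h5 : p.1 + p.2 = 1 := le_antisymm hu' (not_lt.1 hc)
          rw [if_neg hc, h5, sub_self]
          have h6 := (hm p.2 ⟨h3, h4⟩ (L.α.symm z * L.y⁻¹)).1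
          rw [inv_mul_cancel_right] at h6
          exact h6.symm
    · have hu' : p.1 + p.2 < 1 := by
        have : p.1 + p.2 + -1 < 0 := hu
        linarith
      show (if p.1 + p.2 < 1 then _ else _) = _
      rw [if_pos hu', add_zero]
      rfl
  | b =>
    have D1 := h (L.β z * L.x)
    have D2 := h (L.β z)
    simp only [map_mul, hg.β, hg.x] at D1 D2
    refine Dq_glue ((LinearMap.fst ℝ ℝ ℝ).prod (LinearMap.snd ℝ ℝ ℝ - LinearMap.fst ℝ ℝ ℝ))
      0 (0, 1) (LinearMap.snd ℝ ℝ ℝ - LinearMap.fst ℝ ℝ ℝ) 0 (fun v => ?_) (fun p hp hu => ?_)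
      (fun p hp hu => ?_) (fun p hp hu => ?_) hmeas hbdd D1 D2
    · show c.1 * v.1 + c.2 * (v.2 - v.1) = (c.1 - c.2) * v.1 + c.2 * v.2
      ring
    · obtain ⟨⟨h1, h2⟩, h3, h4⟩ := hp
      have hu' : p.1 ≤ p.2 := by
        have : 0 ≤ p.2 - p.1 + 0 := hu
        linarith
      have e : ((LinearMap.fst ℝ ℝ ℝ).prod (LinearMap.snd ℝ ℝ ℝ - LinearMap.fst ℝ ℝ ℝ)) p + 0 =
          (p.1, p.2 - p.1) := by
        rw [add_zero]
        rfl
      rw [e]
      refine ⟨⟨⟨?_, ?_⟩, ?_, ?_⟩, ?_, ?_⟩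
      · exact h1
      · exact h2
      · show (0 : ℝ) ≤ p.2 - p.1
        linarith
      · show p.2 - p.1 ≤ 1
        linarith
      · show (if p.1 ≤ p.2 then _ else _) = _
        rw [if_pos hu']
      · show (if p.1 ≤ p.2 then _ else _) = _
        rw [if_pos hu']
    · obtain ⟨⟨h1, h2⟩, h3, h4⟩ := hp
      have hu' : p.2 ≤ p.1 := by
        have : p.2 - p.1 + 0 ≤ 0 := hu
        linarith
      have e : ((LinearMap.fst ℝ ℝ ℝ).prod (LinearMap.snd ℝ ℝ ℝ - LinearMap.fst ℝ ℝ ℝ)) p +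
          (0, 1) = (p.1, 1 + p.2 - p.1) := by
        refine Prod.ext ?_ ?_
        · show p.1 + 0 = p.1
          ring
        · show p.2 - p.1 + 1 = 1 + p.2 - p.1
          ring
      rw [e]
      refine ⟨⟨⟨?_, ?_⟩, ?_, ?_⟩, ?_⟩
      · exact h1
      · exact h2
      · show (0 : ℝ) ≤ 1 + p.2 - p.1
        linarith
      · show 1 + p.2 - p.1 ≤ 1
        linarith
      · show (if p.1 ≤ p.2 then m (p.1, p.2 - p.1) (L.β z * L.x) else _) = _
        by_cases hc : p.1 ≤ p.2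
        · have h5 : p.2 = p.1 := le_antisymm hu' hc
          rw [if_pos hc, h5, sub_self, add_sub_cancel_right]
          exact ((hm p.1 ⟨h1, h2⟩ (L.β z)).2).symm
        · rw [if_neg hc]
    · have hu' : ¬ p.1 ≤ p.2 := by
        have : p.2 - p.1 + 0 < 0 := hu
        linarith
      show (if p.1 ≤ p.2 then _ else _) = _
      rw [if_neg hu']
      congr 1
      refine Prod.ext ?_ ?_
      · show p.1 = p.1 + 0
        ring
      · show 1 + p.2 - p.1 = p.2 - p.1 + 1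
        ring
  | b' =>
    have D1 := h (L.β.symm z)
    have D2 := h (L.β.symm z * L.x⁻¹)
    simp only [map_mul, map_inv, (hg.symm z).2, hg.x] at D1 D2
    refine Dq_glue ((LinearMap.fst ℝ ℝ ℝ).prod (LinearMap.fst ℝ ℝ ℝ + LinearMap.snd ℝ ℝ ℝ))
      (0, -1) 0 (LinearMap.fst ℝ ℝ ℝ + LinearMap.snd ℝ ℝ ℝ) (-1) (fun v => ?_)
      (fun p hp hu => ?_)
      (fun p hp hu => ?_) (fun p hp hu => ?_) hmeas hbdd D1 D2
    · show c.1 * v.1 + c.2 * (v.1 + v.2) = (c.1 + c.2) * v.1 + c.2 * v.2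
      ring
    · obtain ⟨⟨h1, h2⟩, h3, h4⟩ := hp
      have hu' : ¬ p.1 + p.2 < 1 := by
        have : 0 ≤ p.1 + p.2 + -1 := hu
        linarith
      have e : ((LinearMap.fst ℝ ℝ ℝ).prod (LinearMap.fst ℝ ℝ ℝ + LinearMap.snd ℝ ℝ ℝ)) p +
          (0, -1) = (p.1, p.1 + p.2 - 1) := by
        refine Prod.ext ?_ ?_
        · show p.1 + 0 = p.1
          ring
        · show p.1 + p.2 + -1 = p.1 + p.2 - 1
          ring
      rw [e]
      refine ⟨⟨⟨?_, ?_⟩, ?_, ?_⟩, ?_, ?_⟩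
      · exact h1
      · exact h2
      · show (0 : ℝ) ≤ p.1 + p.2 - 1
        linarith
      · show p.1 + p.2 - 1 ≤ 1
        linarith
      · show (if p.1 + p.2 < 1 then _ else _) = _
        rw [if_neg hu']
      · show (if p.1 + p.2 < 1 then _ else _) = _
        rw [if_neg hu']
    · obtain ⟨⟨h1, h2⟩, h3, h4⟩ := hp
      have hu' : p.1 + p.2 ≤ 1 := by
        have : p.1 + p.2 + -1 ≤ 0 := hu
        linarith
      have e : ((LinearMap.fst ℝ ℝ ℝ).prod (LinearMap.fst ℝ ℝ ℝ + LinearMap.snd ℝ ℝ ℝ)) p + 0 =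
          (p.1, p.1 + p.2) := by
        rw [add_zero]
        rfl
      rw [e]
      refine ⟨⟨⟨?_, ?_⟩, ?_, ?_⟩, ?_⟩
      · exact h1
      · exact h2
      · show (0 : ℝ) ≤ p.1 + p.2
        linarith
      · show p.1 + p.2 ≤ 1
        linarith
      · show (if p.1 + p.2 < 1 then _ else m (p.1, p.1 + p.2 - 1) (L.β.symm z)) = _
        by_cases hc : p.1 + p.2 < 1
        · rw [if_pos hc]
        · have h5 : p.1 + p.2 = 1 := le_antisymm hu' (not_lt.1 hc)
          rw [if_neg hc, h5, sub_self]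
          have h6 := (hm p.1 ⟨h1, h2⟩ (L.β.symm z * L.x⁻¹)).2
          rw [inv_mul_cancel_right] at h6
          exact h6.symm
    · have hu' : p.1 + p.2 < 1 := by
        have : p.1 + p.2 + -1 < 0 := hu
        linarith
      show (if p.1 + p.2 < 1 then _ else _) = _
      rw [if_pos hu', add_zero]
      rfl

end

end Pool.Agent.MP_d14a53_gt_FT
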