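import Mathlib
import Pool.Agent.Lib.MP_d14a53_gt_FT.Defs

/-!
# MP_d14a53_gt FT module Euc

Euclid's algorithm: strong induction on `a + b`. `(0, 1)`: the empty word. `(1, 0)`: the word
`[b', a]` (`(0,1) ↦ (1,1) ↦ (1,0)`). Otherwise `a, b ≥ 1` (coprime, the other cases with a zero
are excluded); if `a ≤ b` take the word of `(a, b - a)` followed by `a'` and if `b < a` the word of
`(a - b, b)` followed by `b'`.
-/

set_option autoImplicit false

noncomputable section

namespace Pool.Agent.MP_d14a53_gt_FT

open Pool.Agent.MP_d14a53_gt_PW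

open scoped RealInnerProductSpace

theorem euclid (a b : ℕ) (h : Nat.Coprime a b) :
    ∃ W : List Mv, cvW (0, 1) W = ((a : ℝ), (b : ℝ)) := by
  induction hn : a + b using Nat.strong_induction_on generalizing a b with
  | _ n ih =>
    have hsnoc : ∀ (W : List Mv) (s : Mv), cvW (0, 1) (W ++ [s]) = cv s (cvW (0, 1) W) := by
      intro W s
      unfold cvW
      rw [List.foldl_append]
      rfl
    rcases Nat.eq_zero_or_pos a with ha | ha
    · subst ha
      have hb : b = 1 := by simpa using h
      subst hb
      exact ⟨[], by simp [cvW]⟩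
    · rcases Nat.eq_zero_or_pos b with hb | hb
      · subst hb
        have ha1 : a = 1 := by simpa using h
        subst ha1
        exact ⟨[Mv.b', Mv.a], by simp [cvW, cv]⟩
      · rcases le_or_gt a b with hab | hab
        · obtain ⟨W, hW⟩ := ih (a + (b - a)) (by omega) a (b - a)
            ((Nat.coprime_sub_self_right hab).2 h) rfl
          refine ⟨W ++ [Mv.a'], ?_⟩
          rw [hsnoc, hW]
          change ((a : ℝ), (a : ℝ) + ((b - a : ℕ) : ℝ)) = _
          rw [Nat.cast_sub hab]
          ring_nf
        · obtain ⟨W, hW⟩ := ih ((a - b) + b) (by omega) (a - b) b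
            ((Nat.coprime_sub_self_left hab.le).2 h) rfl
          refine ⟨W ++ [Mv.b'], ?_⟩
          rw [hsnoc, hW]
          change (((a - b : ℕ) : ℝ) + (b : ℝ), (b : ℝ)) = _
          rw [Nat.cast_sub hab.le]
          ring_nf

end Pool.Agent.MP_d14a53_gt_FT
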