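import Mathlib
import Pool.Agent.Lib.MP_d14a53_gt_FT.Defs
import Pool.Agent.Lib.MP_d14a53_gt_FT.Lam2

/-!
# MP_d14a53_gt FT module KfC

Paths with the same image in the group of permutations of `(π ⧸ N) × I`.

`KK_act`: evaluate both sides at `(1, i)`: the end points and the labels modulo `N` of the paths
`w`, `w'` agree (`lam_map` for `mk' N`, `ix_congr`).
`KK_mem`: `χ k = 1` for `χ = (l.map (mk' N)).act`, so `KK_act` with `w' = 1` (`lam_one`, `ix_one`).
-/

set_option autoImplicit false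

noncomputable section

namespace Pool.Agent.MP_d14a53_gt_FT

open Pool.Agent.MP_d14a53_gt_PW

open scoped RealInnerProductSpace

section

theorem KK_act {π I : Type*} [Group π] (l : Lb π I) (N : Subgroup π) [N.Normal] (w w' : Fr)
    (h : (l.map (QuotientGroup.mk' N)).act w = (l.map (QuotientGroup.mk' N)).act w') (i : I) :
    l.ix i w = l.ix i w' ∧ (l.lam i w)⁻¹ * l.lam i w' ∈ N := by
  have h1 : (l.map (QuotientGroup.mk' N)).mv (1, i) w =
      (l.map (QuotientGroup.mk' N)).mv (1, i) w' := by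
    unfold Lb.mv
    rw [h]
  constructor
  · rw [Lb.ix_congr l (l.map (QuotientGroup.mk' N)) rfl rfl i w,
      Lb.ix_congr l (l.map (QuotientGroup.mk' N)) rfl rfl i w']
    exact congrArg Prod.snd h1
  · have h2 : (l.map (QuotientGroup.mk' N)).lam i w = (l.map (QuotientGroup.mk' N)).lam i w' :=
      congrArg Prod.fst h1
    rw [Lb.lam_map, Lb.lam_map] at h2
    exact QuotientGroup.eq.1 h2

theorem KK_mem {π I : Type*} [Group π] (l : Lb π I) (N : Subgroup π) [N.Normal] (k : Fr)
    (hk : k ∈ KK (Equiv.Perm ((π ⧸ N) × I))ᵐᵒᵖ) (i : I) : l.ix i k = i ∧ l.lam i k ∈ N := by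
  have h0 : (l.map (QuotientGroup.mk' N)).act k = 1 := by
    have h1 := (Subgroup.mem_iInf.1 hk) (l.map (QuotientGroup.mk' N)).act
    exact h1
  have h2 := KK_act l N 1 k (by rw [h0, map_one]) i
  have h3 : l.mv (1, i) 1 = (1, i) := by
    unfold Lb.mv
    rw [map_one]
    rfl
  have h4 : l.ix i 1 = i := congrArg Prod.snd h3
  have h5 : l.lam i 1 = 1 := congrArg Prod.fst h3
  rw [h4, h5, inv_one, one_mul] at h2
  exact ⟨h2.1.symm, h2.2⟩

end

end Pool.Agent.MP_d14a53_gt_FT
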