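import Mathlib
import Pool.Agent.Lib.MP_d14a53_gt_FT.Defs
import Pool.Agent.Lib.MP_d14a53_gt_FT.Lam2
import Pool.Agent.Lib.MP_d14a53_gt_FT.Pri
import Pool.Agent.Lib.MP_d14a53_gt_FT.KfC
import Pool.Agent.Lib.MP_d14a53_gt_PW.Lift
import Pool.Agent.Lib.MP_d14a53_gt_PW.Prod

/-!
# MP_d14a53_gt FT module Fun

The function on the free group.

`T = sT a b c 0 = b_0 a_0 b_0⁻¹` (by definition, `(HP 1)⁻¹ HP 1 CP 0 = 1`). `S` = the set where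
`F = 0` is a subgroup containing `Cut` and `F (x s) = F x` for `s ∈ S` (`Coc.mul_triv`).
`fun_k`: `lam (k h) = lam k * lam (ix k) h = lam k * lam (0,0) h` (`KK_mem`) with `lam k ∈ N`, so
`F (lam k * z) = F (lam k) + F z` (`Coc.mul_left`).
`fun_y`: `lam (h y) = lam h * Y i` with `i = ix h`, `Y i ∈ {1, b_0⁻¹}`; and
`T b_0⁻¹ T⁻¹ = b_0 (a_0 b_0 a_0⁻¹)⁻¹ b_0⁻¹ ∈ Cut`.
`stX_mem`: by definition `stX z` is `r T` with `r ∈ Rest 1` (`HP_diff_mem_Rest`, `CP_mem_Rest`).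
`fun_xyx`: `lam (h x⁻¹ y x) = lam h * (X j)⁻¹ * Y j * X (eta j)`, `j = tau⁻¹ (ix h)` and
`T (X j)⁻¹ Y j X (eta j) T⁻¹ = r⁻¹ (Y j) r'` with `r, r' ∈ Rest 1`, `Y j ∈ {1, b_0⁻¹}`, in `Cut`.
-/

set_option autoImplicit false

noncomputable section

namespace Pool.Agent.MP_d14a53_gt_FT

open Pool.Agent.MP_d14a53_gt_PW

open scoped RealInnerProductSpace

section
variable {m p : ℕ} [NeZero (m + p)] {π : Type} [Group π] {a b : Fin (m + 1) → π}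
  {c : Fin p → π} {V : Type} [NormedAddCommGroup V] [InnerProductSpace ℝ V] {N : Subgroup π}
  {U : Submodule ℝ V} {ρ : π →* (V ≃ₗᵢ[ℝ] V)} {F : π → V}

namespace Fun

omit [NeZero (m + p)] in
theorem sT_zero (a b : Fin (m + 1) → π) (c : Fin p → π) :
    sT a b c 0 = b 0 * a 0 * (b 0)⁻¹ := by
  unfold sT
  rw [Nat.zero_sub, CP_zero, Nat.zero_add]
  group

omit [NeZero (m + p)] in
theorem sT_mem (a b : Fin (m + 1) → π) (c : Fin p → π) (k : ℕ) :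
    sT a b c k * (sT a b c 0)⁻¹ ∈ Rest a b c 1 := by
  rw [sT_zero]
  unfold sT
  rw [mul_assoc, mul_inv_cancel, mul_one]
  exact Subgroup.inv_mem _ (Subgroup.mul_mem _ (HP_diff_mem_Rest a b c 1 (k + 1) (by omega))
    (CP_mem_Rest a b c 1 _))

omit [NeZero (m + p)] in
theorem ab_mem (a b : Fin (m + 1) → π) (c : Fin p → π) (i : Fin (m + 1)) (hi : 1 ≤ (i : ℕ)) :
    a i ∈ Rest a b c 1 ∧ b i ∈ Rest a b c 1 :=
  ⟨Subgroup.subset_closure (Or.inl ⟨i, hi, Or.inl rfl⟩),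
    Subgroup.subset_closure (Or.inl ⟨i, hi, Or.inr rfl⟩)⟩

theorem Y_mem (z : Ix m p) : (stL a b c).Y z = 1 ∨ (stL a b c).Y z = (b 0)⁻¹ := by
  show (if z.2 = 2 then bb (b 0)⁻¹ z.1 else 1) = 1 ∨ (if z.2 = 2 then bb (b 0)⁻¹ z.1 else 1) =
    (b 0)⁻¹
  unfold bb
  split_ifs
  · exact Or.inr rfl
  · exact Or.inl rfl
  · exact Or.inl rfl

theorem Y_conj (z : Ix m p) :
    sT a b c 0 * (stL a b c).Y z * (sT a b c 0)⁻¹ ∈ Cut a b c 0 := by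
  have hb : b 0 ∈ Cut a b c 0 := Subgroup.subset_closure (Or.inl (Or.inl rfl))
  have hab : a 0 * b 0 * (a 0)⁻¹ ∈ Cut a b c 0 := Subgroup.subset_closure (Or.inl (Or.inr rfl))
  rcases Y_mem (a := a) (b := b) (c := c) z with h | h
  · rw [h, mul_one, mul_inv_cancel]
    exact Subgroup.one_mem _
  · rw [h, sT_zero]
    have h1 : b 0 * a 0 * (b 0)⁻¹ * (b 0)⁻¹ * (b 0 * a 0 * (b 0)⁻¹)⁻¹ =
        b 0 * (a 0 * b 0 * (a 0)⁻¹)⁻¹ * (b 0)⁻¹ := by group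
    rw [h1]
    exact Subgroup.mul_mem _ (Subgroup.mul_mem _ hb (Subgroup.inv_mem _ hab))
      (Subgroup.inv_mem _ hb)

end Fun

omit [NeZero (m + p)] in
theorem stX_mem (z : Ix m p) : stX a b c z * (sT a b c 0)⁻¹ ∈ Rest a b c 1 := by
  have hT := Fun.sT_mem a b c (z.1 : ℕ)
  obtain ⟨k, j⟩ := z
  unfold stX
  dsimp only at hT ⊢
  by_cases hk : (k : ℕ) < m
  · rw [dif_pos hk]
    obtain ⟨ha, hb⟩ := Fun.ab_mem a b c ⟨(k : ℕ) + 1, by omega⟩ (Nat.le_add_left 1 _)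
    fin_cases j
    · show a ⟨(k : ℕ) + 1, _⟩ * (b ⟨(k : ℕ) + 1, _⟩)⁻¹ * (a ⟨(k : ℕ) + 1, _⟩)⁻¹ * sT a b c k *
        (sT a b c 0)⁻¹ ∈ Rest a b c 1
      rw [mul_assoc _ (sT a b c k)]
      exact Subgroup.mul_mem _ (Subgroup.mul_mem _ (Subgroup.mul_mem _ ha
        (Subgroup.inv_mem _ hb)) (Subgroup.inv_mem _ ha)) hT
    · show (a ⟨(k : ℕ) + 1, _⟩ * b ⟨(k : ℕ) + 1, _⟩)⁻¹ * sT a b c k *
        (sT a b c 0)⁻¹ ∈ Rest a b c 1
      rw [mul_assoc _ (sT a b c k)]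
      exact Subgroup.mul_mem _ (Subgroup.inv_mem _ (Subgroup.mul_mem _ ha hb)) hT
    · show (a ⟨(k : ℕ) + 1, _⟩)⁻¹ * sT a b c k * (sT a b c 0)⁻¹ ∈ Rest a b c 1
      rw [mul_assoc _ (sT a b c k)]
      exact Subgroup.mul_mem _ (Subgroup.inv_mem _ ha) hT
  · rw [dif_neg hk]
    exact hT

theorem fun_k (h : Coc N U ρ F) (k : Fr)
    (hk : k ∈ KK (Equiv.Perm ((π ⧸ N) × Ix m p))ᵐᵒᵖ) (w : Fr) :
    F ((stL a b c).lam (0, 0) (k * w) * (sT a b c 0)⁻¹) =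
      F ((stL a b c).lam (0, 0) w * (sT a b c 0)⁻¹) + F ((stL a b c).lam (0, 0) k) := by
  have hN := h.normal
  obtain ⟨h1, h2⟩ := KK_mem (stL a b c) N k hk (0, 0)
  rw [Lb.lam_mul, h1, mul_assoc, h.mul_left _ _ h2, add_comm]

theorem fun_y (h : Coc N U ρ F) (hF : ∀ x ∈ Cut a b c 0, F x = 0) (w : Fr) :
    F ((stL a b c).lam (0, 0) (w * fy) * (sT a b c 0)⁻¹) =
      F ((stL a b c).lam (0, 0) w * (sT a b c 0)⁻¹) := by
  rw [Lb.lam_mul, Lb.lam_y]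
  set i := (stL a b c).ix (0, 0) w
  have h1 : (stL a b c).lam (0, 0) w * (stL a b c).Y i * (sT a b c 0)⁻¹ =
      ((stL a b c).lam (0, 0) w * (sT a b c 0)⁻¹) *
        (sT a b c 0 * (stL a b c).Y i * (sT a b c 0)⁻¹) := by group
  rw [h1]
  exact h.mul_triv _ _ (hF _ (Fun.Y_conj i))

theorem fun_xyx (h : Coc N U ρ F) (hF : ∀ x ∈ Cut a b c 0, F x = 0) (w : Fr) :
    F ((stL a b c).lam (0, 0) (w * (fx⁻¹ * fy * fx)) * (sT a b c 0)⁻¹) =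
      F ((stL a b c).lam (0, 0) w * (sT a b c 0)⁻¹) := by
  rw [Lb.lam_mul]
  set i := (stL a b c).ix (0, 0) w
  rw [Lb.lam_mul, Lb.lam_mul, Lb.lam_inv, Lb.ix_mul, Lb.lam_x, Lb.lam_x, Lb.lam_y]
  set j := (stL a b c).ix i fx⁻¹
  set j' := (stL a b c).ix j fy
  have e1 : ∀ z, (stL a b c).X z = stX a b c z := fun _ => rfl
  rw [e1, e1]
  have h1 : (stL a b c).lam (0, 0) w * ((stX a b c j)⁻¹ * (stL a b c).Y j * stX a b c j') *
      (sT a b c 0)⁻¹ = ((stL a b c).lam (0, 0) w * (sT a b c 0)⁻¹) *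
        ((stX a b c j * (sT a b c 0)⁻¹)⁻¹ * (stL a b c).Y j *
          (stX a b c j' * (sT a b c 0)⁻¹)) := by group
  rw [h1]
  refine h.mul_triv _ _ (hF _ ?_)
  have hR : ∀ x ∈ Rest a b c 1, x ∈ Cut a b c 0 := fun x hx =>
    Subgroup.subset_closure (Or.inr hx)
  have hb : b 0 ∈ Cut a b c 0 := Subgroup.subset_closure (Or.inl (Or.inl rfl))
  refine Subgroup.mul_mem _ (Subgroup.mul_mem _ (Subgroup.inv_mem _ (hR _ (stX_mem j))) ?_)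
    (hR _ (stX_mem j'))
  rcases Fun.Y_mem (a := a) (b := b) (c := c) j with h2 | h2
  · rw [h2]
    exact Subgroup.one_mem _
  · rw [h2]
    exact Subgroup.inv_mem _ hb

end

end Pool.Agent.MP_d14a53_gt_FT
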