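import Mathlib
import Pool.Agent.Lib.MP_d14a53_gt_FT.Defs

/-!
# MP_d14a53_gt FT module KfA

The subgroup `KK P` of the free group for a finite group `P`.

`KK_fin`: there are finitely many homomorphisms `Fr →* P` (they are determined by the images of
the two generators: inject into `Bool → P`, `FreeGroup.lift`), each kernel has finite index, so the
intersection has (`Subgroup.finiteIndex_iInf` or similar). `KK_aut`: `χ ∘ θ` is again a
homomorphism (for the converse use `θ.symm`).
-/

set_option autoImplicit false

noncomputable section

namespace Pool.Agent.MP_d14a53_gt_FT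

open Pool.Agent.MP_d14a53_gt_PW

open scoped RealInnerProductSpace

section

theorem hom_finite (P : Type*) [Group P] [Finite P] : Finite (Fr →* P) :=
  Finite.of_equiv (Bool → P) FreeGroup.lift

theorem KK_fin (P : Type*) [Group P] [Finite P] : (KK P).FiniteIndex := by
  have h1 : Finite (Fr →* P) := hom_finite P
  unfold KK
  exact Subgroup.finiteIndex_iInf fun χ => inferInstance

theorem KK_normal (P : Type*) [Group P] : (KK P).Normal := by
  unfold KK
  exact Subgroup.normal_iInf_normal fun χ => inferInstance

theorem KK_aut (P : Type*) [Group P] (θ : Fr ≃* Fr) (k : Fr) : θ k ∈ KK P ↔ k ∈ KK P := by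
  unfold KK
  simp only [Subgroup.mem_iInf, MonoidHom.mem_ker]
  constructor
  · intro h χ
    have h1 := h (χ.comp θ.symm.toMonoidHom)
    simpa using h1
  · intro h χ
    exact h (χ.comp θ.toMonoidHom)

end

end Pool.Agent.MP_d14a53_gt_FT
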