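import Mathlib
import Pool.Agent.Lib.MP_d14a53_gt_FT.Defs
import Pool.Agent.Lib.MP_d14a53_gt_FT.KfA

/-!
# MP_d14a53_gt FT module KfB

The shears on the quotient, and the boundary of the one-holed torus.

`KK_lab`: the two shears descend to the quotient by `QuotientGroup.congr` (`KK_aut`); the map is
`mk'`; all equations follow from those of `LF`.
`kap_fix`: `frα kap = kap`, `frβ kap = kap` by computation in the free group (`map_mul`, `LF.αx`,
…, `group`), hence for the inverses, for all moves and (induction) for all words.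
-/

set_option autoImplicit false

noncomputable section

namespace Pool.Agent.MP_d14a53_gt_FT

open Pool.Agent.MP_d14a53_gt_PW

open scoped RealInnerProductSpace

section

namespace KfB

theorem map_eq (P : Type) [Group P] (θ : Fr ≃* Fr) :
    (KK P).map (θ : Fr →* Fr) = KK P := by
  ext k
  rw [Subgroup.mem_map]
  constructor
  · rintro ⟨x, hx, rfl⟩
    exact (KK_aut P θ x).2 hx
  · intro hk
    refine ⟨θ.symm k, (KK_aut P θ.symm k).2 hk, ?_⟩
    exact θ.apply_symm_apply k

theorem alpha_kap : frα kap = kap := by
  have hx : frα fx = fx * fy⁻¹ := LF.αx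
  have hy : frα fy = fy := LF.αy
  unfold kap
  rw [map_mul, map_mul, map_mul, map_inv, map_inv, hx, hy]
  group

theorem beta_kap : frβ kap = kap := by
  have hx : frβ fx = fx := LF.βx
  have hy : frβ fy = fy * fx⁻¹ := LF.βy
  unfold kap
  rw [map_mul, map_mul, map_mul, map_inv, map_inv, hx, hy]
  group

theorem th_kap (s : Mv) : LF.th s kap = kap := by
  cases s
  · exact alpha_kap
  · change frα.symm kap = kap
    rw [MulEquiv.symm_apply_eq, alpha_kap]
  · exact beta_kap
  · change frβ.symm kap = kap
    rw [MulEquiv.symm_apply_eq, beta_kap]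

end KfB

theorem KK_lab (P : Type) [Group P] [(KK P).Normal] :
    ∃ L : Lab (Fr ⧸ KK P), Cmp LF L (QuotientGroup.mk' (KK P)) := by
  refine ⟨{
    x := QuotientGroup.mk' (KK P) fx
    y := QuotientGroup.mk' (KK P) fy
    α := QuotientGroup.congr (KK P) (KK P) frα (KfB.map_eq P frα)
    β := QuotientGroup.congr (KK P) (KK P) frβ (KfB.map_eq P frβ)
    αx := congrArg (QuotientGroup.mk' (KK P)) LF.αx
    αy := congrArg (QuotientGroup.mk' (KK P)) LF.αy
    βx := congrArg (QuotientGroup.mk' (KK P)) LF.βx
    βy := congrArg (QuotientGroup.mk' (KK P)) LF.βy }, ?_⟩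
  exact ⟨rfl, rfl, fun h => rfl, fun h => rfl⟩

theorem kap_fix (W : List Mv) : LF.thW W kap = kap := by
  induction W with
  | nil => rfl
  | cons s W ih =>
    have h : LF.thW (s :: W) kap = LF.th s (LF.thW W kap) := by
      unfold Lab.thW
      rw [List.map_cons, List.prod_cons]
      rfl
    rw [h, ih, KfB.th_kap]

end

end Pool.Agent.MP_d14a53_gt_FT
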