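import Mathlib
import Pool.Agent.Lib.MP_d14a53_gt_FT.Defs
import Pool.Agent.Lib.MP_d14a53_gt_FT.KfA
import Pool.Agent.Lib.MP_d14a53_gt_FT.KfB
import Pool.Agent.Lib.MP_d14a53_gt_FT.KfC
import Pool.Agent.Lib.MP_d14a53_gt_FT.Aut
import Pool.Agent.Lib.MP_d14a53_gt_FT.Sur
import Pool.Agent.Lib.MP_d14a53_gt_FT.Wd
import Pool.Agent.Lib.MP_d14a53_gt_FT.Goo

/-!
# MP_d14a53_gt FT module Orb

The finite orbit property for the function on the free group.

Let `l = stL a b c`, `q = mk' N`, `P` as in the statement (a finite group). For a word `W` consider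
the map `χ ↦ χ ∘ thW W` on the finite set `Fr →* P` (`hom_finite`); there are finitely many such
maps, choose a word `R` for each one. If `W` and `R` give the same map then
`θ = thW (W ++ invW R)` (`thW_append`, `thW_inv`) satisfies `χ ∘ θ = χ` for all `χ`;
apply this to `χ = (l.map q).act`: by `KK_act`, `ix i (θ w) = ix i w` and
`(lam i w)⁻¹ lam i (θ w) ∈ N` for all `i`, `w`. With `kap_fix` `θ` is admissible. Let `φ` be
the automorphism of `exists_aut`; by `sur` every `x` is `lam (0,0) w` with `w` closed, so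
`x⁻¹ φ x ∈ N`. Let `G_φ` be the restriction of `F ∘ φ` to `N`, one of finitely many functions
(`h.orb`). For `k ∈ M`: `k' = thW R k ∈ KK P` (`KK_aut`), closed and `lam k' ∈ N` (`KK_mem`),
`θ k' = thW W k`, so `F (lam (thW W k)) = F (φ (lam k')) = G_φ (lam (thW R k))` depends only on `R`
and `G_φ`.
-/

set_option autoImplicit false

noncomputable section

namespace Pool.Agent.MP_d14a53_gt_FT

open Pool.Agent.MP_d14a53_gt_PW

open scoped RealInnerProductSpace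

section
variable {m p : ℕ} [NeZero (m + p)] {π : Type} [Group π] {a b : Fin (m + 1) → π}
  {c : Fin p → π} {V : Type} [NormedAddCommGroup V] [InnerProductSpace ℝ V] {N : Subgroup π}
  {U : Submodule ℝ V} {ρ : π →* (V ≃ₗᵢ[ℝ] V)} {F : π → V}

theorem orb_fin (h : GoodF c N U ρ F) (hs : IsSurf a b c) (e : V) (M : Subgroup Fr)
    (hM : M ≤ KK (Equiv.Perm ((π ⧸ N) × Ix m p))ᵐᵒᵖ) :
    {w : M → ℝ | ∃ W : List Mv, ∀ k : M,
      w k = ⟪e, F ((stL a b c).lam (0, 0) (LF.thW W (k : Fr)))⟫}.Finite := by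
  classical
  have hNn : N.Normal := h.normal
  have hNf : N.FiniteIndex := h.fin
  have hQ : Finite (π ⧸ N) := Subgroup.finite_quotient_of_finiteIndex
  have hP : Finite (Equiv.Perm ((π ⧸ N) × Ix m p))ᵐᵒᵖ :=
    Finite.of_equiv _ (MulOpposite.opEquiv (α := Equiv.Perm ((π ⧸ N) × Ix m p)))
  have hHF := hom_finite (Equiv.Perm ((π ⧸ N) × Ix m p))ᵐᵒᵖ
  have hmem : ∀ (W : List Mv) (k : M), (stL a b c).lam (0, 0) (LF.thW W (k : Fr)) ∈ N :=
    fun W k => (KK_mem (stL a b c) N _ ((KK_aut _ _ _).2 (hM k.2)) (0, 0)).2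
  let D : List Mv → ((Fr →* (Equiv.Perm ((π ⧸ N) × Ix m p))ᵐᵒᵖ) →
      (Fr →* (Equiv.Perm ((π ⧸ N) × Ix m p))ᵐᵒᵖ)) :=
    fun W χ => χ.comp (LF.thW W).toMonoidHom
  have hfin := ((Set.finite_univ (α := (Fr →* (Equiv.Perm ((π ⧸ N) × Ix m p))ᵐᵒᵖ) →
      (Fr →* (Equiv.Perm ((π ⧸ N) × Ix m p))ᵐᵒᵖ))).prod h.orb)
  refine (hfin.image (fun (dG : _ × (N → V)) => fun k : M =>
    ⟪e, dG.2 ⟨(stL a b c).lam (0, 0) (LF.thW (Function.invFun D dG.1) (k : Fr)),
      hmem _ k⟩⟫)).subset ?_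
  rintro w ⟨W, hW⟩
  set R : List Mv := Function.invFun D (D W) with hR
  have hDR : D R = D W := Function.invFun_eq ⟨W, rfl⟩
  have hχ : ∀ (χ : Fr →* (Equiv.Perm ((π ⧸ N) × Ix m p))ᵐᵒᵖ) (x : Fr),
      χ (LF.thW W x) = χ (LF.thW R x) := by
    intro χ x
    have h1 := congrFun hDR χ
    have h2 := DFunLike.congr_fun h1 x
    exact h2.symm
  have hθ : ∀ x : Fr, LF.thW (W ++ invW R) x = LF.thW W (LF.thW (invW R) x) :=
    fun x => thW_append LF W (invW R) x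
  have hθχ : ∀ (χ : Fr →* (Equiv.Perm ((π ⧸ N) × Ix m p))ᵐᵒᵖ) (x : Fr),
      χ (LF.thW (W ++ invW R) x) = χ x := by
    intro χ x
    rw [hθ, hχ, (thW_inv LF R x).2]
  have hact : ∀ (i : Ix m p) (x : Fr), (stL a b c).ix i x =
      (stL a b c).ix i (LF.thW (W ++ invW R) x) ∧
      ((stL a b c).lam i x)⁻¹ * (stL a b c).lam i (LF.thW (W ++ invW R) x) ∈ N :=
    fun i x => KK_act (stL a b c) N x _ (hθχ _ x).symm i
  have hadm : Adm (stL a b c) (LF.thW (W ++ invW R)) :=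
    ⟨kap_fix _, fun z x => (hact z x).1.symm⟩
  obtain ⟨φ, hφ1, hφ2⟩ := exists_aut hs _ hadm
  have hφ3 : ∀ x : π, x⁻¹ * φ x ∈ N := by
    intro x
    obtain ⟨v, hv⟩ := sur hs x
    have e1 : (stL a b c).lam (0, 0) v = x := by
      show ((stL a b c).mv (1, (0, 0)) v).1 = x
      rw [hv]
    have e2 : (stL a b c).ix (0, 0) v = (0, 0) := by
      show ((stL a b c).mv (1, (0, 0)) v).2 = (0, 0)
      rw [hv]
    have e3 := hφ2 v e2
    have e4 := (hact (0, 0) v).2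
    rw [← e3, e1] at e4
    exact e4
  refine ⟨(D W, fun n : N => F (φ (n : π))), ⟨Set.mem_univ _, φ, hφ1, hφ3, fun n => rfl⟩, ?_⟩
  funext k
  rw [hW k]
  have hk : LF.thW R (k : Fr) ∈ KK (Equiv.Perm ((π ⧸ N) × Ix m p))ᵐᵒᵖ :=
    (KK_aut _ _ _).2 (hM k.2)
  have hk2 := (KK_mem (stL a b c) N _ hk (0, 0)).1
  have e5 : LF.thW (W ++ invW R) (LF.thW R (k : Fr)) = LF.thW W (k : Fr) := by
    rw [hθ, (thW_inv LF R (k : Fr)).1]
  have e6 := hφ2 _ hk2
  rw [e5] at e6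
  show ⟪e, F (φ ((stL a b c).lam (0, 0) (LF.thW R (k : Fr))))⟫ = _
  rw [e6]

end

end Pool.Agent.MP_d14a53_gt_FT
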