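import Mathlib
import Pool.Agent.Lib.MP_d14a53_gt_FT.Defs
import Pool.Agent.Lib.MP_d14a53_gt_FT.GlO
import Pool.Agent.Lib.MP_d14a53_gt_FT.BmO
import Pool.Agent.Lib.MP_d14a53_gt_FT.Wd

/-!
# MP_d14a53_gt FT module TN

First properties of the data of the torus theorem.

`N_g`: with `s = surjInv D.sur (D.g h)` we have `k = h s⁻¹ ∈ ker`, `h = k s`, so
`f (h x) - f h = f (k s x) - f (k s) = f (s x) + v k - f s - v k`.
`N_y`: write `q = g h`; `f (h y x) = f (h x x⁻¹ y x) = f (h x)` and `f (h y) = f h`.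
`gl`: `E0 (1,t) h = f h + N t`, `E0 (0,t) (h y) = f (h y) + N (g h y) t`;
`E0 (t,1) h = f h + N = f (h x) = E0 (t,0) (h x)`.
`dp`: the integrand is the constant `N (g h)`.
`thW_ker`: `g (thW W k) = thW W (g k) = 1` (`thW_cmp`).
`equi`: induction on `W` for a general function: if `m p (k h) = m p h + w k` for all `k ∈ ker`
then `(op s m) p (k h) = (op s m) p h + w (th s k)`; for `E0` note `g (k h) = g h`.
`v_mul`: `f (k k' 1)`. `v_y`: `f (h y^j) = f h` and `f (h y^j h⁻¹ h) = f h + v (h y^j h⁻¹)`.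
-/

set_option autoImplicit false

noncomputable section

namespace Pool.Agent.MP_d14a53_gt_FT

open Pool.Agent.MP_d14a53_gt_PW

open scoped RealInnerProductSpace

namespace Tor
variable {Q : Type} [Group Q] (D : Tor Q)

theorem N_g (h : Fr) : D.N (D.g h) = D.f (h * fx) - D.f h := by
  unfold N
  have hs : D.g (Function.surjInv D.sur (D.g h)) = D.g h := Function.surjInv_eq D.sur (D.g h)
  generalize Function.surjInv D.sur (D.g h) = s at hs ⊢
  have hk : h * s⁻¹ ∈ D.g.ker := by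
    rw [MonoidHom.mem_ker, map_mul, map_inv, hs, mul_inv_cancel]
  have h1 := D.fk _ hk (s * fx)
  have h2 := D.fk _ hk s
  have e1 : h * s⁻¹ * (s * fx) = h * fx := by group
  have e2 : h * s⁻¹ * s = h := by group
  rw [e1] at h1
  rw [e2] at h2
  rw [h1, h2]
  ring

theorem N_y (q : Q) : D.N (q * D.L.y) = D.N q := by
  obtain ⟨h, rfl⟩ := D.sur q
  have e : D.g h * D.L.y = D.g (h * fy) := by
    rw [map_mul]
    exact congrArg _ D.cmp.y.symm
  rw [e, N_g, N_g, D.fy' h]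
  have e1 : h * fy * fx = (h * fx) * (fx⁻¹ * fy * fx) := by group
  rw [e1, D.fxyx]

theorem gl : Gl LF D.E0 := by
  intro t _ h
  have e : D.g (h * fy) = D.g h * D.L.y := by
    rw [map_mul]
    exact congrArg _ D.cmp.y
  constructor
  · change D.f h + D.N (D.g h) * t = D.f (h * fy) + D.N (D.g (h * fy)) * t
    rw [e, N_y, D.fy']
  · change D.f h + D.N (D.g h) * 1 = D.f (h * fx) + D.N (D.g (h * fx)) * 0
    rw [N_g]
    ring

theorem dp : Dp D.g D.E0 D.n0 (0, 1) := by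
  intro h p v s t _ _
  change (D.f h + D.N (D.g h) * (p.2 + t * v.2)) - (D.f h + D.N (D.g h) * (p.2 + s * v.2)) =
    (0 * v.1 + 1 * v.2) * ∫ _ in s..t, D.N (D.g h)
  rw [intervalIntegral.integral_const, smul_eq_mul]
  ring

theorem bm [Finite Q] : Bm D.n0 := by
  obtain ⟨C, hC⟩ := Finite.exists_le (fun q : Q => |D.N q|)
  exact ⟨fun _ => measurable_const, C, fun _ q => hC q⟩

theorem thW_ker (W : List Mv) (k : Fr) (hk : k ∈ D.g.ker) : LF.thW W k ∈ D.g.ker := by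
  rw [MonoidHom.mem_ker, thW_cmp D.cmp W k, MonoidHom.mem_ker.1 hk, map_one]

theorem TN.th_cons (s : Mv) (W : List Mv) (k : Fr) :
    LF.thW (s :: W) k = LF.th s (LF.thW W k) := by
  simp only [Lab.thW, List.map_cons, List.prod_cons]
  rfl

theorem TN.th_ker (s : Mv) (k : Fr) (hk : k ∈ D.g.ker) : LF.th s k ∈ D.g.ker := by
  have h := D.thW_ker [s] k hk
  rw [TN.th_cons] at h
  exact h

omit [Group Q] in
theorem TN.op_mul (s : Mv) (m : ℝ × ℝ → Fr → ℝ) (w : Fr → ℝ) (k : Fr)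
    (hm : ∀ p h, m p (LF.th s k * h) = m p h + w (LF.th s k)) (p : ℝ × ℝ) (h : Fr) :
    LF.op s m p (k * h) = LF.op s m p h + w (LF.th s k) := by
  cases s with
  | a =>
    change (if p.2 ≤ p.1 then m (p.1 - p.2, p.2) (LF.α (k * h) * LF.y)
      else m (1 + p.1 - p.2, p.2) (LF.α (k * h))) = (if p.2 ≤ p.1 then
      m (p.1 - p.2, p.2) (LF.α h * LF.y) else m (1 + p.1 - p.2, p.2) (LF.α h)) + w (LF.α k)
    rw [map_mul, mul_assoc]
    split_ifs
    · exact hm _ _
    · exact hm _ _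
  | a' =>
    change (if p.1 + p.2 < 1 then m (p.1 + p.2, p.2) (LF.α.symm (k * h) * LF.y⁻¹)
      else m (p.1 + p.2 - 1, p.2) (LF.α.symm (k * h))) = (if p.1 + p.2 < 1 then
      m (p.1 + p.2, p.2) (LF.α.symm h * LF.y⁻¹) else
      m (p.1 + p.2 - 1, p.2) (LF.α.symm h)) + w (LF.α.symm k)
    rw [map_mul, mul_assoc]
    split_ifs
    · exact hm _ _
    · exact hm _ _
  | b =>
    change (if p.1 ≤ p.2 then m (p.1, p.2 - p.1) (LF.β (k * h) * LF.x)
      else m (p.1, 1 + p.2 - p.1) (LF.β (k * h))) = (if p.1 ≤ p.2 then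
      m (p.1, p.2 - p.1) (LF.β h * LF.x) else m (p.1, 1 + p.2 - p.1) (LF.β h)) + w (LF.β k)
    rw [map_mul, mul_assoc]
    split_ifs
    · exact hm _ _
    · exact hm _ _
  | b' =>
    change (if p.1 + p.2 < 1 then m (p.1, p.1 + p.2) (LF.β.symm (k * h) * LF.x⁻¹)
      else m (p.1, p.1 + p.2 - 1) (LF.β.symm (k * h))) = (if p.1 + p.2 < 1 then
      m (p.1, p.1 + p.2) (LF.β.symm h * LF.x⁻¹) else
      m (p.1, p.1 + p.2 - 1) (LF.β.symm h)) + w (LF.β.symm k)
    rw [map_mul, mul_assoc]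
    split_ifs
    · exact hm _ _
    · exact hm _ _

theorem TN.gen (W : List Mv) : ∀ (m : ℝ × ℝ → Fr → ℝ) (w : Fr → ℝ)
    (_ : ∀ k ∈ D.g.ker, ∀ p h, m p (k * h) = m p h + w k) (k : Fr) (_ : k ∈ D.g.ker)
    (p : ℝ × ℝ) (h : Fr), LF.opW W m p (k * h) = LF.opW W m p h + w (LF.thW W k) := by
  induction W with
  | nil =>
    intro m w hm k hk p h
    exact hm k hk p h
  | cons s W ih =>
    intro m w hm k hk p h
    rw [TN.th_cons]
    exact ih (LF.op s m) (fun k => w (LF.th s k))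
      (fun k hk p h => TN.op_mul s m w k
        (fun p h => hm _ (TN.th_ker D s k hk) p h) p h) k hk p h

theorem equi (W : List Mv) (k : Fr) (hk : k ∈ D.g.ker) (p : ℝ × ℝ) (h : Fr) :
    D.mW W p (k * h) = D.mW W p h + D.v (LF.thW W k) := by
  refine TN.gen D W D.E0 D.v (fun k hk p h => ?_) k hk p h
  change D.f (k * h) + D.N (D.g (k * h)) * p.2 = D.f h + D.N (D.g h) * p.2 + D.v k
  rw [D.fk k hk h, map_mul, MonoidHom.mem_ker.1 hk, one_mul]
  ring

theorem v_mul (k k' : Fr) (hk : k ∈ D.g.ker) (hk' : k' ∈ D.g.ker) :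
    D.v (k * k') = D.v k + D.v k' := by
  have h1 := D.fk _ (mul_mem hk hk') 1
  have h2 := D.fk k hk (k' * 1)
  have h3 := D.fk k' hk' 1
  rw [mul_assoc] at h1
  linarith

theorem v_y (h : Fr) (j : ℕ) (hj : h * fy ^ j * h⁻¹ ∈ D.g.ker) :
    D.v (h * fy ^ j * h⁻¹) = 0 := by
  have h1 : ∀ j : ℕ, D.f (h * fy ^ j) = D.f h := by
    intro j
    induction j with
    | zero => rw [pow_zero, mul_one]
    | succ n ih => rw [pow_succ, ← mul_assoc, D.fy', ih]
  have h2 := D.fk _ hj h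
  rw [inv_mul_cancel_right, h1 j] at h2
  linarith

end Tor

end Pool.Agent.MP_d14a53_gt_FT
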