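import Mathlib
import Pool.Agent.Lib.MP_d14a53_gt_FT.Defs
import Pool.Agent.Lib.MP_d14a53_gt_FT.TN
import Pool.Agent.Lib.MP_d14a53_gt_FT.DpO

/-!
# MP_d14a53_gt FT module TW

The functions of a word (induction over the word from the right, `opW_append`).
-/

set_option autoImplicit false

noncomputable section

namespace Pool.Agent.MP_d14a53_gt_FT

open Pool.Agent.MP_d14a53_gt_PW

open scoped RealInnerProductSpace

namespace Tor
variable {Q : Type} [Group Q] (D : Tor Q)

theorem nW_bm [Finite Q] (W : List Mv) : Bm (D.nW W) := D.bm.opW D.L W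

theorem mW_gl (W : List Mv) : Gl LF (D.mW W) := D.gl.opW W

theorem mW_dp [Finite Q] (W : List Mv) : Dp D.g (D.mW W) (D.nW W) (cvW (0, 1) W) := by
  induction W using List.reverseRecOn with
  | nil => exact D.dp
  | append_singleton W s ih =>
    have h := Dp.op D.cmp (D.mW_gl W) (D.nW_bm W) ih s
    have e1 : D.mW (W ++ [s]) = LF.op s (D.mW W) := by
      unfold Tor.mW; rw [opW_append]; rfl
    have e2 : D.nW (W ++ [s]) = D.L.op s (D.nW W) := by
      unfold Tor.nW; rw [opW_append]; rfl
    rw [e1, e2, cvW_append]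
    exact h

end Tor

end Pool.Agent.MP_d14a53_gt_FT
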