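import Mathlib
import Pool.Agent.Lib.MP_d14a53_gt_FT.Defs
import Pool.Agent.Lib.MP_d14a53_gt_FT.TW

/-!
# MP_d14a53_gt FT module Hor

The horizontal periods of a good word vanish.

Write `q = g h`, `M = Nat.card Q`, `m = mW W`, `n = nW W`, `c = cvW (0,1) W`. `mW_dp` for the tile
`h y^j`, the point `(0,t)`, the direction `(1,0)` and `[0,1]` gives
`m (1,t) (h y^j) - m (0,t) (h y^j) = c₁ ∫_0^1 n (r,t) (q y^j) dr`, and by `mW_gl` the left side is
`m (0,t) (h y^(j+1)) - m (0,t) (h y^j)`. The sum telescopes to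
`m (0,t) (h y^M) - m (0,t) h = v (thW W (h y^M h⁻¹)) = v (h y^M h⁻¹) = 0` by `equi`, `hW`, `v_y`
(`(g fy)^M = 1` by `pow_card_eq_one'`, so `h y^M h⁻¹ ∈ ker`).
-/

set_option autoImplicit false

noncomputable section

namespace Pool.Agent.MP_d14a53_gt_FT

open Pool.Agent.MP_d14a53_gt_PW

open scoped RealInnerProductSpace

namespace Tor
variable {Q : Type} [Group Q] [Finite Q] (D : Tor Q)

theorem hor (W : List Mv) (hW : D.Gd W) (hc : (cvW (0, 1) W).1 ≠ 0) (q : Q) (t : ℝ)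
    (ht : t ∈ Set.Icc (0 : ℝ) 1) :
    ∑ j ∈ Finset.range (Nat.card Q), ∫ r in (0 : ℝ)..1, D.nW W (r, t) (q * D.L.y ^ j) = 0 := by
  obtain ⟨h, rfl⟩ := D.sur q
  have key : ∀ j : ℕ, D.mW W (0, t) (h * fy ^ (j + 1)) - D.mW W (0, t) (h * fy ^ j) =
      (cvW (0, 1) W).1 * ∫ r in (0 : ℝ)..1, D.nW W (r, t) (D.g h * D.L.y ^ j) := by
    intro j
    have h1 := D.mW_dp W (h * fy ^ j) (0, t) (1, 0) 0 1 zero_le_one (by
      intro r hr
      have e : ((0, t) : ℝ × ℝ) + r • ((1, 0) : ℝ × ℝ) = (r, t) := by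
        ext <;> simp
      rw [e]
      exact Set.mk_mem_prod hr ht)
    have h2 := (D.mW_gl W t ht (h * fy ^ j)).1
    have e1 : ((0, t) : ℝ × ℝ) + (1 : ℝ) • ((1, 0) : ℝ × ℝ) = (1, t) := by
      ext <;> simp
    have e0 : ((0, t) : ℝ × ℝ) + (0 : ℝ) • ((1, 0) : ℝ × ℝ) = (0, t) := by
      ext <;> simp
    have e3 : D.g (h * fy ^ j) = D.g h * D.L.y ^ j := by
      rw [map_mul, map_pow]
      exact congrArg (fun z => D.g h * z ^ j) D.cmp.y
    have e4 : h * fy ^ (j + 1) = h * fy ^ j * LF.y := by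
      rw [pow_succ, ← mul_assoc]
      rfl
    simp only [e1, e0, e3] at h1
    rw [e4, ← h2, h1]
    have e5 : ∀ r : ℝ, ((0, t) : ℝ × ℝ) + r • ((1, 0) : ℝ × ℝ) = (r, t) := by
      intro r
      ext <;> simp
    simp only [e5]
    ring
  have hk : h * fy ^ (Nat.card Q) * h⁻¹ ∈ D.g.ker := by
    rw [MonoidHom.mem_ker, map_mul, map_mul, map_pow, map_inv, pow_card_eq_one', mul_one,
      mul_inv_cancel]
  have h3 := D.equi W _ hk (0, t) h
  rw [hW.2 _ hk, D.v_y h _ hk, inv_mul_cancel_right, add_zero] at h3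
  have h4 : (cvW (0, 1) W).1 * ∑ j ∈ Finset.range (Nat.card Q),
      ∫ r in (0 : ℝ)..1, D.nW W (r, t) (D.g h * D.L.y ^ j) = 0 := by
    rw [Finset.mul_sum]
    rw [Finset.sum_congr rfl (fun j _ => (key j).symm)]
    rw [Finset.sum_range_sub (fun j => D.mW W (0, t) (h * fy ^ j))]
    rw [h3, pow_zero, mul_one, sub_self]
  exact (mul_eq_zero.1 h4).resolve_left hc

end Tor

end Pool.Agent.MP_d14a53_gt_FT
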