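import Mathlib
import Pool.Agent.Lib.MP_d14a53_gt_FT.Defs
import Pool.Agent.Lib.MP_d14a53_gt_FT.Hor

/-!
# MP_d14a53_gt FT module Orth

Orthogonality to the horizontal function.

`JJ (pr (nW W) n0) = ∑_q N q ∫_Sq nW W p q = ∫_{t ∈ [0,1]} ∑_q N q I q t` with
`I q t = ∫_0^1 nW W (r,t) q dr` (Fubini: `MeasureTheory.setIntegral_prod` or
`integral_prod_symm`, inner variable the first coordinate). For fixed `t` and `M = Nat.card Q`:
`M ∑_q N q I q t = ∑_{j<M} ∑_q N (q y^j) I (q y^j) t` (reindex by right multiplication)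
`= ∑_q N q ∑_j I (q y^j) t = 0` by `N_y` and `hor`.
-/

set_option autoImplicit false

noncomputable section

namespace Pool.Agent.MP_d14a53_gt_FT

open Pool.Agent.MP_d14a53_gt_PW

open scoped RealInnerProductSpace

namespace Tor
variable {Q : Type} [Group Q] [Fintype Q] (D : Tor Q)

namespace Orth

open MeasureTheory

theorem N_pow (q : Q) (j : ℕ) : D.N (q * D.L.y ^ j) = D.N q := by
  induction j with
  | zero => rw [pow_zero, mul_one]
  | succ j ih => rw [pow_succ, ← mul_assoc, D.N_y, ih]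

theorem pt (W : List Mv) (hW : D.Gd W) (hc : (cvW (0, 1) W).1 ≠ 0) (t : ℝ)
    (ht : t ∈ Set.Icc (0 : ℝ) 1) :
    ∑ q, D.N q * ∫ r in (0 : ℝ)..1, D.nW W (r, t) q = 0 := by
  have hM : (Nat.card Q : ℝ) ≠ 0 := by
    have : 0 < Nat.card Q := Nat.card_pos
    positivity
  refine (mul_eq_zero.1 ?_).resolve_left hM
  have h1 : ∀ j : ℕ, ∑ q, D.N q * ∫ r in (0 : ℝ)..1, D.nW W (r, t) q =
      ∑ q, D.N q * ∫ r in (0 : ℝ)..1, D.nW W (r, t) (q * D.L.y ^ j) := by
    intro j
    rw [← Equiv.sum_comp (Equiv.mulRight (D.L.y ^ j))]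
    refine Finset.sum_congr rfl fun q _ => ?_
    rw [Equiv.coe_mulRight, N_pow]
  calc (Nat.card Q : ℝ) * ∑ q, D.N q * ∫ r in (0 : ℝ)..1, D.nW W (r, t) q
      = ∑ j ∈ Finset.range (Nat.card Q),
          ∑ q, D.N q * ∫ r in (0 : ℝ)..1, D.nW W (r, t) (q * D.L.y ^ j) := by
        rw [← Finset.sum_congr rfl fun j _ => h1 j, Finset.sum_const, Finset.card_range,
          nsmul_eq_mul]
    _ = ∑ q, D.N q * ∑ j ∈ Finset.range (Nat.card Q),
          ∫ r in (0 : ℝ)..1, D.nW W (r, t) (q * D.L.y ^ j) := by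
        rw [Finset.sum_comm]
        exact Finset.sum_congr rfl fun q _ => by rw [Finset.mul_sum]
    _ = 0 := Finset.sum_eq_zero fun q _ => by rw [D.hor W hW hc q t ht, mul_zero]

end Orth

open MeasureTheory in
theorem orth (W : List Mv) (hW : D.Gd W) (hc : (cvW (0, 1) W).1 ≠ 0) :
    JJ (pr (D.nW W) D.n0) = 0 := by
  have hint : ∀ q, Integrable (fun p : ℝ × ℝ => D.nW W p q * D.N q)
      ((volume.restrict (Set.Ico (0 : ℝ) 1)).prod (volume.restrict (Set.Ico (0 : ℝ) 1))) := by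
    intro q
    rw [Measure.prod_restrict]
    exact ((D.nW_bm W).pr D.bm).int q
  have h1 : ∀ q, ∫ p in Sq, pr (D.nW W) D.n0 p q =
      ∫ t in Set.Ico (0 : ℝ) 1, ∫ r in Set.Ico (0 : ℝ) 1, D.nW W (r, t) q * D.N q := by
    intro q
    have h2 := integral_prod_symm _ (hint q)
    rw [← h2, Measure.prod_restrict]
    rfl
  unfold JJ
  rw [Finset.sum_congr rfl fun q _ => h1 q,
    ← integral_finsetSum _ fun q _ => (hint q).integral_prod_right]
  refine setIntegral_eq_zero_of_forall_eq_zero fun t ht => ?_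
  refine Eq.trans (Finset.sum_congr rfl fun q _ => ?_)
    (Orth.pt D W hW hc t ⟨ht.1, ht.2.le⟩)
  rw [integral_mul_const, mul_comm, intervalIntegral.integral_of_le zero_le_one,
    integral_Ico_eq_integral_Ioc]

end Tor

end Pool.Agent.MP_d14a53_gt_FT
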