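import Mathlib
import Pool.Agent.Lib.MP_d14a53_gt_FT.Defs
import Pool.Agent.Lib.MP_d14a53_gt_FT.Orth
import Pool.Agent.Lib.MP_d14a53_gt_FT.Adj
import Pool.Agent.Lib.MP_d14a53_gt_FT.TN

/-!
# MP_d14a53_gt FT module Ort2

Orthogonality for two good words.

`gd_comp`: `thW (W ++ invW R) = thW W ∘ thW (invW R)` (`thW_append`); on `Q` replace `thW W` by
`thW R` and use `thW_inv`; on `ker` the same with `v` (`thW_ker`).
`norm_nW`: `nW W = opW W n0`, `opW_pr`, `JJ_opW`.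
`ort2`: with `V = W ++ invW W'`, `adj` gives `JJ (pr (nW W) (nW W')) = JJ (pr (nW V) n0)`; `V` is
good by `gd_comp` (`Gd W`, `Gd W'` give the two hypotheses). Its slope `d = cvW (0,1) V =
cvW c (invW W')`, `c = cvW (0,1) W`, `c' = cvW (0,1) W'`, satisfies
`d₁ = det (d, (0,1)) = det (cvW c (invW W'), cvW c' (invW W')) = det (c, c') ≠ 0` (`cvW_inv`,
`det_cvW`). Use `orth`.
-/

set_option autoImplicit false

noncomputable section

namespace Pool.Agent.MP_d14a53_gt_FT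

open Pool.Agent.MP_d14a53_gt_PW

open scoped RealInnerProductSpace

namespace Tor
variable {Q : Type} [Group Q] [Fintype Q] (D : Tor Q)

theorem gd_comp (W R : List Mv) (h1 : ∀ q, D.L.thW W q = D.L.thW R q)
    (h2 : ∀ k ∈ D.g.ker, D.v (LF.thW W k) = D.v (LF.thW R k)) : D.Gd (W ++ invW R) := by
  constructor
  · intro q
    rw [thW_append, h1, (thW_inv D.L R q).2]
  · intro k hk
    rw [thW_append, h2 _ (D.thW_ker (invW R) k hk), (thW_inv LF R k).2]

theorem norm_nW (W : List Mv) : JJ (pr (D.nW W) (D.nW W)) = JJ (pr D.n0 D.n0) := by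
  unfold nW
  rw [← opW_pr, JJ_opW D.L (D.bm.pr D.bm)]

theorem ort2 (W W' : List Mv) (hW : D.Gd W) (hW' : D.Gd W')
    (hc : (cvW (0, 1) W).1 * (cvW (0, 1) W').2 - (cvW (0, 1) W).2 * (cvW (0, 1) W').1 ≠ 0) :
    JJ (pr (D.nW W) (D.nW W')) = 0 := by
  have h1 := adj D.L D.bm D.bm W W'
  have hg : D.Gd (W ++ invW W') := D.gd_comp W W'
    (fun q => by rw [hW.1, hW'.1]) (fun k hk => by rw [hW.2 k hk, hW'.2 k hk])
  have hd := det_cvW (invW W') (cvW (0, 1) W) (cvW (0, 1) W')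
  rw [cvW_inv] at hd
  have hc' : (cvW (0, 1) (W ++ invW W')).1 ≠ 0 := by
    rw [cvW_append]
    intro h0
    apply hc
    rw [← hd, h0]
    simp
  unfold nW
  rw [h1]
  exact D.orth (W ++ invW W') hg hc'

end Tor

end Pool.Agent.MP_d14a53_gt_FT
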