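import Mathlib
import Pool.Agent.Lib.MP_d14a53_gt_FT.Defs
import Pool.Agent.Lib.MP_d14a53_gt_FT.TW

/-!
# MP_d14a53_gt FT module Pth

The path formula.

Call `z` good if for all `h` there is `S` with, for all `W` and `p ∈ Sq`,
`mW W p (h z) - mW W p h = ∑_q ∑_i S q i * sl c i * lin i (nW W) q p`. Good elements are closed
under product (add the two `S`, the first with `h`, the second with `h z`) and inverse
(`S` for `h z⁻¹`, negated). `fy` is good: by `mW_gl` and `mW_dp` (direction `(1,0)`)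
`m p (h y) - m p h = (m (p₁,p₂) (h y) - m (0,p₂) (h y)) + (m (1,p₂) h - m (p₁,p₂) h)
= c₁ ∫_0^{p₁} n (r,p₂) (g (h y)) dr + c₁ ∫_{p₁}^1 n (r,p₂) (g h) dr`, i.e. `S` is the indicator of
`(g (h y), 0)` plus the indicator of `(g h, 1)`. `fx` the same with `i = 2, 3`. Induction over the
free group (`FreeGroup.induction_on`). The theorem is the case `h = 1`.
-/

set_option autoImplicit false

noncomputable section

namespace Pool.Agent.MP_d14a53_gt_FT

open Pool.Agent.MP_d14a53_gt_PW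

open scoped RealInnerProductSpace

namespace Pth

/-- the combination of the four integrals -/
def T {Q : Type} [Fintype Q] (S : Q → Fin 4 → ℝ) (c : ℝ × ℝ) (n : ℝ × ℝ → Q → ℝ)
    (p : ℝ × ℝ) : ℝ :=
  ∑ q, ∑ i : Fin 4, S q i * sl c i * lin i n q p

variable {Q : Type} [Fintype Q]

theorem T_add (S S' : Q → Fin 4 → ℝ) (c : ℝ × ℝ) (n : ℝ × ℝ → Q → ℝ) (p : ℝ × ℝ) :
    T (fun q i => S q i + S' q i) c n p = T S c n p + T S' c n p := by
  unfold T
  rw [← Finset.sum_add_distrib]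
  refine Finset.sum_congr rfl fun q _ => ?_
  rw [← Finset.sum_add_distrib]
  refine Finset.sum_congr rfl fun i _ => ?_
  ring

theorem T_neg (S : Q → Fin 4 → ℝ) (c : ℝ × ℝ) (n : ℝ × ℝ → Q → ℝ) (p : ℝ × ℝ) :
    T (fun q i => -S q i) c n p = -T S c n p := by
  unfold T
  rw [← Finset.sum_neg_distrib]
  refine Finset.sum_congr rfl fun q _ => ?_
  rw [← Finset.sum_neg_distrib]
  refine Finset.sum_congr rfl fun i _ => ?_
  ring

theorem T_zero (c : ℝ × ℝ) (n : ℝ × ℝ → Q → ℝ) (p : ℝ × ℝ) :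
    T (fun _ _ => 0) c n p = 0 := by
  unfold T
  simp

open Classical in
/-- the indicator of a pair -/
def one (q0 : Q) (i0 : Fin 4) : Q → Fin 4 → ℝ :=
  fun q i => if q = q0 then (if i = i0 then 1 else 0) else 0

theorem T_one (q0 : Q) (i0 : Fin 4) (c : ℝ × ℝ) (n : ℝ × ℝ → Q → ℝ) (p : ℝ × ℝ) :
    T (one q0 i0) c n p = sl c i0 * lin i0 n q0 p := by
  classical
  unfold T one
  rw [Finset.sum_eq_single q0]
  · rw [Finset.sum_eq_single i0]
    · simp
    · intro i _ hi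
      simp [hi]
    · intro h
      exact absurd (Finset.mem_univ _) h
  · intro q _ hq
    refine Finset.sum_eq_zero fun i _ => ?_
    simp [hq]
  · intro h
    exact absurd (Finset.mem_univ _) h

end Pth

namespace Tor
variable {Q : Type} [Group Q] [Fintype Q] (D : Tor Q)

/-- the elements for which the path formula holds from every start -/
def PthGood (z : Fr) : Prop :=
  ∀ h : Fr, ∃ S : Q → Fin 4 → ℝ, ∀ W : List Mv, ∀ p ∈ Sq,
    D.mW W p (h * z) - D.mW W p h = Pth.T S (cvW (0, 1) W) (D.nW W) p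

theorem PthGood_one : D.PthGood 1 := by
  intro h
  refine ⟨fun _ _ => 0, fun W p _ => ?_⟩
  rw [mul_one, sub_self, Pth.T_zero]

theorem PthGood_mul {z w : Fr} (hz : D.PthGood z) (hw : D.PthGood w) : D.PthGood (z * w) := by
  intro h
  obtain ⟨S, hS⟩ := hz h
  obtain ⟨S', hS'⟩ := hw (h * z)
  refine ⟨fun q i => S q i + S' q i, fun W p hp => ?_⟩
  rw [Pth.T_add, ← hS W p hp, ← hS' W p hp, mul_assoc]
  ring

theorem PthGood_inv {z : Fr} (hz : D.PthGood z) : D.PthGood z⁻¹ := by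
  intro h
  obtain ⟨S, hS⟩ := hz (h * z⁻¹)
  refine ⟨fun q i => -S q i, fun W p hp => ?_⟩
  have h1 := hS W p hp
  rw [inv_mul_cancel_right] at h1
  rw [Pth.T_neg, ← h1]
  ring

theorem PthGood_fy : D.PthGood fy := by
  intro h
  refine ⟨fun q i => Pth.one (D.g (h * fy)) 0 q i + Pth.one (D.g h) 1 q i, fun W p hp => ?_⟩
  rw [Pth.T_add, Pth.T_one, Pth.T_one]
  obtain ⟨⟨h10, h11⟩, ⟨h20, h21⟩⟩ := hp
  have hdp := D.mW_dp W
  have e1 := hdp (h * fy) (0, p.2) (1, 0) 0 p.1 h10 (by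
    intro r hr
    refine ⟨⟨?_, ?_⟩, ?_, ?_⟩ <;> simp <;> linarith [hr.1, hr.2])
  have e2 := hdp h (0, p.2) (1, 0) p.1 1 h11.le (by
    intro r hr
    refine ⟨⟨?_, ?_⟩, ?_, ?_⟩ <;> simp <;> linarith [hr.1, hr.2])
  have e3 := (D.mW_gl W p.2 ⟨h20, h21.le⟩ h).1
  simp only [Prod.smul_mk, Prod.mk_add_mk, smul_eq_mul, mul_one, mul_zero, add_zero,
    zero_add] at e1 e2
  have e4 : LF.y = fy := rfl
  rw [e4] at e3
  rw [e3] at e2
  show D.mW W p (h * fy) - D.mW W p h =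
    (cvW (0, 1) W).1 * (∫ r in (0 : ℝ)..p.1, D.nW W (r, p.2) (D.g (h * fy))) +
      (cvW (0, 1) W).1 * (∫ r in p.1..(1 : ℝ), D.nW W (r, p.2) (D.g h))
  rw [← e1, ← e2]
  ring

theorem PthGood_fx : D.PthGood fx := by
  intro h
  refine ⟨fun q i => Pth.one (D.g (h * fx)) 2 q i + Pth.one (D.g h) 3 q i, fun W p hp => ?_⟩
  rw [Pth.T_add, Pth.T_one, Pth.T_one]
  obtain ⟨⟨h10, h11⟩, ⟨h20, h21⟩⟩ := hp
  have hdp := D.mW_dp W
  have e1 := hdp (h * fx) (p.1, 0) (0, 1) 0 p.2 h20 (by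
    intro r hr
    refine ⟨⟨?_, ?_⟩, ?_, ?_⟩ <;> simp <;> linarith [hr.1, hr.2])
  have e2 := hdp h (p.1, 0) (0, 1) p.2 1 h21.le (by
    intro r hr
    refine ⟨⟨?_, ?_⟩, ?_, ?_⟩ <;> simp <;> linarith [hr.1, hr.2])
  have e3 := (D.mW_gl W p.1 ⟨h10, h11.le⟩ h).2
  simp only [Prod.smul_mk, Prod.mk_add_mk, smul_eq_mul, mul_one, mul_zero, add_zero,
    zero_add] at e1 e2
  have e4 : LF.x = fx := rfl
  rw [e4] at e3
  rw [e3] at e2
  show D.mW W p (h * fx) - D.mW W p h =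
    (cvW (0, 1) W).2 * (∫ r in (0 : ℝ)..p.2, D.nW W (p.1, r) (D.g (h * fx))) +
      (cvW (0, 1) W).2 * (∫ r in p.2..(1 : ℝ), D.nW W (p.1, r) (D.g h))
  rw [← e1, ← e2]
  ring

theorem PthGood_all (z : Fr) : D.PthGood z := by
  induction z using FreeGroup.induction_on with
  | C1 => exact D.PthGood_one
  | of t =>
    cases t
    · exact D.PthGood_fx
    · exact D.PthGood_fy
  | inv_of t ih => exact D.PthGood_inv ih
  | mul x y hx hy => exact D.PthGood_mul hx hy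

theorem path (z : Fr) : ∃ S : Q → Fin 4 → ℝ, ∀ W : List Mv, ∀ p ∈ Sq,
    D.mW W p z - D.mW W p 1 =
      ∑ q, ∑ i : Fin 4, S q i * sl (cvW (0, 1) W) i * lin i (D.nW W) q p := by
  obtain ⟨S, hS⟩ := D.PthGood_all z 1
  refine ⟨S, fun W p hp => ?_⟩
  have h := hS W p hp
  rw [one_mul] at h
  exact h

end Tor

end Pool.Agent.MP_d14a53_gt_FT
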