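import Mathlib
import Pool.Agent.Lib.MP_d14a53_gt_FT.Defs
import Pool.Agent.Lib.MP_d14a53_gt_FT.Pth
import Pool.Agent.Lib.MP_d14a53_gt_FT.LinI
import Pool.Agent.Lib.MP_d14a53_gt_FT.TN

/-!
# MP_d14a53_gt FT module P3

The value of `v` bounded by the functionals.

For a good word `mW W p k - mW W p 1 = v (thW W k) = v k` (`equi` with `h = 1`). Integrate `path`
over `Sq` (of measure `1`, `lin_int`): `v k = ∑_q ∑_i S q i * sl c i * ell i (nW W) q`. By
Cauchy-Schwarz (`Finset.sum_mul_sq_le_sq_mul_sq` over `Q × Fin 4`) and `(sl c i)² ≤ c₁² + c₂²` the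
constant `C = ∑_q ∑_i (S q i)²` works.
-/

set_option autoImplicit false

noncomputable section

namespace Pool.Agent.MP_d14a53_gt_FT

open Pool.Agent.MP_d14a53_gt_PW

open scoped RealInnerProductSpace

namespace P3

open MeasureTheory

theorem vol_Sq : (volume : Measure (ℝ × ℝ)).real Sq = 1 := by
  rw [measureReal_def, Sq, Measure.volume_eq_prod, Measure.prod_prod, Real.volume_Ico]
  norm_num

theorem bm {Q : Type} [Group Q] [Fintype Q] (D : Tor Q) (W : List Mv) : Bm (D.nW W) :=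
  Bm.opW D.L D.bm W

theorem measSq : MeasurableSet Sq := measurableSet_Ico.prod measurableSet_Ico

theorem sl_sq (c : ℝ × ℝ) (i : Fin 4) : (sl c i) ^ 2 ≤ c.1 ^ 2 + c.2 ^ 2 := by
  fin_cases i
  · change c.1 ^ 2 ≤ _
    nlinarith [sq_nonneg c.2]
  · change c.1 ^ 2 ≤ _
    nlinarith [sq_nonneg c.2]
  · change c.2 ^ 2 ≤ _
    nlinarith [sq_nonneg c.1]
  · change c.2 ^ 2 ≤ _
    nlinarith [sq_nonneg c.1]

end P3

namespace Tor
variable {Q : Type} [Group Q] [Fintype Q] (D : Tor Q)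

theorem p3 (k : Fr) (hk : k ∈ D.g.ker) : ∃ C : ℝ, 0 ≤ C ∧ ∀ W : List Mv, D.Gd W →
    (D.v k) ^ 2 ≤ C * ((cvW (0, 1) W).1 ^ 2 + (cvW (0, 1) W).2 ^ 2) *
      ∑ q, ∑ i : Fin 4, (ell i (D.nW W) q) ^ 2 := by
  obtain ⟨S, hS⟩ := D.path k
  refine ⟨∑ q, ∑ i : Fin 4, (S q i) ^ 2, Finset.sum_nonneg fun q _ =>
    Finset.sum_nonneg fun i _ => sq_nonneg _, fun W hW => ?_⟩
  obtain ⟨c, hc⟩ : ∃ c, c = cvW (0, 1) W := ⟨_, rfl⟩
  rw [← hc]
  have h1 : ∀ p ∈ Sq, D.v k = ∑ q, ∑ i : Fin 4, S q i * sl c i * lin i (D.nW W) q p := by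
    intro p hp
    have h2 := D.equi W k hk p 1
    rw [mul_one, hW.2 k hk] at h2
    have h3 := hS W p hp
    rw [h2, ← hc] at h3
    linarith
  have hbm := P3.bm D W
  have h4 : D.v k = ∑ q, ∑ i : Fin 4, S q i * (sl c i * ell i (D.nW W) q) := by
    have h5 : ∫ p in Sq, (D.v k : ℝ) = D.v k := by
      rw [MeasureTheory.setIntegral_const, P3.vol_Sq, one_smul]
    rw [← h5, MeasureTheory.setIntegral_congr_fun P3.measSq h1, MeasureTheory.integral_finsetSum]
    · refine Finset.sum_congr rfl fun q _ => ?_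
      rw [MeasureTheory.integral_finsetSum]
      · refine Finset.sum_congr rfl fun i _ => ?_
        rw [MeasureTheory.integral_const_mul, mul_assoc]
        rfl
      · intro i _
        exact (lin_int hbm i q).const_mul _
    · intro q _
      exact MeasureTheory.integrable_finsetSum _ fun i _ => (lin_int hbm i q).const_mul _
  rw [h4, ← Fintype.sum_prod_type', ← Fintype.sum_prod_type', ← Fintype.sum_prod_type']
  refine (Finset.sum_mul_sq_le_sq_mul_sq _ _ _).trans ?_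
  rw [mul_assoc]
  refine mul_le_mul_of_nonneg_left ?_ (Finset.sum_nonneg fun x _ => sq_nonneg _)
  rw [Finset.mul_sum]
  refine Finset.sum_le_sum fun x _ => ?_
  rw [mul_pow]
  exact mul_le_mul_of_nonneg_right (P3.sl_sq c x.2) (sq_nonneg _)

end Tor

end Pool.Agent.MP_d14a53_gt_FT
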