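import Mathlib
import Pool.Agent.Lib.MP_d14a53_gt_FT.Defs
import Pool.Agent.Lib.MP_d14a53_gt_FT.Ort2
import Pool.Agent.Lib.MP_d14a53_gt_FT.P3
import Pool.Agent.Lib.MP_d14a53_gt_FT.Bes

/-!
# MP_d14a53_gt FT module TCl

The estimate for one class of words.

Let `V i = W i ++ invW R`, a good word (`gd_comp`), with slope `e i = cvW (z i) (invW R)`
(`hW`, `cvW_append`), `|e i|² ≤ C_R |z i|²` (`cvW_bound`). For `i ≠ j` in `s` the determinant of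
`e i`, `e j` is that of `z i`, `z j` (`det_cvW`), not zero, so `ort2` applies and `bessel` (with
`E = JJ (pr n0 n0) ≥ 0`, `norm_nW`) gives `∑_{i ∈ s} (ell j (nW (V i)) q)² ≤ E` for all `j`, `q`.
`p3`: `(v k)² / |z i|² ≤ C C_R ∑_q ∑_j (ell j (nW (V i)) q)²`. Sum over `i ∈ s`: the constant
`B = C C_R (4 card Q) E` works; it only depends on `k` and `R`.
-/

set_option autoImplicit false

noncomputable section

namespace Pool.Agent.MP_d14a53_gt_FT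

open Pool.Agent.MP_d14a53_gt_PW

open scoped RealInnerProductSpace

namespace Tor
variable {Q : Type} [Group Q] [Fintype Q] (D : Tor Q)

theorem cls (k : Fr) (hk : k ∈ D.g.ker) (R : List Mv) : ∃ B : ℝ, ∀ (s : Finset (ℕ × ℕ))
    (W : ℕ × ℕ → List Mv),
    (∀ z ∈ s, cvW (0, 1) (W z) = ((z.1 : ℝ), (z.2 : ℝ))) →
    (∀ z ∈ s, ∀ z' ∈ s, z ≠ z' → (z.1 : ℝ) * z'.2 - z.2 * z'.1 ≠ 0) →
    (∀ z ∈ s, 0 < z.1) →
    (∀ z ∈ s, ∀ q, D.L.thW (W z) q = D.L.thW R q) →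
    (∀ z ∈ s, ∀ k ∈ D.g.ker, D.v (LF.thW (W z) k) = D.v (LF.thW R k)) →
    (D.v k) ^ 2 * ∑ z ∈ s, 1 / ((z.1 : ℝ) ^ 2 + (z.2 : ℝ) ^ 2) ≤ B := by
  obtain ⟨C, hC0, hC⟩ := D.p3 k hk
  obtain ⟨CR, hCR0, hCR⟩ := cvW_bound (invW R)
  set E := JJ (pr D.n0 D.n0) with hEdef
  have hE : 0 ≤ E := by
    rw [hEdef]
    unfold JJ
    refine Finset.sum_nonneg fun q _ => MeasureTheory.integral_nonneg fun p => ?_
    exact mul_self_nonneg _
  refine ⟨C * CR * (∑ _q : Q, ∑ _j : Fin 4, E), fun s W hW hdet hpos hQ hv => ?_⟩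
  set V : ℕ × ℕ → List Mv := fun z => W z ++ invW R with hV
  have hgd : ∀ z ∈ s, D.Gd (V z) := fun z hz => D.gd_comp (W z) R (hQ z hz) (hv z hz)
  have hsl : ∀ z ∈ s, cvW (0, 1) (V z) = cvW ((z.1 : ℝ), (z.2 : ℝ)) (invW R) := by
    intro z hz
    rw [hV]
    show cvW (0, 1) (W z ++ invW R) = _
    rw [cvW_append, hW z hz]
  have hbes : ∀ (j : Fin 4) (q : Q), ∑ z ∈ s, (ell j (D.nW (V z)) q) ^ 2 ≤ E := by
    intro j q
    refine bessel s (fun z => D.nW (V z)) (fun z _ => D.bm.opW D.L _) E hE ?_ ?_ j q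
    · intro z hz z' hz' hne
      refine D.ort2 (V z) (V z') (hgd z hz) (hgd z' hz') ?_
      rw [hsl z hz, hsl z' hz', det_cvW]
      exact hdet z hz z' hz' hne
    · intro z _
      exact D.norm_nW (V z)
  have hterm : ∀ z ∈ s, (D.v k) ^ 2 * (1 / ((z.1 : ℝ) ^ 2 + (z.2 : ℝ) ^ 2)) ≤
      C * CR * ∑ q, ∑ j : Fin 4, (ell j (D.nW (V z)) q) ^ 2 := by
    intro z hz
    have h1 := hC (V z) (hgd z hz)
    rw [hsl z hz] at h1
    have h2 := hCR ((z.1 : ℝ), (z.2 : ℝ))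
    dsimp only at h2
    have hz1 : (0 : ℝ) < z.1 := by exact_mod_cast hpos z hz
    have hpos' : (0 : ℝ) < (z.1 : ℝ) ^ 2 + (z.2 : ℝ) ^ 2 := by positivity
    have hS : 0 ≤ ∑ q, ∑ j : Fin 4, (ell j (D.nW (V z)) q) ^ 2 :=
      Finset.sum_nonneg fun q _ => Finset.sum_nonneg fun j _ => sq_nonneg _
    rw [mul_one_div, div_le_iff₀ hpos']
    refine h1.trans ?_
    have h3 : C * ((cvW ((z.1 : ℝ), (z.2 : ℝ)) (invW R)).1 ^ 2 +
        (cvW ((z.1 : ℝ), (z.2 : ℝ)) (invW R)).2 ^ 2) ≤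
        C * (CR * ((z.1 : ℝ) ^ 2 + (z.2 : ℝ) ^ 2)) := mul_le_mul_of_nonneg_left h2 hC0
    have h4 := mul_le_mul_of_nonneg_right h3 hS
    refine h4.trans (le_of_eq ?_)
    ring
  rw [Finset.mul_sum]
  refine (Finset.sum_le_sum hterm).trans ?_
  rw [← Finset.mul_sum]
  refine mul_le_mul_of_nonneg_left ?_ (mul_nonneg hC0 hCR0.le)
  rw [Finset.sum_comm]
  refine Finset.sum_le_sum fun q _ => ?_
  rw [Finset.sum_comm]
  exact Finset.sum_le_sum fun j _ => hbes j q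

end Tor

end Pool.Agent.MP_d14a53_gt_FT
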