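import Mathlib
import Pool.Agent.Lib.MP_d14a53_gt_FT.Defs
import Pool.Agent.Lib.MP_d14a53_gt_FT.TCl
import Pool.Agent.Lib.MP_d14a53_gt_FT.Euc
import Pool.Agent.Lib.MP_d14a53_gt_FT.Div

/-!
# MP_d14a53_gt FT module TFin

The torus theorem.

For a coprime pair `z` let `W z` be a word with slope `z` (`euclid`). The class of a word `W` is the
pair (`fun q => D.L.thW W q`, `fun k : ker => D.v (LF.thW W k)`); by `D.fin` and the finiteness of
`Q → Q` there are finitely many classes. For each class choose a word `R` in it and the bound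
`B` of `cls`; let `B0 ≥ 0` be at least the sum of all these bounds (of their positive parts).
Suppose `v k ≠ 0`; take `s` from `div_sum` for `(B0 + 1) / (v k)²`. Split `s` into the classes of
the words `W z`: `(v k)² ∑_{z ∈ s} 1/|z|² = ∑_classes … ≤ B0`, a contradiction. The pairs
`(a, b)`, `1 ≤ a < b`, `b` prime are coprime and for two different pairs `a b' ≠ b a'` (both are
in lowest terms).
-/

set_option autoImplicit false

noncomputable section

namespace Pool.Agent.MP_d14a53_gt_FT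

open Pool.Agent.MP_d14a53_gt_PW

open scoped RealInnerProductSpace

namespace TFinAux

theorem cop {z : ℕ × ℕ} (h : 1 ≤ z.1 ∧ z.1 < z.2 ∧ z.2.Prime) : Nat.Coprime z.1 z.2 := by
  obtain ⟨h1, h2, hp⟩ := h
  exact ((Nat.Prime.coprime_iff_not_dvd hp).2 (Nat.not_dvd_of_pos_of_lt h1 h2)).symm

theorem det_ne {z z' : ℕ × ℕ} (h : 1 ≤ z.1 ∧ z.1 < z.2 ∧ z.2.Prime)
    (h' : 1 ≤ z'.1 ∧ z'.1 < z'.2 ∧ z'.2.Prime) (hne : z ≠ z') :
    (z.1 : ℝ) * z'.2 - z.2 * z'.1 ≠ 0 := by
  intro h0
  apply hne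
  have h1 : z.1 * z'.2 = z.2 * z'.1 := by
    have : (z.1 : ℝ) * z'.2 = z.2 * z'.1 := by linarith
    exact_mod_cast this
  have h2 : z.2 ∣ z'.2 := (cop h).symm.dvd_of_dvd_mul_left (h1 ▸ Dvd.intro _ rfl)
  have h3 : z.2 = z'.2 := ((Nat.prime_dvd_prime_iff_eq h.2.2 h'.2.2).1 h2)
  have h4 : z.1 = z'.1 := by
    rw [← h3, mul_comm] at h1
    exact Nat.eq_of_mul_eq_mul_left (by have := h.2.2.pos; omega) h1
  exact Prod.ext h4 h3

end TFinAux

namespace Tor
variable {Q : Type} [Group Q] [Finite Q] (D : Tor Q)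

theorem zero (k : Fr) (hk : k ∈ D.g.ker) : D.v k = 0 := by
  classical
  have : Fintype Q := Fintype.ofFinite Q
  by_contra hv
  have hv2 : 0 < (D.v k) ^ 2 := by positivity
  let cl : List Mv → (Q → Q) × (D.g.ker → ℝ) := fun W =>
    (fun q => D.L.thW W q, fun k => D.v (LF.thW W (k : Fr)))
  have hfin : (Set.range cl).Finite := by
    have h1 : ((Set.univ : Set (Q → Q)) ×ˢ
        {w : D.g.ker → ℝ | ∃ W : List Mv, ∀ k : D.g.ker, w k = D.v (LF.thW W (k : Fr))}).Finite :=
      (Set.toFinite _).prod D.fin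
    apply h1.subset
    rintro _ ⟨W, rfl⟩
    exact ⟨Set.mem_univ _, W, fun k => rfl⟩
  let R : (Q → Q) × (D.g.ker → ℝ) → List Mv := fun c =>
    if h : ∃ W, cl W = c then h.choose else []
  have hR : ∀ W, cl (R (cl W)) = cl W := by
    intro W
    have h : ∃ W', cl W' = cl W := ⟨W, rfl⟩
    have : R (cl W) = h.choose := dif_pos h
    rw [this]
    exact h.choose_spec
  choose B hB using fun c => D.cls k hk (R c)
  set T := hfin.toFinset with hT
  set B0 : ℝ := ∑ c ∈ T, max (B c) 0 with hB0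
  obtain ⟨s, hs, hsum⟩ := div_sum ((B0 + 1) / (D.v k) ^ 2)
  let W : ℕ × ℕ → List Mv := fun z =>
    if h : Nat.Coprime z.1 z.2 then (euclid z.1 z.2 h).choose else []
  have hW : ∀ z ∈ s, cvW (0, 1) (W z) = ((z.1 : ℝ), (z.2 : ℝ)) := by
    intro z hz
    have h := TFinAux.cop (hs z hz)
    have : W z = (euclid z.1 z.2 h).choose := dif_pos h
    rw [this]
    exact (euclid z.1 z.2 h).choose_spec
  have key : ∀ c ∈ T, (D.v k) ^ 2 * ∑ z ∈ s with cl (W z) = c,
      1 / ((z.1 : ℝ) ^ 2 + (z.2 : ℝ) ^ 2) ≤ max (B c) 0 := by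
    intro c hc
    refine le_trans (hB c (s.filter fun z => cl (W z) = c) W ?_ ?_ ?_ ?_ ?_) (le_max_left _ _)
    · intro z hz
      exact hW z (Finset.mem_filter.1 hz).1
    · intro z hz z' hz' hne
      exact TFinAux.det_ne (hs z (Finset.mem_filter.1 hz).1) (hs z' (Finset.mem_filter.1 hz').1)
        hne
    · intro z hz
      exact (hs z (Finset.mem_filter.1 hz).1).1
    · intro z hz q
      have h1 : cl (W z) = cl (R c) := by
        have h2 := (Finset.mem_filter.1 hz).2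
        have h3 := hR (W z)
        rw [h2] at h3
        rw [h2, h3]
      exact congrFun (congrArg Prod.fst h1) q
    · intro z hz k' hk'
      have h1 : cl (W z) = cl (R c) := by
        have h2 := (Finset.mem_filter.1 hz).2
        have h3 := hR (W z)
        rw [h2] at h3
        rw [h2, h3]
      exact congrFun (congrArg Prod.snd h1) ⟨k', hk'⟩
  have htot : (D.v k) ^ 2 * ∑ z ∈ s, 1 / ((z.1 : ℝ) ^ 2 + (z.2 : ℝ) ^ 2) ≤ B0 := by
    have hmaps : ∀ z ∈ s, cl (W z) ∈ T := by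
      intro z _
      rw [hT, Set.Finite.mem_toFinset]
      exact ⟨_, rfl⟩
    rw [← Finset.sum_fiberwise_of_maps_to hmaps, Finset.mul_sum]
    exact Finset.sum_le_sum key
  have h1 : B0 + 1 ≤ (D.v k) ^ 2 * ∑ z ∈ s, 1 / ((z.1 : ℝ) ^ 2 + (z.2 : ℝ) ^ 2) := by
    rw [div_le_iff₀ hv2] at hsum
    linarith
  linarith

end Tor

end Pool.Agent.MP_d14a53_gt_FT
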