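import Mathlib
import Pool.Agent.Lib.MP_d14a53_gt_FT.Defs
import Pool.Agent.Lib.MP_d14a53_gt_FT.TFin
import Pool.Agent.Lib.MP_d14a53_gt_FT.Orb
import Pool.Agent.Lib.MP_d14a53_gt_FT.Fun
import Pool.Agent.Lib.MP_d14a53_gt_FT.KfA
import Pool.Agent.Lib.MP_d14a53_gt_FT.KfB
import Pool.Agent.Lib.MP_d14a53_gt_FT.KfC
import Pool.Agent.Lib.MP_d14a53_gt_FT.Sur
import Pool.Agent.Lib.MP_d14a53_gt_FT.Pri
import Pool.Agent.Lib.MP_d14a53_gt_FT.Goo

/-!
# MP_d14a53_gt FT module FI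

The cocycle vanishes on `N` if it vanishes on the cut surface.

Let `P = (Perm ((π ⧸ N) × Ix m p))ᵐᵒᵖ`, a finite group, `Q = Fr ⧸ KK P` (finite, `KK_fin`).
`lam_zero`: for `e : V` apply the torus theorem `Tor.zero` to the data `L` (`KK_lab`),
`g = mk'`, `f w = ⟪e, F (lam w * T⁻¹)⟫`, `v k = ⟪e, F (lam k)⟫` (`fun_k`, `fun_y`, `fun_xyx`,
`orb_fin` with `M = g.ker`, `QuotientGroup.ker_mk'`). So `⟪e, F (lam k)⟫ = 0` for all `e`.
`zero_N`: `n ∈ N` is `lam w` for a closed path `w` (`sur`); `w^r ∈ KK P` for `r` = index `> 0`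
and `lam (w^r) = n^r`; `F (n^r) = r F n = 0` (`Coc.pow_triv`).
-/

set_option autoImplicit false

noncomputable section

namespace Pool.Agent.MP_d14a53_gt_FT

open Pool.Agent.MP_d14a53_gt_PW

open scoped RealInnerProductSpace

section
variable {m p : ℕ} [NeZero (m + p)] {π : Type} [Group π] {a b : Fin (m + 1) → π}
  {c : Fin p → π} {V : Type} [NormedAddCommGroup V] [InnerProductSpace ℝ V] {N : Subgroup π}
  {U : Submodule ℝ V} {ρ : π →* (V ≃ₗᵢ[ℝ] V)} {F : π → V}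

theorem lam_zero (h : GoodF c N U ρ F) (hs : IsSurf a b c) (hF : ∀ x ∈ Cut a b c 0, F x = 0)
    (k : Fr) (hk : k ∈ KK (Equiv.Perm ((π ⧸ N) × Ix m p))ᵐᵒᵖ) :
    F ((stL a b c).lam (0, 0) k) = 0 := by
  have hNn : N.Normal := h.normal
  have hNf : N.FiniteIndex := h.fin
  have hQ : Finite (π ⧸ N) := Subgroup.finite_quotient_of_finiteIndex
  have hP : Finite (Equiv.Perm ((π ⧸ N) × Ix m p))ᵐᵒᵖ :=
    Finite.of_equiv _ (MulOpposite.opEquiv (α := Equiv.Perm ((π ⧸ N) × Ix m p)))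
  have hKn : (KK (Equiv.Perm ((π ⧸ N) × Ix m p))ᵐᵒᵖ).Normal := KK_normal _
  have hKf : (KK (Equiv.Perm ((π ⧸ N) × Ix m p))ᵐᵒᵖ).FiniteIndex := KK_fin _
  have hQf : Finite (Fr ⧸ KK (Equiv.Perm ((π ⧸ N) × Ix m p))ᵐᵒᵖ) :=
    Subgroup.finite_quotient_of_finiteIndex
  obtain ⟨L, hL⟩ := KK_lab (Equiv.Perm ((π ⧸ N) × Ix m p))ᵐᵒᵖ
  have hker : ∀ x : Fr, x ∈ (QuotientGroup.mk' (KK (Equiv.Perm ((π ⧸ N) × Ix m p))ᵐᵒᵖ)).ker →
      x ∈ KK (Equiv.Perm ((π ⧸ N) × Ix m p))ᵐᵒᵖ := fun x hx => by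
    rwa [QuotientGroup.ker_mk'] at hx
  let D : V → Tor (Fr ⧸ KK (Equiv.Perm ((π ⧸ N) × Ix m p))ᵐᵒᵖ) := fun e =>
    { L := L
      g := QuotientGroup.mk' _
      sur := QuotientGroup.mk'_surjective _
      cmp := hL
      f := fun w => ⟪e, F ((stL a b c).lam (0, 0) w * (sT a b c 0)⁻¹)⟫
      v := fun k => ⟪e, F ((stL a b c).lam (0, 0) k)⟫
      fk := fun k hk w => by
        rw [fun_k h.toCoc k (hker k hk) w, inner_add_right]
      fy' := fun w => by rw [fun_y h.toCoc hF w]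
      fxyx := fun w => by rw [fun_xyx h.toCoc hF w]
      fin := orb_fin h hs e _ hker }
  have hk' : k ∈ (D (F ((stL a b c).lam (0, 0) k))).g.ker := by
    change k ∈ (QuotientGroup.mk' (KK (Equiv.Perm ((π ⧸ N) × Ix m p))ᵐᵒᵖ)).ker
    rwa [QuotientGroup.ker_mk']
  have h1 := (D (F ((stL a b c).lam (0, 0) k))).zero k hk'
  exact inner_self_eq_zero.1 h1

theorem zero_N (h : GoodF c N U ρ F) (hs : IsSurf a b c) (hF : ∀ x ∈ Cut a b c 0, F x = 0)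
    (n : π) (hn : n ∈ N) : F n = 0 := by
  have hNn : N.Normal := h.normal
  have hNf : N.FiniteIndex := h.fin
  have hQ : Finite (π ⧸ N) := Subgroup.finite_quotient_of_finiteIndex
  have hP : Finite (Equiv.Perm ((π ⧸ N) × Ix m p))ᵐᵒᵖ :=
    Finite.of_equiv _ (MulOpposite.opEquiv (α := Equiv.Perm ((π ⧸ N) × Ix m p)))
  have hKn : (KK (Equiv.Perm ((π ⧸ N) × Ix m p))ᵐᵒᵖ).Normal := KK_normal _
  have hKf : (KK (Equiv.Perm ((π ⧸ N) × Ix m p))ᵐᵒᵖ).FiniteIndex := KK_fin _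
  obtain ⟨w, hw⟩ := sur hs n
  have hpow : ∀ r : ℕ, (stL a b c).mv (1, (0, 0)) (w ^ r) = (n ^ r, (0, 0)) := by
    intro r
    induction r with
    | zero => rw [pow_zero, pow_zero, Lb.mv_one]
    | succ r ih =>
      rw [pow_succ, Lb.mv_mul, ih]
      have h2 := (stL a b c).mv_left (n ^ r) 1 (0, 0) w
      rw [mul_one, hw] at h2
      rw [h2, pow_succ]
  set r := (KK (Equiv.Perm ((π ⧸ N) × Ix m p))ᵐᵒᵖ).index with hr
  have hr0 : r ≠ 0 := hKf.index_ne_zero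
  have h1 := lam_zero h hs hF (w ^ r) (Subgroup.pow_index_mem _ w)
  have h2 : (stL a b c).lam (0, 0) (w ^ r) = n ^ r := congrArg Prod.fst (hpow r)
  rw [h2, h.toCoc.pow_triv n (fun v hv => h.triv n hn v hv) r, smul_eq_zero] at h1
  rcases h1 with h1 | h1
  · exact absurd (Nat.cast_eq_zero.1 h1) hr0
  · exact h1

end

end Pool.Agent.MP_d14a53_gt_FT
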