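import Mathlib
import Pool.Agent.Lib.MP_d14a53_gt_FT.Defs
import Pool.Agent.Lib.MP_d14a53_gt_FT.Pri
import Pool.Agent.Lib.MP_d14a53_gt_PW.Coc

/-!
# MP_d14a53_gt FT module Pwf

From the cocycle statement to the Putman-Wieland property.

Follow the proof of `pw_of_prin` (`MP_d14a53_gt_PW/Coc.lean`), the cocycle is `PP.Fc K f`,
`ρ = PP.rho K`, `N = K.normalCore`; only the field `orb` is new. Let `f` have finite orbit. For
`φ` with `x⁻¹ φ x ∈ N` for all `x` and `Punc c φ` the function `f' k = f ⟨φ k, _⟩` is in the finite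
set of the definition of `PW` (`PP.map_eq`, `PP.mem_iff`). For `n ∈ N` (note `n⁻¹ • q = q`,
`PP.core_smul`) `Fc (φ n) q = fr (s⁻¹ φ(n) s)` with `s = sig q`. Write `φ s = s m`, `m ∈ N`: then
`φ (s⁻¹ n s) = m⁻¹ s⁻¹ φ(n) s m`, with `m`, `s⁻¹ φ(n) s ∈ K`, so `fr` of it is
`fr (s⁻¹ φ(n) s)` (`fr_mul`, `fr_inv`). So `Fc (φ n) q = fr (φ (s⁻¹ n s)) = f' (s⁻¹ n s)` is a
function of `f'`; the set in `orb` is contained in the image of the finite orbit of `f`.
-/

set_option autoImplicit false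

noncomputable section

namespace Pool.Agent.MP_d14a53_gt_FT

open Pool.Agent.MP_d14a53_gt_PW

open scoped RealInnerProductSpace

namespace Pwf

variable {π : Type} [Group π]

theorem core_mem (K : Subgroup π) (n : K.normalCore) (q : π ⧸ K) :
    (PP.sig K q)⁻¹ * (n : π) * PP.sig K q ∈ K := by
  have := PP.mem_key K (n : π) q
  rwa [PP.core_smul K (K.normalCore.inv_mem n.2)] at this

/-- the restricted cocycle as a function of the twisted homomorphism -/
def Th (K : Subgroup π) (f' : K → Multiplicative ℚ) (n : K.normalCore) :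
    EuclideanSpace ℝ (π ⧸ K) :=
  WithLp.toLp 2 (fun q => ((Multiplicative.toAdd
    (f' ⟨(PP.sig K q)⁻¹ * (n : π) * PP.sig K q, core_mem K n q⟩) : ℚ) : ℝ))

theorem Th_eq (K : Subgroup π) (f : K →* Multiplicative ℚ) (φ : π ≃* π)
    (h : ∀ x, x⁻¹ * φ x ∈ K.normalCore) (n : K.normalCore) :
    Th K (fun y : K => f ⟨φ y, (PP.mem_iff K φ h y).2 y.2⟩) n = PP.Fc K f (φ (n : π)) := by
  have hn : φ (n : π) ∈ K.normalCore := by
    have := K.normalCore.mul_mem n.2 (h n)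
    simpa using this
  ext q
  rw [PP.Fc_apply, PP.core_smul K (K.normalCore.inv_mem hn)]
  change ((Multiplicative.toAdd (f ⟨φ ((PP.sig K q)⁻¹ * (n : π) * PP.sig K q), _⟩) : ℚ) : ℝ) = _
  rw [← PP.fr_of_mem K f ((PP.mem_iff K φ h _).2 (core_mem K n q))]
  have hm := K.normalCore_le (h (PP.sig K q))
  have hc : (PP.sig K q)⁻¹ * φ (n : π) * PP.sig K q ∈ K := core_mem K ⟨_, hn⟩ q
  have e : φ ((PP.sig K q)⁻¹ * (n : π) * PP.sig K q) =
      ((PP.sig K q)⁻¹ * φ (PP.sig K q))⁻¹ * ((PP.sig K q)⁻¹ * φ (n : π) * PP.sig K q) *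
        ((PP.sig K q)⁻¹ * φ (PP.sig K q)) := by
    rw [map_mul, map_mul, map_inv]
    group
  rw [e, PP.fr_mul K f (K.mul_mem (K.inv_mem hm) hc) hm, PP.fr_mul K f (K.inv_mem hm) hc,
    PP.fr_inv K f hm]
  ring

end Pwf

theorem pw_of_prinF {π : Type} [Group π] {p : ℕ} (c : Fin p → π) (K : Subgroup π)
    [Fintype (π ⧸ K)]
    (H : ∀ (ρ : π →* (EuclideanSpace ℝ (π ⧸ K) ≃ₗᵢ[ℝ] EuclideanSpace ℝ (π ⧸ K)))
      (F : π → EuclideanSpace ℝ (π ⧸ K)),
      (∀ x v q, ρ x v q = v (x⁻¹ • q)) → GoodF c K.normalCore ⊤ ρ F →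
        ∃ v, PrinOn ρ F ⊤ v) : PW c K := by
  intro f hper hf1
  by_contra hfin
  rw [Set.not_infinite] at hfin
  apply hf1
  have hgood : GoodF c K.normalCore ⊤ (PP.rho K) (PP.Fc K f) := by
    have hKf : K.FiniteIndex := Subgroup.finiteIndex_of_finite_quotient
    refine ⟨⟨inferInstance, inferInstance, ?_, fun _ _ _ => Submodule.mem_top,
      fun _ => Submodule.mem_top, PP.Fc_mul K f⟩, ?_, ?_⟩
    · intro n hn v _
      ext q
      rw [PP.rho_apply, PP.core_smul K (K.normalCore.inv_mem hn)]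
    · intro j m hm
      ext q
      rw [PP.Fc_apply, PP.core_smul K (K.normalCore.inv_mem hm)]
      have h1 : (PP.sig K q)⁻¹ * c j ^ m * PP.sig K q ∈ K := by
        have := PP.mem_key K (c j ^ m) q
        rwa [PP.core_smul K (K.normalCore.inv_mem hm)] at this
      have h2 := (PP.fr_eq_zero K f h1).2
        (hper ⟨_, h1⟩ ⟨(PP.sig K q)⁻¹, (m : ℤ), j, by simp⟩)
      rw [h2]
      rfl
    · refine (hfin.image (Pwf.Th K)).subset ?_
      rintro G ⟨φ, hp, hN, hG⟩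
      refine ⟨fun y : K => f ⟨φ y, (PP.mem_iff K φ hN y).2 y.2⟩, ?_, ?_⟩
      · refine ⟨φ, PP.map_eq K _ hN, hp, ?_⟩
        intro y y' hy
        have : (⟨φ y, (PP.mem_iff K φ hN y).2 y.2⟩ : K) = y' :=
          Subtype.ext hy.symm
        change f _ = f y'
        rw [this]
      · funext n
        rw [hG n]
        exact Pwf.Th_eq K f φ hN n
  obtain ⟨v, hv⟩ := H (PP.rho K) (PP.Fc K f) (PP.rho_apply K) hgood
  ext k
  have h1 := hv k (Subgroup.mem_top _)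
  have hk : (k : π)⁻¹ • ((1 : π) : π ⧸ K) = ((1 : π) : π ⧸ K) := by
    change (((k : π)⁻¹ * 1 : π) : π ⧸ K) = ((1 : π) : π ⧸ K)
    rw [QuotientGroup.eq]
    simp
  have hs : PP.sig K ((1 : π) : π ⧸ K) ∈ K := by
    have h2 := PP.sig_coe K ((1 : π) : π ⧸ K)
    rw [QuotientGroup.eq] at h2
    simpa using h2
  have h3 := congrArg (fun w : EuclideanSpace ℝ (π ⧸ K) => w ((1 : π) : π ⧸ K)) h1
  simp only [PiLp.sub_apply] at h3
  rw [PP.rho_apply, PP.Fc_apply, hk, sub_self,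
    PP.fr_mul K f (K.mul_mem (K.inv_mem hs) k.2) hs, PP.fr_mul K f (K.inv_mem hs) k.2,
    PP.fr_inv K f hs] at h3
  have h4 : PP.fr K f (k : π) = 0 := by linarith
  rw [PP.fr_eq_zero K f k.2] at h4
  have h5 : f k = 1 := h4
  rw [h5]
  rfl

end Pool.Agent.MP_d14a53_gt_FT
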