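import Mathlib
import Pool.Agent.Lib.MP_d14a53_gt_FT.Defs
import Pool.Agent.Lib.MP_d14a53_gt_PW.SepG
import Pool.Agent.Lib.MP_d14a53_gt_PW.Twist
import Pool.Agent.Lib.MP_d14a53_gt_PW.Handle
import Pool.Agent.Lib.MP_d14a53_gt_PW.GoodB

/-!
# MP_d14a53_gt FT module Nof

A cocycle on whose space `b 0` has no fixed vectors, `b 0` central modulo `N`.

`nofix`: `[a_0, b_0] = HP a b 1 ∈ N` (`hb`), so `F [a_0, b_0] = 0` by `Good.sep` (`n = 1`,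
`HP_one`). The cocycle identity, `F b_0 = 0` and `ρ [a_0,b_0] = 1` on `U` give
`F a_0 = ρ (a_0 b_0 a_0⁻¹) F a_0 = ρ (b_0) F a_0`, so `F a_0 = 0`.
`nofix_aut`: `Good.comp` for `φ`: the data `N.comap φ`, `ρ ∘ φ`, `F ∘ φ` satisfy the hypotheses of
`nofix` (`φ b_0 = b_0`).
-/

set_option autoImplicit false

noncomputable section

namespace Pool.Agent.MP_d14a53_gt_FT

open Pool.Agent.MP_d14a53_gt_PW

open scoped RealInnerProductSpace

section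
variable {π : Type*} [Group π] {g p : ℕ} {V : Type*} [NormedAddCommGroup V]
  [InnerProductSpace ℝ V] {a b : Fin g → π} {c : Fin p → π} {N : Subgroup π} {U : Submodule ℝ V}
  {ρ : π →* (V ≃ₗᵢ[ℝ] V)} {F : π → V}

theorem nofix (h : Good c N U ρ F) (hs : IsSurf a b c) (i0 : Fin g) (hi0 : (i0 : ℕ) = 0)
    (hb : ∀ x, b i0 * x * (b i0)⁻¹ * x⁻¹ ∈ N) (hfix : ∀ v ∈ U, ρ (b i0) v = v → v = 0)
    (h0 : F (b i0) = 0) : F (a i0) = 0 := by
  have hC : a i0 * b i0 * (a i0)⁻¹ * (b i0)⁻¹ ∈ N := by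
    have h1 := N.inv_mem (hb (a i0))
    have h2 : (b i0 * a i0 * (b i0)⁻¹ * (a i0)⁻¹)⁻¹ =
        a i0 * b i0 * (a i0)⁻¹ * (b i0)⁻¹ := by group
    rwa [h2] at h1
  have hg : 1 ≤ g := by
    have := i0.isLt
    omega
  have hF : F (a i0 * b i0 * (a i0)⁻¹ * (b i0)⁻¹) = 0 := by
    have e : HP a b 1 = a i0 * b i0 * (a i0)⁻¹ * (b i0)⁻¹ := by
      have h1 := HP_succ a b i0
      rw [hi0, HP_zero, one_mul, zero_add] at h1
      exact h1
    have h1 := h.sep hs 1 hg (by rw [e]; exact hC)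
    rwa [e] at h1
  have hbi : F (b i0)⁻¹ = 0 := by rw [h.inv, h0, map_zero, neg_zero]
  rw [h.mul_triv _ _ hbi, h.conj, h0, map_zero, add_zero, sub_eq_zero] at hF
  apply hfix _ (h.val _)
  have e2 : a i0 * b i0 * (a i0)⁻¹ = a i0 * b i0 * (a i0)⁻¹ * (b i0)⁻¹ * b i0 := by group
  rw [e2, PI.rho_mul, h.triv _ hC _ (h.stab _ _ (h.val _))] at hF
  exact hF.symm

theorem nofix_aut (h : Good c N U ρ F) (hs : IsSurf a b c) (i0 : Fin g) (hi0 : (i0 : ℕ) = 0)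
    (hb : ∀ x, b i0 * x * (b i0)⁻¹ * x⁻¹ ∈ N) (hfix : ∀ v ∈ U, ρ (b i0) v = v → v = 0)
    (h0 : F (b i0) = 0) (φ : π ≃* π) (hφ : Punc c φ) (hφb : φ (b i0) = b i0) :
    F (φ (a i0)) = 0 := by
  refine nofix (F := fun x => F (φ x)) (h.comp φ hφ) hs i0 hi0 ?_ ?_ ?_
  · intro x
    change φ (b i0 * x * (b i0)⁻¹ * x⁻¹) ∈ N
    rw [map_mul, map_mul, map_mul, map_inv, map_inv, hφb]
    exact hb (φ x)
  · intro v hv hv'
    apply hfix v hv
    have h1 : ρ (φ (b i0)) v = v := hv'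
    rwa [hφb] at h1
  · rw [hφb]
    exact h0

end

end Pool.Agent.MP_d14a53_gt_FT
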