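import Mathlib
import Pool.Agent.Lib.MP_d14a53_gt_FT.Defs
import Pool.Agent.Lib.MP_d14a53_gt_FT.Nof
import Pool.Agent.Lib.MP_d14a53_gt_PW.Foot
import Pool.Agent.Lib.MP_d14a53_gt_PW.Tw
import Pool.Agent.Lib.MP_d14a53_gt_PW.Prod
import Pool.Agent.Lib.MP_d14a53_gt_PW.Lift
import Pool.Agent.Lib.MP_d14a53_gt_PW.Punc

/-!
# MP_d14a53_gt FT module NofA

All values vanish.

`F a_0 = 0` by `nofix`. Let `S` be the subgroup where `F = 0` (closed under products and inverses).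
By strong induction on `m ≥ 1` `F a_m = F b_m = 0`: let `W = (HP 1)⁻¹ HP m`, a word in the handles
`1, …, m-1`, so `F W = 0`; `x = W a_m W⁻¹`. Compose `exists_foot` (`i = i0`) with conjugation by
`x`: `φ b_0 = b_0`, `φ a_0 = x a_0`; `nofix_aut` (`Punc.of_fix`, `Punc.conj`, `Punc.trans`) gives
`0 = F (x a_0) = F x`, hence `F a_m = 0`. For `b_m` conjugate this `φ` by the swap `s` of the
handle `m` (`exists_swap`): `s φ s⁻¹` fixes `b_0` and maps `a_0` to `s(x) a_0` with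
`s(x) = W a_m b_m a_m⁻¹ W⁻¹` (`s W = W`, `map_HP`-like, `s` fixes the other generators), so
`F (W a_m b_m a_m⁻¹ W⁻¹) = 0` and `F b_m = 0`. For `c_j` the same with `exists_footc`:
`W = (HP 1)⁻¹ HP g * CP j`, `x = W c_j W⁻¹`, strong induction on `j`
(`exists_footc` satisfies `φ c_j = e c_j e⁻¹`, so `Punc`). All generators are done
(`surf_closure` or `closure_eq_top`).
-/

set_option autoImplicit false

noncomputable section

namespace Pool.Agent.MP_d14a53_gt_FT

open Pool.Agent.MP_d14a53_gt_PW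

open scoped RealInnerProductSpace

section
variable {π : Type*} [Group π] {g p : ℕ} {V : Type*} [NormedAddCommGroup V]
  [InnerProductSpace ℝ V] {a b : Fin g → π} {c : Fin p → π} {N : Subgroup π} {U : Submodule ℝ V}
  {ρ : π →* (V ≃ₗᵢ[ℝ] V)} {F : π → V}

/-- the subgroup where `F` vanishes -/
def NofA.S (h : Good c N U ρ F) : Subgroup π where
  carrier := {x | F x = 0}
  mul_mem' := fun {x y} hx hy => by
    change F x = 0 at hx
    change F y = 0 at hy
    change F (x * y) = 0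
    rw [h.coc, hx, hy, map_zero, add_zero]
  one_mem' := h.one
  inv_mem' := fun {x} hx => by
    change F x = 0 at hx
    change F x⁻¹ = 0
    rw [h.inv, hx, map_zero, neg_zero]

theorem NofA.mem (h : Good c N U ρ F) (x : π) : x ∈ NofA.S h ↔ F x = 0 := Iff.rfl

theorem NofA.hp (h : Good c N U ρ F) (n m : ℕ) (hnm : n ≤ m)
    (hi : ∀ i : Fin g, n ≤ (i : ℕ) → (i : ℕ) < m → a i ∈ NofA.S h ∧ b i ∈ NofA.S h) :
    (HP a b n)⁻¹ * HP a b m ∈ NofA.S h := by
  refine PA1.LP_diff_mem (fun i : Fin g => a i * b i * (a i)⁻¹ * (b i)⁻¹) _ n m hnm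
    fun i hi1 hi2 => ?_
  obtain ⟨h1, h2⟩ := hi i hi1 hi2
  exact Subgroup.mul_mem _ (Subgroup.mul_mem _ (Subgroup.mul_mem _ h1 h2)
    (Subgroup.inv_mem _ h1)) (Subgroup.inv_mem _ h2)

/-- conjugation -/
theorem NofA.cj (h : Good c N U ρ F) {W y : π} (hW : W ∈ NofA.S h)
    (hy : W * y * W⁻¹ ∈ NofA.S h) : y ∈ NofA.S h := by
  have h1 := Subgroup.mul_mem _ (Subgroup.mul_mem _ (Subgroup.inv_mem _ hW) hy) hW
  have h2 : W⁻¹ * (W * y * W⁻¹) * W = y := by group
  rwa [h2] at h1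

/-- the basic step: `ψ` fixes `b 0` and maps `a 0` to `x a 0` -/
theorem NofA.step (h : Good c N U ρ F) (hs : IsSurf a b c) (i0 : Fin g) (hi0 : (i0 : ℕ) = 0)
    (hb : ∀ x, b i0 * x * (b i0)⁻¹ * x⁻¹ ∈ N) (hfix : ∀ v ∈ U, ρ (b i0) v = v → v = 0)
    (h0 : F (b i0) = 0) (ψ : π ≃* π) (hψ : Punc c ψ) (hψb : ψ (b i0) = b i0) (x : π)
    (hx : ψ (a i0) = x * a i0) : x ∈ NofA.S h := by
  have h1 := nofix_aut h hs i0 hi0 hb hfix h0 ψ hψ hψb
  have h2 := nofix h hs i0 hi0 hb hfix h0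
  rw [hx, h.coc, h2, map_zero, add_zero] at h1
  exact h1

theorem NofA.foot (h : Good c N U ρ F) (hs : IsSurf a b c) (i0 : Fin g) (hi0 : (i0 : ℕ) = 0)
    (hb : ∀ x, b i0 * x * (b i0)⁻¹ * x⁻¹ ∈ N) (hfix : ∀ v ∈ U, ρ (b i0) v = v → v = 0)
    (h0 : F (b i0) = 0) (n : ℕ) : ∀ m : Fin g, (m : ℕ) = n →
      a m ∈ NofA.S h ∧ b m ∈ NofA.S h := by
  induction n using Nat.strong_induction_on with
  | _ n ih =>
    intro m hm
    rcases Nat.eq_zero_or_pos n with hn | hn
    · have he : m = i0 := Fin.ext (by omega)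
      subst he
      exact ⟨nofix h hs m hi0 hb hfix h0, h0⟩
    · have him : i0 < m := by
        rw [Fin.lt_def]
        omega
      have hne : i0 ≠ m := ne_of_lt him
      obtain ⟨W, hW⟩ : ∃ W, W = (HP a b ((i0 : ℕ) + 1))⁻¹ * HP a b m := ⟨_, rfl⟩
      have hWS : W ∈ NofA.S h := by
        rw [hW]
        exact NofA.hp h _ _ (by omega) fun i _ hi => ih i (by omega) i rfl
      obtain ⟨x, hx⟩ : ∃ x, x = W * a m * W⁻¹ := ⟨_, rfl⟩
      obtain ⟨φ, hφa, hφb, -, -, -, hφc⟩ := exists_foot hs i0 m him W x _ hW hx rfl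
      have hP : Punc c (φ.trans (MulAut.conj x)) :=
        Punc.trans (Punc.of_fix hφc) (Punc.conj x)
      have hψb : (φ.trans (MulAut.conj x)) (b i0) = b i0 := by
        rw [MulEquiv.trans_apply, hφb, MulAut.conj_apply]
        group
      have hψa : (φ.trans (MulAut.conj x)) (a i0) = x * a i0 := by
        rw [MulEquiv.trans_apply, hφa, MulAut.conj_apply]
        group
      have hxS : x ∈ NofA.S h := NofA.step h hs i0 hi0 hb hfix h0 _ hP hψb x hψa
      have ham : a m ∈ NofA.S h := by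
        refine NofA.cj h hWS ?_
        rw [← hx]
        exact hxS
      refine ⟨ham, ?_⟩
      obtain ⟨s, hsa, hsb, hso, hsc⟩ := exists_swap hs m
      have hsW : s W = W := PE.map_W a b i0 m him W hW s.toMonoidHom
        fun l _ hl => hso l hl
      have hP' : Punc c ((φ.trans (MulAut.conj x)).trans s) := Punc.trans hP (Punc.of_fix hsc)
      have hψb' : ((φ.trans (MulAut.conj x)).trans s) (b i0) = b i0 := by
        rw [MulEquiv.trans_apply, hψb]
        exact (hso i0 hne).2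
      have hψa' : ((φ.trans (MulAut.conj x)).trans s) (a i0) = s x * a i0 := by
        rw [MulEquiv.trans_apply, hψa, map_mul, (hso i0 hne).1]
      have hsx : s x ∈ NofA.S h := NofA.step h hs i0 hi0 hb hfix h0 _ hP' hψb' _ hψa'
      rw [hx, map_mul, map_mul, map_inv, hsW, hsa] at hsx
      exact NofA.cj h ham (NofA.cj h hWS hsx)

theorem NofA.footc (h : Good c N U ρ F) (hs : IsSurf a b c) (i0 : Fin g) (hi0 : (i0 : ℕ) = 0)
    (hb : ∀ x, b i0 * x * (b i0)⁻¹ * x⁻¹ ∈ N) (hfix : ∀ v ∈ U, ρ (b i0) v = v → v = 0)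
    (h0 : F (b i0) = 0) (n : ℕ) : ∀ m : Fin p, (m : ℕ) = n → c m ∈ NofA.S h := by
  induction n using Nat.strong_induction_on with
  | _ n ih =>
    intro m hm
    obtain ⟨W, hW⟩ : ∃ W, W = (HP a b ((i0 : ℕ) + 1))⁻¹ * HP a b g * CP c m := ⟨_, rfl⟩
    have hWS : W ∈ NofA.S h := by
      rw [hW]
      refine Subgroup.mul_mem _ (NofA.hp h _ _ (by have := i0.isLt; omega) fun i _ _ =>
        NofA.foot h hs i0 hi0 hb hfix h0 i i rfl) ?_
      exact PA1.LP_mem c _ m fun i hi => ih i (by omega) i rfl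
    obtain ⟨x, hx⟩ : ∃ x, x = W * c m * W⁻¹ := ⟨_, rfl⟩
    obtain ⟨φ, hφa, hφb, -, hφm, hφc⟩ := exists_footc hs i0 m W x _ hW hx rfl
    have hP0 : Punc c φ := by
      intro j
      by_cases hj : j = m
      · subst hj
        exact ⟨_, hφm⟩
      · exact ⟨1, by rw [hφc j hj]; simp⟩
    have hP : Punc c (φ.trans (MulAut.conj x)) := Punc.trans hP0 (Punc.conj x)
    have hψb : (φ.trans (MulAut.conj x)) (b i0) = b i0 := by
      rw [MulEquiv.trans_apply, hφb, MulAut.conj_apply]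
      group
    have hψa : (φ.trans (MulAut.conj x)) (a i0) = x * a i0 := by
      rw [MulEquiv.trans_apply, hφa, MulAut.conj_apply]
      group
    have hxS : x ∈ NofA.S h := NofA.step h hs i0 hi0 hb hfix h0 _ hP hψb x hψa
    refine NofA.cj h hWS ?_
    rw [← hx]
    exact hxS

theorem nofix_all (h : Good c N U ρ F) (hs : IsSurf a b c) (i0 : Fin g) (hi0 : (i0 : ℕ) = 0)
    (hb : ∀ x, b i0 * x * (b i0)⁻¹ * x⁻¹ ∈ N) (hfix : ∀ v ∈ U, ρ (b i0) v = v → v = 0)
    (h0 : F (b i0) = 0) (x : π) : F x = 0 := by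
  have hx : x ∈ Subgroup.closure (Set.range a ∪ Set.range b ∪ Set.range c) := by
    rw [PF.closure_eq_top hs]
    trivial
  have hle : Subgroup.closure (Set.range a ∪ Set.range b ∪ Set.range c) ≤ NofA.S h := by
    rw [Subgroup.closure_le]
    rintro y ((⟨i, rfl⟩ | ⟨i, rfl⟩) | ⟨j, rfl⟩)
    · exact (NofA.foot h hs i0 hi0 hb hfix h0 i i rfl).1
    · exact (NofA.foot h hs i0 hi0 hb hfix h0 i i rfl).2
    · exact NofA.footc h hs i0 hi0 hb hfix h0 j j rfl
  exact (NofA.mem h x).1 (hle hx)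

end

end Pool.Agent.MP_d14a53_gt_FT
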