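import Mathlib
import Pool.Agent.Lib.MP_d14a53_gt_FT.Defs
import Pool.Agent.Lib.MP_d14a53_gt_FT.FI
import Pool.Agent.Lib.MP_d14a53_gt_PW.Handle

/-!
# MP_d14a53_gt FT module ThmI

Principal on the cut surface implies principal.

If `g = 1`, `p = 0`: `[a_0, b_0] = 1` by `surf_rel`, `Good.handle` gives `v` with
`F a_0 = ρ a_0 v - v`, `F b_0 = ρ b_0 v - v`, and these generate (`surf_closure`,
`Good.prin_closure`). Otherwise `g = m + 1` with `m + p > 0`: subtract the principal cocycle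
(`GoodF.subPrin`), it vanishes on `Cut`, hence on `N` (`zero_N`), and is principal by `Coc.prin`
with `H = ⊤`.
-/

set_option autoImplicit false

noncomputable section

namespace Pool.Agent.MP_d14a53_gt_FT

open Pool.Agent.MP_d14a53_gt_PW

open scoped RealInnerProductSpace

section
variable {π : Type} [Group π] {g p : ℕ} {a b : Fin g → π}
  {c : Fin p → π} {V : Type} [NormedAddCommGroup V] [InnerProductSpace ℝ V] {N : Subgroup π}
  {U : Submodule ℝ V} {ρ : π →* (V ≃ₗᵢ[ℝ] V)} {F : π → V}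

namespace ThmI

theorem caseA (h : GoodF c N U ρ F) (hs : IsSurf a b c) (i0 : Fin g) (hi0 : (i0 : ℕ) = 0)
    (hg : g = 1) (hp : p = 0) : ∃ v ∈ U, PrinOn ρ F ⊤ v := by
  subst hg
  subst hp
  have hrel := surf_rel hs
  have hc : a i0 * b i0 * (a i0)⁻¹ * (b i0)⁻¹ ∈ N := by
    rw [← Handle.HP_one (a := a) (b := b) i0 hi0]
    rw [CP_zero, mul_one] at hrel
    rw [hrel]
    exact N.one_mem
  obtain ⟨v, hv, h1, h2⟩ := Good.handle h.toGood hs i0 hi0 hc
  refine ⟨v, hv, ?_⟩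
  rw [← surf_closure hs]
  refine Good.prin_closure h.toGood _ v ?_
  rintro x (⟨i, -, hx⟩ | ⟨j, -⟩)
  · have hi : i = i0 := by
      apply Fin.ext
      have := i.isLt
      omega
    rw [hi] at hx
    rcases hx with hx | hx
    · rw [hx]; exact h1
    · rw [hx]; exact h2
  · exact absurd j.isLt (by omega)

theorem caseB {m : ℕ} {a b : Fin (m + 1) → π} (hmp : m + p ≠ 0) (h : GoodF c N U ρ F)
    (hs : IsSurf a b c) (v : V) (hv : v ∈ U) (hF : PrinOn ρ F (Cut a b c 0) v) :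
    ∃ v ∈ U, PrinOn ρ F ⊤ v := by
  have : NeZero (m + p) := ⟨hmp⟩
  have h1 := h.subPrin v hv
  have h2 : ∀ x ∈ Cut a b c 0, (fun x => F x - (ρ x v - v)) x = 0 := by
    intro x hx
    show F x - (ρ x v - v) = 0
    rw [hF x hx, sub_self]
  obtain ⟨v', hv', h3⟩ := h1.toCoc.prin ⊤ (fun x _ hx => zero_N h1 hs h2 x hx)
  refine ⟨v + v', U.add_mem hv hv', fun x hx => ?_⟩
  have h4 : F x - (ρ x v - v) = ρ x v' - v' := h3 x hx
  rw [map_add, ← sub_eq_zero]
  rw [← sub_eq_zero] at h4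
  rw [← h4]
  abel

end ThmI

theorem thmI (h : GoodF c N U ρ F) (hs : IsSurf a b c) (i0 : Fin g) (hi0 : (i0 : ℕ) = 0)
    (v : V) (hv : v ∈ U) (hF : PrinOn ρ F (Cut a b c i0) v) :
    ∃ v ∈ U, PrinOn ρ F ⊤ v := by
  obtain ⟨m, rfl⟩ : ∃ m, g = m + 1 := ⟨g - 1, by have := i0.isLt; omega⟩
  have h0 : i0 = 0 := Fin.ext hi0
  subst h0
  by_cases hmp : m + p = 0
  · exact ThmI.caseA h hs 0 hi0 (by omega) (by omega)
  · exact ThmI.caseB hmp h hs v hv hF

end

end Pool.Agent.MP_d14a53_gt_FT
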