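import Mathlib
import Pool.Agent.Lib.MP_d14a53_gt_FT.Defs
import Pool.Agent.Lib.MP_d14a53_gt_FT.ThmI
import Pool.Agent.Lib.MP_d14a53_gt_FT.Goo
import Pool.Agent.Lib.MP_d14a53_gt_PW.BN
import Pool.Agent.Lib.MP_d14a53_gt_PW.Prin
import Pool.Agent.Lib.MP_d14a53_gt_PW.Twist

/-!
# MP_d14a53_gt FT module ThmA

`b 0 ∈ N`.

By `Good.BN` (`GoodF.toGood`) `F` is principal on `Rest a b c 1` with a vector `v ∈ U`;
`F (b_0) = 0` (`Good.twist_b` with `m = 1`) `= ρ (b_0) v - v`, and `F (a_0 b_0 a_0⁻¹) = 0`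
(`Coc.conj`), and `a_0 b_0 a_0⁻¹ ∈ N` acts trivially; so `F` is principal on `Cut` (the set of `x`
with `F x = ρ x v - v` is a subgroup, `Good.prin_closure`; note
`Cut = closure ({…} ∪ Rest a b c 1)`). Use `thmI`.
-/

set_option autoImplicit false

noncomputable section

namespace Pool.Agent.MP_d14a53_gt_FT

open Pool.Agent.MP_d14a53_gt_PW

open scoped RealInnerProductSpace

section
variable {π : Type} [Group π] {g p : ℕ} {a b : Fin g → π}
  {c : Fin p → π} {V : Type} [NormedAddCommGroup V] [InnerProductSpace ℝ V] {N : Subgroup π}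
  {U : Submodule ℝ V} {ρ : π →* (V ≃ₗᵢ[ℝ] V)} {F : π → V}

theorem thmA (h : GoodF c N U ρ F) (hs : IsSurf a b c) (i0 : Fin g) (hi0 : (i0 : ℕ) = 0)
    (hb : b i0 ∈ N) : ∃ v ∈ U, PrinOn ρ F ⊤ v := by
  have hG := h.toGood
  have hNn : N.Normal := h.normal
  obtain ⟨v, hv, hRest⟩ := hG.BN hs i0 hi0 hb
  have hFb : F (b i0) = 0 := by
    have h1 := hG.twist_b hs i0 1 (by rwa [pow_one])
    rwa [pow_one] at h1
  have hab : a i0 * b i0 * (a i0)⁻¹ ∈ N := hNn.conj_mem _ hb _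
  have hFab : F (a i0 * b i0 * (a i0)⁻¹) = 0 := by
    rw [h.toCoc.conj, hFb, map_zero, add_zero, h.triv _ hab _ (h.val _), sub_self]
  refine thmI h hs i0 hi0 v hv ?_
  unfold Cut
  refine hG.prin_closure _ v ?_
  rintro x (hx | hx)
  · rcases hx with rfl | hx
    · rw [hFb, h.triv _ hb _ hv, sub_self]
    · rw [Set.mem_singleton_iff.1 hx, hFab, h.triv _ hab _ hv, sub_self]
  · exact hRest x hx

end

end Pool.Agent.MP_d14a53_gt_FT
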