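import Mathlib
import Pool.Agent.Lib.MP_d14a53_gt_FT.Defs
import Pool.Agent.Lib.MP_d14a53_gt_FT.Goo
import Pool.Agent.Lib.MP_d14a53_gt_FT.Reps
import Pool.Agent.Lib.MP_d14a53_gt_PW.Punc

/-!
# MP_d14a53_gt FT module Up

From `N` to a larger subgroup `D` acting trivially on the image of the projection.

Let `F' x = E (F x)`. Fields `coc`, `val` as in `Good.proj`.
`per`: let `x = c j ^ m ∈ D`, `r > 0` with `x ^ r ∈ N` (finite index, normal). Then
`F' (x^r) = r • F' x` (`x` acts trivially on `U'`) and `F (x^r) = 0` by `h.per`, so `F' x = 0`.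
`orb`: let `A` be the set of all `φ` in the definition for `D`, `R` finite from `reps hs N`. For
`φ ∈ A` take `ψ ∈ R`, `χ = ψ.symm.trans φ`, so `φ x = χ (ψ x)`, `χ` is trivial mod `N` and
`Punc c χ` (`Punc.symm`, `Punc.trans`); let `G_χ` be the restriction of `F ∘ χ` to `N`, one of
finitely many functions. For `d ∈ D` there is `r > 0` with `(ψ d)^r ∈ N`; the restriction of
`F' ∘ φ` to `D` is a homomorphism (`φ d ∈ D` acts trivially on `U'`), so
`r • F' (φ d) = F' (φ (d^r)) = E (F (χ ((ψ d)^r))) = E (G_χ ((ψ d)^r))`. Take `r` to be the index of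
`N` times…, e.g. `r = N.index !`-like number not depending on `d` (`Subgroup.pow_index_mem` for
normal subgroups: `x ^ N.index ∈ N`). So `F' ∘ φ` on `D` is determined by `ψ` and `G_χ`.
-/

set_option autoImplicit false

noncomputable section

namespace Pool.Agent.MP_d14a53_gt_FT

open Pool.Agent.MP_d14a53_gt_PW

open scoped RealInnerProductSpace

section
variable {π : Type*} [Group π] {g p : ℕ} {V : Type*} [NormedAddCommGroup V]
  [InnerProductSpace ℝ V] {a b : Fin g → π} {c : Fin p → π} {N : Subgroup π} {U : Submodule ℝ V}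
  {ρ : π →* (V ≃ₗᵢ[ℝ] V)} {F : π → V}

theorem GoodF.up (h : GoodF c N U ρ F) (hs : IsSurf a b c) (D : Subgroup π) (hD : D.Normal)
    (hND : N ≤ D) (E : V →ₗ[ℝ] V) (U' : Submodule ℝ V) (hU' : U' ≤ U)
    (hst : ∀ x, ∀ v ∈ U', ρ x v ∈ U') (hE : ∀ x, ∀ v ∈ U, E (ρ x v) = ρ x (E v))
    (hEU : ∀ v ∈ U, E v ∈ U') (hDU : ∀ d ∈ D, ∀ v ∈ U', ρ d v = v) :
    GoodF c D U' ρ (fun x => E (F x)) := by
  have hN := h.normal
  have hf := h.fin
  have hi0 : N.index ≠ 0 := hf.index_ne_zero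
  have hi : (N.index : ℝ) ≠ 0 := Nat.cast_ne_zero.2 hi0
  have hcoc : ∀ x y, E (F (x * y)) = E (F x) + ρ x (E (F y)) := by
    intro x y
    rw [h.coc, map_add, hE x _ (h.val y)]
  have hpow : ∀ x ∈ D, ∀ r : ℕ, E (F (x ^ r)) = (r : ℝ) • E (F x) := by
    intro x hx r
    induction r with
    | zero =>
      have h1 := hcoc 1 1
      rw [mul_one, map_one, LinearIsometryEquiv.coe_one, id_eq] at h1
      have h2 : E (F 1) = 0 := by
        have h3 : E (F 1) + E (F 1) = E (F 1) + 0 := by rw [← h1, add_zero]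
        exact add_left_cancel h3
      rw [pow_zero, h2, Nat.cast_zero, zero_smul]
    | succ r ih =>
      rw [pow_succ, hcoc, ih, hDU _ (D.pow_mem hx r) _ (hEU _ (h.val x))]
      push_cast
      rw [add_smul, one_smul]
  refine
    { normal := hD
      fin := Subgroup.finiteIndex_of_le hND
      triv := hDU
      stab := hst
      val := fun x => hEU _ (h.val x)
      coc := hcoc
      per := ?_
      orb := ?_ }
  · intro j m hm
    have h1 := hpow _ hm N.index
    have h2 : c j ^ (m * N.index) ∈ N := by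
      rw [pow_mul]
      exact N.pow_index_mem _
    have h3 := h.per j (m * N.index) h2
    rw [pow_mul] at h3
    rw [h3, map_zero] at h1
    exact (smul_eq_zero.1 h1.symm).resolve_left hi
  · obtain ⟨R, hRf, hRA, hR⟩ := reps hs N hN hf
      {φ : π ≃* π | Punc c φ ∧ ∀ x, x⁻¹ * φ x ∈ D}
    refine ((hRf.prod h.orb).image (fun z : (π ≃* π) × (N → V) => fun d : D =>
      (N.index : ℝ)⁻¹ • E (z.2 ⟨(z.1 (d : π)) ^ N.index, N.pow_index_mem _⟩))).subset ?_
    rintro G ⟨φ, hφ, hφD, hG⟩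
    obtain ⟨ψ, hψR, hψ⟩ := hR φ ⟨hφ, hφD⟩
    refine ⟨(ψ, fun n : N => F ((ψ.symm.trans φ) (n : π))), ⟨hψR, ?_⟩, ?_⟩
    · exact ⟨ψ.symm.trans φ, (hRA hψR).1.symm.trans hφ, hψ, fun n => rfl⟩
    · funext d
      have hd : φ (d : π) ∈ D := by
        have h1 := D.mul_mem d.2 (hφD (d : π))
        rwa [mul_inv_cancel_left] at h1
      have h2 : (ψ.symm.trans φ) ((ψ (d : π)) ^ N.index) = (φ (d : π)) ^ N.index := by
        rw [map_pow, MulEquiv.trans_apply, MulEquiv.symm_apply_apply]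
      show (N.index : ℝ)⁻¹ • E (F ((ψ.symm.trans φ) ((ψ (d : π)) ^ N.index))) = G d
      rw [h2, hpow _ hd, smul_smul, inv_mul_cancel₀ hi, one_smul, hG]

end

end Pool.Agent.MP_d14a53_gt_FT
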