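import Mathlib
import Pool.Agent.Lib.MP_d14a53_gt_FT.Defs
import Pool.Agent.Lib.MP_d14a53_gt_FT.ThmA
import Pool.Agent.Lib.MP_d14a53_gt_FT.Up
import Pool.Agent.Lib.MP_d14a53_gt_FT.NofA
import Pool.Agent.Lib.MP_d14a53_gt_PW.Prin
import Pool.Agent.Lib.MP_d14a53_gt_PW.Twist

/-!
# MP_d14a53_gt FT module ThmB

`b 0` central modulo `N`.

`D = N ⊔ zpowers (b 0)` is normal, and every `d ∈ D` is `n (b 0)^j`. `E` from `Good.exists_proj`,
`U' = {v ∈ U | D fixes v}` (stable because `D` is normal). `GoodF.up` and `thmA` for `E ∘ F`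
(`b 0 ∈ D`): `E (F x) = ρ x v - v`, `v ∈ U'`. Let `E2 = id - E`, `U2 = {v ∈ U | E v = 0}`;
`F2 = E2 ∘ F` is `Good` for `U2` (`Good.proj` for `GoodF.toGood`; `E (E v) = E v`). A vector of
`U2` fixed by `b 0` is fixed by `D`, so it is `E v = 0`. By `Good.prin`
for `zpowers (b 0)` (`Good.twist_b`: `F2` of powers of `b_0` in `N` vanishes; also negative powers)
`F2` is principal there; subtract (`Good.subPrin`) to get `F2 (b_0) = 0`; `nofix_all` gives
`F2 = 0`. Together `F = E F + F2` is principal.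
-/

set_option autoImplicit false

noncomputable section

namespace Pool.Agent.MP_d14a53_gt_FT

open Pool.Agent.MP_d14a53_gt_PW

open scoped RealInnerProductSpace

namespace ThmB

/-- the subgroup generated by `N` and `β` -/
def D {π : Type} [Group π] (N : Subgroup π) [N.Normal] (β : π) : Subgroup π :=
  (Subgroup.zpowers (QuotientGroup.mk' N β)).comap (QuotientGroup.mk' N)

variable {π : Type} [Group π] {N : Subgroup π}

theorem D_mem [N.Normal] {β d : π} (hd : d ∈ D N β) : ∃ n ∈ N, ∃ j : ℤ, d = n * β ^ j := by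
  obtain ⟨j, hj⟩ := hd
  refine ⟨d * (β ^ j)⁻¹, ?_, j, by group⟩
  have h1 : QuotientGroup.mk' N (β ^ j) = QuotientGroup.mk' N d := by
    rw [map_zpow]
    exact hj
  rw [← QuotientGroup.eq_one_iff (N := N)]
  change QuotientGroup.mk' N (d * (β ^ j)⁻¹) = 1
  rw [map_mul, map_inv, h1, mul_inv_cancel]

theorem le_D [N.Normal] (β : π) : N ≤ D N β := by
  intro n hn
  refine ⟨0, ?_⟩
  change QuotientGroup.mk' N β ^ (0 : ℤ) = QuotientGroup.mk' N n
  rw [zpow_zero]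
  exact ((QuotientGroup.eq_one_iff n).2 hn).symm

theorem self_D [N.Normal] (β : π) : β ∈ D N β := Subgroup.mem_zpowers _

theorem D_normal [N.Normal] {β : π} (hb : ∀ x, β * x * β⁻¹ * x⁻¹ ∈ N) : (D N β).Normal := by
  have hc : ∀ y : π ⧸ N, QuotientGroup.mk' N β * y = y * QuotientGroup.mk' N β := by
    intro y
    obtain ⟨x, rfl⟩ := QuotientGroup.mk'_surjective N y
    have h1 : QuotientGroup.mk' N (β * x * β⁻¹ * x⁻¹) = 1 := (QuotientGroup.eq_one_iff _).2 (hb x)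
    have h2 : β * x = (β * x * β⁻¹ * x⁻¹) * (x * β) := by group
    rw [← map_mul, ← map_mul, h2, map_mul, h1, one_mul]
  have hn : (Subgroup.zpowers (QuotientGroup.mk' N β)).Normal := by
    refine ⟨?_⟩
    rintro _ ⟨j, rfl⟩ y
    refine ⟨j, ?_⟩
    have h3 : Commute (QuotientGroup.mk' N β) y := hc y
    change QuotientGroup.mk' N β ^ j = y * QuotientGroup.mk' N β ^ j * y⁻¹
    rw [← (h3.zpow_left j).eq, mul_inv_cancel_right]
  exact hn.comap _

variable {V : Type} [NormedAddCommGroup V] [InnerProductSpace ℝ V]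

theorem fix_zpow (ρ : π →* (V ≃ₗᵢ[ℝ] V)) {x : π} {v : V} (hx : ρ x v = v) (j : ℤ) :
    ρ (x ^ j) v = v := by
  have h1 : ∀ n : ℕ, ρ (x ^ n) v = v := by
    intro n
    induction n with
    | zero => rw [pow_zero, PI.rho_one]
    | succ n ih => rw [pow_succ, PI.rho_mul, hx, ih]
  rcases Int.eq_nat_or_neg j with ⟨n, rfl | rfl⟩
  · rw [zpow_natCast]
    exact h1 n
  · rw [zpow_neg, zpow_natCast]
    have h2 := PI.rho_inv_self ρ (x ^ n) v
    rwa [h1 n] at h2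

/-- the vectors of `U` fixed by `D` -/
def Ufix (U : Submodule ℝ V) (ρ : π →* (V ≃ₗᵢ[ℝ] V)) (D : Subgroup π) : Submodule ℝ V where
  carrier := {v | v ∈ U ∧ ∀ d ∈ D, ρ d v = v}
  add_mem' := by
    rintro u v ⟨h1, h2⟩ ⟨h3, h4⟩
    exact ⟨U.add_mem h1 h3, fun d hd => by rw [map_add, h2 d hd, h4 d hd]⟩
  zero_mem' := ⟨U.zero_mem, fun d _ => map_zero _⟩
  smul_mem' := by
    rintro r v ⟨h1, h2⟩
    exact ⟨U.smul_mem r h1, fun d hd => by rw [map_smul, h2 d hd]⟩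

end ThmB

section
variable {π : Type} [Group π] {g p : ℕ} {a b : Fin g → π}
  {c : Fin p → π} {V : Type} [NormedAddCommGroup V] [InnerProductSpace ℝ V] {N : Subgroup π}
  {U : Submodule ℝ V} {ρ : π →* (V ≃ₗᵢ[ℝ] V)} {F : π → V}

theorem thmB (h : GoodF c N U ρ F) (hs : IsSurf a b c) (i0 : Fin g) (hi0 : (i0 : ℕ) = 0)
    (hb : ∀ x, b i0 * x * (b i0)⁻¹ * x⁻¹ ∈ N) : ∃ v ∈ U, PrinOn ρ F ⊤ v := by
  have hNn : N.Normal := h.normal
  have hDn : (ThmB.D N (b i0)).Normal := ThmB.D_normal hb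
  have hG := h.toGood
  obtain ⟨E, hE1, hE2, hE3⟩ := hG.exists_proj (ThmB.D N (b i0)) hDn
  -- the fixed part
  have hU' : ThmB.Ufix U ρ (ThmB.D N (b i0)) ≤ U := fun v hv => hv.1
  have hst : ∀ x, ∀ v ∈ ThmB.Ufix U ρ (ThmB.D N (b i0)),
      ρ x v ∈ ThmB.Ufix U ρ (ThmB.D N (b i0)) := by
    intro x v hv
    refine ⟨h.stab x v hv.1, fun d hd => ?_⟩
    have h1 : x⁻¹ * d * x ∈ ThmB.D N (b i0) := by
      have := hDn.conj_mem d hd x⁻¹
      rwa [inv_inv] at this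
    have h2 := hv.2 _ h1
    calc ρ d (ρ x v) = ρ x (ρ (x⁻¹ * d * x) v) := by
          rw [← PI.rho_mul, ← PI.rho_mul]
          congr 2
          group
      _ = ρ x v := by rw [h2]
  have hEU : ∀ v ∈ U, E v ∈ ThmB.Ufix U ρ (ThmB.D N (b i0)) := fun v hv => hE1 v hv
  have hup := h.up hs (ThmB.D N (b i0)) hDn (ThmB.le_D _) E _ hU' hst hE3 hEU
    (fun d hd v hv => hv.2 d hd)
  obtain ⟨v1, hv1, hP1⟩ := thmA hup hs i0 hi0 (ThmB.self_D _)
  -- the complement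
  obtain ⟨E', hE'⟩ : ∃ E' : V →ₗ[ℝ] V, E' = LinearMap.id - E := ⟨_, rfl⟩
  have hE'a : ∀ v, E' v = v - E v := by
    intro v
    rw [hE']
    rfl
  obtain ⟨U2, hU2⟩ : ∃ U2 : Submodule ℝ V, U2 = U ⊓ LinearMap.ker E := ⟨_, rfl⟩
  have hU2m : ∀ v, v ∈ U2 ↔ v ∈ U ∧ E v = 0 := by
    intro v
    rw [hU2, Submodule.mem_inf, LinearMap.mem_ker]
  have hG2 : Good c N U2 ρ (fun x => E' (F x)) := by
    refine hG.proj E' U2 (fun v hv => ((hU2m v).1 hv).1) ?_ ?_ ?_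
    · intro x v hv
      obtain ⟨h1, h2⟩ := (hU2m v).1 hv
      exact (hU2m _).2 ⟨h.stab x v h1, by rw [hE3 x v h1, h2, map_zero]⟩
    · intro x v hv
      rw [hE'a, hE'a, hE3 x v hv, map_sub]
    · intro v hv
      refine (hU2m _).2 ⟨?_, ?_⟩
      · rw [hE'a]
        exact U.sub_mem hv (hE1 v hv).1
      · rw [hE'a, map_sub, hE2 (E v) (hE1 v hv).1 (hE1 v hv).2, sub_self]
  have hfix : ∀ v ∈ U2, ρ (b i0) v = v → v = 0 := by
    intro v hv hbv
    obtain ⟨h1, h2⟩ := (hU2m v).1 hv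
    have h3 : E v = v := by
      refine hE2 v h1 fun d hd => ?_
      obtain ⟨n, hn, j, rfl⟩ := ThmB.D_mem hd
      rw [PI.rho_mul, ThmB.fix_zpow ρ hbv j, h.triv n hn v h1]
    rw [← h3, h2]
  have h0 : ∀ x ∈ Subgroup.zpowers (b i0), x ∈ N → E' (F x) = 0 := by
    rintro _ ⟨j, rfl⟩ hN
    change b i0 ^ j ∈ N at hN
    change E' (F (b i0 ^ j)) = 0
    rcases Int.eq_nat_or_neg j with ⟨n, rfl | rfl⟩
    · rw [zpow_natCast] at hN ⊢
      exact hG2.twist_b hs i0 n hN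
    · rw [zpow_neg, zpow_natCast] at hN ⊢
      have h1 := hG2.twist_b hs i0 n (by simpa using N.inv_mem hN)
      have h2 := hG2.inv (b i0 ^ n)
      rw [h2, h1, map_zero, neg_zero]
  obtain ⟨v2, hv2, hP2⟩ := hG2.prin (Subgroup.zpowers (b i0)) h0
  have hG3 := hG2.subPrin v2 hv2
  have h3 : ∀ x, E' (F x) - (ρ x v2 - v2) = 0 := by
    intro x
    refine nofix_all hG3 hs i0 hi0 hb hfix ?_ x
    rw [sub_eq_zero]
    exact hP2 (b i0) (Subgroup.mem_zpowers _)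
  refine ⟨v1 + v2, U.add_mem hv1.1 ((hU2m v2).1 hv2).1, fun x hx => ?_⟩
  have h4 := hP1 x hx
  have h5 := h3 x
  rw [sub_eq_zero, hE'a] at h5
  dsimp only at h4
  rw [map_add, eq_add_of_sub_eq h5, h4]
  abel

end

end Pool.Agent.MP_d14a53_gt_FT
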