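import Mathlib
import Pool.Agent.Lib.MP_d14a53_gt_FT.Defs
import Pool.Agent.Lib.MP_d14a53_gt_FT.ThmB
import Pool.Agent.Lib.MP_d14a53_gt_FT.ThmI
import Pool.Agent.Lib.MP_d14a53_gt_FT.Cres
import Pool.Agent.Lib.MP_d14a53_gt_FT.Pwf

/-!
# MP_d14a53_gt FT module Main

The theorem: induction on the index.

`step`: `k = 0` is `thmB` (`CutK a b c 0 = ⊤` as it contains all generators). `k + 1`: then
`g = g' + 1`; take the cut surface (`exists_cut`). With `N' = N.comap ι` the restriction is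
`GoodF` (`IsCut.res`), and the hypothesis holds for the index `k` in the cut surface, because `ι`
maps the generators of `CutK a' b' c' k` into `CutK a b c (k+1)` and `b'_k` to `b_{k+1}`. So
`F ∘ ι` is principal, i.e. `F` is principal on `Cut` (`IsCut.range`); use `thmI`.
`main`: `pw_of_prinF`, `N = K.normalCore`.
-/

set_option autoImplicit false

noncomputable section

namespace Pool.Agent.MP_d14a53_gt_FT

open Pool.Agent.MP_d14a53_gt_PW

open scoped RealInnerProductSpace

section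
variable {V : Type} [NormedAddCommGroup V] [InnerProductSpace ℝ V] {U : Submodule ℝ V}

theorem cutK_zero {π : Type} [Group π] {g p : ℕ} {a b : Fin g → π} {c : Fin p → π}
    (hs : IsSurf a b c) : CutK a b c 0 = ⊤ := by
  rw [eq_top_iff, ← surf_closure hs]
  unfold Rest CutK
  apply Subgroup.closure_mono
  rintro x (⟨i, _, hx⟩ | hx)
  · exact Or.inl (Or.inr ⟨i, Nat.zero_le _, hx⟩)
  · exact Or.inr hx

theorem cutK_map {π π' : Type} [Group π] [Group π'] {g p : ℕ} {a b : Fin (g + 1) → π}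
    {c : Fin p → π} {a' b' : Fin g → π'} {c' : Fin (p + 2) → π'} {ι : π' →* π}
    (h : IsCut a b c a' b' c' ι) (k : ℕ) (s : π') (hs : s ∈ CutK a' b' c' k) :
    ι s ∈ CutK a b c (k + 1) := by
  have h1 : CutK a' b' c' k ≤ (CutK a b c (k + 1)).comap ι := by
    unfold CutK
    rw [Subgroup.closure_le]
    rintro x ((⟨i, hi, rfl | rfl⟩ | ⟨i, hi, rfl | rfl⟩) | ⟨j, rfl⟩)
    · refine Subgroup.subset_closure (Or.inl (Or.inl ⟨i.succ, ?_, Or.inl (h.hb i)⟩))
      rw [Fin.val_succ]; omega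
    · refine Subgroup.subset_closure (Or.inl (Or.inl ⟨i.succ, ?_, Or.inr ?_⟩))
      · rw [Fin.val_succ]; omega
      · rw [map_mul, map_mul, map_inv, h.ha, h.hb]
    · refine Subgroup.subset_closure (Or.inl (Or.inr ⟨i.succ, ?_, Or.inl (h.ha i)⟩))
      rw [Fin.val_succ]; omega
    · refine Subgroup.subset_closure (Or.inl (Or.inr ⟨i.succ, ?_, Or.inr (h.hb i)⟩))
      rw [Fin.val_succ]; omega
    · refine Fin.addCases (fun j => ?_) (fun j => ?_) j
      · refine Subgroup.subset_closure (Or.inr ⟨j, (h.hc j).symm⟩)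
      · have h0 : b 0 ∈ CutK a b c (k + 1) :=
          Subgroup.subset_closure (Or.inl (Or.inl ⟨0, Nat.succ_pos k, Or.inl rfl⟩))
        have h2 : a 0 * b 0 * (a 0)⁻¹ ∈ CutK a b c (k + 1) :=
          Subgroup.subset_closure (Or.inl (Or.inl ⟨0, Nat.succ_pos k, Or.inr rfl⟩))
        fin_cases j
        · have h3 := h.hd
          show ι _ ∈ CutK a b c (k + 1)
          simpa using h3 ▸ h2
        · have h3 := h.he
          show ι _ ∈ CutK a b c (k + 1)
          have h4 := (CutK a b c (k + 1)).inv_mem h0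
          rw [← h3] at h4
          exact h4
  exact h1 hs

theorem step (k : ℕ) : ∀ {π : Type} [Group π] {g p : ℕ} {a b : Fin g → π} {c : Fin p → π}
    {N : Subgroup π} {ρ : π →* (V ≃ₗᵢ[ℝ] V)} {F : π → V} (_ : GoodF c N U ρ F)
    (_ : IsSurf a b c) (i : Fin g) (_ : (i : ℕ) = k)
    (_ : ∀ s ∈ CutK a b c k, b i * s * (b i)⁻¹ * s⁻¹ ∈ N), ∃ v ∈ U, PrinOn ρ F ⊤ v := by
  induction k with
  | zero =>
    intro π _ g p a b c N ρ F h hs i hi hk
    refine thmB h hs i hi (fun x => hk x ?_)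
    rw [cutK_zero hs]
    exact Subgroup.mem_top x
  | succ k ih =>
    intro π _ g p a b c N ρ F h hs i hi hk
    obtain ⟨g', rfl⟩ : ∃ g', g = g' + 1 := ⟨g - 1, by have := i.2; omega⟩
    obtain ⟨π', _, a', b', c', ι, hc⟩ := exists_cut hs
    have hi' : k < g' := by have := i.2; omega
    have e : i = (⟨k, hi'⟩ : Fin g').succ := Fin.ext (by simp [hi])
    obtain ⟨v, hv, hF⟩ := ih (hc.res h) hc.surf' ⟨k, hi'⟩ rfl (fun s hs' => by
      rw [Subgroup.mem_comap, map_mul, map_mul, map_mul, map_inv, map_inv, hc.hb, ← e]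
      exact hk _ (cutK_map hc k s hs'))
    refine thmI h hs 0 rfl v hv (fun x hx => ?_)
    obtain ⟨y, rfl⟩ := hc.range x hx
    exact hF y (Subgroup.mem_top y)

theorem main {π : Type} [Group π] {g p : ℕ} {a b : Fin g → π} {c : Fin p → π}
    (hs : IsSurf a b c) (K : Subgroup π) (hK : K.FiniteIndex) (k : Fin g)
    (hk : ∀ s ∈ CutK a b c k, b k * s * (b k)⁻¹ * s⁻¹ ∈ K.normalCore) : PW c K := by
  have : Finite (π ⧸ K) := Subgroup.finite_quotient_of_finiteIndex
  have : Fintype (π ⧸ K) := Fintype.ofFinite _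
  refine pw_of_prinF c K (fun ρ F _ h => ?_)
  obtain ⟨v, _, hv⟩ := step (k : ℕ) h hs k rfl hk
  exact ⟨v, hv⟩

end

end Pool.Agent.MP_d14a53_gt_FT
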