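import Mathlib
import Pool.Agent.Lib.MP_d14a53_gt_FT.Defs2
import Pool.Agent.Lib.MP_d14a53_gt_FT.Main
import Pool.Agent.Lib.MP_d14a53_gt_FT.Up

/-!
# MP_d14a53_gt FT module Rep

The theorem for every isotypic part separately: projections to the vectors fixed by normal
subgroups.
-/

set_option autoImplicit false

noncomputable section

namespace Pool.Agent.MP_d14a53_gt_FT

open Pool.Agent.MP_d14a53_gt_PW

open scoped RealInnerProductSpace

section
variable {π : Type} [Group π] {g p : ℕ} {c : Fin p → π} {V : Type} [NormedAddCommGroup V]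
  [InnerProductSpace ℝ V] {N : Subgroup π} {U : Submodule ℝ V}
  {ρ : π →* (V ≃ₗᵢ[ℝ] V)} {F : π → V}

/-- replacing the peripheral elements by conjugates -/
theorem GoodF.congr {c' : Fin p → π} (h : GoodF c N U ρ F)
    (hc : ∀ j, ∃ x, c' j = x * c j * x⁻¹) : GoodF c' N U ρ F where
  toCoc := h.toCoc
  per j m hm := by
    obtain ⟨x, hx⟩ := hc j
    have h1 : c' j ^ m = x * c j ^ m * x⁻¹ := by rw [hx, conj_pow]
    have h2 : c j ^ m ∈ N := by
      have h3 := h.normal.conj_mem _ hm x⁻¹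
      rw [h1] at h3
      have h4 : x⁻¹ * (x * c j ^ m * x⁻¹) * x⁻¹⁻¹ = c j ^ m := by group
      rwa [h4] at h3
    rw [h1, h.toCoc.conj, h.per j m h2, map_zero, add_zero, ← h1, h.triv _ hm _ (h.val x),
      sub_self]
  orb := by
    refine h.orb.subset ?_
    rintro G ⟨φ, h1, h2, h3⟩
    refine ⟨φ, fun j => ?_, h2, h3⟩
    obtain ⟨x, hx⟩ := hc j
    obtain ⟨y, hy⟩ := h1 j
    refine ⟨(φ x)⁻¹ * y * x, ?_⟩
    rw [hx, map_mul, map_mul, map_inv] at hy
    have h5 : φ (c j) = (φ x)⁻¹ * (φ x * φ (c j) * (φ x)⁻¹) * φ x := by group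
    rw [h5, hy]
    group

/-- the vectors fixed by a subgroup -/
def fixS (ρ : π →* (V ≃ₗᵢ[ℝ] V)) (D : Subgroup π) : Submodule ℝ V where
  carrier := {v | ∀ d ∈ D, ρ d v = v}
  add_mem' := by
    intro u v hu hv d hd
    rw [map_add, hu d hd, hv d hd]
  zero_mem' := fun d _ => map_zero _
  smul_mem' := by
    intro r v hv d hd
    rw [map_smul, hv d hd]

theorem fixS_stab (ρ : π →* (V ≃ₗᵢ[ℝ] V)) (D : Subgroup π) (hD : D.Normal) (x : π) (v : V)
    (hv : v ∈ fixS ρ D) : ρ x v ∈ fixS ρ D := by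
  intro d hd
  have h1 : d * x = x * (x⁻¹ * d * x) := by group
  have h2 : x⁻¹ * d * x ∈ D := by
    have := hD.conj_mem d hd x⁻¹
    rwa [inv_inv] at this
  rw [← PI.rho_mul, h1, PI.rho_mul, hv _ h2]

theorem proj_comm [FiniteDimensional ℝ V] (ρ : π →* (V ≃ₗᵢ[ℝ] V)) (D : Subgroup π)
    (hD : D.Normal) (x : π) (v : V) :
    (fixS ρ D).starProjection (ρ x v) = ρ x ((fixS ρ D).starProjection v) := by
  apply Submodule.eq_starProjection_of_mem_of_inner_eq_zero
  · exact fixS_stab ρ D hD x _ (Submodule.starProjection_apply_mem _ _)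
  · intro w hw
    rw [← map_sub]
    have h1 : w = ρ x (ρ x⁻¹ w) := (PI.rho_self_inv ρ x w).symm
    rw [h1, LinearIsometryEquiv.inner_map_map]
    exact Submodule.starProjection_inner_eq_zero _ _ (fixS_stab ρ D hD x⁻¹ w hw)

theorem rep [FiniteDimensional ℝ V] (h : GoodF c N ⊤ ρ F) (S : Set (Subgroup π))
    (hS : ∀ M ∈ S, M.Normal ∧ HasCurve g c M)
    (hspan : ∀ u : V, (∀ M ∈ S, ∀ w, (∀ m ∈ M, ρ m w = w) → ⟪u, w⟫ = 0) → u = 0) :
    ∃ v, PrinOn ρ F ⊤ v := by
  have key : ∀ x ∈ (⊤ : Subgroup π), x ∈ N → F x = 0 := by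
    intro n _ hn
    apply hspan
    intro M hM w hw
    obtain ⟨hMn, a, b, c', k, hs, hc, hk⟩ := hS M hM
    have hN := h.normal
    have hD : (M ⊔ N).Normal := inferInstance
    have hwD : ∀ d ∈ M ⊔ N, ρ d w = w := by
      intro d hd
      rw [Subgroup.sup_eq_closure_mul] at hd
      induction hd using Subgroup.closure_induction with
      | mem x hx =>
        obtain ⟨m, hm, n, hn, rfl⟩ := hx
        show ρ (m * n) w = w
        rw [PI.rho_mul, h.triv n hn w Submodule.mem_top, hw m hm]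
      | one => exact PI.rho_one ρ w
      | mul x y _ _ hx hy => rw [PI.rho_mul, hy, hx]
      | inv x _ hx =>
        conv_lhs => rw [← hx]
        exact PI.rho_inv_self ρ x w
    have hG : GoodF c' (M ⊔ N) (fixS ρ (M ⊔ N)) ρ
        (fun x => (((fixS ρ (M ⊔ N)).starProjection : V →L[ℝ] V) : V →ₗ[ℝ] V) (F x)) := by
      exact (h.congr hc).up hs (M ⊔ N) hD le_sup_right _ _ le_top
        (fun x v hv => fixS_stab ρ _ hD x v hv) (fun x v _ => proj_comm ρ _ hD x v)
        (fun v _ => Submodule.starProjection_apply_mem _ _) (fun d hd v hv => hv d hd)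
    obtain ⟨v, hv, hF⟩ := step (k : ℕ) hG hs k rfl
      (fun s hs' => (le_sup_left : M ≤ M ⊔ N) (hk s hs'))
    have h1 := hF n (Subgroup.mem_top n)
    rw [hv n ((le_sup_right : N ≤ M ⊔ N) hn), sub_self] at h1
    have h2 : (fixS ρ (M ⊔ N)).starProjection (F n) = 0 := h1
    have h3 := Submodule.starProjection_inner_eq_zero (K := fixS ρ (M ⊔ N)) (F n) w hwD
    rw [h2, sub_zero] at h3
    exact h3
  obtain ⟨v, _, hv⟩ := h.toCoc.prin ⊤ key
  exact ⟨v, hv⟩

end

end Pool.Agent.MP_d14a53_gt_FT
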