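import Mathlib
import Pool.Agent.Lib.MP_d14a53_gt_FT.Rep
import Pool.Agent.Lib.MP_d14a53_gt_FT.Pwf

/-!
# MP_d14a53_gt FT module Main2

The theorem for a family of normal subgroups.
-/

set_option autoImplicit false

noncomputable section

namespace Pool.Agent.MP_d14a53_gt_FT

open Pool.Agent.MP_d14a53_gt_PW

open scoped RealInnerProductSpace

/-- `K` has the Putman-Wieland property if every function on `π ⧸ K` is a linear combination of
functions each of which is invariant under a normal subgroup `M` with `HasCurve`. -/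
theorem main2 {π : Type} [Group π] {p : ℕ} (g : ℕ) (c : Fin p → π) (K : Subgroup π)
    (hK : K.FiniteIndex) (S : Set (Subgroup π)) (hS : ∀ M ∈ S, M.Normal ∧ HasCurve g c M)
    (hspan : Submodule.span ℝ {w : π ⧸ K → ℝ | ∃ M ∈ S, ∀ m ∈ M, ∀ q : π ⧸ K,
      w (m • q) = w q} = ⊤) : PW c K := by
  have : Finite (π ⧸ K) := Subgroup.finite_quotient_of_finiteIndex
  have : Fintype (π ⧸ K) := Fintype.ofFinite _
  refine pw_of_prinF c K (fun ρ F hact h => rep h S hS (fun u hu => ?_))
  have h1 : ∀ w : π ⧸ K → ℝ, w ∈ Submodule.span ℝ {w : π ⧸ K → ℝ | ∃ M ∈ S, ∀ m ∈ M,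
      ∀ q : π ⧸ K, w (m • q) = w q} → ∑ q, u q * w q = 0 := by
    intro w hw
    induction hw using Submodule.span_induction with
    | mem w hw =>
      obtain ⟨M, hM, hw⟩ := hw
      have h2 := hu M hM (WithLp.toLp 2 w) (fun m hm => by
        ext q
        rw [hact]
        have h3 := hw m hm (m⁻¹ • q)
        rw [smul_inv_smul] at h3
        exact h3.symm)
      rw [PiLp.inner_apply] at h2
      rw [← h2]
      refine Finset.sum_congr rfl (fun q _ => ?_)
      simp [mul_comm]
    | zero => simp
    | add x y _ _ hx hy => simp only [Pi.add_apply, mul_add, Finset.sum_add_distrib, hx, hy,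
        add_zero]
    | smul r x _ hx =>
      have h4 : ∑ q, u q * (r • x) q = r * ∑ q, u q * x q := by
        rw [Finset.mul_sum]
        refine Finset.sum_congr rfl (fun q _ => ?_)
        rw [Pi.smul_apply, smul_eq_mul]
        ring
      rw [h4, hx, mul_zero]
  rw [hspan] at h1
  have h5 := h1 (fun q => u q) Submodule.mem_top
  ext q
  have h6 : u q * u q = 0 :=
    (Finset.sum_eq_zero_iff_of_nonneg (fun q _ => mul_self_nonneg (u q))).1 h5 q
      (Finset.mem_univ q)
  exact mul_self_eq_zero.1 h6

end Pool.Agent.MP_d14a53_gt_FT
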